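import Pool.Agent.TH327.Dim.Gl
import Pool.Agent.TH823.MRS.Fun

/-! # The Moebius and the Liouville function, and all bounded multiplicative functions -/

set_option autoImplicit false

namespace Pool.Agent.TH327.Dim

open Finset Filter Topology MeasureTheory
open Pool.Agent.TH823.MRS (ExpoSmall expo_mob expo_lam)

/-- the Moebius function with complex values -/
noncomputable def muf (n : ℕ) : ℂ := ((ArithmeticFunction.moebius n : ℤ) : ℂ)

/-- the Liouville function with complex values -/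
noncomputable def laf (n : ℕ) : ℂ := (-1) ^ ArithmeticFunction.cardFactors n

lemma muf_le (n : ℕ) : ‖muf n‖ ≤ 1 := by
  unfold muf
  rw [Complex.norm_intCast]
  exact_mod_cast ArithmeticFunction.abs_moebius_le_one

lemma laf_le (n : ℕ) : ‖laf n‖ ≤ 1 := by
  unfold laf
  rw [norm_pow, norm_neg, norm_one, one_pow]

lemma muf_mul (p m : ℕ) (hp : p.Prime) (hm : ¬ p ∣ m) : muf (p * m) = muf p * muf m := by
  unfold muf
  rw [ArithmeticFunction.isMultiplicative_moebius.map_mul_of_coprime ((Nat.Prime.coprime_iff_not_dvd hp).2 hm)]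
  push_cast
  ring

lemma laf_mul (p m : ℕ) (hp : p.Prime) (hm : ¬ p ∣ m) : laf (p * m) = laf p * laf m := by
  unfold laf
  have h0 : m ≠ 0 := by rintro rfl; exact hm (dvd_zero _)
  rw [ArithmeticFunction.cardFactors_mul hp.ne_zero h0, pow_add]

lemma muf_E : ExpoSmall muf := by
  intro ε hε A hA
  exact expo_mob ε hε A hA

lemma laf_E : ExpoSmall laf := by
  intro ε hε A hA
  obtain ⟨H₀, X₀, h⟩ := expo_lam ε hε A hA
  refine ⟨H₀, X₀, fun X hX H hH hHX T h1 h2 h3 α => ?_⟩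
  have := h X hX H hH hHX T h1 h2 h3 α
  refine le_trans (le_of_eq ?_) this
  congr 1
  refine sum_congr rfl fun n _ => ?_
  congr 2
  unfold laf Pool.Agent.H376R2.MR.lam
  push_cast
  rfl

theorem good_mob {C s : ℝ} (hC : 0 ≤ C) (hs0 : 0 ≤ s) (hs : s < 1 / 2) : Good {K | Cov K C s} {muf} := by
  intro ε hε
  obtain ⟨ρ, hρ, N0, h⟩ := main1 hC hs0 hs muf muf_le muf_mul muf_E ε hε
  refine ⟨ρ, hρ, N0, fun K hK f hf N hN => ?_⟩
  rw [Set.mem_singleton_iff] at hf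
  subst hf
  exact h K hK N hN

theorem good_lam {C s : ℝ} (hC : 0 ≤ C) (hs0 : 0 ≤ s) (hs : s < 1 / 2) : Good {K | Cov K C s} {laf} := by
  intro ε hε
  obtain ⟨ρ, hρ, N0, h⟩ := main1 hC hs0 hs laf laf_le laf_mul laf_E ε hε
  refine ⟨ρ, hρ, N0, fun K hK f hf N hN => ?_⟩
  rw [Set.mem_singleton_iff] at hf
  subst hf
  exact h K hK N hN

/-- multiplicative functions bounded by one -/
def Mul1 : Set (ℕ → ℂ) := {f | (∀ n, ‖f n‖ ≤ 1) ∧ ∀ a b : ℕ, 1 ≤ a → 1 ≤ b → Nat.Coprime a b → f (a * b) = f a * f b}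

/-- sets with given covering numbers and given distances from the rationals -/
def Away (C s : ℝ) (κ : ℕ → ℝ) : Set (Set UnitAddCircle) := {K | Cov K C s ∧
  ∀ x ∈ K, ∀ r : ℕ, 1 ≤ r → ∀ b : ℤ, κ r ≤ ‖x - (((b : ℝ) / r : ℝ) : UnitAddCircle)‖}

theorem good_mult {C s : ℝ} (hC : 0 ≤ C) (hs0 : 0 ≤ s) (hs : s < 1 / 2) (κ : ℕ → ℝ) (hκ : ∀ r, 0 < κ r) :
    Good (Away C s κ) Mul1 := by
  intro ε hε
  obtain ⟨R0, hR0, hgen⟩ := gen hC hs0 hs ε hε
  obtain ⟨κ0, hκ0, hκ1⟩ : ∃ κ0 : ℝ, 0 < κ0 ∧ ∀ r < R0, 2 * κ0 ≤ κ r := by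
    have hne : (range R0).Nonempty := ⟨0, by rw [mem_range]; omega⟩
    obtain ⟨r0, hr0, hmin⟩ := exists_min_image (range R0) κ hne
    refine ⟨κ r0 / 2, by have := hκ r0; positivity, fun r hr => ?_⟩
    have := hmin r (by rw [mem_range]; exact hr)
    linarith
  obtain ⟨ρ', hρ', X0, hg⟩ := hgen κ0 hκ0
  refine ⟨min ρ' κ0, lt_min hρ' hκ0, X0, fun K hK f hf N hN => ?_⟩
  have h1 := hg K hK.1 f hf.1 (fun p m hp hpm => by
    have hm : m ≠ 0 := by rintro rfl; exact hpm (dvd_zero _)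
    exact hf.2 p m hp.one_lt.le (by omega) ((Nat.Prime.coprime_iff_not_dvd hp).2 hpm)) N hN
  refine le_trans ?_ h1
  have hc : Continuous (fun θ => ‖SS f N θ‖ ^ 2) := (SS_cont f N).norm.pow 2
  apply intervalIntegral.integral_mono_on zero_le_one (ind_int (Nb_open K _).measurableSet hc 0 1)
    (ind_int (EE_meas K ρ' R0 κ0) hc 0 1)
  intro θ _
  apply mul_le_mul_of_nonneg_right _ (by positivity)
  apply Set.indicator_le_indicator_of_subset
  · rintro θ ⟨x, hx, hθ⟩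
    refine ⟨⟨x, hx, lt_of_lt_of_le hθ (min_le_left _ _)⟩, fun r hr hrR b => ?_⟩
    have a1 := hK.2 x hx r hr b
    have a2 := hκ1 r hrR
    have a3 : ‖((θ : ℝ) : UnitAddCircle) - x‖ < κ0 := lt_of_lt_of_le hθ (min_le_right _ _)
    have a4 : ‖((θ : ℝ) : UnitAddCircle) - (((b : ℝ) / r : ℝ) : UnitAddCircle)‖ ≤ |θ - b / r| := by
      rw [← AddCircle.coe_sub]
      have := norm_coe_le (θ - b / r) 0
      rwa [Int.cast_zero, sub_zero] at this
    have a5 : ‖x - (((b : ℝ) / r : ℝ) : UnitAddCircle)‖ ≤ ‖((θ : ℝ) : UnitAddCircle) - x‖ +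
        ‖((θ : ℝ) : UnitAddCircle) - (((b : ℝ) / r : ℝ) : UnitAddCircle)‖ := by
      have : x - (((b : ℝ) / r : ℝ) : UnitAddCircle) = (((θ : ℝ) : UnitAddCircle) - (((b : ℝ) / r : ℝ) : UnitAddCircle)) -
          (((θ : ℝ) : UnitAddCircle) - x) := by abel
      rw [this, add_comm]
      exact norm_sub_le _ _
    linarith
  · intro _; exact zero_le_one

/-- a closed set without rational points keeps a positive distance from each rational point -/
lemma away_of_closed {K : Set UnitAddCircle} (hc : IsClosed K)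
    (hr : ∀ r : ℕ, 1 ≤ r → ∀ b : ℤ, (((b : ℝ) / r : ℝ) : UnitAddCircle) ∉ K) :
    ∃ κ : ℕ → ℝ, (∀ r, 0 < κ r) ∧ ∀ x ∈ K, ∀ r : ℕ, 1 ≤ r → ∀ b : ℤ, κ r ≤ ‖x - (((b : ℝ) / r : ℝ) : UnitAddCircle)‖ := by
  have h1 : ∀ r : ℕ, ∃ κ : ℝ, 0 < κ ∧ ∀ x ∈ K, 1 ≤ r → ∀ b : ℤ, κ ≤ ‖x - (((b : ℝ) / r : ℝ) : UnitAddCircle)‖ := by
    intro r
    rcases Nat.eq_zero_or_pos r with h0 | h0
    · exact ⟨1, one_pos, fun _ _ h => by omega⟩
    have h2 : ∀ c : ℕ, ∃ κ : ℝ, 0 < κ ∧ ∀ x ∈ K, κ ≤ ‖x - (((c : ℝ) / r : ℝ) : UnitAddCircle)‖ := by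
      intro c
      have h3 := hr r h0 c
      rw [Int.cast_natCast] at h3
      have h4 : Kᶜ ∈ 𝓝 ((((c : ℝ) / r : ℝ)) : UnitAddCircle) := hc.isOpen_compl.mem_nhds h3
      obtain ⟨δ, hδ, hb⟩ := Metric.mem_nhds_iff.1 h4
      refine ⟨δ, hδ, fun x hx => ?_⟩
      by_contra hlt
      push Not at hlt
      have : x ∈ Metric.ball ((((c : ℝ) / r : ℝ)) : UnitAddCircle) δ := by
        rw [Metric.mem_ball, dist_eq_norm]
        exact hlt
      exact hb this hx
    choose κ hκ hκ2 using h2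
    obtain ⟨c0, hc0, hmin⟩ := exists_min_image (range r) κ ⟨0, by rw [mem_range]; omega⟩
    refine ⟨κ c0, hκ c0, fun x hx _ b => ?_⟩
    have hrz : (0 : ℤ) < r := by exact_mod_cast h0
    obtain ⟨c, hcc⟩ : ∃ c : ℕ, (c : ℤ) = b % r := ⟨(b % r).toNat, by rw [Int.toNat_of_nonneg (Int.emod_nonneg _ hrz.ne')]⟩
    have hclt : c < r := by
      have := Int.emod_lt_of_pos b hrz
      omega
    have e : (((b : ℝ) / r : ℝ) : UnitAddCircle) = (((c : ℝ) / r : ℝ) : UnitAddCircle) := by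
      have h5 : (b : ℝ) / r = (c : ℝ) / r + ((b / r : ℤ) : ℝ) := by
        have h6 : (b : ℝ) = (c : ℝ) + r * ((b / r : ℤ) : ℝ) := by
          have h7 := Int.emod_add_mul_ediv b r
          rw [← hcc] at h7
          exact_mod_cast h7.symm
        rw [h6]
        have : (r : ℝ) ≠ 0 := by positivity
        field_simp
      rw [h5, AddCircle.coe_add]
      have h9 : (((b / r : ℤ) : ℝ) : UnitAddCircle) = 0 := by
        rw [AddCircle.coe_eq_zero_iff]
        exact ⟨b / r, by simp⟩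
      rw [h9, add_zero]
    rw [e]
    exact (hmin c (by rw [mem_range]; exact hclt)).trans (hκ2 c x hx)
  choose κ h2 h3 using h1
  exact ⟨κ, h2, fun x hx r hr b => h3 r x hx hr b⟩

end Pool.Agent.TH327.Dim
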