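import Pool.Agent.TH327.Dim.Win2

/-! # From sequences with small spectrum to closed spaces of observables; full sums; logarithmic averages -/

set_option autoImplicit false

namespace Pool.Agent.TH327.Dim

open Finset Filter Topology

/-- from windows to full sums -/
lemma full_of_win (u : ℕ → ℂ) (B : ℝ) (hu : ∀ n, 1 ≤ n → ‖u n‖ ≤ B) (ε : ℝ) (H M : ℕ) (hH : 1 ≤ H)
    (hw : ∑ x ∈ range M, ‖∑ n ∈ Ioc x (x + H), u n‖ ≤ ε * H * M) :
    ‖∑ n ∈ Icc 1 M, u n‖ ≤ ε * M + 2 * B * H := by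
  have hHr : (0 : ℝ) < H := by exact_mod_cast hH
  have hB : 0 ≤ B := le_trans (norm_nonneg _) (hu 1 le_rfl)
  have e1 : ∀ x ∈ range M, ∑ n ∈ Ioc x (x + H), u n = ∑ j ∈ Icc 1 H, u (x + j) := by
    intro x _
    have : Ioc x (x + H) = (Icc 1 H).image (fun j => x + j) := by
      ext n
      simp only [mem_Ioc, mem_image, mem_Icc]
      constructor
      · intro h; exact ⟨n - x, by omega, by omega⟩
      · rintro ⟨j, hj, rfl⟩; omega
    rw [this, sum_image fun a _ b _ hab => by omega]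
  have e2 : ∀ j ∈ Icc 1 H, ‖∑ x ∈ range M, u (x + j) - ∑ n ∈ Icc 1 M, u n‖ ≤ 2 * B * H := by
    intro j hj
    rw [mem_Icc] at hj
    have h1 : ∑ x ∈ range M, u (x + j) = ∑ n ∈ Ico j (M + j), u n := by
      have : Ico j (M + j) = (range M).image (fun x => x + j) := by
        ext n
        simp only [mem_Ico, mem_image, mem_range]
        constructor
        · intro h; exact ⟨n - j, by omega, by omega⟩
        · rintro ⟨x, hx, rfl⟩; omega
      rw [this, sum_image fun a _ b _ hab => by omega]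
    have h2 : ∑ n ∈ Ico 1 (M + j), u n = ∑ n ∈ Ico 1 j, u n + ∑ n ∈ Ico j (M + j), u n :=
      (sum_Ico_consecutive _ hj.1 (by omega)).symm
    have h3 : ∑ n ∈ Ico 1 (M + j), u n = ∑ n ∈ Ico 1 (M + 1), u n + ∑ n ∈ Ico (M + 1) (M + j), u n :=
      (sum_Ico_consecutive _ (by omega) (by omega)).symm
    have h4 : Icc 1 M = Ico 1 (M + 1) := by ext n; simp only [mem_Icc, mem_Ico]; omega
    have h5 : ∑ x ∈ range M, u (x + j) - ∑ n ∈ Icc 1 M, u n = ∑ n ∈ Ico (M + 1) (M + j), u n - ∑ n ∈ Ico 1 j, u n := by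
      rw [h1, h4]
      linear_combination h3 - h2
    rw [h5]
    have h6 : ‖∑ n ∈ Ico (M + 1) (M + j), u n‖ ≤ B * H := by
      refine (norm_sum_le _ _).trans ?_
      calc ∑ n ∈ Ico (M + 1) (M + j), ‖u n‖ ≤ ∑ _n ∈ Ico (M + 1) (M + j), B :=
            sum_le_sum fun n hn => hu n (by rw [mem_Ico] at hn; omega)
        _ ≤ B * H := by
            rw [sum_const, Nat.card_Ico, nsmul_eq_mul, mul_comm]
            apply mul_le_mul_of_nonneg_left _ hB
            exact_mod_cast (by omega : M + j - (M + 1) ≤ H)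
    have h7 : ‖∑ n ∈ Ico 1 j, u n‖ ≤ B * H := by
      refine (norm_sum_le _ _).trans ?_
      calc ∑ n ∈ Ico 1 j, ‖u n‖ ≤ ∑ _n ∈ Ico 1 j, B :=
            sum_le_sum fun n hn => hu n (by rw [mem_Ico] at hn; omega)
        _ ≤ B * H := by
            rw [sum_const, Nat.card_Ico, nsmul_eq_mul, mul_comm]
            apply mul_le_mul_of_nonneg_left _ hB
            exact_mod_cast (by omega : j - 1 ≤ H)
    refine (norm_sub_le _ _).trans ?_
    linarith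
  have e3 : ∑ x ∈ range M, ∑ n ∈ Ioc x (x + H), u n = ∑ j ∈ Icc 1 H, ∑ x ∈ range M, u (x + j) := by
    rw [sum_congr rfl e1, sum_comm]
  have e4 : (H : ℂ) * ∑ n ∈ Icc 1 M, u n = ∑ x ∈ range M, ∑ n ∈ Ioc x (x + H), u n -
      ∑ j ∈ Icc 1 H, (∑ x ∈ range M, u (x + j) - ∑ n ∈ Icc 1 M, u n) := by
    rw [e3, sum_sub_distrib, sum_const, Nat.card_Icc, nsmul_eq_mul]
    simp
  have e5 : (H : ℝ) * ‖∑ n ∈ Icc 1 M, u n‖ ≤ ε * H * M + H * (2 * B * H) := by
    calc (H : ℝ) * ‖∑ n ∈ Icc 1 M, u n‖ = ‖(H : ℂ) * ∑ n ∈ Icc 1 M, u n‖ := by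
          rw [norm_mul, Complex.norm_natCast]
      _ ≤ ‖∑ x ∈ range M, ∑ n ∈ Ioc x (x + H), u n‖ + ‖∑ j ∈ Icc 1 H, (∑ x ∈ range M, u (x + j) - ∑ n ∈ Icc 1 M, u n)‖ := by
          rw [e4]; exact norm_sub_le _ _
      _ ≤ ε * H * M + H * (2 * B * H) := by
          apply add_le_add ((norm_sum_le _ _).trans hw)
          refine (norm_sum_le _ _).trans ?_
          calc ∑ j ∈ Icc 1 H, ‖∑ x ∈ range M, u (x + j) - ∑ n ∈ Icc 1 M, u n‖ ≤ ∑ _j ∈ Icc 1 H, 2 * B * H := sum_le_sum e2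
            _ = H * (2 * B * H) := by rw [sum_const, Nat.card_Icc, nsmul_eq_mul]; simp
  have e6 : (H : ℝ) * ‖∑ n ∈ Icc 1 M, u n‖ ≤ H * (ε * M + 2 * B * H) := by linarith
  exact le_of_mul_le_mul_left e6 hHr

/-- logarithmic averages from averages -/
lemma log_of_ces (A : ℕ → ℝ) (c : ℝ) (hc : 0 ≤ c) (N : ℕ) (hS : ∀ t, 1 ≤ t → t ≤ N → ∑ x ∈ Icc 1 t, A x ≤ c * t) :
    ∑ x ∈ Icc 1 N, A x / x ≤ c * (2 + Real.log N) := by
  have key : ∀ M : ℕ, ∑ x ∈ Icc 1 M, A x / x = (∑ x ∈ Icc 1 M, A x) / (M + 1) +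
      ∑ x ∈ Icc 1 M, (∑ y ∈ Icc 1 x, A y) / (x * (x + 1)) := by
    intro M
    induction M with
    | zero => simp
    | succ M ih =>
      rw [sum_Icc_succ_top (by omega), sum_Icc_succ_top (f := fun x : ℕ => (∑ y ∈ Icc 1 x, A y) / ((x : ℝ) * (x + 1))) (by omega), ih]
      rw [sum_Icc_succ_top (f := A) (by omega)]
      push_cast
      field_simp
      ring
  rw [key N]
  rcases Nat.eq_zero_or_pos N with h0 | h0
  · subst h0
    simp
    positivity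
  have hN : (0 : ℝ) < N := by exact_mod_cast h0
  have h1 : (∑ x ∈ Icc 1 N, A x) / (N + 1) ≤ c := by
    rw [div_le_iff₀ (by positivity)]
    have := hS N h0 le_rfl
    nlinarith
  have h2 : ∑ x ∈ Icc 1 N, (∑ y ∈ Icc 1 x, A y) / ((x : ℝ) * (x + 1)) ≤ c * (1 + Real.log N) := by
    have h3 := harmonic_le_one_add_log N
    calc ∑ x ∈ Icc 1 N, (∑ y ∈ Icc 1 x, A y) / ((x : ℝ) * (x + 1)) ≤ ∑ x ∈ Icc 1 N, c * (1 / (x : ℝ)) := by
          refine sum_le_sum fun x hx => ?_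
          rw [mem_Icc] at hx
          have hx0 : (0 : ℝ) < x := by exact_mod_cast hx.1
          have := hS x hx.1 hx.2
          rw [div_le_iff₀ (by positivity)]
          have e : c * (1 / (x : ℝ)) * (x * (x + 1)) = c * x + c := by field_simp
          rw [e]
          linarith
      _ = c * ∑ x ∈ Icc 1 N, 1 / (x : ℝ) := by rw [mul_sum]
      _ ≤ c * (1 + Real.log N) := by
          apply mul_le_mul_of_nonneg_left _ hc
          refine le_trans (le_of_eq ?_) h3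
          rw [harmonic_eq_sum_Icc]
          push_cast
          exact sum_congr rfl fun x _ => one_div _
  linarith

variable {A : Type*} [NormedAddCommGroup A] [NormedSpace ℂ A] {Ω ι : Type*}

/-- the window property of an observable -/
def PW (F : Set (ℕ → ℂ)) (P : ι → Set Ω) (ev : Ω → ℕ → A →ₗ[ℂ] ℂ) (f : A) : Prop :=
  ∀ ε : ℝ, 0 < ε → ∃ H0 : ℕ, ∀ H : ℕ, H0 ≤ H → ∀ X : ℕ, H ≤ X → ∀ i, ∀ h ∈ F, ∀ ω : ℕ → Ω, (∀ x, ω x ∈ P i) →
    ∑ x ∈ range X, ‖∑ n ∈ Ioc x (x + H), h n * ev (ω x) n f‖ ≤ ε * H * X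

lemma PW_zero (F : Set (ℕ → ℂ)) (P : ι → Set Ω) (ev : Ω → ℕ → A →ₗ[ℂ] ℂ) : PW F P ev 0 := by
  intro ε hε
  refine ⟨0, fun H _ X _ i h _ ω _ => ?_⟩
  simp
  positivity

lemma PW_add {F : Set (ℕ → ℂ)} {P : ι → Set Ω} {ev : Ω → ℕ → A →ₗ[ℂ] ℂ} {f g : A} (hf : PW F P ev f)
    (hg : PW F P ev g) : PW F P ev (f + g) := by
  intro ε hε
  obtain ⟨H1, h1⟩ := hf (ε / 2) (by positivity)
  obtain ⟨H2, h2⟩ := hg (ε / 2) (by positivity)
  refine ⟨max H1 H2, fun H hH X hX i h hh ω hω => ?_⟩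
  have a1 := h1 H (le_trans (le_max_left _ _) hH) X hX i h hh ω hω
  have a2 := h2 H (le_trans (le_max_right _ _) hH) X hX i h hh ω hω
  calc ∑ x ∈ range X, ‖∑ n ∈ Ioc x (x + H), h n * ev (ω x) n (f + g)‖ ≤
      ∑ x ∈ range X, (‖∑ n ∈ Ioc x (x + H), h n * ev (ω x) n f‖ + ‖∑ n ∈ Ioc x (x + H), h n * ev (ω x) n g‖) := by
        refine sum_le_sum fun x _ => ?_
        have : ∑ n ∈ Ioc x (x + H), h n * ev (ω x) n (f + g) =
            ∑ n ∈ Ioc x (x + H), h n * ev (ω x) n f + ∑ n ∈ Ioc x (x + H), h n * ev (ω x) n g := by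
          rw [← sum_add_distrib]
          exact sum_congr rfl fun n _ => by rw [map_add]; ring
        rw [this]
        exact norm_add_le _ _
    _ ≤ ε / 2 * H * X + ε / 2 * H * X := by rw [sum_add_distrib]; linarith
    _ = ε * H * X := by ring

lemma PW_smul {F : Set (ℕ → ℂ)} {P : ι → Set Ω} {ev : Ω → ℕ → A →ₗ[ℂ] ℂ} {f : A} (hf : PW F P ev f) (c : ℂ) :
    PW F P ev (c • f) := by
  intro ε hε
  obtain ⟨H1, h1⟩ := hf (ε / (‖c‖ + 1)) (by positivity)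
  refine ⟨H1, fun H hH X hX i h hh ω hω => ?_⟩
  have a1 := h1 H hH X hX i h hh ω hω
  calc ∑ x ∈ range X, ‖∑ n ∈ Ioc x (x + H), h n * ev (ω x) n (c • f)‖ =
      ‖c‖ * ∑ x ∈ range X, ‖∑ n ∈ Ioc x (x + H), h n * ev (ω x) n f‖ := by
        rw [mul_sum]
        refine sum_congr rfl fun x _ => ?_
        rw [← norm_mul, mul_sum]
        congr 1
        exact sum_congr rfl fun n _ => by rw [map_smul, smul_eq_mul]; ring
    _ ≤ ‖c‖ * (ε / (‖c‖ + 1) * H * X) := mul_le_mul_of_nonneg_left a1 (norm_nonneg _)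
    _ = (‖c‖ / (‖c‖ + 1)) * (ε * H * X) := by field_simp
    _ ≤ 1 * (ε * H * X) := by
        apply mul_le_mul_of_nonneg_right _ (by positivity)
        rw [div_le_one (by positivity)]
        linarith
    _ = ε * H * X := one_mul _

lemma PW_lim {F : Set (ℕ → ℂ)} (hF : ∀ h ∈ F, ∀ n, ‖h n‖ ≤ 1) {P : ι → Set Ω} {ev : Ω → ℕ → A →ₗ[ℂ] ℂ}
    (hev : ∀ ω n f, ‖ev ω n f‖ ≤ ‖f‖) {f : A} (hf : ∀ ε : ℝ, 0 < ε → ∃ g, PW F P ev g ∧ ‖f - g‖ ≤ ε) :
    PW F P ev f := by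
  intro ε hε
  obtain ⟨g, hg, hfg⟩ := hf (ε / 2) (by positivity)
  obtain ⟨H1, h1⟩ := hg (ε / 2) (by positivity)
  refine ⟨H1, fun H hH X hX i h hh ω hω => ?_⟩
  have a1 := h1 H hH X hX i h hh ω hω
  calc ∑ x ∈ range X, ‖∑ n ∈ Ioc x (x + H), h n * ev (ω x) n f‖ ≤
      ∑ x ∈ range X, (‖∑ n ∈ Ioc x (x + H), h n * ev (ω x) n g‖ + ε / 2 * H) := by
        refine sum_le_sum fun x _ => ?_
        have : ∑ n ∈ Ioc x (x + H), h n * ev (ω x) n f =
            ∑ n ∈ Ioc x (x + H), h n * ev (ω x) n g + ∑ n ∈ Ioc x (x + H), h n * ev (ω x) n (f - g) := by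
          rw [← sum_add_distrib]
          exact sum_congr rfl fun n _ => by rw [map_sub]; ring
        rw [this]
        refine (norm_add_le _ _).trans (add_le_add le_rfl ?_)
        refine (norm_sum_le _ _).trans ?_
        calc ∑ n ∈ Ioc x (x + H), ‖h n * ev (ω x) n (f - g)‖ ≤ ∑ _n ∈ Ioc x (x + H), ε / 2 := by
              refine sum_le_sum fun n _ => ?_
              rw [norm_mul]
              exact (mul_le_of_le_one_left (norm_nonneg _) (hF h hh n)).trans ((hev _ _ _).trans hfg)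
          _ = ε / 2 * H := by rw [sum_const, Nat.card_Ioc, nsmul_eq_mul]; rw [Nat.add_sub_cancel_left]; ring
    _ = ∑ x ∈ range X, ‖∑ n ∈ Ioc x (x + H), h n * ev (ω x) n g‖ + X * (ε / 2 * H) := by
        rw [sum_add_distrib, sum_const, card_range, nsmul_eq_mul]
    _ ≤ ε / 2 * H * X + X * (ε / 2 * H) := by linarith
    _ = ε * H * X := by ring

/-- the window property passes to the closed linear span -/
theorem PW_span {F : Set (ℕ → ℂ)} (hF : ∀ h ∈ F, ∀ n, ‖h n‖ ≤ 1) {P : ι → Set Ω} {ev : Ω → ℕ → A →ₗ[ℂ] ℂ}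
    (hev : ∀ ω n f, ‖ev ω n f‖ ≤ ‖f‖) {D : Set A} (hD : ∀ g ∈ D, PW F P ev g) {f : A}
    (hf : f ∈ (Submodule.span ℂ D).topologicalClosure) : PW F P ev f := by
  apply PW_lim hF hev
  intro ε hε
  have h1 : f ∈ closure ((Submodule.span ℂ D : Submodule ℂ A) : Set A) := hf
  obtain ⟨g, hg, hd⟩ := Metric.mem_closure_iff.1 h1 ε hε
  refine ⟨g, ?_, by rw [← dist_eq_norm]; exact hd.le⟩
  refine Submodule.span_induction (p := fun g _ => PW F P ev g) (fun x hx => hD x hx) (PW_zero F P ev)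
    (fun x y _ _ hx hy => PW_add hx hy) (fun c x _ hx => PW_smul hx c) hg

/-- full sums -/
theorem PW_full {F : Set (ℕ → ℂ)} (hF : ∀ h ∈ F, ∀ n, ‖h n‖ ≤ 1) {P : ι → Set Ω} {ev : Ω → ℕ → A →ₗ[ℂ] ℂ}
    (hev : ∀ ω n f, ‖ev ω n f‖ ≤ ‖f‖) {f : A} (hf : PW F P ev f) (ε : ℝ) (hε : 0 < ε) :
    ∃ M0 : ℕ, ∀ M : ℕ, M0 ≤ M → ∀ i, ∀ h ∈ F, ∀ ω ∈ P i, ‖∑ n ∈ Icc 1 M, h n * ev ω n f‖ ≤ ε * M := by
  obtain ⟨H0, h0⟩ := hf (ε / 2) (by positivity)
  obtain ⟨H, hH⟩ : ∃ H, H = max H0 1 := ⟨_, rfl⟩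
  have hH0 : H0 ≤ H := by rw [hH]; exact le_max_left _ _
  have hH1 : 1 ≤ H := by rw [hH]; exact le_max_right _ _
  refine ⟨max H ⌈4 * ‖f‖ * H / ε⌉₊, fun M hM i h hh ω hω => ?_⟩
  have a1 := h0 H hH0 M (le_trans (le_max_left _ _) hM) i h hh (fun _ => ω) (fun _ => hω)
  have a2 := full_of_win (fun n => h n * ev ω n f) ‖f‖ (fun n _ => by
    rw [norm_mul]
    exact (mul_le_of_le_one_left (norm_nonneg _) (hF h hh n)).trans (hev _ _ _)) (ε / 2) H M hH1 a1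
  refine a2.trans ?_
  have h3 : 4 * ‖f‖ * H ≤ ε * M := by
    have : 4 * ‖f‖ * H / ε ≤ M := (Nat.le_ceil _).trans (by exact_mod_cast le_trans (le_max_right _ _) hM)
    rw [div_le_iff₀ hε] at this
    linarith
  linarith

/-- logarithmic averages, uniformly in `N ≥ H` -/
theorem PW_log {F : Set (ℕ → ℂ)} (hF : ∀ h ∈ F, ∀ n, ‖h n‖ ≤ 1) {P : ι → Set Ω} {ev : Ω → ℕ → A →ₗ[ℂ] ℂ}
    (hev : ∀ ω n f, ‖ev ω n f‖ ≤ ‖f‖) {f : A} (hf : PW F P ev f) (ε : ℝ) (hε : 0 < ε) :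
    ∃ H0 : ℕ, ∀ H : ℕ, H0 ≤ H → ∀ N : ℕ, H ≤ N → ∀ i, ∀ h ∈ F, ∀ ω : ℕ → Ω, (∀ x, ω x ∈ P i) →
      ∑ x ∈ Icc 1 N, ‖∑ n ∈ Ioc x (x + H), h n * ev (ω x) n f‖ / x ≤ ε * H * Real.log N := by
  obtain ⟨M0, hM0⟩ := PW_full hF hev hf (ε / 24) (by positivity)
  obtain ⟨H1, hH1⟩ := hf (ε / 12) (by positivity)
  refine ⟨max (max H1 3) (max M0 ⌈24 * M0 * ‖f‖ / ε⌉₊), fun H hH N hN i h hh ω hω => ?_⟩
  have b1 : H1 ≤ H := le_trans (le_trans (le_max_left _ _) (le_max_left _ _)) hH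
  have b2 : 3 ≤ H := le_trans (le_trans (le_max_right _ _) (le_max_left _ _)) hH
  have b3 : M0 ≤ H := le_trans (le_trans (le_max_left _ _) (le_max_right _ _)) hH
  have b4 : 24 * M0 * ‖f‖ ≤ ε * H := by
    have : 24 * M0 * ‖f‖ / ε ≤ H := (Nat.le_ceil _).trans (by
      exact_mod_cast le_trans (le_trans (le_max_right _ _) (le_max_right _ _)) hH)
    rw [div_le_iff₀ hε] at this
    linarith
  have hHr : (0 : ℝ) < H := by exact_mod_cast (by omega : 0 < H)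
  have hbd : ∀ ω' ∈ P i, ∀ m : ℕ, m ≤ 2 * H → ‖∑ n ∈ Icc 1 m, h n * ev ω' n f‖ ≤ ε / 24 * m + M0 * ‖f‖ := by
    intro ω' hω' m _
    by_cases hm : M0 ≤ m
    · have := hM0 m hm i h hh ω' hω'
      have : 0 ≤ (M0 : ℝ) * ‖f‖ := by positivity
      linarith
    · push Not at hm
      calc ‖∑ n ∈ Icc 1 m, h n * ev ω' n f‖ ≤ ∑ n ∈ Icc 1 m, ‖h n * ev ω' n f‖ := norm_sum_le _ _
        _ ≤ ∑ _n ∈ Icc 1 m, ‖f‖ := by
            refine sum_le_sum fun n _ => ?_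
            rw [norm_mul]
            exact (mul_le_of_le_one_left (norm_nonneg _) (hF h hh n)).trans (hev _ _ _)
        _ = m * ‖f‖ := by rw [sum_const, Nat.card_Icc, nsmul_eq_mul]; simp
        _ ≤ M0 * ‖f‖ := mul_le_mul_of_nonneg_right (by exact_mod_cast hm.le) (norm_nonneg _)
        _ ≤ ε / 24 * m + M0 * ‖f‖ := by
            have : 0 ≤ ε / 24 * (m : ℝ) := by positivity
            linarith
  have hsmall : ∀ x : ℕ, x ≤ H → ‖∑ n ∈ Ioc x (x + H), h n * ev (ω x) n f‖ ≤ ε / 3 * H := by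
    intro x hx
    have e1 : ∑ n ∈ Icc 1 (x + H), h n * ev (ω x) n f = ∑ n ∈ Icc 1 x, h n * ev (ω x) n f +
        ∑ n ∈ Ioc x (x + H), h n * ev (ω x) n f := by
      rw [← sum_union]
      · congr 1
        ext n; simp only [mem_Icc, mem_union, mem_Ioc]; omega
      · rw [Finset.disjoint_left]
        intro n hn hn'
        simp only [mem_Icc, mem_Ioc] at hn hn'
        omega
    have e2 : ∑ n ∈ Ioc x (x + H), h n * ev (ω x) n f = ∑ n ∈ Icc 1 (x + H), h n * ev (ω x) n f -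
        ∑ n ∈ Icc 1 x, h n * ev (ω x) n f := by rw [e1]; ring
    rw [e2]
    refine (norm_sub_le _ _).trans ?_
    have c1 := hbd (ω x) (hω x) (x + H) (by omega)
    have c2 := hbd (ω x) (hω x) x (by omega)
    have hxr : (x : ℝ) ≤ H := by exact_mod_cast hx
    push_cast at c1
    nlinarith
  have hces := log_of_ces (fun x => ‖∑ n ∈ Ioc x (x + H), h n * ev (ω x) n f‖) (ε / 3 * H) (by positivity) N (by
    intro t ht1 htN
    by_cases htH : t ≤ H
    · calc ∑ x ∈ Icc 1 t, ‖∑ n ∈ Ioc x (x + H), h n * ev (ω x) n f‖ ≤ ∑ _x ∈ Icc 1 t, ε / 3 * H :=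
            sum_le_sum fun x hx => hsmall x (by rw [mem_Icc] at hx; omega)
        _ = ε / 3 * H * t := by rw [sum_const, Nat.card_Icc, nsmul_eq_mul, mul_comm]; simp
    · push Not at htH
      have d1 := hH1 H b1 (t + 1) (by omega) i h hh ω hω
      have ht : (1 : ℝ) ≤ t := by exact_mod_cast ht1
      calc ∑ x ∈ Icc 1 t, ‖∑ n ∈ Ioc x (x + H), h n * ev (ω x) n f‖ ≤
          ∑ x ∈ range (t + 1), ‖∑ n ∈ Ioc x (x + H), h n * ev (ω x) n f‖ := by
            apply sum_le_sum_of_subset_of_nonneg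
            · intro x hx
              rw [mem_Icc] at hx
              rw [mem_range]; omega
            · intro x _ _; exact norm_nonneg _
        _ ≤ ε / 12 * H * ((t + 1 : ℕ) : ℝ) := d1
        _ ≤ ε / 3 * H * t := by
            push_cast
            have : 0 < ε * H := by positivity
            nlinarith)
  refine hces.trans ?_
  have hlog : 1 ≤ Real.log N := by
    have : (3 : ℝ) ≤ N := by exact_mod_cast b2.trans hN
    rw [Real.le_log_iff_exp_le (by linarith)]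
    linarith [Real.exp_one_lt_d9]
  have : 0 < ε * H := by positivity
  nlinarith

end Pool.Agent.TH327.Dim
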