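import Pool.Agent.TH327.Dim.Meas
import Pool.Agent.TH327.Dim.Gl

/-! # The limit measures vanish on countable unions of sets of small dimension -/

set_option autoImplicit false
set_option linter.unusedSectionVars false

namespace Pool.Agent.TH327.Dim

open Finset MeasureTheory Filter Topology
open Pool.Agent.TH327.Thin (norm_fourier_apply vol_univ integral_fourier)

section

variable {h g : ℕ → ℂ} {B : ℝ} {N : ℕ → ℕ} {σ : Measure UnitAddCircle} [IsFiniteMeasure σ] {w : UnitAddCircle → ℂ}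

/-- the limit functional -/
noncomputable def Lf (σ : Measure UnitAddCircle) (w : UnitAddCircle → ℂ) (f : C(UnitAddCircle, ℂ)) : ℂ :=
  ∫ η, f η * w η ∂σ

lemma Lf_int (hw : Integrable w σ) (f : C(UnitAddCircle, ℂ)) : Integrable (fun η => f η * w η) σ := by
  refine hw.bdd_mul (map_continuous f).aestronglyMeasurable (c := ‖f‖) ?_
  exact Filter.Eventually.of_forall fun η => f.norm_coe_le_norm η

lemma Lf_norm (hw : Integrable w σ) (f : C(UnitAddCircle, ℂ)) : ‖Lf σ w f‖ ≤ ‖f‖ * ∫ η, ‖w η‖ ∂σ := by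
  unfold Lf
  refine (norm_integral_le_integral_norm _).trans ?_
  rw [← integral_const_mul]
  apply integral_mono (Lf_int hw f).norm (hw.norm.const_mul _)
  intro η
  simp only
  rw [norm_mul]
  exact mul_le_mul_of_nonneg_right (f.norm_coe_le_norm η) (norm_nonneg _)

lemma Lf_add (hw : Integrable w σ) (f₁ f₂ : C(UnitAddCircle, ℂ)) : Lf σ w (f₁ + f₂) = Lf σ w f₁ + Lf σ w f₂ := by
  unfold Lf
  rw [← integral_add (Lf_int hw f₁) (Lf_int hw f₂)]
  congr 1
  funext η
  rw [ContinuousMap.add_apply]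
  ring

lemma Lf_smul (c : ℂ) (f : C(UnitAddCircle, ℂ)) : Lf σ w (c • f) = c * Lf σ w f := by
  unfold Lf
  rw [← integral_const_mul]
  congr 1
  funext η
  rw [ContinuousMap.smul_apply, smul_eq_mul]
  ring

/-- convergence for all continuous functions -/
lemma La_tendsto (h0 : h 0 = 0) (hh : ∀ n, ‖h n‖ ≤ 1) (hr : ∀ n, (starRingEnd ℂ) (h n) = h n)
    (hg : ∀ n, ‖g n‖ ≤ B) (hN : Tendsto N atTop atTop) (hw : Integrable w σ)
    (hc : ∀ k : ℤ, Tendsto (fun j => (1 / (N j : ℂ)) * ∑ n ∈ Icc 1 (N j), g n * h ((n : ℤ) + k).toNat) atTop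
      (𝓝 (∫ η, fourier k η * w η ∂σ))) (f : C(UnitAddCircle, ℂ)) :
    Tendsto (fun j => La h g (N j) f) atTop (𝓝 (Lf σ w f)) := by
  have hspan : ∀ f ∈ (Submodule.span ℂ (Set.range (fourier (T := 1))) : Submodule ℂ C(UnitAddCircle, ℂ)),
      Tendsto (fun j => La h g (N j) f) atTop (𝓝 (Lf σ w f)) := by
    intro f hf
    refine Submodule.span_induction (p := fun f _ => Tendsto (fun j => La h g (N j) f) atTop (𝓝 (Lf σ w f)))
      ?_ ?_ ?_ ?_ hf
    · rintro _ ⟨k, rfl⟩
      have h1 : Tendsto (fun j => (1 / (N j : ℝ)) * (B * |(k : ℝ)|)) atTop (𝓝 0) := by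
        have h2 : Tendsto (fun j => (1 / (N j : ℝ))) atTop (𝓝 0) :=
          tendsto_one_div_atTop_nhds_zero_nat.comp hN
        have h3 := h2.mul_const (B * |(k : ℝ)|)
        rwa [zero_mul] at h3
      have h4 : Tendsto (fun j => La h g (N j) (fourier k) - (1 / (N j : ℂ)) *
          ∑ n ∈ Icc 1 (N j), g n * h ((n : ℤ) + k).toNat) atTop (𝓝 0) :=
        squeeze_zero_norm (fun j => La_corr h g h0 hh hr B hg (N j) k) h1
      have h5 := h4.add (hc k)
      simp only [sub_add_cancel, zero_add] at h5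
      exact h5
    · have e1 : ∀ j, La h g (N j) 0 = 0 := by
        intro j
        unfold La
        simp
      have e2 : Lf σ w 0 = 0 := by
        unfold Lf
        simp
      simp only [e1, e2]
      exact tendsto_const_nhds
    · intro x y _ _ hx hy
      have := hx.add hy
      rw [← Lf_add hw] at this
      refine this.congr fun j => (La_add h g (N j) x y).symm
    · intro c x _ hx
      have := hx.const_mul c
      rw [← Lf_smul] at this
      exact this.congr fun j => (La_smul h g (N j) c x).symm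
  have hB : 0 ≤ B := (norm_nonneg _).trans (hg 0)
  rw [Metric.tendsto_atTop]
  intro ε hε
  obtain ⟨M, hM⟩ : ∃ M, M = (1 + B ^ 2) + ∫ η, ‖w η‖ ∂σ := ⟨_, rfl⟩
  have hI0 : 0 ≤ ∫ η, ‖w η‖ ∂σ := integral_nonneg fun η => norm_nonneg _
  have hM0 : 0 < M := by rw [hM]; positivity
  have hcl : f ∈ closure ((Submodule.span ℂ (Set.range (fourier (T := 1))) : Submodule ℂ C(UnitAddCircle, ℂ)) : Set _) := by
    have : (Submodule.span ℂ (Set.range (fourier (T := 1)))).topologicalClosure = ⊤ := span_fourier_closure_eq_top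
    have h2 : f ∈ (Submodule.span ℂ (Set.range (fourier (T := 1)))).topologicalClosure := by rw [this]; trivial
    exact h2
  obtain ⟨u, hu, hd⟩ := Metric.mem_closure_iff.1 hcl (ε / (2 * M)) (by positivity)
  rw [dist_eq_norm] at hd
  obtain ⟨j0, hj0⟩ := Metric.tendsto_atTop.1 (hspan u hu) (ε / 2) (by positivity)
  refine ⟨j0, fun j hj => ?_⟩
  have h1 := hj0 j hj
  rw [dist_eq_norm] at h1 ⊢
  have e1 : La h g (N j) f = La h g (N j) u + La h g (N j) (f - u) := by
    rw [← La_add]; congr 1; abel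
  have e2 : Lf σ w f = Lf σ w u + Lf σ w (f - u) := by
    rw [← Lf_add hw]; congr 1; abel
  have e3 : La h g (N j) f - Lf σ w f = (La h g (N j) u - Lf σ w u) + (La h g (N j) (f - u) - Lf σ w (f - u)) := by
    rw [e1, e2]; ring
  rw [e3]
  have h2 := La_bdd h g hh B hg (N j) (f - u)
  have h3 := Lf_norm hw (f - u)
  calc ‖(La h g (N j) u - Lf σ w u) + (La h g (N j) (f - u) - Lf σ w (f - u))‖ ≤
      ‖La h g (N j) u - Lf σ w u‖ + (‖La h g (N j) (f - u)‖ + ‖Lf σ w (f - u)‖) :=
        (norm_add_le _ _).trans (add_le_add le_rfl (norm_sub_le _ _))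
    _ ≤ ‖La h g (N j) u - Lf σ w u‖ + ‖f - u‖ * M := by rw [hM]; linarith
    _ < ε / 2 + ε / (2 * M) * M := add_lt_add h1 (mul_lt_mul_of_pos_right hd hM0)
    _ = ε := by field_simp; ring

/-- the integral of `w` over a closed set near which the exponential sums are small -/
theorem closed_null (h0 : h 0 = 0) (hh : ∀ n, ‖h n‖ ≤ 1) (hr : ∀ n, (starRingEnd ℂ) (h n) = h n)
    (hg : ∀ n, ‖g n‖ ≤ B) (hN : Tendsto N atTop atTop) (hw : Integrable w σ)
    (hc : ∀ k : ℤ, Tendsto (fun j => (1 / (N j : ℂ)) * ∑ n ∈ Icc 1 (N j), g n * h ((n : ℤ) + k).toNat) atTop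
      (𝓝 (∫ η, fourier k η * w η ∂σ))) {K : Set UnitAddCircle} (hK : IsClosed K) (hG : Good {K} {h}) :
    ∫ η in K, w η ∂σ = 0 := by
  rcases K.eq_empty_or_nonempty with he | hne
  · rw [he]; simp
  have hB : 0 ≤ B := (norm_nonneg _).trans (hg 0)
  -- the approximations
  obtain ⟨φ, hφ⟩ : ∃ φ : ℕ → C(UnitAddCircle, ℂ), ∀ m η, φ m η = ((max 0 (1 - (m + 1) * Metric.infDist η K) : ℝ) : ℂ) :=
    ⟨fun m => ⟨fun η => ((max 0 (1 - (m + 1) * Metric.infDist η K) : ℝ) : ℂ), by
      have := Metric.continuous_infDist_pt K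
      fun_prop⟩, fun m η => rfl⟩
  have hφ1 : ∀ m η, ‖φ m η‖ ≤ 1 := by
    intro m η
    rw [hφ, Complex.norm_real, Real.norm_eq_abs, abs_of_nonneg (le_max_left _ _)]
    apply max_le zero_le_one
    have : 0 ≤ ((m : ℝ) + 1) * Metric.infDist η K := mul_nonneg (by positivity) Metric.infDist_nonneg
    linarith
  have hlim : Tendsto (fun m => Lf σ w (φ m)) atTop (𝓝 (∫ η in K, w η ∂σ)) := by
    unfold Lf
    rw [← integral_indicator hK.measurableSet]
    apply tendsto_integral_of_dominated_convergence (fun η => ‖w η‖)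
    · intro m; exact (Lf_int hw (φ m)).aestronglyMeasurable
    · exact hw.norm
    · intro m
      refine Filter.Eventually.of_forall fun η => ?_
      rw [norm_mul]
      exact mul_le_of_le_one_left (norm_nonneg _) (hφ1 m η)
    · refine Filter.Eventually.of_forall fun η => ?_
      by_cases hη : η ∈ K
      · rw [Set.indicator_of_mem hη]
        have : ∀ m, φ m η * w η = w η := by
          intro m
          rw [hφ, Metric.infDist_zero_of_mem hη]
          simp
        simp only [this]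
        exact tendsto_const_nhds
      · rw [Set.indicator_of_notMem hη]
        have hpos : 0 < Metric.infDist η K := (hK.notMem_iff_infDist_pos hne).1 hη
        obtain ⟨m0, hm0⟩ := exists_nat_gt (1 / Metric.infDist η K)
        apply tendsto_const_nhds.congr'
        filter_upwards [eventually_ge_atTop m0] with m hm
        rw [hφ]
        have h1 : 1 ≤ ((m : ℝ) + 1) * Metric.infDist η K := by
          have h2 : (m0 : ℝ) ≤ m := by exact_mod_cast hm
          have h3 : 1 / Metric.infDist η K < (m : ℝ) + 1 := by linarith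
          rw [div_lt_iff₀ hpos] at h3
          linarith
        rw [max_eq_left (by linarith)]
        simp
  have hsmall : ∀ ε : ℝ, 0 < ε → ‖∫ η in K, w η ∂σ‖ ≤ ε := by
    intro ε hε
    obtain ⟨e, he0, he1⟩ : ∃ e : ℝ, 0 < e ∧ e / 2 * (1 + B ^ 2) ≤ ε := ⟨2 * ε / (1 + B ^ 2), by positivity, by
      apply le_of_eq; field_simp⟩
    obtain ⟨ρ, hρ, N0, hN0⟩ := hG (e ^ 2) (by positivity)
    obtain ⟨m0, hm0⟩ := exists_nat_gt (1 / ρ)
    apply le_of_tendsto hlim.norm
    filter_upwards [eventually_ge_atTop m0] with m hm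
    apply le_of_tendsto (La_tendsto h0 hh hr hg hN hw hc (φ m)).norm
    filter_upwards [hN.eventually_ge_atTop (max N0 1)] with j hj
    have hj0 : N0 ≤ N j := le_trans (le_max_left _ _) hj
    have hj1 : 1 ≤ N j := le_trans (le_max_right _ _) hj
    have hNp : (0 : ℝ) < N j := by exact_mod_cast hj1
    obtain ⟨D, hD⟩ : ∃ D : Set UnitAddCircle, D = {η | ∃ x ∈ K, ‖η - x‖ < ρ} := ⟨_, rfl⟩
    have hDo : IsOpen D := by
      have : D = ⋃ x ∈ K, {η : UnitAddCircle | ‖η - x‖ < ρ} := by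
        rw [hD]; ext θ; simp
      rw [this]
      exact isOpen_biUnion fun x _ => isOpen_lt (by fun_prop) continuous_const
    have e2 : ∫ θ in (0 : ℝ)..1, (Nb K ρ).indicator (fun _ => (1 : ℝ)) θ * ‖SS h (N j) θ‖ ^ 2 =
        ∫ η : UnitAddCircle, D.indicator (fun η => ‖SC h (N j) η‖ ^ 2) η := by
      have h2 := UnitAddCircle.intervalIntegral_preimage 0 (D.indicator (fun η => ‖SC h (N j) η‖ ^ 2))
      rw [zero_add] at h2
      rw [← h2]
      congr 1
      funext θ
      by_cases hθ : θ ∈ Nb K ρ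
      · rw [Set.indicator_of_mem hθ, one_mul, Set.indicator_of_mem (by rw [hD]; exact hθ), SC_coe]
      · rw [Set.indicator_of_notMem hθ, zero_mul, Set.indicator_of_notMem (by rw [hD]; exact hθ)]
    have h1 := La_le h g (N j) (φ m) D hDo.measurableSet (fun η hη => by
      rw [hφ]
      have h2 : ρ ≤ Metric.infDist η K := by
        by_contra hlt
        push Not at hlt
        obtain ⟨x, hx, hdx⟩ := (Metric.infDist_lt_iff hne).1 hlt
        apply hη
        rw [hD]
        exact ⟨x, hx, by rw [← dist_eq_norm]; exact hdx⟩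
      have h3 : 1 ≤ ((m : ℝ) + 1) * Metric.infDist η K := by
        have h4 : (m0 : ℝ) ≤ m := by exact_mod_cast hm
        have h5 : 1 / ρ < (m : ℝ) + 1 := by linarith
        rw [div_lt_iff₀ hρ] at h5
        have h6 : ((m : ℝ) + 1) * ρ ≤ ((m : ℝ) + 1) * Metric.infDist η K := mul_le_mul_of_nonneg_left h2 (by positivity)
        linarith
      rw [max_eq_left (by linarith)]
      simp) 1 (hφ1 m) (1 / e) (by positivity)
    refine h1.trans ?_
    rw [← e2, one_mul]
    have h5 := hN0 K rfl h rfl (N j) hj0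
    have h6 := SC_pars g B hg (N j)
    refine le_trans ?_ he1
    rw [one_div, inv_mul_le_iff₀ hNp]
    have h7 : (e⁻¹ / 2) * (∫ θ in (0 : ℝ)..1, (Nb K ρ).indicator (fun _ => (1 : ℝ)) θ * ‖SS h (N j) θ‖ ^ 2) ≤
        (e⁻¹ / 2) * (e ^ 2 * N j) := mul_le_mul_of_nonneg_left h5 (by positivity)
    have h8 : 1 / (2 * e⁻¹) * (∫ η : UnitAddCircle, ‖SC g (N j) η‖ ^ 2) ≤ 1 / (2 * e⁻¹) * (B ^ 2 * N j) :=
      mul_le_mul_of_nonneg_left h6 (by positivity)
    have h9 : (e⁻¹ / 2) * (e ^ 2 * N j) = e / 2 * N j := by field_simp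
    have h10 : 1 / (2 * e⁻¹) * (B ^ 2 * N j) = e / 2 * B ^ 2 * N j := by field_simp
    rw [h9] at h7
    rw [h10] at h8
    rw [one_div e] at *
    linarith
  by_contra hne0
  have hpos : 0 < ‖∫ η in K, w η ∂σ‖ := norm_pos_iff.2 hne0
  have := hsmall (‖∫ η in K, w η ∂σ‖ / 2) (by positivity)
  linarith

lemma Cov.closure {K : Set UnitAddCircle} {C s : ℝ} (hK : Cov K C s) : Cov (closure K) C s := by
  intro n hn
  obtain ⟨F, hF, hc⟩ := hK n hn
  refine ⟨F, hF, ?_⟩
  have h1 : IsClosed {x : UnitAddCircle | ∃ y ∈ F, ‖x - y‖ ≤ 1 / n} := by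
    have : {x : UnitAddCircle | ∃ y ∈ F, ‖x - y‖ ≤ 1 / n} = ⋃ y ∈ F, {x : UnitAddCircle | ‖x - y‖ ≤ 1 / n} := by
      ext x; simp
    rw [this]
    exact F.finite_toSet.isClosed_biUnion fun y _ => isClosed_le (by fun_prop) continuous_const
  exact fun x hx => closure_minimal hc h1 hx

lemma Cov.mono {K K' : Set UnitAddCircle} {C s : ℝ} (hK : Cov K C s) (h : K' ⊆ K) : Cov K' C s := by
  intro n hn
  obtain ⟨F, hF, hc⟩ := hK n hn
  exact ⟨F, hF, fun x hx => hc x (h hx)⟩

lemma Cov.enlarge {K : Set UnitAddCircle} {C s : ℝ} (hK : Cov K C s) : Cov K (max C 0) (max s 0) := by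
  intro n hn
  obtain ⟨S, hS, hcov⟩ := hK n hn
  refine ⟨S, hS.trans ?_, hcov⟩
  have hnr : (1 : ℝ) ≤ n := by exact_mod_cast hn
  calc C * (n : ℝ) ^ s ≤ max C 0 * (n : ℝ) ^ s := mul_le_mul_of_nonneg_right (le_max_left _ _) (by positivity)
    _ ≤ max C 0 * (n : ℝ) ^ (max s 0) := by
        apply mul_le_mul_of_nonneg_left _ (le_max_right _ _)
        exact Real.rpow_le_rpow_of_exponent_le hnr (le_max_left _ _)

/-- the density vanishes almost everywhere on countable unions of small sets -/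
theorem small_null (h0 : h 0 = 0) (hh : ∀ n, ‖h n‖ ≤ 1) (hr : ∀ n, (starRingEnd ℂ) (h n) = h n)
    (hg : ∀ n, ‖g n‖ ≤ B) (hN : Tendsto N atTop atTop) (hw : Integrable w σ)
    (hc : ∀ k : ℤ, Tendsto (fun j => (1 / (N j : ℂ)) * ∑ n ∈ Icc 1 (N j), g n * h ((n : ℤ) + k).toNat) atTop
      (𝓝 (∫ η, fourier k η * w η ∂σ)))
    (hG : ∀ C s : ℝ, 0 ≤ C → 0 ≤ s → s < 1 / 2 → Good {K | Cov K C s} {h}) {A : Set UnitAddCircle} {K : ℕ → Set UnitAddCircle}
    (hA : A ⊆ ⋃ i, K i) (hK : ∀ i, ∃ C s : ℝ, s < 1 / 2 ∧ Cov (K i) C s) :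
    ∀ᵐ η ∂σ, η ∈ A → w η = 0 := by
  have key : ∀ i, ∀ᵐ η ∂σ, η ∈ closure (K i) → w η = 0 := by
    intro i
    obtain ⟨C, s, hs, hC⟩ := hK i
    have hC' := (Cov.closure hC).enlarge
    have hGi := hG (max C 0) (max s 0) (le_max_right _ _) (le_max_right _ _) (max_lt hs (by norm_num))
    rw [← ae_restrict_iff' (isClosed_closure.measurableSet)]
    have h1 : w =ᵐ[σ.restrict (closure (K i))] 0 := by
      apply ae_eq_zero_of_forall_setIntegral_isClosed_eq_zero (hw.mono_measure Measure.restrict_le_self)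
      intro S hS
      rw [Measure.restrict_restrict hS.measurableSet]
      apply closed_null h0 hh hr hg hN hw hc (hS.inter isClosed_closure)
      intro ε hε
      obtain ⟨ρ, hρ, N0, hN0⟩ := hGi ε hε
      refine ⟨ρ, hρ, N0, fun K' hK' h' hh' M hM => ?_⟩
      rw [Set.mem_singleton_iff] at hK'
      subst hK'
      exact hN0 _ (hC'.mono Set.inter_subset_right) h' hh' M hM
    exact h1
  have h2 := ae_all_iff.2 key
  filter_upwards [h2] with η hη hηA
  obtain ⟨i, hi⟩ := Set.mem_iUnion.1 (hA hηA)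
  exact hη i (subset_closure hi)

end

end Pool.Agent.TH327.Dim
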