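import Pool.Agent.TH327.Dim.Meas2
import Pool.Agent.TH327.Dim.Inst

/-! # The limit measures for functions which may vary along the sequence -/

set_option autoImplicit false
set_option linter.unusedSectionVars false

namespace Pool.Agent.TH327.Dim

open Finset MeasureTheory Filter Topology
open Pool.Agent.TH327.Thin (norm_fourier_apply vol_univ integral_fourier)

/-- the correlation sum, with all values -/
lemma La_corrU (h g : ℕ → ℂ) (h0 : h 0 = 0) (hh : ∀ n, ‖h n‖ ≤ 1) (B : ℝ)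
    (hg : ∀ n, ‖g n‖ ≤ B) (N : ℕ) (k : ℤ) :
    ‖La h g N (fourier k) - (1 / (N : ℂ)) * ∑ n ∈ Icc 1 N, g n * (starRingEnd ℂ) (h ((n : ℤ) + k).toNat)‖ ≤ (1 / (N : ℝ)) * (B * |(k : ℝ)|) := by
  have hB : 0 ≤ B := (norm_nonneg _).trans (hg 0)
  rw [La_fourier, ← mul_sub, norm_mul, norm_div, norm_one, Complex.norm_natCast]
  apply mul_le_mul_of_nonneg_left _ (by positivity)
  rw [← sum_sub_distrib]
  have e : ∀ n ∈ Icc 1 N, (∑ m ∈ Icc 1 N, if k + n - m = 0 then g n * (starRingEnd ℂ) (h m) else 0) -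
      g n * (starRingEnd ℂ) (h ((n : ℤ) + k).toNat) = if (N : ℤ) < n + k then -(g n * (starRingEnd ℂ) (h ((n : ℤ) + k).toNat)) else 0 := by
    intro n hn
    rw [mem_Icc] at hn
    by_cases h1 : (N : ℤ) < n + k
    · rw [if_pos h1]
      rw [sum_eq_zero, zero_sub]
      intro m hm
      rw [mem_Icc] at hm
      rw [if_neg]
      omega
    · rw [if_neg h1]
      by_cases h2 : 1 ≤ (n : ℤ) + k
      · rw [sum_eq_single ((n : ℤ) + k).toNat]
        · rw [if_pos (by omega), sub_self]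
        · intro m _ hne
          rw [if_neg (by omega)]
        · intro hm
          exfalso
          apply hm
          rw [mem_Icc]
          omega
      · have h3 : ((n : ℤ) + k).toNat = 0 := by omega
        rw [h3, h0, map_zero, mul_zero, sub_zero]
        refine sum_eq_zero fun m hm => ?_
        rw [mem_Icc] at hm
        rw [if_neg (by omega)]
  rw [sum_congr rfl e, ← sum_filter]
  refine (norm_sum_le _ _).trans ?_
  calc ∑ n ∈ (Icc 1 N).filter (fun n : ℕ => (N : ℤ) < n + k), ‖-(g n * (starRingEnd ℂ) (h ((n : ℤ) + k).toNat))‖ ≤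
      ∑ _n ∈ (Icc 1 N).filter (fun n : ℕ => (N : ℤ) < n + k), B := by
        refine sum_le_sum fun n _ => ?_
        rw [norm_neg, norm_mul, RCLike.norm_conj]
        calc ‖g n‖ * ‖h ((n : ℤ) + k).toNat‖ ≤ B * 1 := mul_le_mul (hg n) (hh _) (norm_nonneg _) hB
          _ = B := mul_one B
    _ = (((Icc 1 N).filter (fun n : ℕ => (N : ℤ) < n + k)).card : ℝ) * B := by rw [sum_const, nsmul_eq_mul]
    _ ≤ |(k : ℝ)| * B := by
        apply mul_le_mul_of_nonneg_right _ hB
        have hcard : ((Icc 1 N).filter (fun n : ℕ => (N : ℤ) < n + k)).card ≤ k.natAbs := by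
          calc ((Icc 1 N).filter (fun n : ℕ => (N : ℤ) < n + k)).card ≤ (Ioc (N - k.natAbs) N).card := by
                apply card_le_card
                intro n hn
                rw [mem_filter, mem_Icc] at hn
                rw [mem_Ioc]
                omega
            _ ≤ k.natAbs := by rw [Nat.card_Ioc]; omega
        have : ((k.natAbs : ℕ) : ℝ) = |(k : ℝ)| := by
          rw [← Int.cast_abs, Int.abs_eq_natAbs, Int.cast_natCast]
        rw [← this]
        exact_mod_cast hcard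
    _ = B * |(k : ℝ)| := mul_comm _ _


section

variable {h g : ℕ → ℕ → ℂ} {B : ℝ} {N : ℕ → ℕ} {σ : Measure UnitAddCircle} [IsFiniteMeasure σ] {w : UnitAddCircle → ℂ}

/-- convergence for all continuous functions -/
lemma La_tendstoU (h0 : ∀ j, h j 0 = 0) (hh : ∀ j n, ‖h j n‖ ≤ 1)
    (hg : ∀ j n, ‖g j n‖ ≤ B) (hN : Tendsto N atTop atTop) (hw : Integrable w σ)
    (hc : ∀ k : ℤ, Tendsto (fun j => (1 / (N j : ℂ)) * ∑ n ∈ Icc 1 (N j), g j n * (starRingEnd ℂ) (h j ((n : ℤ) + k).toNat)) atTop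
      (𝓝 (∫ η, fourier k η * w η ∂σ))) (f : C(UnitAddCircle, ℂ)) :
    Tendsto (fun j => La (h j) (g j) (N j) f) atTop (𝓝 (Lf σ w f)) := by
  have hspan : ∀ f ∈ (Submodule.span ℂ (Set.range (fourier (T := 1))) : Submodule ℂ C(UnitAddCircle, ℂ)),
      Tendsto (fun j => La (h j) (g j) (N j) f) atTop (𝓝 (Lf σ w f)) := by
    intro f hf
    refine Submodule.span_induction (p := fun f _ => Tendsto (fun j => La (h j) (g j) (N j) f) atTop (𝓝 (Lf σ w f)))
      ?_ ?_ ?_ ?_ hf
    · rintro _ ⟨k, rfl⟩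
      have h1 : Tendsto (fun j => (1 / (N j : ℝ)) * (B * |(k : ℝ)|)) atTop (𝓝 0) := by
        have h2 : Tendsto (fun j => (1 / (N j : ℝ))) atTop (𝓝 0) :=
          tendsto_one_div_atTop_nhds_zero_nat.comp hN
        have h3 := h2.mul_const (B * |(k : ℝ)|)
        rwa [zero_mul] at h3
      have h4 : Tendsto (fun j => La (h j) (g j) (N j) (fourier k) - (1 / (N j : ℂ)) *
          ∑ n ∈ Icc 1 (N j), g j n * (starRingEnd ℂ) (h j ((n : ℤ) + k).toNat)) atTop (𝓝 0) :=
        squeeze_zero_norm (fun j => La_corrU (h j) (g j) (h0 j) (hh j) B (hg j) (N j) k) h1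
      have h5 := h4.add (hc k)
      simp only [sub_add_cancel, zero_add] at h5
      exact h5
    · have e1 : ∀ j, La (h j) (g j) (N j) 0 = 0 := by
        intro j
        unfold La
        simp
      have e2 : Lf σ w 0 = 0 := by
        unfold Lf
        simp
      simp only [e1, e2]
      exact tendsto_const_nhds
    · intro x y _ _ hx hy
      have := hx.add hy
      rw [← Lf_add hw] at this
      refine this.congr fun j => (La_add (h j) (g j) (N j) x y).symm
    · intro c x _ hx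
      have := hx.const_mul c
      rw [← Lf_smul] at this
      exact this.congr fun j => (La_smul (h j) (g j) (N j) c x).symm
  have hB : 0 ≤ B := (norm_nonneg _).trans (hg 0 0)
  rw [Metric.tendsto_atTop]
  intro ε hε
  obtain ⟨M, hM⟩ : ∃ M, M = (1 + B ^ 2) + ∫ η, ‖w η‖ ∂σ := ⟨_, rfl⟩
  have hI0 : 0 ≤ ∫ η, ‖w η‖ ∂σ := integral_nonneg fun η => norm_nonneg _
  have hM0 : 0 < M := by rw [hM]; positivity
  have hcl : f ∈ closure ((Submodule.span ℂ (Set.range (fourier (T := 1))) : Submodule ℂ C(UnitAddCircle, ℂ)) : Set _) := by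
    have : (Submodule.span ℂ (Set.range (fourier (T := 1)))).topologicalClosure = ⊤ := span_fourier_closure_eq_top
    have h2 : f ∈ (Submodule.span ℂ (Set.range (fourier (T := 1)))).topologicalClosure := by rw [this]; trivial
    exact h2
  obtain ⟨u, hu, hd⟩ := Metric.mem_closure_iff.1 hcl (ε / (2 * M)) (by positivity)
  rw [dist_eq_norm] at hd
  obtain ⟨j0, hj0⟩ := Metric.tendsto_atTop.1 (hspan u hu) (ε / 2) (by positivity)
  refine ⟨j0, fun j hj => ?_⟩
  have h1 := hj0 j hj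
  rw [dist_eq_norm] at h1 ⊢
  have e1 : La (h j) (g j) (N j) f = La (h j) (g j) (N j) u + La (h j) (g j) (N j) (f - u) := by
    rw [← La_add]; congr 1; abel
  have e2 : Lf σ w f = Lf σ w u + Lf σ w (f - u) := by
    rw [← Lf_add hw]; congr 1; abel
  have e3 : La (h j) (g j) (N j) f - Lf σ w f = (La (h j) (g j) (N j) u - Lf σ w u) + (La (h j) (g j) (N j) (f - u) - Lf σ w (f - u)) := by
    rw [e1, e2]; ring
  rw [e3]
  have h2 := La_bdd (h j) (g j) (hh j) B (hg j) (N j) (f - u)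
  have h3 := Lf_norm hw (f - u)
  calc ‖(La (h j) (g j) (N j) u - Lf σ w u) + (La (h j) (g j) (N j) (f - u) - Lf σ w (f - u))‖ ≤
      ‖La (h j) (g j) (N j) u - Lf σ w u‖ + (‖La (h j) (g j) (N j) (f - u)‖ + ‖Lf σ w (f - u)‖) :=
        (norm_add_le _ _).trans (add_le_add le_rfl (norm_sub_le _ _))
    _ ≤ ‖La (h j) (g j) (N j) u - Lf σ w u‖ + ‖f - u‖ * M := by rw [hM]; linarith
    _ < ε / 2 + ε / (2 * M) * M := add_lt_add h1 (mul_lt_mul_of_pos_right hd hM0)
    _ = ε := by field_simp; ring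

/-- the integral of `w` over a closed set near which the exponential sums are small -/
theorem closed_nullU (h0 : ∀ j, h j 0 = 0) (hh : ∀ j n, ‖h j n‖ ≤ 1)
    (hg : ∀ j n, ‖g j n‖ ≤ B) (hN : Tendsto N atTop atTop) (hw : Integrable w σ)
    (hc : ∀ k : ℤ, Tendsto (fun j => (1 / (N j : ℂ)) * ∑ n ∈ Icc 1 (N j), g j n * (starRingEnd ℂ) (h j ((n : ℤ) + k).toNat)) atTop
      (𝓝 (∫ η, fourier k η * w η ∂σ))) {K : Set UnitAddCircle} (hK : IsClosed K) {F : Set (ℕ → ℂ)} (hhF : ∀ j, h j ∈ F) (hG : Good {K} F) :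
    ∫ η in K, w η ∂σ = 0 := by
  rcases K.eq_empty_or_nonempty with he | hne
  · rw [he]; simp
  have hB : 0 ≤ B := (norm_nonneg _).trans (hg 0 0)
  -- the approximations
  obtain ⟨φ, hφ⟩ : ∃ φ : ℕ → C(UnitAddCircle, ℂ), ∀ m η, φ m η = ((max 0 (1 - (m + 1) * Metric.infDist η K) : ℝ) : ℂ) :=
    ⟨fun m => ⟨fun η => ((max 0 (1 - (m + 1) * Metric.infDist η K) : ℝ) : ℂ), by
      have := Metric.continuous_infDist_pt K
      fun_prop⟩, fun m η => rfl⟩
  have hφ1 : ∀ m η, ‖φ m η‖ ≤ 1 := by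
    intro m η
    rw [hφ, Complex.norm_real, Real.norm_eq_abs, abs_of_nonneg (le_max_left _ _)]
    apply max_le zero_le_one
    have : 0 ≤ ((m : ℝ) + 1) * Metric.infDist η K := mul_nonneg (by positivity) Metric.infDist_nonneg
    linarith
  have hlim : Tendsto (fun m => Lf σ w (φ m)) atTop (𝓝 (∫ η in K, w η ∂σ)) := by
    unfold Lf
    rw [← integral_indicator hK.measurableSet]
    apply tendsto_integral_of_dominated_convergence (fun η => ‖w η‖)
    · intro m; exact (Lf_int hw (φ m)).aestronglyMeasurable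
    · exact hw.norm
    · intro m
      refine Filter.Eventually.of_forall fun η => ?_
      rw [norm_mul]
      exact mul_le_of_le_one_left (norm_nonneg _) (hφ1 m η)
    · refine Filter.Eventually.of_forall fun η => ?_
      by_cases hη : η ∈ K
      · rw [Set.indicator_of_mem hη]
        have : ∀ m, φ m η * w η = w η := by
          intro m
          rw [hφ, Metric.infDist_zero_of_mem hη]
          simp
        simp only [this]
        exact tendsto_const_nhds
      · rw [Set.indicator_of_notMem hη]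
        have hpos : 0 < Metric.infDist η K := (hK.notMem_iff_infDist_pos hne).1 hη
        obtain ⟨m0, hm0⟩ := exists_nat_gt (1 / Metric.infDist η K)
        apply tendsto_const_nhds.congr'
        filter_upwards [eventually_ge_atTop m0] with m hm
        rw [hφ]
        have h1 : 1 ≤ ((m : ℝ) + 1) * Metric.infDist η K := by
          have h2 : (m0 : ℝ) ≤ m := by exact_mod_cast hm
          have h3 : 1 / Metric.infDist η K < (m : ℝ) + 1 := by linarith
          rw [div_lt_iff₀ hpos] at h3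
          linarith
        rw [max_eq_left (by linarith)]
        simp
  have hsmall : ∀ ε : ℝ, 0 < ε → ‖∫ η in K, w η ∂σ‖ ≤ ε := by
    intro ε hε
    obtain ⟨e, he0, he1⟩ : ∃ e : ℝ, 0 < e ∧ e / 2 * (1 + B ^ 2) ≤ ε := ⟨2 * ε / (1 + B ^ 2), by positivity, by
      apply le_of_eq; field_simp⟩
    obtain ⟨ρ, hρ, N0, hN0⟩ := hG (e ^ 2) (by positivity)
    obtain ⟨m0, hm0⟩ := exists_nat_gt (1 / ρ)
    apply le_of_tendsto hlim.norm
    filter_upwards [eventually_ge_atTop m0] with m hm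
    apply le_of_tendsto (La_tendstoU h0 hh hg hN hw hc (φ m)).norm
    filter_upwards [hN.eventually_ge_atTop (max N0 1)] with j hj
    have hj0 : N0 ≤ N j := le_trans (le_max_left _ _) hj
    have hj1 : 1 ≤ N j := le_trans (le_max_right _ _) hj
    have hNp : (0 : ℝ) < N j := by exact_mod_cast hj1
    obtain ⟨D, hD⟩ : ∃ D : Set UnitAddCircle, D = {η | ∃ x ∈ K, ‖η - x‖ < ρ} := ⟨_, rfl⟩
    have hDo : IsOpen D := by
      have : D = ⋃ x ∈ K, {η : UnitAddCircle | ‖η - x‖ < ρ} := by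
        rw [hD]; ext θ; simp
      rw [this]
      exact isOpen_biUnion fun x _ => isOpen_lt (by fun_prop) continuous_const
    have e2 : ∫ θ in (0 : ℝ)..1, (Nb K ρ).indicator (fun _ => (1 : ℝ)) θ * ‖SS (h j) (N j) θ‖ ^ 2 =
        ∫ η : UnitAddCircle, D.indicator (fun η => ‖SC (h j) (N j) η‖ ^ 2) η := by
      have h2 := UnitAddCircle.intervalIntegral_preimage 0 (D.indicator (fun η => ‖SC (h j) (N j) η‖ ^ 2))
      rw [zero_add] at h2
      rw [← h2]
      congr 1
      funext θ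
      by_cases hθ : θ ∈ Nb K ρ
      · rw [Set.indicator_of_mem hθ, one_mul, Set.indicator_of_mem (by rw [hD]; exact hθ), SC_coe]
      · rw [Set.indicator_of_notMem hθ, zero_mul, Set.indicator_of_notMem (by rw [hD]; exact hθ)]
    have h1 := La_le (h j) (g j) (N j) (φ m) D hDo.measurableSet (fun η hη => by
      rw [hφ]
      have h2 : ρ ≤ Metric.infDist η K := by
        by_contra hlt
        push Not at hlt
        obtain ⟨x, hx, hdx⟩ := (Metric.infDist_lt_iff hne).1 hlt
        apply hη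
        rw [hD]
        exact ⟨x, hx, by rw [← dist_eq_norm]; exact hdx⟩
      have h3 : 1 ≤ ((m : ℝ) + 1) * Metric.infDist η K := by
        have h4 : (m0 : ℝ) ≤ m := by exact_mod_cast hm
        have h5 : 1 / ρ < (m : ℝ) + 1 := by linarith
        rw [div_lt_iff₀ hρ] at h5
        have h6 : ((m : ℝ) + 1) * ρ ≤ ((m : ℝ) + 1) * Metric.infDist η K := mul_le_mul_of_nonneg_left h2 (by positivity)
        linarith
      rw [max_eq_left (by linarith)]
      simp) 1 (hφ1 m) (1 / e) (by positivity)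
    refine h1.trans ?_
    rw [← e2, one_mul]
    have h5 := hN0 K rfl (h j) (hhF j) (N j) hj0
    have h6 := SC_pars (g j) B (hg j) (N j)
    refine le_trans ?_ he1
    rw [one_div, inv_mul_le_iff₀ hNp]
    have h7 : (e⁻¹ / 2) * (∫ θ in (0 : ℝ)..1, (Nb K ρ).indicator (fun _ => (1 : ℝ)) θ * ‖SS (h j) (N j) θ‖ ^ 2) ≤
        (e⁻¹ / 2) * (e ^ 2 * N j) := mul_le_mul_of_nonneg_left h5 (by positivity)
    have h8 : 1 / (2 * e⁻¹) * (∫ η : UnitAddCircle, ‖SC (g j) (N j) η‖ ^ 2) ≤ 1 / (2 * e⁻¹) * (B ^ 2 * N j) :=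
      mul_le_mul_of_nonneg_left h6 (by positivity)
    have h9 : (e⁻¹ / 2) * (e ^ 2 * N j) = e / 2 * N j := by field_simp
    have h10 : 1 / (2 * e⁻¹) * (B ^ 2 * N j) = e / 2 * B ^ 2 * N j := by field_simp
    rw [h9] at h7
    rw [h10] at h8
    rw [one_div e] at *
    linarith
  by_contra hne0
  have hpos : 0 < ‖∫ η in K, w η ∂σ‖ := norm_pos_iff.2 hne0
  have := hsmall (‖∫ η in K, w η ∂σ‖ / 2) (by positivity)
  linarith


/-- the density vanishes almost everywhere on the irrational part of countable unions of small sets -/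
theorem small_nullU (h0 : ∀ j, h j 0 = 0) (hh : ∀ j n, ‖h j n‖ ≤ 1)
    (hg : ∀ j n, ‖g j n‖ ≤ B) (hN : Tendsto N atTop atTop) (hw : Integrable w σ)
    (hc : ∀ k : ℤ, Tendsto (fun j => (1 / (N j : ℂ)) * ∑ n ∈ Icc 1 (N j), g j n * (starRingEnd ℂ) (h j ((n : ℤ) + k).toNat)) atTop
      (𝓝 (∫ η, fourier k η * w η ∂σ))) {F : Set (ℕ → ℂ)} (hhF : ∀ j, h j ∈ F)
    (hG : ∀ (C s : ℝ) (κ : ℕ → ℝ), 0 ≤ C → 0 ≤ s → s < 1 / 2 → (∀ r, 0 < κ r) → Good (Away C s κ) F)
    {K : ℕ → Set UnitAddCircle} (hK : ∀ i, ∃ C s : ℝ, s < 1 / 2 ∧ Cov (K i) C s) :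
    ∀ᵐ η ∂σ, η ∈ ⋃ i, K i → ¬ IsOfFinAddOrder η → w η = 0 := by
  have hmeas : MeasurableSet {η : UnitAddCircle | ¬ IsOfFinAddOrder η} := by
    have : {η : UnitAddCircle | ¬ IsOfFinAddOrder η} = (⋃ n : ℕ, {η : UnitAddCircle | (n + 1) • η = 0})ᶜ := by
      ext η
      simp only [Set.mem_ofPred_eq, Set.mem_compl_iff, Set.mem_iUnion, isOfFinAddOrder_iff_nsmul_eq_zero]
      constructor
      · rintro h1 ⟨n, hn⟩
        exact h1 ⟨n + 1, by omega, hn⟩
      · rintro h1 ⟨n, hn, hn2⟩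
        exact h1 ⟨n - 1, by rw [Nat.sub_add_cancel hn]; exact hn2⟩
    rw [this]
    refine MeasurableSet.compl (MeasurableSet.iUnion fun n => ?_)
    exact (isClosed_eq (by fun_prop) continuous_const).measurableSet
  -- closed sets without rational points
  have key0 : ∀ i, ∀ S : Set UnitAddCircle, IsClosed S → S ⊆ closure (K i) → (∀ η ∈ S, ¬ IsOfFinAddOrder η) →
      ∀ᵐ η ∂σ, η ∈ S → w η = 0 := by
    intro i S hS hSK hSr
    obtain ⟨C, s, hs, hC⟩ := hK i
    have hC' := ((Cov.closure hC).enlarge).mono hSK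
    obtain ⟨κ, hκ, hκ2⟩ := away_of_closed hS (by
      intro r hr b hb
      apply hSr _ hb
      rw [isOfFinAddOrder_iff_nsmul_eq_zero]
      refine ⟨r, hr, ?_⟩
      rw [← AddCircle.coe_nsmul, AddCircle.coe_eq_zero_iff]
      refine ⟨b, ?_⟩
      have : (r : ℝ) ≠ 0 := by positivity
      simp only [zsmul_eq_mul, mul_one, nsmul_eq_mul]
      field_simp)
    have hGi := hG (max C 0) (max s 0) κ (le_max_right _ _) (le_max_right _ _) (max_lt hs (by norm_num)) hκ
    rw [← ae_restrict_iff' hS.measurableSet]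
    have h1 : w =ᵐ[σ.restrict S] 0 := by
      apply ae_eq_zero_of_forall_setIntegral_isClosed_eq_zero (hw.mono_measure Measure.restrict_le_self)
      intro T hT
      rw [Measure.restrict_restrict hT.measurableSet]
      apply closed_nullU h0 hh hg hN hw hc (hT.inter hS) hhF
      intro ε hε
      obtain ⟨ρ, hρ, N0, hN0⟩ := hGi ε hε
      refine ⟨ρ, hρ, N0, fun K' hK' h' hh' M hM => ?_⟩
      rw [Set.mem_singleton_iff] at hK'
      subst hK'
      exact hN0 _ ⟨hC'.mono Set.inter_subset_right, fun x hx => hκ2 x hx.2⟩ h' hh' M hM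
    exact h1
  have key : ∀ i, ∀ᵐ η ∂σ, η ∈ closure (K i) ∩ {η : UnitAddCircle | ¬ IsOfFinAddOrder η} → w η = 0 := by
    intro i
    obtain ⟨E, hE⟩ : ∃ E, E = closure (K i) ∩ {η : UnitAddCircle | ¬ IsOfFinAddOrder η} := ⟨_, rfl⟩
    rw [← hE]
    have hEm : MeasurableSet E := by rw [hE]; exact isClosed_closure.measurableSet.inter hmeas
    have h2 : ∀ m : ℕ, ∃ S ⊆ E, IsClosed S ∧ σ (E \ S) < 1 / ((m : ENNReal) + 1) := fun m =>
      hEm.exists_isClosed_sdiff_lt (measure_ne_top σ E) (by simp)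
    choose S hS1 hS2 hS3 using h2
    have h3 : σ (E \ ⋃ m, S m) = 0 := by
      apply le_antisymm _ zero_le
      apply ENNReal.le_of_forall_pos_le_add
      intro ε hε _
      rw [zero_add]
      obtain ⟨m, hm⟩ := ENNReal.exists_inv_nat_lt (ENNReal.coe_ne_zero.2 hε.ne')
      calc σ (E \ ⋃ m, S m) ≤ σ (E \ S m) := measure_mono (Set.sdiff_subset_sdiff_right (Set.subset_iUnion S m))
        _ ≤ 1 / ((m : ENNReal) + 1) := (hS3 m).le
        _ ≤ (m : ENNReal)⁻¹ := by
            rw [one_div]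
            exact ENNReal.inv_le_inv.2 le_self_add
        _ ≤ ε := hm.le
    have h4 : ∀ᵐ η ∂σ, ¬ η ∈ E \ ⋃ m, S m := measure_eq_zero_iff_ae_notMem.1 h3
    have h5 := ae_all_iff.2 fun m => key0 i (S m) (hS2 m) (fun x hx => by have := hS1 m hx; rw [hE] at this; exact this.1)
      (fun x hx => by have := hS1 m hx; rw [hE] at this; exact this.2)
    filter_upwards [h4, h5] with η h6 h7 h8
    by_cases h9 : η ∈ ⋃ m, S m
    · obtain ⟨m, hm⟩ := Set.mem_iUnion.1 h9
      exact h7 m hm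
    · exact absurd ⟨h8, h9⟩ h6
  have h2 := ae_all_iff.2 key
  filter_upwards [h2] with η hη hηA hηr
  obtain ⟨i, hi⟩ := Set.mem_iUnion.1 hηA
  exact hη i ⟨subset_closure hi, hηr⟩

end

end Pool.Agent.TH327.Dim
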