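import Mathlib

/-! # The bilinear inequality on the circle -/

set_option autoImplicit false

namespace Pool.Agent.TH327.Dim

open Finset MeasureTheory

/-- bounded measurable functions are integrable on intervals -/
lemma ii {F : Type*} [NormedAddCommGroup F] [MeasurableSpace F] [BorelSpace F] [SecondCountableTopology F]
    {u : ℝ → F} (hm : Measurable u) {C : ℝ} (hb : ∀ x, ‖u x‖ ≤ C) (a b : ℝ) :
    IntervalIntegrable u volume a b := by
  apply (intervalIntegrable_const (c := C)).mono_fun hm.aestronglyMeasurable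
  refine Filter.Eventually.of_forall fun x => ?_
  have h0 : 0 ≤ C := (norm_nonneg _).trans (hb x)
  simpa [Real.norm_of_nonneg h0] using hb x

lemma ii_sum {ι F : Type*} [NormedAddCommGroup F] (s : Finset ι) {f : ι → ℝ → F} {a b : ℝ}
    (h : ∀ i ∈ s, IntervalIntegrable (f i) volume a b) :
    IntervalIntegrable (fun x => ∑ i ∈ s, f i x) volume a b := by
  have h1 := IntervalIntegrable.sum s h
  have h2 : (fun x => ∑ i ∈ s, f i x) = ∑ i ∈ s, f i := by funext x; simp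
  rw [h2]; exact h1

/-- substitution -/
lemma subst {F : Type*} [NormedAddCommGroup F] [NormedSpace ℝ F] (p : ℕ) (hp : 1 ≤ p) (u : ℝ → F)
    (hu : ∀ a b, IntervalIntegrable u volume a b) :
    ∑ k ∈ range p, ∫ φ in (0 : ℝ)..1, u ((φ + k) / p) = (p : ℝ) • ∫ θ in (0 : ℝ)..1, u θ := by
  have hp0 : (p : ℝ) ≠ 0 := by positivity
  have h1 : ∀ k ∈ range p, ∫ φ in (0 : ℝ)..1, u ((φ + k) / p) =
      (p : ℝ) • ∫ θ in ((k : ℝ) / p)..(((k + 1 : ℕ) : ℝ) / p), u θ := by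
    intro k _
    have h2 : ∀ φ : ℝ, (φ + k) / p = (k : ℝ) / p + φ / p := by intro φ; ring
    simp only [h2]
    rw [intervalIntegral.integral_comp_add_div _ hp0]
    congr 2
    · simp
    · push_cast; ring
  rw [sum_congr rfl h1, ← smul_sum]
  rw [intervalIntegral.sum_integral_adjacent_intervals (a := fun k : ℕ => (k : ℝ) / p) (fun k _ => hu _ _)]
  congr 2
  · simp
  · exact div_self hp0

/-- the number of preimages -/
noncomputable def Th (B : Finset ℕ) (E : Set ℝ) (φ : ℝ) : ℝ :=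
  ∑ p ∈ B, ∑ k ∈ range p, E.indicator (fun _ => (1 : ℝ)) ((φ + k) / p)

lemma ind_le (E : Set ℝ) (x : ℝ) : E.indicator (fun _ => (1 : ℝ)) x ≤ 1 :=
  Set.indicator_le_self' (fun _ _ => zero_le_one) x

lemma ind_nonneg (E : Set ℝ) (x : ℝ) : 0 ≤ E.indicator (fun _ => (1 : ℝ)) x :=
  Set.indicator_nonneg (fun _ _ => zero_le_one) x

lemma Th_nonneg (B : Finset ℕ) (E : Set ℝ) (φ : ℝ) : 0 ≤ Th B E φ :=
  sum_nonneg fun _ _ => sum_nonneg fun _ _ => ind_nonneg _ _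

lemma Th_le (B : Finset ℕ) (E : Set ℝ) (φ : ℝ) : Th B E φ ≤ ∑ p ∈ B, (p : ℝ) := by
  refine sum_le_sum fun p _ => ?_
  refine (sum_le_sum fun k _ => ind_le _ _).trans ?_
  simp

lemma Th_meas (B : Finset ℕ) {E : Set ℝ} (hE : MeasurableSet E) : Measurable (Th B E) := by
  unfold Th
  refine Finset.measurable_sum _ fun p _ => Finset.measurable_sum _ fun k _ => ?_
  exact (measurable_const.indicator hE).comp (by fun_prop)

lemma Th_period (B : Finset ℕ) {E : Set ℝ} (hEp : ∀ x, x + 1 ∈ E ↔ x ∈ E) (φ : ℝ) (k : ℕ) :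
    Th B E (φ + k) = Th B E φ := by
  have h1 : ∀ φ : ℝ, Th B E (φ + 1) = Th B E φ := by
    intro φ
    unfold Th
    refine sum_congr rfl fun p hp => ?_
    rcases Nat.eq_zero_or_pos p with h0 | h0
    · subst h0; simp
    obtain ⟨q, rfl⟩ : ∃ q, p = q + 1 := ⟨p - 1, by omega⟩
    rw [sum_range_succ, sum_range_succ']
    have h2 : E.indicator (fun _ => (1 : ℝ)) ((φ + 1 + (q : ℝ)) / ((q + 1 : ℕ) : ℝ)) =
        E.indicator (fun _ => (1 : ℝ)) ((φ + ((0 : ℕ) : ℝ)) / ((q + 1 : ℕ) : ℝ)) := by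
      have h3 : (φ + 1 + (q : ℝ)) / ((q + 1 : ℕ) : ℝ) = (φ + ((0 : ℕ) : ℝ)) / ((q + 1 : ℕ) : ℝ) + 1 := by
        push_cast
        field_simp
        ring
      rw [h3]
      by_cases h4 : (φ + ((0 : ℕ) : ℝ)) / ((q + 1 : ℕ) : ℝ) ∈ E
      · rw [Set.indicator_of_mem h4, Set.indicator_of_mem ((hEp _).2 h4)]
      · rw [Set.indicator_of_notMem h4, Set.indicator_of_notMem (fun h => h4 ((hEp _).1 h))]
    rw [h2]
    congr 1
    refine sum_congr rfl fun k _ => ?_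
    congr 1
    push_cast
    ring
  induction k with
  | zero => simp
  | succ k ih =>
    rw [show φ + ((k + 1 : ℕ) : ℝ) = (φ + k) + 1 by push_cast; ring, h1, ih]

lemma per_nat {F : ℝ → ℂ} (hFp : ∀ x, F (x + 1) = F x) (φ : ℝ) (k : ℕ) : F (φ + k) = F φ := by
  induction k with
  | zero => simp
  | succ k ih =>
    rw [show φ + ((k + 1 : ℕ) : ℝ) = (φ + k) + 1 by push_cast; ring, hFp, ih]

/-- The bilinear inequality: if every `θ ∈ E` has few partners `θ' ∈ E` with `p' θ' = p θ`, then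
the map `F ↦ ∑ w_p F(p ·)` has small norm from `L²` of the circle to `L²(E)`. -/
theorem bil (B : Finset ℕ) (P : ℝ) (hP : 0 < P) (hB : ∀ p ∈ B, P ≤ p) (w : ℕ → ℂ) (hw : ∀ p, ‖w p‖ ≤ 1)
    (F : ℝ → ℂ) (hF : Measurable F) (M : ℝ) (hM : ∀ x, ‖F x‖ ≤ M) (hFp : ∀ x, F (x + 1) = F x)
    (E : Set ℝ) (hE : MeasurableSet E) (hEp : ∀ x, x + 1 ∈ E ↔ x ∈ E) (N : ℝ) (hN0 : 0 < N)
    (hN : ∀ θ ∈ E, ∑ p ∈ B, Th B E (p * θ) ≤ N) :
    ∫ θ in (0 : ℝ)..1, E.indicator (fun _ => (1 : ℝ)) θ * ‖∑ p ∈ B, w p * F (p * θ)‖ ^ 2 ≤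
      N / P * ∫ θ in (0 : ℝ)..1, ‖F θ‖ ^ 2 := by
  obtain ⟨χ, hχ⟩ : ∃ χ : ℝ → ℝ, χ = E.indicator (fun _ => (1 : ℝ)) := ⟨_, rfl⟩
  obtain ⟨G, hG⟩ : ∃ G : ℝ → ℂ, G = fun θ => ∑ p ∈ B, w p * F (p * θ) := ⟨_, rfl⟩
  obtain ⟨h, hh⟩ : ∃ h : ℝ → ℂ, h = fun θ => (χ θ : ℂ) * G θ := ⟨_, rfl⟩
  have hM0 : 0 ≤ M := (norm_nonneg _).trans (hM 0)
  have hχ0 : ∀ x, 0 ≤ χ x := by intro x; rw [hχ]; exact ind_nonneg E x
  have hχ1 : ∀ x, χ x ≤ 1 := by intro x; rw [hχ]; exact ind_le E x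
  have hχsq : ∀ x, χ x * χ x = χ x := by
    intro x; rw [hχ]
    by_cases hx : x ∈ E
    · rw [Set.indicator_of_mem hx]; ring
    · rw [Set.indicator_of_notMem hx]; ring
  have hχm : Measurable χ := by rw [hχ]; exact measurable_const.indicator hE
  have hGm : Measurable G := by
    rw [hG]
    refine Finset.measurable_sum _ fun p _ => measurable_const.mul (hF.comp (by fun_prop))
  obtain ⟨MG, hMG⟩ : ∃ MG, MG = ∑ p ∈ B, M := ⟨_, rfl⟩
  have hMG0 : 0 ≤ MG := by rw [hMG]; exact sum_nonneg fun _ _ => hM0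
  have hGb : ∀ x, ‖G x‖ ≤ MG := by
    intro x
    rw [hG, hMG]
    refine (norm_sum_le _ _).trans (sum_le_sum fun p _ => ?_)
    rw [norm_mul]
    calc ‖w p‖ * ‖F (p * x)‖ ≤ 1 * M := mul_le_mul (hw p) (hM _) (norm_nonneg _) zero_le_one
      _ = M := one_mul _
  have hhm : Measurable h := by
    rw [hh]; exact (Complex.measurable_ofReal.comp hχm).mul hGm
  have hhn : ∀ x, ‖h x‖ = χ x * ‖G x‖ := by
    intro x
    rw [hh]
    simp only [norm_mul, Complex.norm_real, Real.norm_of_nonneg (hχ0 x)]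
  have hhb : ∀ x, ‖h x‖ ≤ MG := by
    intro x
    rw [hhn]
    calc χ x * ‖G x‖ ≤ 1 * MG := mul_le_mul (hχ1 x) (hGb x) (norm_nonneg _) zero_le_one
      _ = MG := one_mul _
  have hhsq : ∀ x, ‖h x‖ ^ 2 = χ x * ‖G x‖ ^ 2 := by
    intro x
    rw [hhn, mul_pow, pow_two (χ x), hχsq]
  have hχh : ∀ x, χ x * ‖h x‖ = ‖h x‖ := by
    intro x; rw [hhn, ← mul_assoc, hχsq]
  obtain ⟨A, hA⟩ : ∃ A, A = ∫ θ in (0 : ℝ)..1, ‖h θ‖ ^ 2 := ⟨_, rfl⟩
  have hA0 : 0 ≤ A := by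
    rw [hA]
    exact intervalIntegral.integral_nonneg zero_le_one fun x _ => by positivity
  have hgoal : ∫ θ in (0 : ℝ)..1, E.indicator (fun _ => (1 : ℝ)) θ * ‖∑ p ∈ B, w p * F (p * θ)‖ ^ 2 = A := by
    rw [hA]
    congr 1
    funext θ
    rw [hhsq, ← hχ, hG]
  rw [hgoal]
  obtain ⟨L, hL⟩ : ∃ L : ℝ → ℂ, L = fun φ => ∑ p ∈ B, ∑ k ∈ range p,
      ((p : ℂ)⁻¹ * (starRingEnd ℂ) (w p)) * h ((φ + k) / p) := ⟨_, rfl⟩
  have hLm : Measurable L := by
    rw [hL]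
    refine Finset.measurable_sum _ fun p _ => Finset.measurable_sum _ fun k _ =>
      measurable_const.mul (hhm.comp (by fun_prop))
  have hp1 : ∀ p ∈ B, 1 ≤ p := by
    intro p hp
    have := hB p hp
    have h2 : (0 : ℝ) < p := lt_of_lt_of_le hP this
    exact_mod_cast h2
  -- duality
  have hdual : ((A : ℝ) : ℂ) = ∫ φ in (0 : ℝ)..1, F φ * (starRingEnd ℂ) (L φ) := by
    have e1 : ((A : ℝ) : ℂ) = ∫ θ in (0 : ℝ)..1, ∑ p ∈ B, w p * F (p * θ) * (starRingEnd ℂ) (h θ) := by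
      rw [hA, ← intervalIntegral.integral_ofReal]
      congr 1
      funext θ
      rw [← sum_mul, hh]
      simp only
      have e2 : G θ * (starRingEnd ℂ) (G θ) = ((‖G θ‖ ^ 2 : ℝ) : ℂ) := by
        rw [Complex.mul_conj']; push_cast; ring
      have e3 : ∑ p ∈ B, w p * F (p * θ) = G θ := by rw [hG]
      rw [e3, map_mul, Complex.conj_ofReal]
      have e4 : ‖(χ θ : ℂ) * G θ‖ ^ 2 = χ θ * ‖G θ‖ ^ 2 := by
        rw [← hhsq θ, hh]
      rw [e4]
      calc ((χ θ * ‖G θ‖ ^ 2 : ℝ) : ℂ) = (χ θ : ℂ) * ((‖G θ‖ ^ 2 : ℝ) : ℂ) := by push_cast; ring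
        _ = (χ θ : ℂ) * (G θ * (starRingEnd ℂ) (G θ)) := by rw [e2]
        _ = _ := by ring
    have hint : ∀ p ∈ B, ∀ a b, IntervalIntegrable (fun θ => w p * F (p * θ) * (starRingEnd ℂ) (h θ)) volume a b := by
      intro p _ a b
      refine ii (C := M * MG) ((measurable_const.mul (hF.comp (by fun_prop))).mul
        (Complex.continuous_conj.measurable.comp hhm)) (fun x => ?_) a b
      simp only [Pi.mul_apply, Function.comp_apply]
      rw [norm_mul, norm_mul, RCLike.norm_conj]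
      calc ‖w p‖ * ‖F (p * x)‖ * ‖h x‖ ≤ 1 * M * MG := by
            apply mul_le_mul _ (hhb x) (norm_nonneg _) (by positivity)
            exact mul_le_mul (hw p) (hM _) (norm_nonneg _) zero_le_one
        _ = M * MG := by ring
    rw [e1, intervalIntegral.integral_finsetSum (fun p hp => hint p hp 0 1)]
    have e5 : ∀ p ∈ B, ∫ θ in (0 : ℝ)..1, w p * F (p * θ) * (starRingEnd ℂ) (h θ) =
        ∑ k ∈ range p, ∫ φ in (0 : ℝ)..1, F φ * ((p : ℂ)⁻¹ * w p * (starRingEnd ℂ) (h ((φ + k) / p))) := by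
      intro p hp
      have hp0 : (p : ℝ) ≠ 0 := by have := hp1 p hp; positivity
      have hp0' : (p : ℂ) ≠ 0 := by exact_mod_cast (by have := hp1 p hp; omega : p ≠ 0)
      have e6 := subst p (hp1 p hp) _ (hint p hp)
      have e7 : ∫ θ in (0 : ℝ)..1, w p * F (p * θ) * (starRingEnd ℂ) (h θ) =
          (p : ℂ)⁻¹ * ((p : ℝ) • ∫ θ in (0 : ℝ)..1, w p * F (p * θ) * (starRingEnd ℂ) (h θ)) := by
        rw [Complex.real_smul]
        push_cast
        rw [← mul_assoc, inv_mul_cancel₀ hp0', one_mul]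
      rw [e7, ← e6, mul_sum]
      refine sum_congr rfl fun k _ => ?_
      rw [← intervalIntegral.integral_const_mul]
      congr 1
      funext φ
      have e8 : (p : ℝ) * ((φ + k) / p) = φ + k := by field_simp
      rw [e8, per_nat hFp]
      ring
    rw [sum_congr rfl e5]
    have hint2 : ∀ p ∈ B, ∀ k : ℕ, IntervalIntegrable (fun φ => F φ * ((p : ℂ)⁻¹ * w p *
        (starRingEnd ℂ) (h ((φ + k) / p)))) volume 0 1 := by
      intro p hp k
      refine ii (C := M * (‖(p : ℂ)⁻¹‖ * MG)) (hF.mul (measurable_const.mul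
        (Complex.continuous_conj.measurable.comp (hhm.comp (by fun_prop))))) (fun x => ?_) 0 1
      simp only [Pi.mul_apply, Function.comp_apply]
      rw [norm_mul, norm_mul, norm_mul, RCLike.norm_conj]
      have : ‖(p : ℂ)⁻¹‖ * ‖w p‖ * ‖h ((x + k) / p)‖ ≤ ‖(p : ℂ)⁻¹‖ * MG := by
        calc ‖(p : ℂ)⁻¹‖ * ‖w p‖ * ‖h ((x + k) / p)‖ ≤ ‖(p : ℂ)⁻¹‖ * 1 * MG := by
              apply mul_le_mul _ (hhb _) (norm_nonneg _) (by positivity)
              exact mul_le_mul_of_nonneg_left (hw p) (norm_nonneg _)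
          _ = _ := by ring
      exact mul_le_mul (hM x) this (by positivity) hM0
    have e9 : ∀ p ∈ B, ∑ k ∈ range p, ∫ φ in (0 : ℝ)..1, F φ * ((p : ℂ)⁻¹ * w p * (starRingEnd ℂ) (h ((φ + k) / p))) =
        ∫ φ in (0 : ℝ)..1, ∑ k ∈ range p, F φ * ((p : ℂ)⁻¹ * w p * (starRingEnd ℂ) (h ((φ + k) / p))) := by
      intro p hp
      rw [intervalIntegral.integral_finsetSum (fun k _ => hint2 p hp k)]
    rw [sum_congr rfl e9, ← intervalIntegral.integral_finsetSum]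
    · congr 1
      funext φ
      rw [hL]
      simp only [map_sum, map_mul, Complex.conj_conj, map_inv₀, Complex.conj_natCast, mul_sum]
    · intro p hp
      exact ii_sum _ (fun k _ => hint2 p hp k)
  -- pointwise Cauchy
  have hpt : ∀ φ, ‖L φ‖ ^ 2 ≤ ∑ p ∈ B, ∑ k ∈ range p, ((p : ℝ) ^ 2)⁻¹ * (Th B E φ * ‖h ((φ + k) / p)‖ ^ 2) := by
    intro φ
    have e1 : ‖L φ‖ ≤ ∑ x ∈ B.sigma (fun p => range p), χ ((φ + x.2) / x.1) * ((x.1 : ℝ)⁻¹ * ‖h ((φ + x.2) / x.1)‖) := by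
      rw [hL, sum_sigma]
      refine (norm_sum_le _ _).trans (sum_le_sum fun p _ => (norm_sum_le _ _).trans (sum_le_sum fun k _ => ?_))
      simp only
      rw [norm_mul, norm_mul, RCLike.norm_conj, norm_inv, Complex.norm_natCast]
      have e0 : χ ((φ + k) / p) * ((p : ℝ)⁻¹ * ‖h ((φ + k) / p)‖) = (p : ℝ)⁻¹ * ‖h ((φ + k) / p)‖ := by
        rw [← mul_assoc, mul_comm (χ _) _, mul_assoc, hχh]
      rw [e0]
      apply mul_le_mul_of_nonneg_right _ (norm_nonneg _)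
      calc (p : ℝ)⁻¹ * ‖w p‖ ≤ (p : ℝ)⁻¹ * 1 := mul_le_mul_of_nonneg_left (hw p) (by positivity)
        _ = _ := mul_one _
    have e2 := Finset.sum_mul_sq_le_sq_mul_sq (B.sigma (fun p => range p))
      (fun x => χ ((φ + x.2) / x.1)) (fun x => (x.1 : ℝ)⁻¹ * ‖h ((φ + x.2) / x.1)‖)
    have e3 : ∑ x ∈ B.sigma (fun p => range p), χ ((φ + x.2) / x.1) ^ 2 = Th B E φ := by
      rw [sum_sigma, Th]
      refine sum_congr rfl fun p _ => sum_congr rfl fun k _ => ?_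
      simp only
      rw [pow_two, hχsq, hχ]
    rw [e3] at e2
    refine (pow_le_pow_left₀ (norm_nonneg _) e1 2).trans (e2.trans (le_of_eq ?_))
    rw [sum_sigma, mul_sum]
    refine sum_congr rfl fun p _ => ?_
    rw [mul_sum]
    refine sum_congr rfl fun k _ => ?_
    simp only
    rw [mul_pow, inv_pow]
    ring
  -- the integral of the majorant
  have hTb : ∀ x, |Th B E x| ≤ ∑ p ∈ B, (p : ℝ) := by
    intro x
    rw [abs_of_nonneg (Th_nonneg _ _ _)]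
    exact Th_le _ _ _
  have hint3 : ∀ p : ℕ, ∀ k : ℕ, IntervalIntegrable (fun φ => ((p : ℝ) ^ 2)⁻¹ * (Th B E φ * ‖h ((φ + k) / p)‖ ^ 2))
      volume 0 1 := by
    intro p k
    refine ii (C := ((p : ℝ) ^ 2)⁻¹ * ((∑ p ∈ B, (p : ℝ)) * MG ^ 2)) (measurable_const.mul ((Th_meas B hE).mul
      ((hhm.comp (by fun_prop)).norm.pow_const 2))) (fun x => ?_) 0 1
    simp only [Pi.mul_apply, Function.comp_apply]
    rw [Real.norm_eq_abs, abs_mul, abs_mul, abs_of_nonneg (by positivity : (0 : ℝ) ≤ ((p : ℝ) ^ 2)⁻¹),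
      abs_of_nonneg (by positivity : (0 : ℝ) ≤ ‖h ((x + k) / p)‖ ^ 2)]
    apply mul_le_mul_of_nonneg_left _ (by positivity)
    exact mul_le_mul (hTb x) (pow_le_pow_left₀ (norm_nonneg _) (hhb _) 2) (by positivity)
      ((abs_nonneg _).trans (hTb 0))
  have hint4 : ∀ p : ℕ, ∀ a b, IntervalIntegrable (fun θ => Th B E (p * θ) * ‖h θ‖ ^ 2) volume a b := by
    intro p a b
    refine ii (C := (∑ p ∈ B, (p : ℝ)) * MG ^ 2) (((Th_meas B hE).comp (by fun_prop)).mul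
      (hhm.norm.pow_const 2)) (fun x => ?_) a b
    simp only [Pi.mul_apply, Function.comp_apply]
    rw [Real.norm_eq_abs, abs_mul, abs_of_nonneg (by positivity : (0 : ℝ) ≤ ‖h x‖ ^ 2)]
    exact mul_le_mul (hTb _) (pow_le_pow_left₀ (norm_nonneg _) (hhb _) 2) (by positivity)
      ((abs_nonneg _).trans (hTb 0))
  have hLint : ∫ φ in (0 : ℝ)..1, ‖L φ‖ ^ 2 ≤ N / P * A := by
    obtain ⟨CL, hCL⟩ : ∃ CL : ℝ, ∀ φ, ‖L φ‖ ≤ CL := by
      refine ⟨∑ p ∈ B, ∑ k ∈ range p, (‖((p : ℂ)⁻¹ * (starRingEnd ℂ) (w p))‖ * MG), fun φ => ?_⟩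
      rw [hL]
      refine (norm_sum_le _ _).trans (sum_le_sum fun p _ => (norm_sum_le _ _).trans (sum_le_sum fun k _ => ?_))
      rw [norm_mul]
      exact mul_le_mul_of_nonneg_left (hhb _) (norm_nonneg _)
    have hLi : IntervalIntegrable (fun φ => ‖L φ‖ ^ 2) volume 0 1 := by
      refine ii (C := CL ^ 2) (hLm.norm.pow_const 2) (fun x => ?_) 0 1
      rw [Real.norm_of_nonneg (by positivity)]
      exact pow_le_pow_left₀ (norm_nonneg _) (hCL x) 2
    have e1 : ∫ φ in (0 : ℝ)..1, ‖L φ‖ ^ 2 ≤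
        ∫ φ in (0 : ℝ)..1, ∑ p ∈ B, ∑ k ∈ range p, ((p : ℝ) ^ 2)⁻¹ * (Th B E φ * ‖h ((φ + k) / p)‖ ^ 2) := by
      apply intervalIntegral.integral_mono_on zero_le_one hLi _ (fun x _ => hpt x)
      exact ii_sum _ (fun p _ => ii_sum _ (fun k _ => hint3 p k))
    refine e1.trans ?_
    rw [intervalIntegral.integral_finsetSum (fun p _ => ii_sum _ (fun k _ => hint3 p k))]
    have e2 : ∀ p ∈ B, ∫ φ in (0 : ℝ)..1, ∑ k ∈ range p, ((p : ℝ) ^ 2)⁻¹ * (Th B E φ * ‖h ((φ + k) / p)‖ ^ 2) =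
        (p : ℝ)⁻¹ * ∫ θ in (0 : ℝ)..1, Th B E (p * θ) * ‖h θ‖ ^ 2 := by
      intro p hp
      have hp0 : (p : ℝ) ≠ 0 := by have := hp1 p hp; positivity
      rw [intervalIntegral.integral_finsetSum (fun k _ => hint3 p k)]
      have e3 := subst p (hp1 p hp) _ (hint4 p)
      have e4 : ∀ k ∈ range p, ∫ φ in (0 : ℝ)..1, ((p : ℝ) ^ 2)⁻¹ * (Th B E φ * ‖h ((φ + k) / p)‖ ^ 2) =
          ((p : ℝ) ^ 2)⁻¹ * ∫ φ in (0 : ℝ)..1, Th B E (p * ((φ + k) / p)) * ‖h ((φ + k) / p)‖ ^ 2 := by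
        intro k _
        rw [← intervalIntegral.integral_const_mul]
        congr 1
        funext φ
        have e5 : (p : ℝ) * ((φ + k) / p) = φ + k := by field_simp
        rw [e5, Th_period B hEp]
      rw [sum_congr rfl e4, ← mul_sum, e3, smul_eq_mul, ← mul_assoc]
      congr 1
      rw [pow_two]
      field_simp
    rw [sum_congr rfl e2]
    have e6 : ∀ p ∈ B, (p : ℝ)⁻¹ * ∫ θ in (0 : ℝ)..1, Th B E (p * θ) * ‖h θ‖ ^ 2 ≤
        P⁻¹ * ∫ θ in (0 : ℝ)..1, Th B E (p * θ) * ‖h θ‖ ^ 2 := by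
      intro p hp
      apply mul_le_mul_of_nonneg_right
      · exact inv_anti₀ hP (hB p hp)
      · exact intervalIntegral.integral_nonneg zero_le_one fun x _ =>
          mul_nonneg (Th_nonneg _ _ _) (by positivity)
    refine (sum_le_sum e6).trans ?_
    rw [← mul_sum, ← intervalIntegral.integral_finsetSum (fun p _ => hint4 p 0 1)]
    have e7 : ∫ θ in (0 : ℝ)..1, ∑ p ∈ B, Th B E (p * θ) * ‖h θ‖ ^ 2 ≤ ∫ θ in (0 : ℝ)..1, N * ‖h θ‖ ^ 2 := by
      apply intervalIntegral.integral_mono_on zero_le_one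
      · exact ii_sum _ (fun p _ => hint4 p 0 1)
      · refine ii (C := N * MG ^ 2) (measurable_const.mul (hhm.norm.pow_const 2)) (fun x => ?_) 0 1
        show ‖N * ‖h x‖ ^ 2‖ ≤ N * MG ^ 2
        rw [Real.norm_of_nonneg (by positivity)]
        exact mul_le_mul_of_nonneg_left (pow_le_pow_left₀ (norm_nonneg _) (hhb x) 2) hN0.le
      · intro x _
        rw [← sum_mul]
        by_cases hx : x ∈ E
        · exact mul_le_mul_of_nonneg_right (hN x hx) (by positivity)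
        · have : ‖h x‖ = 0 := by
            rw [hhn, hχ, Set.indicator_of_notMem hx, zero_mul]
          rw [this]; simp
    rw [intervalIntegral.integral_const_mul, ← hA] at e7
    calc P⁻¹ * ∫ θ in (0 : ℝ)..1, ∑ p ∈ B, Th B E (p * θ) * ‖h θ‖ ^ 2 ≤ P⁻¹ * (N * A) :=
          mul_le_mul_of_nonneg_left e7 (by positivity)
      _ = N / P * A := by ring
  -- conclusion
  obtain ⟨t, ht⟩ : ∃ t, t = N / P := ⟨_, rfl⟩
  have ht0 : 0 < t := by rw [ht]; positivity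
  obtain ⟨CL, hCL⟩ : ∃ CL : ℝ, ∀ φ, ‖L φ‖ ≤ CL := by
    refine ⟨∑ p ∈ B, ∑ k ∈ range p, (‖((p : ℂ)⁻¹ * (starRingEnd ℂ) (w p))‖ * MG), fun φ => ?_⟩
    rw [hL]
    refine (norm_sum_le _ _).trans (sum_le_sum fun p _ => (norm_sum_le _ _).trans (sum_le_sum fun k _ => ?_))
    rw [norm_mul]
    exact mul_le_mul_of_nonneg_left (hhb _) (norm_nonneg _)
  have hF2 : IntervalIntegrable (fun φ => ‖F φ‖ ^ 2) volume 0 1 := by
    refine ii (C := M ^ 2) (hF.norm.pow_const 2) (fun x => ?_) 0 1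
    rw [Real.norm_of_nonneg (by positivity)]
    exact pow_le_pow_left₀ (norm_nonneg _) (hM x) 2
  have hL2 : IntervalIntegrable (fun φ => ‖L φ‖ ^ 2) volume 0 1 := by
    refine ii (C := CL ^ 2) (hLm.norm.pow_const 2) (fun x => ?_) 0 1
    rw [Real.norm_of_nonneg (by positivity)]
    exact pow_le_pow_left₀ (norm_nonneg _) (hCL x) 2
  have hfin : A ≤ t / 2 * (∫ φ in (0 : ℝ)..1, ‖F φ‖ ^ 2) + 1 / (2 * t) * ∫ φ in (0 : ℝ)..1, ‖L φ‖ ^ 2 := by
    calc A = ‖((A : ℝ) : ℂ)‖ := by rw [Complex.norm_real, Real.norm_of_nonneg hA0]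
      _ = ‖∫ φ in (0 : ℝ)..1, F φ * (starRingEnd ℂ) (L φ)‖ := by rw [hdual]
      _ ≤ ∫ φ in (0 : ℝ)..1, ‖F φ * (starRingEnd ℂ) (L φ)‖ :=
          intervalIntegral.norm_integral_le_integral_norm zero_le_one
      _ ≤ ∫ φ in (0 : ℝ)..1, (t / 2 * ‖F φ‖ ^ 2 + 1 / (2 * t) * ‖L φ‖ ^ 2) := by
          apply intervalIntegral.integral_mono_on zero_le_one
          · refine ii (C := M * CL) ((hF.mul (Complex.continuous_conj.measurable.comp hLm)).norm) (fun x => ?_) 0 1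
            simp only [Pi.mul_apply, Function.comp_apply]
            rw [norm_norm, norm_mul, RCLike.norm_conj]
            exact mul_le_mul (hM x) (hCL x) (norm_nonneg _) hM0
          · exact (hF2.const_mul _).add (hL2.const_mul _)
          · intro x _
            rw [norm_mul, RCLike.norm_conj]
            have hsq : 0 ≤ (t * ‖F x‖ - ‖L x‖) ^ 2 := sq_nonneg _
            have : t / 2 * ‖F x‖ ^ 2 + 1 / (2 * t) * ‖L x‖ ^ 2 - ‖F x‖ * ‖L x‖ =
                (t * ‖F x‖ - ‖L x‖) ^ 2 / (2 * t) := by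
              field_simp
              ring
            have h3 : 0 ≤ (t * ‖F x‖ - ‖L x‖) ^ 2 / (2 * t) := by positivity
            linarith
      _ = _ := by
          rw [intervalIntegral.integral_add (hF2.const_mul _) (hL2.const_mul _),
            intervalIntegral.integral_const_mul, intervalIntegral.integral_const_mul]
  rw [← ht] at hLint
  have h5 : 1 / (2 * t) * ∫ φ in (0 : ℝ)..1, ‖L φ‖ ^ 2 ≤ 1 / (2 * t) * (t * A) :=
    mul_le_mul_of_nonneg_left hLint (by positivity)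
  have h6 : 1 / (2 * t) * (t * A) = A / 2 := by field_simp
  rw [← ht]
  nlinarith

end Pool.Agent.TH327.Dim
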