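import Pool.Agent.TH327.Dim.Cnt
import Pool.Agent.Helper602.MK.J3

/-! # Partners in a block of primes: the Brun-Titchmarsh inequality -/

set_option autoImplicit false

namespace Pool.Agent.TH327.Dim

open Finset MeasureTheory

/-- from the starting files (`Pool.Agent.H730R2.AA.Euler`) -/
theorem card_divisors_le (k : ℕ) : k.divisors.card ≤ 2 * Nat.sqrt k := by
  classical
  rcases Nat.eq_zero_or_pos k with rfl | hk
  · simp
  have h1 : k.divisors ⊆ (Finset.Icc 1 (Nat.sqrt k)) ∪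
      (Finset.Icc 1 (Nat.sqrt k)).image (fun d => k / d) := by
    intro d hd
    have hdk := Nat.dvd_of_mem_divisors hd
    have hd0 := Nat.pos_of_mem_divisors hd
    rw [Finset.mem_union]
    by_cases h : d ≤ Nat.sqrt k
    · left; rw [Finset.mem_Icc]; exact ⟨hd0, h⟩
    · right
      rw [Finset.mem_image]
      refine ⟨k / d, ?_, Nat.div_div_self hdk hk.ne'⟩
      rw [Finset.mem_Icc]
      constructor
      · exact Nat.div_pos (Nat.le_of_dvd hk hdk) hd0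
      · by_contra hcon
        push Not at h hcon
        have h2 : d * (k / d) = k := Nat.mul_div_cancel' hdk
        have h3 := Nat.lt_succ_sqrt k
        have h4 : (Nat.sqrt k + 1) * (Nat.sqrt k + 1) ≤ d * (k / d) := Nat.mul_le_mul h hcon
        rw [h2] at h4
        exact absurd h3 (not_lt.mpr h4)
  calc k.divisors.card ≤ ((Finset.Icc 1 (Nat.sqrt k)) ∪
      (Finset.Icc 1 (Nat.sqrt k)).image (fun d => k / d)).card := Finset.card_le_card h1
    _ ≤ (Finset.Icc 1 (Nat.sqrt k)).card +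
      ((Finset.Icc 1 (Nat.sqrt k)).image (fun d => k / d)).card := Finset.card_union_le _ _
    _ ≤ Nat.sqrt k + Nat.sqrt k := by
        apply add_le_add
        · simp
        · exact Finset.card_image_le.trans (by simp)
    _ = 2 * Nat.sqrt k := by ring

/-- from the starting files (`Pool.Agent.H730R2.AA.Euler`) -/
theorem sqrt_le_totient (k : ℕ) (hk : 1 ≤ k) : Real.sqrt k ≤ 2 * Nat.totient k := by
  have h1 : k ≤ k.divisors.card * Nat.totient k := by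
    calc k = ∑ e ∈ k.divisors, Nat.totient e := (Nat.sum_totient k).symm
      _ ≤ ∑ _e ∈ k.divisors, Nat.totient k := by
          apply Finset.sum_le_sum
          intro e he
          exact Nat.le_of_dvd (Nat.totient_pos.mpr (by omega))
            (Nat.totient_dvd_of_dvd (Nat.dvd_of_mem_divisors he))
      _ = k.divisors.card * Nat.totient k := by rw [Finset.sum_const, smul_eq_mul]
  have h2 := card_divisors_le k
  have h3 : k ≤ 2 * Nat.sqrt k * Nat.totient k := h1.trans (Nat.mul_le_mul_right _ h2)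
  have h4 : (k : ℝ) ≤ 2 * (Nat.sqrt k : ℝ) * Nat.totient k := by exact_mod_cast h3
  have hk0 : (0 : ℝ) < k := by exact_mod_cast hk
  have h5 : (Nat.sqrt k : ℝ) ≤ Real.sqrt k := by
    apply Real.le_sqrt_of_sq_le
    exact_mod_cast Nat.sqrt_le' k
  have h6 : 0 < Real.sqrt k := Real.sqrt_pos.2 hk0
  have h7 : Real.sqrt k * Real.sqrt k ≤ Real.sqrt k * (2 * Nat.totient k) := by
    rw [Real.mul_self_sqrt hk0.le]
    calc (k : ℝ) ≤ 2 * (Nat.sqrt k : ℝ) * Nat.totient k := h4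
      _ ≤ 2 * Real.sqrt k * Nat.totient k := by
          apply mul_le_mul_of_nonneg_right _ (Nat.cast_nonneg _)
          linarith
      _ = _ := by ring
  exact le_of_mul_le_mul_left h7 h6

/-- the trivial bound for a residue class -/
lemma cls_triv (y z r : ℕ) (hr : 1 ≤ r) (hyz : y ≤ z) (S : Finset ℕ) (hS : ∀ p ∈ S, y < p ∧ p ≤ z)
    (hc : ∀ p ∈ S, ∀ q ∈ S, (r : ℤ) ∣ (p : ℤ) - q) : (S.card : ℝ) ≤ ((z : ℝ) - y) / r + 1 := by
  rcases S.eq_empty_or_nonempty with rfl | hne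
  · have : (y : ℝ) ≤ z := by exact_mod_cast hyz
    have h2 : 0 ≤ ((z : ℝ) - y) / r := div_nonneg (by linarith) (Nat.cast_nonneg _)
    simp only [card_empty, Nat.cast_zero]
    linarith
  obtain ⟨a, ha⟩ : ∃ a, a = S.min' hne := ⟨_, rfl⟩
  have haS : a ∈ S := by rw [ha]; exact S.min'_mem hne
  have hamin : ∀ p ∈ S, a ≤ p := by intro p hp; rw [ha]; exact S.min'_le p hp
  have h1 : S.card ≤ (range ((z - y) / r + 1)).card := by
    refine card_le_card_of_injOn (fun p => (p - a) / r) ?_ ?_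
    · intro p hp
      rw [Finset.mem_coe] at hp
      rw [Finset.mem_coe, mem_range]
      apply Nat.lt_succ_of_le
      apply Nat.div_le_div_right
      have := hS p hp
      have := hS a haS
      omega
    · intro p hp q hq hpq
      rw [Finset.mem_coe] at hp hq
      simp only at hpq
      have d1 : r ∣ p - a := by
        have := hc p hp a haS
        have h3 := hamin p hp
        have h4 : ((p - a : ℕ) : ℤ) = (p : ℤ) - a := by omega
        rw [← h4] at this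
        exact_mod_cast this
      have d2 : r ∣ q - a := by
        have := hc q hq a haS
        have h3 := hamin q hq
        have h4 : ((q - a : ℕ) : ℤ) = (q : ℤ) - a := by omega
        rw [← h4] at this
        exact_mod_cast this
      have e1 := Nat.div_mul_cancel d1
      have e2 := Nat.div_mul_cancel d2
      rw [hpq, e2] at e1
      have := hamin p hp
      have := hamin q hq
      omega
  rw [card_range] at h1
  have h2 : (S.card : ℝ) ≤ (((z - y) / r : ℕ) : ℝ) + 1 := by exact_mod_cast h1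
  have h3 : (((z - y) / r : ℕ) : ℝ) ≤ ((z - y : ℕ) : ℝ) / r := Nat.cast_div_le
  rw [Nat.cast_sub hyz] at h3
  linarith

/-- the Brun-Titchmarsh bound for a residue class -/
lemma cls_bt : ∃ CB : ℝ, 1 ≤ CB ∧ ∀ η : ℝ, 0 < η → η ≤ 1 → ∃ y0 : ℕ, 3 ≤ y0 ∧ ∀ y : ℕ, y0 ≤ y → ∀ z : ℕ, y ≤ z →
    (z : ℝ) ≤ (1 + 2 * η) * y → ∀ r : ℕ, 1 ≤ r → r ^ 2 ≤ y → ∀ S : Finset ℕ, (∀ p ∈ S, p.Prime ∧ y < p ∧ p ≤ z) →
    (∀ p ∈ S, ∀ q ∈ S, (r : ℤ) ∣ (p : ℤ) - q) → (S.card : ℝ) ≤ CB * (η * y / (Nat.totient r * Real.log y)) := by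
  obtain ⟨C, hC, hBT⟩ := Pool.Agent.Helper602.MK.BTLib.brun_titchmarsh
  refine ⟨16 * C, by linarith, fun η hη hη1 => ⟨max 81 ⌈(1 / η) ^ 4⌉₊, le_trans (by norm_num) (le_max_left _ _),
    fun y hy z hyz hz r hr hry S hS hc => ?_⟩⟩
  have hy81 : 81 ≤ y := le_trans (le_max_left _ _) hy
  have hyη : (1 / η) ^ 4 ≤ y := by
    have := le_trans (le_max_right _ _) hy
    exact le_trans (Nat.le_ceil _) (by exact_mod_cast this)
  have hy0 : (81 : ℝ) ≤ y := by exact_mod_cast hy81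
  have hy1 : (0 : ℝ) < y := by linarith
  have hr0 : (0 : ℝ) < r := by exact_mod_cast hr
  have hφ : (0 : ℝ) < Nat.totient r := by exact_mod_cast Nat.totient_pos.2 hr
  have hlog : 0 < Real.log y := Real.log_pos (by linarith)
  rcases S.eq_empty_or_nonempty with rfl | hne
  · simp only [card_empty, Nat.cast_zero]
    positivity
  obtain ⟨t, ht⟩ : ∃ t, t = √(√(y : ℝ)) := ⟨_, rfl⟩
  have ht0 : 0 ≤ t := by rw [ht]; exact Real.sqrt_nonneg _
  have ht2 : t ^ 2 = √(y : ℝ) := by rw [ht]; exact Real.sq_sqrt (Real.sqrt_nonneg _)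
  have ht4 : t ^ 4 = y := by
    have : t ^ 4 = (t ^ 2) ^ 2 := by ring
    rw [this, ht2, Real.sq_sqrt hy1.le]
  have ht3 : 3 ≤ t := by
    by_contra h
    push Not at h
    have : t ^ 4 < 3 ^ 4 := pow_lt_pow_left₀ h ht0 (by norm_num)
    rw [ht4] at this
    norm_num at this
    linarith
  have htη : 1 / η ≤ t := by
    by_contra h
    push Not at h
    have : t ^ 4 < (1 / η) ^ 4 := pow_lt_pow_left₀ h ht0 (by norm_num)
    rw [ht4] at this
    linarith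
  have htη' : 1 ≤ t * η := by
    rw [div_le_iff₀ hη] at htη; exact htη
  have hlogt : Real.log y = 4 * Real.log t := by rw [← ht4, Real.log_pow]; norm_num
  have hrt : (r : ℝ) ≤ t ^ 2 := by
    have : (r : ℝ) ^ 2 ≤ (t ^ 2) ^ 2 := by
      have h3 : (r : ℝ) ^ 2 ≤ y := by exact_mod_cast hry
      calc (r : ℝ) ^ 2 ≤ y := h3
        _ = (t ^ 2) ^ 2 := by rw [← ht4]; ring
    exact (pow_le_pow_iff_left₀ hr0.le (by positivity) two_ne_zero).1 this
  obtain ⟨u, hu⟩ : ∃ u, u = 2 * η * y / r := ⟨_, rfl⟩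
  have hut : 2 * t ≤ u := by
    rw [hu, le_div_iff₀ hr0]
    calc 2 * t * r ≤ 2 * t * t ^ 2 := by gcongr
      _ = 2 * 1 * t ^ 3 := by ring
      _ ≤ 2 * (t * η) * t ^ 3 := by gcongr
      _ = 2 * η * y := by rw [← ht4]; ring
  obtain ⟨a, ha⟩ : ∃ a, a = S.min' hne := ⟨_, rfl⟩
  have haS : a ∈ S := by rw [ha]; exact S.min'_mem hne
  have hamin : ∀ p ∈ S, a ≤ p := by intro p hp; rw [ha]; exact S.min'_le p hp
  obtain ⟨N, hN⟩ : ∃ N : ℕ, N = ⌈u⌉₊ + 2 := ⟨_, rfl⟩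
  have hNu : (N : ℝ) ≤ u + 3 := by
    rw [hN]; push_cast
    have := Nat.ceil_lt_add_one (show 0 ≤ u by linarith)
    linarith
  have hNl : u ≤ N := by
    rw [hN]; push_cast
    have := Nat.le_ceil u
    linarith
  have h1 : S.card ≤ ((range N).filter (fun k => (a + k * r).Prime)).card := by
    refine card_le_card_of_injOn (fun p => (p - a) / r) ?_ ?_
    · intro p hp
      rw [Finset.mem_coe] at hp
      have h3 := hamin p hp
      have d1 : r ∣ p - a := by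
        have := hc p hp a haS
        have h4 : ((p - a : ℕ) : ℤ) = (p : ℤ) - a := by omega
        rw [← h4] at this
        exact_mod_cast this
      have e1 := Nat.div_mul_cancel d1
      rw [Finset.mem_coe, mem_filter, mem_range]
      constructor
      · have h4 : (((p - a) / r : ℕ) : ℝ) ≤ u := by
          have h5 : (((p - a) / r : ℕ) : ℝ) ≤ ((p - a : ℕ) : ℝ) / r := Nat.cast_div_le
          refine h5.trans ?_
          rw [hu]
          apply div_le_div_of_nonneg_right _ hr0.le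
          have h6 : p - a ≤ z - y := by
            have := hS p hp
            have := hS a haS
            omega
          have h7 : ((p - a : ℕ) : ℝ) ≤ ((z - y : ℕ) : ℝ) := by exact_mod_cast h6
          rw [Nat.cast_sub hyz] at h7
          linarith
        have h8 : (((p - a) / r : ℕ) : ℝ) < N := by
          rw [hN]; push_cast
          have := Nat.le_ceil u
          linarith
        exact_mod_cast h8
      · rw [e1]
        have : a + (p - a) = p := by omega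
        rw [this]
        exact (hS p hp).1
    · intro p hp q hq hpq
      rw [Finset.mem_coe] at hp hq
      simp only at hpq
      have d1 : r ∣ p - a := by
        have := hc p hp a haS
        have h3 := hamin p hp
        have h4 : ((p - a : ℕ) : ℤ) = (p : ℤ) - a := by omega
        rw [← h4] at this
        exact_mod_cast this
      have d2 : r ∣ q - a := by
        have := hc q hq a haS
        have h3 := hamin q hq
        have h4 : ((q - a : ℕ) : ℤ) = (q : ℤ) - a := by omega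
        rw [← h4] at this
        exact_mod_cast this
      have e1 := Nat.div_mul_cancel d1
      have e2 := Nat.div_mul_cancel d2
      rw [hpq, e2] at e1
      have := hamin p hp
      have := hamin q hq
      omega
  have h2 := hBT a r N hr (by omega)
  have h3 : (S.card : ℝ) ≤ C * ((r : ℝ) / Nat.totient r) * N / Real.log N :=
    le_trans (by exact_mod_cast h1) h2
  refine h3.trans ?_
  have hlt : 0 < Real.log t := Real.log_pos (by linarith)
  have hlN : Real.log t ≤ Real.log N := Real.log_le_log (by linarith) (by linarith)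
  have hN2 : (N : ℝ) ≤ 2 * u := by linarith
  calc C * ((r : ℝ) / Nat.totient r) * N / Real.log N ≤ C * ((r : ℝ) / Nat.totient r) * (2 * u) / Real.log t := by
        apply div_le_div₀ _ _ hlt hlN
        · have : 0 < u := by linarith
          positivity
        · apply mul_le_mul_of_nonneg_left hN2
          positivity
    _ = 16 * C * (η * y / (Nat.totient r * Real.log y)) := by
        rw [hu, hlogt]
        field_simp
        ring

/-- the number of partners in a block -/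
theorem blk {C s : ℝ} (hC : 0 ≤ C) (hs0 : 0 ≤ s) (hs : s < 1 / 2) :
    ∃ C1 C2 κ : ℝ, 0 < C1 ∧ 0 < C2 ∧ 0 < κ ∧ ∀ η : ℝ, 0 < η → η ≤ 1 → ∃ y0 : ℕ, 3 ≤ y0 ∧
    ∀ K : Set UnitAddCircle, Cov K C s → ∀ y : ℕ, y0 ≤ y →
    ∀ z : ℕ, y ≤ z → (z : ℝ) ≤ (1 + 2 * η) * y → z ≤ 2 * y →
    ∀ (R0 : ℕ) (κ0 ρ : ℝ) (E : Set ℝ), 1 ≤ R0 → 1 / (32 * (z : ℝ) ^ 2) < κ0 → ρ ≤ 1 / (512 * (z : ℝ) ^ 4) →
    (∀ θ ∈ E, ∃ x ∈ K, ‖((θ : ℝ) : UnitAddCircle) - x‖ ≤ ρ) →
    (∀ θ ∈ E, ∀ r : ℕ, 1 ≤ r → r < R0 → ∀ b : ℤ, κ0 ≤ |θ - b / r|) →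
    ∀ θ ∈ E, ∑ p ∈ (Ioc y z).filter Nat.Prime, Th ((Ioc y z).filter Nat.Prime) E (p * θ) ≤
      (y : ℝ) ^ 2 * (C1 * (η / Real.log y) ^ 2 * (R0 : ℝ) ^ (s - 1 / 2) + C2 * (y : ℝ) ^ (-κ)) := by
  obtain ⟨CB, hCB, hbt⟩ := cls_bt
  obtain ⟨κ, hκ⟩ : ∃ κ, κ = min (1 / 4) (1 - 2 * s) := ⟨_, rfl⟩
  have hκ0 : 0 < κ := by rw [hκ]; apply lt_min <;> linarith
  have hκ1 : κ ≤ 1 / 4 := by rw [hκ]; exact min_le_left _ _
  have hκ2 : κ ≤ 1 - 2 * s := by rw [hκ]; exact min_le_right _ _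
  refine ⟨4 * C * CB ^ 2 + 1, 16 * C * CB + 78 * C + 1, κ, by positivity, by positivity, hκ0, fun η hη hη1 => ?_⟩
  obtain ⟨y0, hy03, hy0⟩ := hbt η hη hη1
  refine ⟨y0, hy03, fun K hK y hy z hyz hz hz2 R0 κ0 ρ E hR0 hκ0' hρ hE1 hE2 θ hθ => ?_⟩
  have hy3 : 3 ≤ y := hy03.trans hy
  have hyr : (3 : ℝ) ≤ y := by exact_mod_cast hy3
  have hyp : (0 : ℝ) < y := by linarith
  have hy1 : (1 : ℝ) ≤ y := by linarith
  have hz3 : 3 ≤ z := hy3.trans hyz
  have hzp : (0 : ℝ) < z := by exact_mod_cast (by omega : 0 < z)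
  have hlog : 1 ≤ Real.log y := by
    rw [Real.le_log_iff_exp_le hyp]
    linarith [Real.exp_one_lt_d9]
  have hlog0 : 0 < Real.log y := by linarith
  -- Dirichlet
  obtain ⟨q, hq1, hq2⟩ := Real.exists_rat_abs_sub_le_and_den_le θ (n := 32 * z ^ 2) (by positivity)
  obtain ⟨r, hr⟩ : ∃ r, r = q.den := ⟨_, rfl⟩
  obtain ⟨b, hb⟩ : ∃ b, b = q.num := ⟨_, rfl⟩
  have hr1 : 1 ≤ r := by rw [hr]; exact q.den_pos
  have hrp : (0 : ℝ) < r := by exact_mod_cast hr1
  have hr1' : (1 : ℝ) ≤ r := by exact_mod_cast hr1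
  have hqe : ((q : ℚ) : ℝ) = b / r := by rw [hr, hb]; exact Rat.cast_def q
  rw [hqe, ← hr] at hq1
  rw [← hr] at hq2
  have hcop : IsCoprime b (r : ℤ) := by
    rw [hb, hr]
    exact Int.isCoprime_iff_gcd_eq_one.2 (by
      have := q.reduced
      rw [Int.gcd, Int.natAbs_natCast]
      exact this)
  have hβ : |θ - b / r| ≤ 1 / (32 * ((z : ℝ) ^ 2 * r)) := by
    refine hq1.trans ?_
    apply one_div_le_one_div_of_le (by positivity)
    push_cast
    nlinarith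
  have hrR : R0 ≤ r := by
    by_contra h
    push Not at h
    have h1 := hE2 θ hθ r hr1 h b
    have h2 : 1 / (32 * ((z : ℝ) ^ 2 * r)) ≤ 1 / (32 * (z : ℝ) ^ 2) := by
      apply one_div_le_one_div_of_le (by positivity)
      nlinarith [sq_nonneg (z : ℝ)]
    linarith
  have hr2 : (r : ℝ) ≤ 32 * (z : ℝ) ^ 2 := by exact_mod_cast hq2
  have hzy : (z : ℝ) ≤ 2 * y := by exact_mod_cast hz2
  have hr128 : (r : ℝ) ≤ 128 * (y : ℝ) ^ 2 := by nlinarith
  have hρ' : ρ ≤ 1 / (16 * ((z : ℝ) ^ 2 * r)) := by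
    refine hρ.trans ?_
    apply one_div_le_one_div_of_le (by positivity)
    have : (z : ℝ) ^ 2 * r ≤ z ^ 2 * (32 * z ^ 2) := mul_le_mul_of_nonneg_left hr2 (by positivity)
    nlinarith
  obtain ⟨B, hB⟩ : ∃ B, B = (Ioc y z).filter Nat.Prime := ⟨_, rfl⟩
  rw [← hB]
  have hBm : ∀ p ∈ B, p.Prime ∧ y < p ∧ p ≤ z := by
    intro p hp
    rw [hB, mem_filter, mem_Ioc] at hp
    exact ⟨hp.2, hp.1.1, hp.1.2⟩
  have hBpq : ∀ p ∈ B, ∀ q ∈ B, p ≤ 2 * q := by
    intro p hp q hq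
    have := hBm p hp
    have := hBm q hq
    omega
  have key := fun D hD => count hK hC B (fun p hp => (hBm p hp).1) z (fun p hp => (hBm p hp).2.2) hBpq E ρ hE1 θ b r hr1
    hcop hβ hρ' D hD
  -- rpow facts
  have p0 : ∀ x : ℝ, 1 ≤ x → 1 ≤ x ^ s := fun x hx => Real.one_le_rpow hx hs0
  have h4s : (4 : ℝ) ^ s ≤ 2 := by
    calc (4 : ℝ) ^ s ≤ (4 : ℝ) ^ (1 / 2 : ℝ) := Real.rpow_le_rpow_of_exponent_le (by norm_num) hs.le
      _ = 2 := by
          rw [← Real.sqrt_eq_rpow, show (4 : ℝ) = 2 ^ 2 by norm_num, Real.sqrt_sq (by norm_num)]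
  have h16s : (16 : ℝ) ^ s ≤ 4 := by
    calc (16 : ℝ) ^ s ≤ (16 : ℝ) ^ (1 / 2 : ℝ) := Real.rpow_le_rpow_of_exponent_le (by norm_num) hs.le
      _ = 4 := by
          rw [← Real.sqrt_eq_rpow, show (16 : ℝ) = 4 ^ 2 by norm_num, Real.sqrt_sq (by norm_num)]
  have h128s : (128 : ℝ) ^ s ≤ 12 := by
    calc (128 : ℝ) ^ s ≤ (128 : ℝ) ^ (1 / 2 : ℝ) := Real.rpow_le_rpow_of_exponent_le (by norm_num) hs.le
      _ ≤ 12 := by
          rw [← Real.sqrt_eq_rpow]
          rw [Real.sqrt_le_left (by norm_num)]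
          norm_num
  have hrs : (4 * r : ℝ) ^ s ≤ 2 * (r : ℝ) ^ s := by
    rw [Real.mul_rpow (by norm_num) hrp.le]
    exact mul_le_mul_of_nonneg_right h4s (by positivity)
  have hys2 : ((y : ℝ) ^ 2) ^ s = (y : ℝ) ^ (2 * s) := by
    rw [← Real.rpow_natCast (y : ℝ) 2, ← Real.rpow_mul hyp.le]
    norm_num
  have hzrs : (4 * ((z : ℝ) ^ 2 * r)) ^ s ≤ 4 * (y : ℝ) ^ (2 * s) * (r : ℝ) ^ s := by
    have h1 : 4 * ((z : ℝ) ^ 2 * r) ≤ 16 * (y : ℝ) ^ 2 * r := by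
      have : (z : ℝ) ^ 2 ≤ 4 * (y : ℝ) ^ 2 := by nlinarith
      nlinarith [mul_le_mul_of_nonneg_right this hrp.le]
    calc (4 * ((z : ℝ) ^ 2 * r)) ^ s ≤ (16 * (y : ℝ) ^ 2 * r) ^ s := Real.rpow_le_rpow (by positivity) h1 hs0
      _ = (16 : ℝ) ^ s * (y : ℝ) ^ (2 * s) * (r : ℝ) ^ s := by
          rw [Real.mul_rpow (by positivity) hrp.le, Real.mul_rpow (by norm_num) (by positivity), hys2]
      _ ≤ _ := by
          apply mul_le_mul_of_nonneg_right _ (by positivity)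
          exact mul_le_mul_of_nonneg_right h16s (by positivity)
  -- exponents of y
  have yk : ∀ a : ℝ, a ≤ 2 - κ → (y : ℝ) ^ a ≤ (y : ℝ) ^ 2 * (y : ℝ) ^ (-κ) := by
    intro a ha
    rw [← Real.rpow_natCast (y : ℝ) 2, ← Real.rpow_add hyp]
    apply Real.rpow_le_rpow_of_exponent_le hy1
    push_cast
    linarith
  have y1 : (y : ℝ) * (y : ℝ) ^ (2 * s) = (y : ℝ) ^ (1 + 2 * s) := by
    rw [Real.rpow_add hyp, Real.rpow_one]
  have yk1 : (y : ℝ) * (y : ℝ) ^ (2 * s) ≤ (y : ℝ) ^ 2 * (y : ℝ) ^ (-κ) := by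
    rw [y1]; exact yk _ (by linarith)
  have yk2 : (y : ℝ) ^ (2 * s) * (y : ℝ) ^ (2 * s) ≤ (y : ℝ) ^ 2 * (y : ℝ) ^ (-κ) := by
    rw [← Real.rpow_add hyp]; exact yk _ (by linarith)
  have hφ : (0 : ℝ) < Nat.totient r := by exact_mod_cast Nat.totient_pos.2 hr1
  have hrφ : (r : ℝ) ^ s / Nat.totient r ≤ 2 * (r : ℝ) ^ (s - 1 / 2) := by
    rw [div_le_iff₀ hφ]
    have h1 := sqrt_le_totient r hr1
    have h2 : (r : ℝ) ^ s = (r : ℝ) ^ (s - 1 / 2) * √(r : ℝ) := by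
      rw [Real.sqrt_eq_rpow, ← Real.rpow_add hrp]; congr 1; ring
    rw [h2]
    calc (r : ℝ) ^ (s - 1 / 2) * √(r : ℝ) ≤ (r : ℝ) ^ (s - 1 / 2) * (2 * Nat.totient r) :=
          mul_le_mul_of_nonneg_left h1 (by positivity)
      _ = _ := by ring
  have hR0p : (0 : ℝ) < R0 := by exact_mod_cast hR0
  have hrR' : (r : ℝ) ^ (s - 1 / 2) ≤ (R0 : ℝ) ^ (s - 1 / 2) :=
    Real.rpow_le_rpow_of_nonpos hR0p (by exact_mod_cast hrR) (by linarith)
  have hrle1 : (r : ℝ) ^ (s - 1 / 2) ≤ 1 := Real.rpow_le_one_of_one_le_of_nonpos hr1' (by linarith)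
  have hYκ : 0 ≤ (y : ℝ) ^ 2 * (y : ℝ) ^ (-κ) := by positivity
  rcases le_or_gt (r ^ 2) y with hcase | hcase
  · -- small denominators
    have hD : ∀ S ⊆ B, (∀ p ∈ S, ∀ q ∈ S, (r : ℤ) ∣ (p : ℤ) - q) →
        (S.card : ℝ) ≤ CB * (η * y / (Nat.totient r * Real.log y)) := fun S hS hc =>
      hy0 y hy z hyz hz r hr1 hcase S (fun p hp => hBm p (hS hp)) hc
    have hBc : (B.card : ℝ) ≤ CB * (η * y / Real.log y) := by
      have := hy0 y hy z hyz hz 1 le_rfl (by omega) B hBm (fun p _ q _ => by simp)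
      simpa using this
    refine (key _ hD).trans ?_
    obtain ⟨D, hDd⟩ : ∃ D, D = CB * (η * y / (Nat.totient r * Real.log y)) := ⟨_, rfl⟩
    rw [← hDd]
    have hD0 : 0 ≤ D := by rw [hDd]; positivity
    have t1 : C * (4 * r : ℝ) ^ s * B.card * D ≤
        (y : ℝ) ^ 2 * ((4 * C * CB ^ 2) * (η / Real.log y) ^ 2 * (R0 : ℝ) ^ (s - 1 / 2)) := by
      calc C * (4 * r : ℝ) ^ s * B.card * D ≤ C * (2 * (r : ℝ) ^ s) * (CB * (η * y / Real.log y)) * D := by
            gcongr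
        _ = (y : ℝ) ^ 2 * ((2 * C * CB ^ 2) * (η / Real.log y) ^ 2 * ((r : ℝ) ^ s / Nat.totient r)) := by
            rw [hDd]; field_simp
        _ ≤ (y : ℝ) ^ 2 * ((2 * C * CB ^ 2) * (η / Real.log y) ^ 2 * (2 * (R0 : ℝ) ^ (s - 1 / 2))) := by
            gcongr
            exact hrφ.trans (mul_le_mul_of_nonneg_left hrR' (by norm_num))
        _ = _ := by ring
    have t2 : C * (4 * ((z : ℝ) ^ 2 * r)) ^ s * D ≤ (16 * C * CB) * ((y : ℝ) ^ 2 * (y : ℝ) ^ (-κ)) := by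
      calc C * (4 * ((z : ℝ) ^ 2 * r)) ^ s * D ≤ C * (4 * (y : ℝ) ^ (2 * s) * (r : ℝ) ^ s) * D := by gcongr
        _ = (4 * C * CB) * (η / Real.log y) * ((y : ℝ) * (y : ℝ) ^ (2 * s)) * ((r : ℝ) ^ s / Nat.totient r) := by
            rw [hDd]; field_simp
        _ ≤ (4 * C * CB) * 1 * ((y : ℝ) ^ 2 * (y : ℝ) ^ (-κ)) * (2 * 1) := by
            have a1 : η / Real.log y ≤ 1 := by
              rw [div_le_one hlog0]; linarith
            have a2 : (r : ℝ) ^ s / Nat.totient r ≤ 2 * 1 := hrφ.trans (mul_le_mul_of_nonneg_left hrle1 (by norm_num))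
            gcongr
        _ ≤ _ := by
            have : 0 ≤ C * CB * ((y : ℝ) ^ 2 * (y : ℝ) ^ (-κ)) := by positivity
            nlinarith
    have t3 : 0 ≤ (y : ℝ) ^ 2 * ((1 : ℝ) * (η / Real.log y) ^ 2 * (R0 : ℝ) ^ (s - 1 / 2)) := by positivity
    have t4 : 0 ≤ (78 * C + 1) * ((y : ℝ) ^ 2 * (y : ℝ) ^ (-κ)) := by positivity
    nlinarith
  · -- large denominators
    have hrsq : √(y : ℝ) ≤ r := by
      rw [Real.sqrt_le_left hrp.le]
      have : (y : ℝ) < (r : ℝ) ^ 2 := by exact_mod_cast hcase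
      linarith
    have hzy2 : (z : ℝ) - y ≤ y := by linarith
    have hD : ∀ S ⊆ B, (∀ p ∈ S, ∀ q ∈ S, (r : ℤ) ∣ (p : ℤ) - q) →
        (S.card : ℝ) ≤ (y : ℝ) / r + 1 := fun S hS hc => by
      refine (cls_triv y z r hr1 hyz S (fun p hp => (hBm p (hS hp)).2) hc).trans ?_
      have : ((z : ℝ) - y) / r ≤ y / r := div_le_div_of_nonneg_right hzy2 hrp.le
      linarith
    have hBc : (B.card : ℝ) ≤ y := by
      have h1 : B.card ≤ z - y := by
        rw [hB]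
        refine (card_filter_le _ _).trans ?_
        rw [Nat.card_Ioc]
      have h2 : (B.card : ℝ) ≤ ((z - y : ℕ) : ℝ) := by exact_mod_cast h1
      rw [Nat.cast_sub hyz] at h2
      linarith
    refine (key _ hD).trans ?_
    have a1 : (r : ℝ) ^ s * (y / r) ≤ (y : ℝ) * (r : ℝ) ^ (s - 1) := by
      rw [Real.rpow_sub hrp, Real.rpow_one]
      apply le_of_eq; ring
    have a2 : (r : ℝ) ^ (s - 1) ≤ (y : ℝ) ^ (-(1 / 4) : ℝ) := by
      calc (r : ℝ) ^ (s - 1) ≤ (√(y : ℝ)) ^ (s - 1) :=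
            Real.rpow_le_rpow_of_nonpos (Real.sqrt_pos.2 hyp) hrsq (by linarith)
        _ = (y : ℝ) ^ ((1 / 2) * (s - 1)) := by rw [Real.sqrt_eq_rpow, ← Real.rpow_mul hyp.le]
        _ ≤ _ := Real.rpow_le_rpow_of_exponent_le hy1 (by linarith)
    have a2' : (r : ℝ) ^ (s - 1) ≤ 1 := Real.rpow_le_one_of_one_le_of_nonpos hr1' (by linarith)
    have a3 : (r : ℝ) ^ s ≤ 12 * (y : ℝ) ^ (2 * s) := by
      calc (r : ℝ) ^ s ≤ (128 * (y : ℝ) ^ 2) ^ s := Real.rpow_le_rpow hrp.le hr128 hs0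
        _ = (128 : ℝ) ^ s * (y : ℝ) ^ (2 * s) := by rw [Real.mul_rpow (by norm_num) (by positivity), hys2]
        _ ≤ _ := mul_le_mul_of_nonneg_right h128s (by positivity)
    have a4 : (y : ℝ) * ((y : ℝ) * (y : ℝ) ^ (-(1 / 4) : ℝ)) ≤ (y : ℝ) ^ 2 * (y : ℝ) ^ (-κ) := by
      have : (y : ℝ) ^ (-(1 / 4) : ℝ) ≤ (y : ℝ) ^ (-κ) := Real.rpow_le_rpow_of_exponent_le hy1 (by linarith)
      calc (y : ℝ) * ((y : ℝ) * (y : ℝ) ^ (-(1 / 4) : ℝ)) = (y : ℝ) ^ 2 * (y : ℝ) ^ (-(1 / 4) : ℝ) := by ring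
        _ ≤ _ := mul_le_mul_of_nonneg_left this (by positivity)
    obtain ⟨Z, hZ⟩ : ∃ Z, Z = (y : ℝ) ^ 2 * (y : ℝ) ^ (-κ) := ⟨_, rfl⟩
    rw [← hZ] at yk1 yk2 a4 hYκ
    have b1 : (r : ℝ) ^ s * (y / r + 1) ≤ (y : ℝ) * (y : ℝ) ^ (-(1 / 4) : ℝ) + 12 * (y : ℝ) ^ (2 * s) := by
      rw [mul_add, mul_one]
      exact add_le_add (a1.trans (mul_le_mul_of_nonneg_left a2 hyp.le)) a3
    have b2 : (r : ℝ) ^ s * (y / r + 1) ≤ (y : ℝ) + 12 * (y : ℝ) ^ (2 * s) := by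
      rw [mul_add, mul_one]
      exact add_le_add (a1.trans (mul_le_of_le_one_right hyp.le a2')) a3
    have t1 : C * (4 * r : ℝ) ^ s * B.card * (y / r + 1) ≤ 26 * C * Z := by
      calc C * (4 * r : ℝ) ^ s * B.card * (y / r + 1) ≤ C * (2 * (r : ℝ) ^ s) * y * (y / r + 1) := by gcongr
        _ = 2 * C * (y * ((r : ℝ) ^ s * (y / r + 1))) := by ring
        _ ≤ 2 * C * (y * ((y : ℝ) * (y : ℝ) ^ (-(1 / 4) : ℝ) + 12 * (y : ℝ) ^ (2 * s))) := by gcongr
        _ = 2 * C * (y * ((y : ℝ) * (y : ℝ) ^ (-(1 / 4) : ℝ)) + 12 * (y * (y : ℝ) ^ (2 * s))) := by ring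
        _ ≤ 2 * C * (Z + 12 * Z) := by gcongr
        _ = 26 * C * Z := by ring
    have t2 : C * (4 * ((z : ℝ) ^ 2 * r)) ^ s * (y / r + 1) ≤ 52 * C * Z := by
      calc C * (4 * ((z : ℝ) ^ 2 * r)) ^ s * (y / r + 1) ≤ C * (4 * (y : ℝ) ^ (2 * s) * (r : ℝ) ^ s) * (y / r + 1) := by
            gcongr
        _ = 4 * C * ((y : ℝ) ^ (2 * s) * ((r : ℝ) ^ s * (y / r + 1))) := by ring
        _ ≤ 4 * C * ((y : ℝ) ^ (2 * s) * ((y : ℝ) + 12 * (y : ℝ) ^ (2 * s))) := by gcongr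
        _ = 4 * C * (y * (y : ℝ) ^ (2 * s) + 12 * ((y : ℝ) ^ (2 * s) * (y : ℝ) ^ (2 * s))) := by ring
        _ ≤ 4 * C * (Z + 12 * Z) := by gcongr
        _ = 52 * C * Z := by ring
    have t3 : 0 ≤ (y : ℝ) ^ 2 * ((4 * C * CB ^ 2 + 1) * (η / Real.log y) ^ 2 * (R0 : ℝ) ^ (s - 1 / 2)) := by positivity
    have t4 : 0 ≤ (16 * C * CB + 1) * Z := by positivity
    have t5 : (y : ℝ) ^ 2 * ((4 * C * CB ^ 2 + 1) * (η / Real.log y) ^ 2 * (R0 : ℝ) ^ (s - 1 / 2) +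
        (16 * C * CB + 78 * C + 1) * (y : ℝ) ^ (-κ)) =
        (y : ℝ) ^ 2 * ((4 * C * CB ^ 2 + 1) * (η / Real.log y) ^ 2 * (R0 : ℝ) ^ (s - 1 / 2)) +
        ((16 * C * CB + 1) * Z + 78 * C * Z) := by rw [hZ]; ring
    rw [t5]
    linarith

end Pool.Agent.TH327.Dim
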