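import Pool.Agent.TH327.Dim.Bil

/-! # Counting the partners of a point -/

set_option autoImplicit false

namespace Pool.Agent.TH327.Dim

open Finset MeasureTheory

/-- `K` is covered, for every `n ≥ 1`, by at most `C n^s` closed arcs of half-length `1/n`. -/
def Cov (K : Set UnitAddCircle) (C s : ℝ) : Prop :=
  ∀ n : ℕ, 1 ≤ n → ∃ F : Finset UnitAddCircle, (F.card : ℝ) ≤ C * (n : ℝ) ^ s ∧ ∀ x ∈ K, ∃ y ∈ F, ‖x - y‖ ≤ 1 / n

/-- separated points near `K` -/
lemma sep {ι : Type*} {K : Set UnitAddCircle} {C s : ℝ} (hK : Cov K C s) (I : Finset ι) (x : ι → UnitAddCircle)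
    (n : ℕ) (hn : 1 ≤ n) (δ τ : ℝ) (hx : ∀ i ∈ I, ∀ j ∈ I, i ≠ j → δ ≤ ‖x i - x j‖)
    (hτ : ∀ i ∈ I, ∃ z ∈ K, ‖x i - z‖ ≤ τ) (h : τ + 1 / n < δ / 2) :
    (I.card : ℝ) ≤ C * (n : ℝ) ^ s := by
  classical
  obtain ⟨F, hF, hcov⟩ := hK n hn
  have h1 : ∀ i ∈ I, ∃ y ∈ F, ‖x i - y‖ ≤ τ + 1 / n := by
    intro i hi
    obtain ⟨z, hz, hz2⟩ := hτ i hi
    obtain ⟨y, hy, hy2⟩ := hcov z hz
    refine ⟨y, hy, ?_⟩
    calc ‖x i - y‖ = ‖(x i - z) + (z - y)‖ := by congr 1; abel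
      _ ≤ ‖x i - z‖ + ‖z - y‖ := norm_add_le _ _
      _ ≤ τ + 1 / n := add_le_add hz2 hy2
  choose! y hy hy2 using h1
  have h2 : I.card ≤ F.card := by
    refine Finset.card_le_card_of_injOn y hy ?_
    intro i hi j hj hij
    by_contra hne
    have h3 := hx i hi j hj hne
    have h4 : ‖x i - x j‖ ≤ (τ + 1 / n) + (τ + 1 / n) := by
      calc ‖x i - x j‖ = ‖(x i - y i) - (x j - y j)‖ := by
            have hij' : y i = y j := hij
            rw [hij']
            congr 1; abel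
        _ ≤ ‖x i - y i‖ + ‖x j - y j‖ := norm_sub_le _ _
        _ ≤ _ := add_le_add (hy2 i hi) (hy2 j hj)
    linarith
  exact le_trans (by exact_mod_cast h2) hF

/-- upper bound for the norm on the circle -/
lemma norm_coe_le (x : ℝ) (m : ℤ) : ‖((x : ℝ) : UnitAddCircle)‖ ≤ |x - m| := by
  rw [UnitAddCircle.norm_eq]
  exact round_le x m

/-- distance of two reals on the circle -/
lemma norm_sub_coe_le (x y : ℝ) (m : ℤ) : ‖((x : ℝ) : UnitAddCircle) - ((y : ℝ) : UnitAddCircle)‖ ≤ |x - y - m| := by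
  rw [← AddCircle.coe_sub]
  exact norm_coe_le _ _

/-- lower bound for fractions -/
lemma le_norm_frac (j : ℤ) (m : ℕ) (hm : 1 ≤ m) (hj : ¬ (m : ℤ) ∣ j) :
    1 / (m : ℝ) ≤ ‖(((j : ℝ) / m : ℝ) : UnitAddCircle)‖ := by
  have hm0 : (0 : ℝ) < m := by exact_mod_cast hm
  rw [UnitAddCircle.norm_eq]
  set t : ℤ := round ((j : ℝ) / m) with ht
  have h1 : (j : ℝ) / m - t = ((j - m * t : ℤ) : ℝ) / m := by
    push_cast; field_simp
  rw [h1, abs_div, abs_of_pos hm0]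
  apply div_le_div_of_nonneg_right _ hm0.le
  have h2 : j - m * t ≠ 0 := by
    intro h0
    apply hj
    exact ⟨t, by linarith⟩
  have h3 : (1 : ℤ) ≤ |j - m * t| := Int.one_le_abs h2
  exact_mod_cast h3

/-- the residues near `K` -/
lemma cardA {K : Set UnitAddCircle} {C s : ℝ} (hK : Cov K C s) (r : ℕ) (hr : 1 ≤ r) (τ : ℝ) (hτ : τ ≤ 1 / (8 * r))
    (I : Finset ℕ) (hI : ∀ b ∈ I, b < r ∧ ∃ z ∈ K, ‖(((b : ℝ) / r : ℝ) : UnitAddCircle) - z‖ ≤ τ) :
    (I.card : ℝ) ≤ C * (4 * r : ℝ) ^ s := by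
  have hr0 : (0 : ℝ) < r := by exact_mod_cast hr
  have h := sep hK I (fun b : ℕ => (((b : ℝ) / r : ℝ) : UnitAddCircle)) (4 * r) (by omega) (1 / r) τ
    (by
      intro i hi j hj hij
      have h1 : ((((i : ℝ) / r : ℝ)) : UnitAddCircle) - (((j : ℝ) / r : ℝ) : UnitAddCircle) =
          (((((i : ℤ) - (j : ℤ) : ℤ) : ℝ) / r : ℝ) : UnitAddCircle) := by
        rw [← AddCircle.coe_sub]; congr 1; push_cast; ring
      rw [h1]
      apply le_norm_frac _ _ hr
      intro hd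
      apply hij
      have h2 := Int.eq_zero_of_abs_lt_dvd hd (by
        have := (hI i hi).1; have := (hI j hj).1
        rw [abs_lt]; constructor <;> omega)
      omega) (fun i hi => (hI i hi).2) (by
      push_cast
      have h1 : 1 / (8 * (r : ℝ)) + 1 / (4 * r) < 1 / r / 2 := by
        rw [div_add_div _ _ (by positivity) (by positivity), div_div, div_lt_div_iff₀ (by positivity) (by positivity)]
        nlinarith [mul_pos hr0 hr0]
      linarith)
  refine h.trans (le_of_eq ?_)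
  push_cast
  rfl

/-- the fractions with denominators `p' r` near `K` -/
lemma cardB {K : Set UnitAddCircle} {C s : ℝ} (hK : Cov K C s) (r : ℕ) (hr : 1 ≤ r) (Q : ℕ) (τ : ℝ)
    (hτ : τ ≤ 1 / (8 * (Q ^ 2 * r))) (I : Finset (ℕ × ℕ))
    (hI : ∀ x ∈ I, x.1.Prime ∧ x.1 ≤ Q ∧ x.2 < x.1 * r ∧ ¬ x.1 ∣ x.2 ∧
      ∃ z ∈ K, ‖(((x.2 : ℝ) / (x.1 * r) : ℝ) : UnitAddCircle) - z‖ ≤ τ) :
    (I.card : ℝ) ≤ C * (4 * (Q ^ 2 * r) : ℝ) ^ s := by
  rcases I.eq_empty_or_nonempty with rfl | ⟨x0, hx0⟩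
  · obtain ⟨F, hF, _⟩ := hK 1 le_rfl
    have h0 : 0 ≤ C * ((1 : ℕ) : ℝ) ^ s := le_trans (Nat.cast_nonneg _) hF
    have hC : 0 ≤ C := by simpa using h0
    simp only [card_empty, Nat.cast_zero]
    positivity
  have hQ1 : 2 ≤ Q := (hI x0 hx0).1.two_le.trans (hI x0 hx0).2.1
  have hr0 : (0 : ℝ) < r := by exact_mod_cast hr
  have hQ0 : (0 : ℝ) < Q := by exact_mod_cast (by omega : 0 < Q)
  have h := sep hK I (fun x : ℕ × ℕ => (((x.2 : ℝ) / (x.1 * r) : ℝ) : UnitAddCircle)) (4 * (Q ^ 2 * r))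
    (by have : 0 < Q ^ 2 * r := by positivity
        omega) (1 / (Q ^ 2 * r)) τ
    (by
      rintro ⟨p, c⟩ hi ⟨q, d⟩ hj hij
      obtain ⟨hp, hpQ, hc, hpc, -⟩ := hI _ hi
      obtain ⟨hq, hqQ, hd, hqd, -⟩ := hI _ hj
      simp only at hp hpQ hc hpc hq hqQ hd hqd
      have hp0 : (0 : ℝ) < p := by exact_mod_cast hp.pos
      have hq0 : (0 : ℝ) < q := by exact_mod_cast hq.pos
      have h1 : ((((c : ℝ) / (p * r) : ℝ)) : UnitAddCircle) - (((d : ℝ) / (q * r) : ℝ) : UnitAddCircle) =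
          (((((c : ℤ) * q - d * p : ℤ) : ℝ) / ((p * q * r : ℕ) : ℝ) : ℝ) : UnitAddCircle) := by
        rw [← AddCircle.coe_sub]; congr 1; push_cast; field_simp
      rw [h1]
      have h2 : 1 / ((Q : ℝ) ^ 2 * r) ≤ 1 / ((p * q * r : ℕ) : ℝ) := by
        apply one_div_le_one_div_of_le
        · push_cast; positivity
        · push_cast
          apply mul_le_mul_of_nonneg_right _ hr0.le
          rw [pow_two]
          exact mul_le_mul (by exact_mod_cast hpQ) (by exact_mod_cast hqQ) hq0.le hQ0.le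
      refine h2.trans (le_norm_frac _ _ (Nat.mul_pos (Nat.mul_pos hp.pos hq.pos) (by omega)) ?_)
      intro hdv
      apply hij
      by_cases hpq : p = q
      · subst hpq
        have h3 : ((p * (p * r) : ℕ) : ℤ) ∣ p * ((c : ℤ) - d) := by
          have : ((p * p * r : ℕ) : ℤ) = ((p * (p * r) : ℕ) : ℤ) := by push_cast; ring
          rw [← this]
          convert hdv using 1
          ring
        have h4 : ((p * r : ℕ) : ℤ) ∣ (c : ℤ) - d := by
          push_cast at h3 ⊢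
          exact Int.dvd_of_mul_dvd_mul_left (by exact_mod_cast hp.pos.ne') h3
        have h5 := Int.eq_zero_of_abs_lt_dvd h4 (by
          rw [abs_lt]; push_cast; constructor
          · have : (d : ℤ) < p * r := by exact_mod_cast hd
            have : (0 : ℤ) ≤ c := by positivity
            linarith
          · have : (c : ℤ) < p * r := by exact_mod_cast hc
            have : (0 : ℤ) ≤ d := by positivity
            linarith)
        have : c = d := by omega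
        rw [this]
      · exfalso
        apply hpc
        have h3 : (p : ℤ) ∣ (c : ℤ) * q - d * p := by
          refine dvd_trans ?_ hdv
          push_cast
          exact ⟨q * r, by ring⟩
        have h4 : (p : ℤ) ∣ (c : ℤ) * q := by
          have := dvd_add h3 (⟨(d : ℤ), by ring⟩ : (p : ℤ) ∣ d * p)
          simpa using this
        have h5 : p ∣ c * q := by exact_mod_cast h4
        rcases (Nat.Prime.dvd_mul hp).1 h5 with h6 | h6
        · exact h6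
        · exact absurd ((Nat.prime_dvd_prime_iff_eq hp hq).1 h6) hpq) (fun i hi => (hI i hi).2.2.2.2) (by
      push_cast
      have hz : (0 : ℝ) < Q ^ 2 * r := by positivity
      have h1 : 1 / (8 * ((Q : ℝ) ^ 2 * r)) + 1 / (4 * (Q ^ 2 * r)) < 1 / (Q ^ 2 * r) / 2 := by
        rw [div_add_div _ _ (by positivity) (by positivity), div_div, div_lt_div_iff₀ (by positivity) (by positivity)]
        nlinarith [mul_pos hz hz]
      linarith)
  refine h.trans (le_of_eq ?_)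
  push_cast
  rfl

/-- the number of partners -/
theorem count {K : Set UnitAddCircle} {C s : ℝ} (hK : Cov K C s) (hC : 0 ≤ C) (B : Finset ℕ) (hB : ∀ p ∈ B, p.Prime)
    (Q : ℕ) (hQ : ∀ p ∈ B, p ≤ Q) (h2 : ∀ p ∈ B, ∀ q ∈ B, p ≤ 2 * q) (E : Set ℝ) (ρ : ℝ)
    (hE : ∀ θ ∈ E, ∃ z ∈ K, ‖((θ : ℝ) : UnitAddCircle) - z‖ ≤ ρ) (θ : ℝ) (b : ℤ) (r : ℕ) (hr : 1 ≤ r)
    (hcop : IsCoprime b (r : ℤ)) (hβ : |θ - b / r| ≤ 1 / (32 * (Q ^ 2 * r))) (hρ : ρ ≤ 1 / (16 * (Q ^ 2 * r)))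
    (D : ℝ) (hD : ∀ S ⊆ B, (∀ p ∈ S, ∀ q ∈ S, (r : ℤ) ∣ (p : ℤ) - q) → (S.card : ℝ) ≤ D) :
    ∑ p ∈ B, Th B E (p * θ) ≤ C * (4 * r : ℝ) ^ s * B.card * D + C * (4 * (Q ^ 2 * r) : ℝ) ^ s * D := by
  classical
  have hr0 : (0 : ℝ) < r := by exact_mod_cast hr
  have hrz : (r : ℤ) ≠ 0 := by exact_mod_cast (by omega : r ≠ 0)
  have hD0 : 0 ≤ D := by
    have := hD ∅ (empty_subset _) (by simp)
    simpa using this
  rcases B.eq_empty_or_nonempty with rfl | ⟨p0, hp0⟩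
  · simp only [sum_empty, card_empty, Nat.cast_zero]
    positivity
  have hQ1 : 2 ≤ Q := (hB p0 hp0).two_le.trans (hQ p0 hp0)
  have hQ0 : (0 : ℝ) < Q := by exact_mod_cast (by omega : 0 < Q)
  obtain ⟨β, hβd⟩ : ∃ β, β = θ - b / r := ⟨_, rfl⟩
  have hθ : θ = b / r + β := by rw [hβd]; ring
  rw [← hβd] at hβ
  -- the triples
  obtain ⟨T0, hT0⟩ : ∃ T0 : Finset (Σ _ : ℕ, Σ _ : ℕ, ℕ), T0 = B.sigma (fun _ => B.sigma (fun q => range q)) := ⟨_, rfl⟩
  obtain ⟨T, hT⟩ : ∃ T : Finset (Σ _ : ℕ, Σ _ : ℕ, ℕ), T = T0.filter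
    (fun x => ((x.1 : ℝ) * θ + x.2.2) / x.2.1 ∈ E) := ⟨_, rfl⟩
  have hsum : ∑ p ∈ B, Th B E (p * θ) = (T.card : ℝ) := by
    rw [hT, card_filter, hT0]
    push_cast
    rw [sum_sigma]
    refine sum_congr rfl fun p _ => ?_
    rw [sum_sigma, Th]
    refine sum_congr rfl fun q _ => sum_congr rfl fun k _ => ?_
    by_cases h : ((p : ℝ) * θ + k) / q ∈ E
    · rw [Set.indicator_of_mem h, if_pos h]
    · rw [Set.indicator_of_notMem h, if_neg h]
  have hmem : ∀ x ∈ T, x.1 ∈ B ∧ x.2.1 ∈ B ∧ x.2.2 < x.2.1 ∧ ((x.1 : ℝ) * θ + x.2.2) / x.2.1 ∈ E := by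
    intro x hx
    rw [hT, mem_filter, hT0, mem_sigma, mem_sigma, mem_range] at hx
    exact ⟨hx.1.1, hx.1.2.1, hx.1.2.2, hx.2⟩
  -- the numerator
  obtain ⟨c, hc⟩ : ∃ c : (Σ _ : ℕ, Σ _ : ℕ, ℕ) → ℤ, c = fun x => (x.1 : ℤ) * b + x.2.2 * r := ⟨_, rfl⟩
  obtain ⟨τ, hτd⟩ : ∃ τ : ℝ, τ = 1 / (8 * (Q ^ 2 * r)) := ⟨_, rfl⟩
  have hQr0 : (0 : ℝ) < Q ^ 2 * r := by positivity
  -- closeness
  have hclose : ∀ x ∈ T, ∀ (u : ℝ) (m : ℤ), (c x : ℝ) / (x.2.1 * r) - u = m → ∃ z ∈ K, ‖((u : ℝ) : UnitAddCircle) - z‖ ≤ τ := by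
    intro x hx u m hu
    obtain ⟨hx1, hx2, hx3, hx4⟩ := hmem x hx
    obtain ⟨z, hz, hz2⟩ := hE _ hx4
    refine ⟨z, hz, ?_⟩
    have hq0 : (0 : ℝ) < x.2.1 := by exact_mod_cast (hB _ hx2).pos
    have h3 : ‖((u : ℝ) : UnitAddCircle) - ((((x.1 : ℝ) * θ + x.2.2) / x.2.1 : ℝ) : UnitAddCircle)‖ ≤ 2 * |β| := by
      refine (norm_sub_coe_le _ _ (-m)).trans ?_
      have h4 : u - ((x.1 : ℝ) * θ + x.2.2) / x.2.1 - ((-m : ℤ) : ℝ) = -((x.1 : ℝ) / x.2.1 * β) := by
        push_cast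
        rw [← hu, hc, hθ]
        push_cast
        field_simp
        ring
      rw [h4, abs_neg, abs_mul, abs_of_nonneg (by positivity)]
      apply mul_le_mul_of_nonneg_right _ (abs_nonneg _)
      rw [div_le_iff₀ hq0]
      exact_mod_cast h2 _ hx1 _ hx2
    calc ‖((u : ℝ) : UnitAddCircle) - z‖ = ‖(((u : ℝ) : UnitAddCircle) - ((((x.1 : ℝ) * θ + x.2.2) / x.2.1 : ℝ) : UnitAddCircle)) +
          (((((x.1 : ℝ) * θ + x.2.2) / x.2.1 : ℝ) : UnitAddCircle) - z)‖ := by congr 1; abel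
      _ ≤ 2 * |β| + ρ := (norm_add_le _ _).trans (add_le_add h3 hz2)
      _ ≤ 2 * (1 / (32 * (Q ^ 2 * r))) + 1 / (16 * (Q ^ 2 * r)) := by linarith
      _ = τ := by rw [hτd]; field_simp; norm_num
  -- case A
  obtain ⟨TA, hTA⟩ : ∃ TA, TA = T.filter (fun x => ((x.2.1 : ℕ) : ℤ) ∣ c x) := ⟨_, rfl⟩
  obtain ⟨TB, hTB⟩ : ∃ TB, TB = T.filter (fun x => ¬ ((x.2.1 : ℕ) : ℤ) ∣ c x) := ⟨_, rfl⟩
  have hcard : T.card = TA.card + TB.card := by
    rw [hTA, hTB, card_filter_add_card_filter_not]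
  -- residue classes
  have hcl : ∀ m : ℤ, ((B.filter (fun p : ℕ => (r : ℤ) ∣ (p : ℤ) * b - m)).card : ℝ) ≤ D := by
    intro m
    apply hD _ (filter_subset _ _)
    intro p hp q hq
    rw [mem_filter] at hp hq
    have h3 : (r : ℤ) ∣ ((p : ℤ) - q) * b := by
      have h4 : ((p : ℤ) - q) * b = ((p : ℤ) * b - m) - ((q : ℤ) * b - m) := by ring
      rw [h4]
      exact dvd_sub hp.2 hq.2
    exact (hcop.symm.dvd_of_dvd_mul_right) h3
  have hA : (TA.card : ℝ) ≤ C * (4 * r : ℝ) ^ s * B.card * D := by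
    obtain ⟨I, hI⟩ : ∃ I : Finset ℕ, I = (range r).filter
      (fun a : ℕ => ∃ z ∈ K, ‖(((a : ℝ) / r : ℝ) : UnitAddCircle) - z‖ ≤ τ) := ⟨_, rfl⟩
    have hIc : (I.card : ℝ) ≤ C * (4 * r : ℝ) ^ s := by
      apply cardA hK r hr τ
      · rw [hτd]
        apply one_div_le_one_div_of_le (by positivity)
        have : (1 : ℝ) ≤ Q ^ 2 := by
          have : (1 : ℝ) ≤ Q := by exact_mod_cast (by omega : 1 ≤ Q)
          nlinarith
        nlinarith
      · intro a ha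
        rw [hI, mem_filter, mem_range] at ha
        exact ha
    obtain ⟨J, hJ⟩ : ∃ J : Finset (Σ _ : ℕ × ℕ, ℕ), J = (I ×ˢ B).sigma
      (fun x => B.filter (fun p : ℕ => (r : ℤ) ∣ (p : ℤ) * b - (x.2 : ℤ) * x.1)) := ⟨_, rfl⟩
    have h3 : TA.card ≤ J.card := by
      refine Finset.card_le_card_of_injOn
        (fun x => (⟨(((c x / x.2.1) % r).toNat, x.2.1), x.1⟩ : Σ _ : ℕ × ℕ, ℕ)) ?_ ?_
      · intro x hx
        rw [Finset.mem_coe, hTA, mem_filter] at hx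
        obtain ⟨hx1, hx2, hx3, hx4⟩ := hmem x hx.1
        obtain ⟨e, he⟩ := hx.2
        have hq0 : (x.2.1 : ℤ) ≠ 0 := by exact_mod_cast (hB _ hx2).ne_zero
        have he2 : c x / x.2.1 = e := by rw [he, Int.mul_ediv_cancel_left _ hq0]
        have he3 : (0 : ℤ) ≤ e % r := Int.emod_nonneg _ hrz
        have he4 : ((e % r).toNat : ℤ) = e % r := Int.toNat_of_nonneg he3
        have he5 : e % r < r := Int.emod_lt_of_pos _ (by omega)
        rw [Finset.mem_coe, hJ, mem_sigma, mem_product, mem_filter]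
        simp only
        rw [he2, he4]
        refine ⟨⟨?_, hx2⟩, hx1, ?_⟩
        · rw [hI, mem_filter, mem_range]
          refine ⟨by omega, ?_⟩
          apply hclose x hx.1 _ (e / r)
          have he6 : (((e % r).toNat : ℕ) : ℝ) = ((e % r : ℤ) : ℝ) := by
            rw [← he4]; rfl
          have he7 : (e : ℝ) = ((e % r : ℤ) : ℝ) + r * ((e / r : ℤ) : ℝ) := by
            exact_mod_cast (Int.emod_add_mul_ediv e r).symm
          have hq0' : (x.2.1 : ℝ) ≠ 0 := by exact_mod_cast (hB _ hx2).ne_zero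
          have he8 : (c x : ℝ) = x.2.1 * e := by rw [he]; push_cast; ring
          rw [he6, he8, he7]
          field_simp
          ring
        · have he9 : (x.1 : ℤ) * b = x.2.1 * e - x.2.2 * r := by
            have : c x = (x.1 : ℤ) * b + x.2.2 * r := by rw [hc]
            linarith
          have he10 : e = e % r + r * (e / r) := (Int.emod_add_mul_ediv e r).symm
          rw [he9]
          refine ⟨x.2.1 * (e / r) - x.2.2, ?_⟩
          have : (x.2.1 : ℤ) * e = x.2.1 * (e % r) + x.2.1 * (r * (e / r)) := by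
            rw [← mul_add, ← he10]
          rw [this]; ring
      · intro x hx y hy hxy
        rw [Finset.mem_coe, hTA, mem_filter] at hx hy
        obtain ⟨hx1, hx2, hx3, hx4⟩ := hmem x hx.1
        obtain ⟨hy1, hy2, hy3, hy4⟩ := hmem y hy.1
        obtain ⟨e, he⟩ := hx.2
        obtain ⟨e', he'⟩ := hy.2
        obtain ⟨p, q, k⟩ := x
        obtain ⟨p', q', k'⟩ := y
        simp only [Sigma.mk.injEq, Prod.mk.injEq, heq_eq_eq] at hxy
        obtain ⟨⟨hxy1, hxy2⟩, hxy3⟩ := hxy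
        simp only at hx2 hx3 hy3 he he'
        subst hxy2 hxy3
        have hq0 : (q : ℤ) ≠ 0 := by exact_mod_cast (hB _ hx2).ne_zero
        rw [he, he', Int.mul_ediv_cancel_left _ hq0, Int.mul_ediv_cancel_left _ hq0] at hxy1
        have h5 : e % r = e' % r := by
          have a1 := Int.emod_nonneg e hrz
          have a2 := Int.emod_nonneg e' hrz
          omega
        have h6 : (r : ℤ) ∣ e - e' := Int.dvd_of_emod_eq_zero (Int.emod_eq_emod_iff_emod_sub_eq_zero.1 h5)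
        obtain ⟨l, hl⟩ := h6
        have h7 : (q : ℤ) * (e - e') = ((k : ℤ) - k') * r := by
          rw [hc] at he he'
          simp only at he he'
          linarith
        have h8 : (q : ℤ) * l = (k : ℤ) - k' := by
          have : (r : ℤ) * (q * l) = r * ((k : ℤ) - k') := by rw [hl] at h7; linarith
          exact mul_left_cancel₀ hrz this
        have h9 := Int.eq_zero_of_abs_lt_dvd (⟨l, h8.symm⟩ : (q : ℤ) ∣ (k : ℤ) - k') (by
          rw [abs_lt]; constructor <;> omega)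
        have : k = k' := by omega
        rw [this]
    have h4 : (J.card : ℝ) ≤ I.card * B.card * D := by
      rw [hJ, card_sigma]
      push_cast
      calc ∑ x ∈ I ×ˢ B, ((B.filter (fun p : ℕ => (r : ℤ) ∣ (p : ℤ) * b - (x.2 : ℤ) * x.1)).card : ℝ) ≤
            ∑ _x ∈ I ×ˢ B, D := sum_le_sum fun x _ => hcl _
        _ = I.card * B.card * D := by
            rw [sum_const, card_product, nsmul_eq_mul]; push_cast; ring
    calc (TA.card : ℝ) ≤ J.card := by exact_mod_cast h3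
      _ ≤ I.card * B.card * D := h4
      _ ≤ C * (4 * r : ℝ) ^ s * B.card * D := by
          apply mul_le_mul_of_nonneg_right _ hD0
          exact mul_le_mul_of_nonneg_right hIc (Nat.cast_nonneg _)
  have hBB : (TB.card : ℝ) ≤ C * (4 * (Q ^ 2 * r) : ℝ) ^ s * D := by
    obtain ⟨I, hI⟩ : ∃ I : Finset (ℕ × ℕ), I = ((B.sigma (fun q => range (q * r))).image (fun x => (x.1, x.2))).filter
      (fun x => ¬ x.1 ∣ x.2 ∧ ∃ z ∈ K, ‖(((x.2 : ℝ) / (x.1 * r) : ℝ) : UnitAddCircle) - z‖ ≤ τ) := ⟨_, rfl⟩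
    have hImem : ∀ x : ℕ × ℕ, x ∈ I ↔ (x.1 ∈ B ∧ x.2 < x.1 * r) ∧ ¬ x.1 ∣ x.2 ∧
        ∃ z ∈ K, ‖(((x.2 : ℝ) / (x.1 * r) : ℝ) : UnitAddCircle) - z‖ ≤ τ := by
      intro x
      rw [hI, mem_filter, mem_image]
      constructor
      · rintro ⟨⟨y, hy, rfl⟩, h⟩
        rw [mem_sigma, mem_range] at hy
        exact ⟨hy, h⟩
      · rintro ⟨h1, h⟩
        exact ⟨⟨⟨x.1, x.2⟩, by rw [mem_sigma, mem_range]; exact h1, rfl⟩, h⟩
    have hIc : (I.card : ℝ) ≤ C * (4 * (Q ^ 2 * r) : ℝ) ^ s := by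
      apply cardB hK r hr Q τ hτd.le
      intro x hx
      rw [hImem] at hx
      exact ⟨hB _ hx.1.1, hQ _ hx.1.1, hx.1.2, hx.2.1, hx.2.2⟩
    obtain ⟨J, hJ⟩ : ∃ J : Finset (Σ _ : ℕ × ℕ, ℕ), J = I.sigma
      (fun x => B.filter (fun p : ℕ => (r : ℤ) ∣ (p : ℤ) * b - (x.2 : ℤ))) := ⟨_, rfl⟩
    have h3 : TB.card ≤ J.card := by
      refine Finset.card_le_card_of_injOn
        (fun x => (⟨(x.2.1, (c x % (x.2.1 * r)).toNat), x.1⟩ : Σ _ : ℕ × ℕ, ℕ)) ?_ ?_
      · intro x hx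
        rw [Finset.mem_coe, hTB, mem_filter] at hx
        obtain ⟨hx1, hx2, hx3, hx4⟩ := hmem x hx.1
        have hq0 : 0 < x.2.1 := (hB _ hx2).pos
        have hqr : (0 : ℤ) < (x.2.1 : ℤ) * r := by positivity
        have he3 : (0 : ℤ) ≤ c x % (x.2.1 * r) := Int.emod_nonneg _ hqr.ne'
        have he4 : ((c x % (x.2.1 * r)).toNat : ℤ) = c x % (x.2.1 * r) := Int.toNat_of_nonneg he3
        have he5 : c x % (x.2.1 * r) < x.2.1 * r := Int.emod_lt_of_pos _ hqr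
        have he6 : c x = c x % (x.2.1 * r) + (x.2.1 * r) * (c x / (x.2.1 * r)) := (Int.emod_add_mul_ediv _ _).symm
        rw [Finset.mem_coe, hJ, mem_sigma, mem_filter, hImem]
        simp only
        refine ⟨⟨⟨hx2, ?_⟩, ?_, ?_⟩, hx1, ?_⟩
        · have : ((c x % (x.2.1 * r)).toNat : ℤ) < ((x.2.1 * r : ℕ) : ℤ) := by rw [he4]; push_cast; exact he5
          exact_mod_cast this
        · intro hdv
          apply hx.2
          have h5 : (x.2.1 : ℤ) ∣ c x % (x.2.1 * r) := by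
            rw [← he4]; exact_mod_cast hdv
          rw [he6]
          exact dvd_add h5 ⟨r * (c x / (x.2.1 * r)), by ring⟩
        · apply hclose x hx.1 _ (c x / (x.2.1 * r))
          have he7 : (((c x % (x.2.1 * r)).toNat : ℕ) : ℝ) = ((c x % (x.2.1 * r) : ℤ) : ℝ) := by
            rw [← he4]; rfl
          have he8 : (c x : ℝ) = ((c x % (x.2.1 * r) : ℤ) : ℝ) + (x.2.1 * r) * ((c x / (x.2.1 * r) : ℤ) : ℝ) := by
            exact_mod_cast he6
          have hq0' : (x.2.1 : ℝ) ≠ 0 := by exact_mod_cast hq0.ne'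
          rw [he7, he8]
          field_simp
          ring
        · rw [he4]
          have he9 : (x.1 : ℤ) * b = c x - x.2.2 * r := by rw [hc]; ring
          rw [he9]
          refine ⟨x.2.1 * (c x / (x.2.1 * r)) - x.2.2, ?_⟩
          linear_combination he6
      · intro x hx y hy hxy
        rw [Finset.mem_coe, hTB, mem_filter] at hx hy
        obtain ⟨hx1, hx2, hx3, hx4⟩ := hmem x hx.1
        obtain ⟨hy1, hy2, hy3, hy4⟩ := hmem y hy.1
        obtain ⟨p, q, k⟩ := x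
        obtain ⟨p', q', k'⟩ := y
        simp only [Sigma.mk.injEq, Prod.mk.injEq, heq_eq_eq] at hxy
        obtain ⟨⟨hxy1, hxy2⟩, hxy3⟩ := hxy
        simp only at hx2 hx3 hy3
        subst hxy1 hxy3
        have hqr : (0 : ℤ) < (q : ℤ) * r := by
          have := (hB _ hx2).pos
          positivity
        have h5 : c ⟨p, q, k⟩ % (q * r) = c ⟨p, q, k'⟩ % (q * r) := by
          have a1 := Int.emod_nonneg (c ⟨p, q, k⟩) hqr.ne'
          have a2 := Int.emod_nonneg (c ⟨p, q, k'⟩) hqr.ne'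
          have a3 : ((c ⟨p, q, k⟩ % (q * r)).toNat : ℤ) = ((c ⟨p, q, k'⟩ % (q * r)).toNat : ℤ) := by exact_mod_cast hxy2
          rwa [Int.toNat_of_nonneg a1, Int.toNat_of_nonneg a2] at a3
        have h6 : ((q : ℤ) * r) ∣ c ⟨p, q, k⟩ - c ⟨p, q, k'⟩ :=
          Int.dvd_of_emod_eq_zero (Int.emod_eq_emod_iff_emod_sub_eq_zero.1 h5)
        have h7 : c ⟨p, q, k⟩ - c ⟨p, q, k'⟩ = ((k : ℤ) - k') * r := by rw [hc]; ring
        rw [h7] at h6
        have h8 : (q : ℤ) ∣ (k : ℤ) - k' := Int.dvd_of_mul_dvd_mul_right hrz h6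
        have h9 := Int.eq_zero_of_abs_lt_dvd h8 (by
          rw [abs_lt]; constructor <;> omega)
        have : k = k' := by omega
        rw [this]
    have h4 : (J.card : ℝ) ≤ I.card * D := by
      rw [hJ, card_sigma]
      push_cast
      calc ∑ x ∈ I, ((B.filter (fun p : ℕ => (r : ℤ) ∣ (p : ℤ) * b - (x.2 : ℤ))).card : ℝ) ≤
            ∑ _x ∈ I, D := sum_le_sum fun x _ => hcl _
        _ = I.card * D := by
            rw [sum_const, nsmul_eq_mul]
    calc (TB.card : ℝ) ≤ J.card := by exact_mod_cast h3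
      _ ≤ I.card * D := h4
      _ ≤ C * (4 * (Q ^ 2 * r) : ℝ) ^ s * D := mul_le_mul_of_nonneg_right hIc hD0
  rw [hsum, hcard]
  push_cast
  linarith

end Pool.Agent.TH327.Dim
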