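import Pool.Agent.TH327.Dim.Sys
import Pool.Agent.TH327.Thin.Unit

/-! # Automorphisms of C*-algebras with Arveson spectra of small dimension -/

set_option autoImplicit false

namespace Pool.Agent.TH327.Dim

open Finset Filter Topology MeasureTheory
open scoped Pointwise
open Pool.Agent.TH327.Thin (SpecIn norm_fourier_apply specIn_star orb norm_orb orb_mul orb_add orb_smul orb_star
  orb_zero uspec specIn_unitary norm_unitary_zpow specIn_unitary_neg)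

/-- the bounded sequences with spectrum in `K` -/
def Seqs (K : Set UnitAddCircle) : Set (ℤ → ℂ) := {a | (∀ n, ‖a n‖ ≤ 1) ∧ SpecIn K a}

/-- evaluation of sequences -/
noncomputable def evS (K : Set UnitAddCircle) (a : Seqs K) (n : ℕ) : ℂ →ₗ[ℂ] ℂ := a.1 n • LinearMap.id

lemma evS_le (K : Set UnitAddCircle) (a : Seqs K) (n : ℕ) (f : ℂ) : ‖evS K a n f‖ ≤ ‖f‖ := by
  unfold evS
  rw [LinearMap.smul_apply, norm_smul]
  exact mul_le_of_le_one_left (norm_nonneg _) (a.2.1 n)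

lemma specEl_S (K : Set UnitAddCircle) : SpecEl (evS K) K (1 : ℂ) := by
  refine ⟨1, fun a => ⟨a.1, a.2.1, fun n _ => ?_, a.2.2⟩⟩
  unfold evS
  simp

/-- norms by functionals -/
lemma norm_func {E : Type*} [NormedAddCommGroup E] [NormedSpace ℂ E] (v : E) :
    ∃ ρ : E →L[ℂ] ℂ, ‖ρ‖ ≤ 1 ∧ ‖ρ v‖ = ‖v‖ := by
  obtain ⟨ρ, h1, h2⟩ := exists_dual_vector'' ℂ v
  refine ⟨ρ, h1, ?_⟩
  rw [h2]
  simp

section banach

variable {E : Type*} [NormedAddCommGroup E] [NormedSpace ℂ E] [CompleteSpace E]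

lemma seqs_of {K : Set UnitAddCircle} {a : ℤ → E} (ha : ∀ n, ‖a n‖ ≤ 1) (hs : SpecIn K a) {ρ : E →L[ℂ] ℂ}
    (hρ : ‖ρ‖ ≤ 1) : (fun n => ρ (a n)) ∈ Seqs K := by
  refine ⟨fun n => ?_, specIn_clm ha hs ρ⟩
  exact (ρ.le_opNorm _).trans (mul_le_one₀ hρ (norm_nonneg _) (ha n))

/-- windows, for sequences with values in a Banach space -/
theorem win_banach {g : ℕ → ℂ} {K : Set UnitAddCircle} (hPW : PW {g} (slice (Seqs K)) (tw (evS K)) (1 : ℂ))
    {ε : ℝ} (hε : 0 < ε) : ∃ H0 : ℕ, ∀ H : ℕ, H0 ≤ H → ∀ N : ℕ, H ≤ N →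
      ∀ (E : Type*) [NormedAddCommGroup E] [NormedSpace ℂ E] [CompleteSpace E] (a : ℕ → ℤ → E),
        (∀ x n, ‖a x n‖ ≤ 1) → (∀ x, SpecIn K (a x)) → ∀ θ : UnitAddCircle,
          ∑ x ∈ range N, ‖∑ n ∈ Ioc x (x + H), (g n * fourier (n : ℤ) θ) • a x n‖ ≤ ε * H * N := by
  obtain ⟨H0, h0⟩ := hPW ε hε
  refine ⟨H0, fun H hH N hN E _ _ _ a ha hs θ => ?_⟩
  choose ρ hρ1 hρ2 using fun x : ℕ => norm_func (∑ n ∈ Ioc x (x + H), (g n * fourier (n : ℤ) θ) • a x n)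
  have h1 := h0 H hH N hN θ g rfl
    (fun x => (⟨fun n => ρ x (a x n), seqs_of (ha x) (hs x) (hρ1 x)⟩, θ)) (fun _ => rfl)
  refine le_trans (le_of_eq ?_) h1
  refine sum_congr rfl fun x _ => ?_
  rw [← hρ2 x, map_sum]
  congr 1
  refine sum_congr rfl fun n _ => ?_
  unfold tw evS
  simp only [LinearMap.smul_apply, LinearMap.id_apply, smul_eq_mul, map_smul]
  ring

theorem full_banach {g : ℕ → ℂ} (hg : ∀ n, ‖g n‖ ≤ 1) {K : Set UnitAddCircle}
    (hPW : PW {g} (slice (Seqs K)) (tw (evS K)) (1 : ℂ))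
    {ε : ℝ} (hε : 0 < ε) : ∃ N0 : ℕ, ∀ N : ℕ, N0 ≤ N →
      ∀ (E : Type*) [NormedAddCommGroup E] [NormedSpace ℂ E] [CompleteSpace E] (a : ℤ → E),
        (∀ n, ‖a n‖ ≤ 1) → SpecIn K a → ∀ θ : UnitAddCircle,
          ‖∑ n ∈ Icc 1 N, (g n * fourier (n : ℤ) θ) • a n‖ ≤ ε * N := by
  have hF : ∀ k ∈ ({g} : Set (ℕ → ℂ)), ∀ n, ‖k n‖ ≤ 1 := by rintro k rfl; exact hg
  obtain ⟨N0, h0⟩ := PW_full hF (tw_le (evS_le K)) hPW ε hε
  refine ⟨N0, fun N hN E _ _ _ a ha hs θ => ?_⟩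
  obtain ⟨ρ, hρ1, hρ2⟩ := norm_func (∑ n ∈ Icc 1 N, (g n * fourier (n : ℤ) θ) • a n)
  have h1 := h0 N hN θ g rfl (⟨fun n => ρ (a n), seqs_of ha hs hρ1⟩, θ) rfl
  refine le_trans (le_of_eq ?_) h1
  rw [← hρ2, map_sum]
  congr 1
  refine sum_congr rfl fun n _ => ?_
  unfold tw evS
  simp only [LinearMap.smul_apply, LinearMap.id_apply, smul_eq_mul, map_smul]
  ring

end banach

section cst

variable {A : Type*} [NonUnitalCStarAlgebra A] (α : A ≃⋆ₐ[ℂ] A)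

lemma orb_bound (x : A) (n : ℤ) : ‖orb α x n‖ ≤ ‖x‖ := (norm_orb α x n).le

/-- Arveson spectrum in a set of upper box dimension less than one half -/
def HalfEl (x : A) : Prop := ∃ K : Set UnitAddCircle, HalfDim K ∧ SpecIn K (orb α x)

/-- Arveson spectrum in a set of upper box dimension zero -/
def ZeroEl (x : A) : Prop := ∃ K : Set UnitAddCircle, ZeroDim K ∧ SpecIn K (orb α x)

variable {α}

lemma el_add {K₁ K₂ : Set UnitAddCircle} {x y : A} (hx : SpecIn K₁ (orb α x)) (hy : SpecIn K₂ (orb α y)) :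
    SpecIn (K₁ ∪ K₂) (orb α (x + y)) := by
  have := specIn_add (orb_bound α x) (orb_bound α y) (SpecIn.mono hx Set.subset_union_left)
    (SpecIn.mono hy (Set.subset_union_right (s := K₁)))
  convert this using 2 with n
  exact orb_add α x y n

lemma el_smul {K : Set UnitAddCircle} {x : A} (hx : SpecIn K (orb α x)) (c : ℂ) : SpecIn K (orb α (c • x)) := by
  have := specIn_smul hx c
  convert this using 2 with n
  exact orb_smul α c x n

lemma el_star {K : Set UnitAddCircle} {x : A} (hx : SpecIn K (orb α x)) : SpecIn {η | -η ∈ K} (orb α (star x)) := by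
  have := specIn_star hx
  convert this using 2 with n
  exact orb_star α x n

lemma el_mul {K₁ K₂ : Set UnitAddCircle} {x y : A} (hx : SpecIn K₁ (orb α x)) (hy : SpecIn K₂ (orb α y)) :
    SpecIn (closure K₁ + closure K₂) (orb α (x * y)) := by
  have := specIn_mul isClosed_closure isClosed_closure (orb_bound α x) (orb_bound α y)
    (SpecIn.mono hx subset_closure) (SpecIn.mono hy subset_closure)
  convert this using 2 with n
  exact orb_mul α x y n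

lemma el_zero (K : Set UnitAddCircle) : SpecIn K (orb α (0 : A)) := by
  intro f hf hU
  have : ∀ n, f n • orb α (0 : A) n = 0 := fun n => by rw [orb_zero, smul_zero]
  rw [tsum_congr this, tsum_zero]

variable (α)

/-- the elements of zero-dimensional spectrum form a *-algebra -/
def zeroA : NonUnitalStarSubalgebra ℂ A where
  carrier := {x | ZeroEl α x}
  mul_mem' := by
    rintro x y ⟨K₁, hK₁, hx⟩ ⟨K₂, hK₂, hy⟩
    exact ⟨_, hK₁.closure.add hK₂.closure, el_mul hx hy⟩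
  add_mem' := by
    rintro x y ⟨K₁, hK₁, hx⟩ ⟨K₂, hK₂, hy⟩
    exact ⟨_, hK₁.union hK₂, el_add hx hy⟩
  zero_mem' := ⟨{0}, zeroDim_singleton 0, el_zero _⟩
  smul_mem' := by
    rintro c x ⟨K, hK, hx⟩
    exact ⟨K, hK, el_smul hx c⟩
  star_mem' := by
    rintro x ⟨K, hK, hx⟩
    exact ⟨_, hK.neg, el_star hx⟩

/-- the elements of spectrum of dimension less than one half form a subspace -/
def halfA : Submodule ℂ A where
  carrier := {x | HalfEl α x}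
  add_mem' := by
    rintro x y ⟨K₁, hK₁, hx⟩ ⟨K₂, hK₂, hy⟩
    exact ⟨_, hK₁.union hK₂, el_add hx hy⟩
  zero_mem' := ⟨{0}, (zeroDim_singleton 0).half, el_zero _⟩
  smul_mem' := by
    rintro c x ⟨K, hK, hx⟩
    exact ⟨K, hK, el_smul hx c⟩

variable {α}

lemma halfEl_mul {x y : A} (hx : HalfEl α x) (hy : ZeroEl α y) : HalfEl α (x * y) := by
  obtain ⟨K₁, hK₁, hx⟩ := hx
  obtain ⟨K₂, hK₂, hy⟩ := hy
  exact ⟨_, hK₁.closure.add_zero hK₂.closure, el_mul hx hy⟩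

lemma halfEl_mul' {x y : A} (hx : HalfEl α x) (hy : ZeroEl α y) : HalfEl α (y * x) := by
  obtain ⟨K₁, hK₁, hx⟩ := hx
  obtain ⟨K₂, hK₂, hy⟩ := hy
  refine ⟨_, hK₁.closure.add_zero hK₂.closure, ?_⟩
  rw [add_comm]
  exact el_mul hy hx

lemma halfEl_star {x : A} (hx : HalfEl α x) : HalfEl α (star x) := by
  obtain ⟨K, hK, hx⟩ := hx
  exact ⟨_, hK.neg, el_star hx⟩

/-- the values of a functional along the orbit -/
noncomputable def evC (α : A ≃⋆ₐ[ℂ] A) (ρ : {ρ : A →L[ℂ] ℂ // ‖ρ‖ ≤ 1}) (n : ℕ) : A →ₗ[ℂ] ℂ where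
  toFun x := ρ.1 (orb α x n)
  map_add' x y := by rw [orb_add, map_add]
  map_smul' c x := by rw [orb_smul, map_smul, RingHom.id_apply]

lemma evC_le (ρ : {ρ : A →L[ℂ] ℂ // ‖ρ‖ ≤ 1}) (n : ℕ) (x : A) : ‖evC α ρ n x‖ ≤ ‖x‖ :=
  (ρ.1.le_opNorm _).trans (by
    rw [norm_orb]
    exact mul_le_of_le_one_left (norm_nonneg _) ρ.2)

lemma specEl_C {K : Set UnitAddCircle} {x : A} (hx : SpecIn K (orb α x)) : SpecEl (evC α) K x :=
  ⟨‖x‖, fun ρ => ⟨fun n => ρ.1 (orb α x n), fun n => (ρ.1.le_opNorm _).trans (by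
    rw [norm_orb]
    exact mul_le_of_le_one_left (norm_nonneg _) ρ.2), fun n _ => rfl, specIn_clm (orb_bound α x) hx ρ.1⟩⟩

theorem PW_el {x : A} (hx : x ∈ closure {x | HalfEl α x}) :
    PW {muf} (slice {ρ : A →L[ℂ] ℂ // ‖ρ‖ ≤ 1}) (tw (evC α)) x ∧
    PW {laf} (slice {ρ : A →L[ℂ] ℂ // ‖ρ‖ ≤ 1}) (tw (evC α)) x := by
  have h1 : x ∈ (Submodule.span ℂ {x | HalfEl α x}).topologicalClosure :=
    closure_mono Submodule.subset_span hx
  refine ⟨PW_span (by rintro h rfl; exact muf_le) (tw_le evC_le) ?_ h1,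
    PW_span (by rintro h rfl; exact laf_le) (tw_le evC_le) ?_ h1⟩
  · rintro g ⟨K, hK, hg⟩
    exact PW_half hK (specEl_C hg)
  · rintro g ⟨K, hK, hg⟩
    exact PW_half_lam hK (specEl_C hg)

theorem norm_of_PW {g : ℕ → ℂ} (hg : ∀ n, ‖g n‖ ≤ 1) {x : A}
    (h : PW {g} (slice {ρ : A →L[ℂ] ℂ // ‖ρ‖ ≤ 1}) (tw (evC α)) x) {ε : ℝ} (hε : 0 < ε) :
    (∃ H0 : ℕ, ∀ H : ℕ, H0 ≤ H → ∀ N : ℕ, H ≤ N → ∀ θ : UnitAddCircle,
      ∑ n ∈ range N, ‖∑ m ∈ Ioc n (n + H), (g m * fourier (m : ℤ) θ) • orb α x m‖ ≤ ε * H * N) ∧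
    ∃ N0 : ℕ, ∀ N : ℕ, N0 ≤ N → ∀ θ : UnitAddCircle,
      ‖∑ m ∈ Icc 1 N, (g m * fourier (m : ℤ) θ) • orb α x m‖ ≤ ε * N := by
  have hF : ∀ k ∈ ({g} : Set (ℕ → ℂ)), ∀ n, ‖k n‖ ≤ 1 := by rintro k rfl; exact hg
  constructor
  · obtain ⟨H0, h0⟩ := h ε hε
    refine ⟨H0, fun H hH N hN θ => ?_⟩
    choose ρ hρ1 hρ2 using fun n : ℕ => norm_func (∑ m ∈ Ioc n (n + H), (g m * fourier (m : ℤ) θ) • orb α x m)
    have h1 := h0 H hH N hN θ g rfl (fun n => (⟨ρ n, hρ1 n⟩, θ)) (fun _ => rfl)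
    refine le_trans (le_of_eq ?_) h1
    refine sum_congr rfl fun n _ => ?_
    rw [← hρ2 n, map_sum]
    congr 1
    refine sum_congr rfl fun m _ => ?_
    unfold tw
    rw [LinearMap.smul_apply, map_smul, smul_eq_mul, smul_eq_mul, mul_assoc]
    rfl
  · obtain ⟨N0, h0⟩ := PW_full hF (tw_le evC_le) h ε hε
    refine ⟨N0, fun N hN θ => ?_⟩
    obtain ⟨ρ, hρ1, hρ2⟩ := norm_func (∑ m ∈ Icc 1 N, (g m * fourier (m : ℤ) θ) • orb α x m)
    have h1 := h0 N hN θ g rfl (⟨ρ, hρ1⟩, θ) rfl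
    refine le_trans (le_of_eq ?_) h1
    rw [← hρ2, map_sum]
    congr 1
    refine sum_congr rfl fun m _ => ?_
    unfold tw
    rw [LinearMap.smul_apply, map_smul, smul_eq_mul, smul_eq_mul, mul_assoc]
    rfl

end cst

section inner

variable {B : Type*} [CStarAlgebra B]

lemma isClosed_uspec (u : unitary B) : IsClosed (uspec u) := by
  unfold uspec
  exact (spectrum.isClosed (𝕜 := ℂ) (u : B)).preimage (fourier 1).continuous

lemma specIn_uv (u v : unitary B) (x : B) :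
    SpecIn (uspec u + {θ | -θ ∈ uspec v}) (fun n : ℤ => ((u ^ n : unitary B) : B) * x * ((v ^ (-n) : unitary B) : B)) := by
  have h1 : SpecIn (uspec u) (fun n : ℤ => ((u ^ n : unitary B) : B) * x) :=
    specIn_clm (norm_unitary_zpow u) (specIn_unitary u) ((ContinuousLinearMap.mul ℂ B).flip x)
  have h2 := specIn_unitary_neg v
  exact specIn_mul (isClosed_uspec u) ((isClosed_uspec v).preimage continuous_neg) (B₁ := ‖x‖) (B₂ := 1)
    (fun n => (norm_mul_le _ _).trans (mul_le_of_le_one_left (norm_nonneg _) (norm_unitary_zpow u n)))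
    (fun n => norm_unitary_zpow v (-n)) h1 h2

end inner

end Pool.Agent.TH327.Dim
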