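import Pool.Agent.TH327.Dim.Main
import Pool.Agent.TH327.Thin.Shift

/-! # Duality: weighted sums against sequences with spectrum near a small set -/

set_option autoImplicit false

namespace Pool.Agent.TH327.Dim

open Finset MeasureTheory Filter Topology
open Pool.Agent.H807R2.Dav (ee norm_ee ee_add ee_int ee_pow ee_zero ee_add_int)
open Pool.Agent.TH327.Thin (norm_fourier_apply vol_univ integral_fourier)

/-- the transform of a summable sequence -/
noncomputable def FB (b : ℤ → ℂ) (η : UnitAddCircle) : ℂ := ∑' m, b m * fourier (-m) η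

lemma FB_summable {b : ℤ → ℂ} (hb : Summable fun n => ‖b n‖) (η : UnitAddCircle) :
    Summable fun m : ℤ => b m * fourier (-m) η :=
  Summable.of_norm_bounded hb fun m => by rw [norm_mul, norm_fourier_apply, mul_one]

lemma FB_norm {b : ℤ → ℂ} (hb : Summable fun n => ‖b n‖) (η : UnitAddCircle) :
    ‖FB b η‖ ≤ ∑' m, ‖b m‖ :=
  tsum_of_norm_bounded hb.hasSum fun m => by rw [norm_mul, norm_fourier_apply, mul_one]

lemma FB_cont {b : ℤ → ℂ} (hb : Summable fun n => ‖b n‖) : Continuous (FB b) := by
  refine continuous_tsum (u := fun m => ‖b m‖) (fun m => ?_) hb (fun m η => ?_)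
  · exact continuous_const.mul (map_continuous (fourier (-m)))
  · rw [norm_mul, norm_fourier_apply, mul_one]

lemma int_circ {f : UnitAddCircle → ℂ} (hf : Continuous f) : Integrable f volume :=
  hf.integrable_of_hasCompactSupport (HasCompactSupport.of_compactSpace _)

lemma FB_coeff {b : ℤ → ℂ} (hb : Summable fun n => ‖b n‖) (n : ℤ) :
    ∫ η : UnitAddCircle, (fourier n η : ℂ) * FB b η = b n := by
  have hi : ∀ m : ℤ, Integrable (fun η : UnitAddCircle => (fourier n η : ℂ) * (b m * fourier (-m) η)) volume :=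
    fun m => int_circ ((map_continuous (fourier n)).mul (continuous_const.mul (map_continuous (fourier (-m)))))
  have e : ∀ η : UnitAddCircle, (fourier n η : ℂ) * FB b η = ∑' m, (fourier n η : ℂ) * (b m * fourier (-m) η) := by
    intro η
    unfold FB
    rw [tsum_mul_left]
  rw [integral_congr_ae (Filter.Eventually.of_forall e)]
  have hnorm : ∀ (m : ℤ) (η : UnitAddCircle), ‖(fourier n η : ℂ) * (b m * fourier (-m) η)‖ = ‖b m‖ := by
    intro m η
    rw [norm_mul, norm_mul, norm_fourier_apply, norm_fourier_apply, mul_one, one_mul]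
  have hsum : Summable fun m : ℤ => ∫ η : UnitAddCircle, ‖(fourier n η : ℂ) * (b m * fourier (-m) η)‖ := by
    refine hb.congr fun m => ?_
    simp_rw [hnorm]
    simp [vol_univ]
  have h := hasSum_integral_of_summable_integral_norm hi hsum
  rw [← h.tsum_eq]
  have hval : ∀ m : ℤ, ∫ η : UnitAddCircle, (fourier n η : ℂ) * (b m * fourier (-m) η) = if m = n then b m else 0 := by
    intro m
    have : ∀ η : UnitAddCircle, (fourier n η : ℂ) * (b m * fourier (-m) η) = b m * fourier (n - m) η := by
      intro η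
      rw [sub_eq_add_neg, fourier_add]
      ring
    simp_rw [this]
    rw [integral_const_mul, integral_fourier]
    by_cases hmn : m = n
    · subst hmn; simp
    · rw [if_neg (by omega), if_neg hmn, mul_zero]
  simp_rw [hval]
  rw [tsum_ite_eq]

lemma FB_pars {b : ℤ → ℂ} (hb : Summable fun n => ‖b n‖) :
    ∫ η : UnitAddCircle, ‖FB b η‖ ^ 2 = ∑' n, ‖b n‖ ^ 2 := by
  have h1 : ((∫ η : UnitAddCircle, ‖FB b η‖ ^ 2 : ℝ) : ℂ) = ((∑' n, ‖b n‖ ^ 2 : ℝ) : ℂ) := by
    rw [← integral_complex_ofReal]
    have e : ∀ η : UnitAddCircle, ((‖FB b η‖ ^ 2 : ℝ) : ℂ) =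
        ∑' m, (starRingEnd ℂ) (b m) * ((fourier m η : ℂ) * FB b η) := by
      intro η
      rw [Complex.ofReal_pow, ← Complex.conj_mul']
      have e1 : (starRingEnd ℂ) (FB b η) = ∑' m, (starRingEnd ℂ) (b m) * (fourier m η : ℂ) := by
        unfold FB
        rw [Complex.conj_tsum]
        refine tsum_congr fun m => ?_
        rw [map_mul, fourier_neg, Complex.conj_conj]
      rw [e1, ← tsum_mul_right]
      exact tsum_congr fun m => by ring
    rw [integral_congr_ae (Filter.Eventually.of_forall e)]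
    have hi : ∀ m : ℤ, Integrable (fun η : UnitAddCircle => (starRingEnd ℂ) (b m) * ((fourier m η : ℂ) * FB b η)) volume :=
      fun m => int_circ (continuous_const.mul ((map_continuous (fourier m)).mul (FB_cont hb)))
    have hsum : Summable fun m : ℤ => ∫ η : UnitAddCircle, ‖(starRingEnd ℂ) (b m) * ((fourier m η : ℂ) * FB b η)‖ := by
      refine Summable.of_nonneg_of_le (fun m => integral_nonneg fun η => norm_nonneg _) (fun m => ?_)
        (hb.mul_right (∑' m, ‖b m‖))
      calc ∫ η : UnitAddCircle, ‖(starRingEnd ℂ) (b m) * ((fourier m η : ℂ) * FB b η)‖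
          ≤ ∫ η : UnitAddCircle, ‖b m‖ * (∑' m, ‖b m‖) := by
            refine integral_mono (hi m).norm (integrable_const _) fun η => ?_
            simp only
            rw [norm_mul, norm_mul, norm_fourier_apply, one_mul, RCLike.norm_conj]
            exact mul_le_mul_of_nonneg_left (FB_norm hb η) (norm_nonneg _)
        _ = ‖b m‖ * (∑' m, ‖b m‖) := by simp [vol_univ]
    have h := hasSum_integral_of_summable_integral_norm hi hsum
    rw [← h.tsum_eq, Complex.ofReal_tsum]
    refine tsum_congr fun m => ?_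
    rw [integral_const_mul, FB_coeff hb, Complex.conj_mul']
    push_cast
    rfl
  exact_mod_cast h1

/-- the exponential sum on the circle -/
noncomputable def SC (h : ℕ → ℂ) (N : ℕ) (η : UnitAddCircle) : ℂ := ∑ n ∈ Icc 1 N, h n * fourier (n : ℤ) η

lemma SC_coe (h : ℕ → ℂ) (N : ℕ) (θ : ℝ) : SC h N (θ : UnitAddCircle) = SS h N θ := by
  unfold SC SS
  refine sum_congr rfl fun n _ => ?_
  rw [Pool.Agent.TH327.Thin.fourier_coe]
  unfold ee
  congr 2
  push_cast
  ring

lemma SC_cont (h : ℕ → ℂ) (N : ℕ) : Continuous (SC h N) := by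
  unfold SC
  exact continuous_finsetSum _ fun n _ => continuous_const.mul (map_continuous (fourier (n : ℤ)))

/-- duality -/
theorem dual (K : Set UnitAddCircle) (ρ : ℝ) {b : ℤ → ℂ} (hb : Summable fun n => ‖b n‖)
    (hz : ∀ η : UnitAddCircle, (∀ x ∈ K, ρ ≤ ‖η - x‖) → FB b η = 0) (h : ℕ → ℂ) (N : ℕ) (t : ℝ) (ht : 0 < t) :
    ‖∑ n ∈ Icc 1 N, h n * b n‖ ≤
      t / 2 * (∫ θ in (0 : ℝ)..1, (Nb K ρ).indicator (fun _ => (1 : ℝ)) θ * ‖SS h N θ‖ ^ 2) +
      1 / (2 * t) * ∑' m, ‖b m‖ ^ 2 := by
  have e1 : ∑ n ∈ Icc 1 N, h n * b n = ∫ η : UnitAddCircle, SC h N η * FB b η := by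
    unfold SC
    simp_rw [sum_mul]
    have hii : ∀ n ∈ Icc 1 N, Integrable (fun η : UnitAddCircle => h n * fourier (n : ℤ) η * FB b η) volume :=
      fun n _ => int_circ ((continuous_const.mul (map_continuous (fourier (n : ℤ)))).mul (FB_cont hb))
    rw [integral_finsetSum _ hii]
    refine sum_congr rfl fun n _ => ?_
    simp_rw [mul_assoc]
    rw [integral_const_mul, FB_coeff hb]
  -- the set on the circle
  obtain ⟨D, hD⟩ : ∃ D : Set UnitAddCircle, D = {η | ∃ x ∈ K, ‖η - x‖ < ρ} := ⟨_, rfl⟩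
  have hDo : IsOpen D := by
    have : D = ⋃ x ∈ K, {η : UnitAddCircle | ‖η - x‖ < ρ} := by
      rw [hD]; ext θ; simp
    rw [this]
    exact isOpen_biUnion fun x _ => isOpen_lt (by fun_prop) continuous_const
  have hc : Continuous fun η => ‖SC h N η‖ ^ 2 := (SC_cont h N).norm.pow 2
  have hcI : Integrable (fun η => ‖SC h N η‖ ^ 2) (volume : Measure UnitAddCircle) :=
    hc.integrable_of_hasCompactSupport (HasCompactSupport.of_compactSpace _)
  have hcB : Integrable (fun η => ‖FB b η‖ ^ 2) (volume : Measure UnitAddCircle) :=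
    ((FB_cont hb).norm.pow 2).integrable_of_hasCompactSupport (HasCompactSupport.of_compactSpace _)
  have e2 : ∫ θ in (0 : ℝ)..1, (Nb K ρ).indicator (fun _ => (1 : ℝ)) θ * ‖SS h N θ‖ ^ 2 =
      ∫ η : UnitAddCircle, D.indicator (fun η => ‖SC h N η‖ ^ 2) η := by
    have h2 := UnitAddCircle.intervalIntegral_preimage 0 (D.indicator (fun η => ‖SC h N η‖ ^ 2))
    rw [zero_add] at h2
    rw [← h2]
    congr 1
    funext θ
    by_cases hθ : θ ∈ Nb K ρ
    · rw [Set.indicator_of_mem hθ, one_mul, Set.indicator_of_mem (by rw [hD]; exact hθ), SC_coe]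
    · rw [Set.indicator_of_notMem hθ, zero_mul, Set.indicator_of_notMem (by rw [hD]; exact hθ)]
  rw [e1, e2]
  calc ‖∫ η : UnitAddCircle, SC h N η * FB b η‖ ≤ ∫ η : UnitAddCircle, ‖SC h N η * FB b η‖ :=
        norm_integral_le_integral_norm _
    _ ≤ ∫ η : UnitAddCircle, (t / 2 * D.indicator (fun η => ‖SC h N η‖ ^ 2) η + 1 / (2 * t) * ‖FB b η‖ ^ 2) := by
        apply integral_mono
        · exact (int_circ ((SC_cont h N).mul (FB_cont hb))).norm
        · exact ((hcI.indicator hDo.measurableSet).const_mul _).add (hcB.const_mul _)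
        intro η
        simp only
        rw [norm_mul]
        by_cases hη : η ∈ D
        · rw [Set.indicator_of_mem hη]
          have h3 : 0 ≤ (t * ‖SC h N η‖ - ‖FB b η‖) ^ 2 := sq_nonneg _
          have h4 : t / 2 * ‖SC h N η‖ ^ 2 + 1 / (2 * t) * ‖FB b η‖ ^ 2 - ‖SC h N η‖ * ‖FB b η‖ =
              1 / (2 * t) * (t * ‖SC h N η‖ - ‖FB b η‖) ^ 2 := by field_simp; ring
          have h5 : 0 ≤ 1 / (2 * t) * (t * ‖SC h N η‖ - ‖FB b η‖) ^ 2 := by positivity
          linarith
        · have h0 : FB b η = 0 := by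
            apply hz
            intro x hx
            by_contra hlt
            apply hη
            rw [hD]
            exact ⟨x, hx, not_le.1 hlt⟩
          rw [Set.indicator_of_notMem hη, h0]
          simp
    _ = _ := by
        rw [integral_add ((hcI.indicator hDo.measurableSet).const_mul _) (hcB.const_mul _),
          integral_const_mul, integral_const_mul, FB_pars hb]

end Pool.Agent.TH327.Dim
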