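import Pool.Agent.TH327.Dim.Gl
import Mathlib.Analysis.Fourier.AddCircleMulti

/-! # Rotations of tori with the rotation in a small set -/

set_option autoImplicit false

namespace Pool.Agent.TH327.Dim

open Finset Filter Topology MeasureTheory UnitAddTorus
open Pool.Agent.TH327.Thin (SpecIn)

/-- covering numbers in the torus -/
def CovT {d : ℕ} (E : Set (Fin d → UnitAddCircle)) (C s : ℝ) : Prop :=
  ∀ n : ℕ, 1 ≤ n → ∃ S : Finset (Fin d → UnitAddCircle), (S.card : ℝ) ≤ C * (n : ℝ) ^ s ∧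
    ∀ g ∈ E, ∃ y ∈ S, dist g y ≤ 1 / n

/-- the values at `(g, x)` along the rotation by `g` -/
noncomputable def evT {d : ℕ} (ω : (Fin d → UnitAddCircle) × (Fin d → UnitAddCircle)) (n : ℕ) :
    C(UnitAddTorus (Fin d), ℂ) →ₗ[ℂ] ℂ where
  toFun f := f (ω.2 + n • ω.1)
  map_add' _ _ := rfl
  map_smul' _ _ := rfl

lemma evT_le {d : ℕ} (ω : (Fin d → UnitAddCircle) × (Fin d → UnitAddCircle)) (n : ℕ) (f : C(UnitAddTorus (Fin d), ℂ)) :
    ‖evT ω n f‖ ≤ ‖f‖ := f.norm_coe_le_norm _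

/-- the linear form -/
def lin {d : ℕ} (k : Fin d → ℤ) (g : Fin d → UnitAddCircle) : UnitAddCircle := ∑ i, k i • g i

lemma toCircle_sum' {ι : Type*} (S : Finset ι) (f : ι → UnitAddCircle) :
    ((AddCircle.toCircle (∑ i ∈ S, f i) : Circle) : ℂ) = ∏ i ∈ S, ((AddCircle.toCircle (f i) : Circle) : ℂ) := by
  classical
  induction S using Finset.induction_on with
  | empty => simp
  | insert a S ha ih => rw [sum_insert ha, prod_insert ha, AddCircle.toCircle_add, Circle.coe_mul, ih]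

lemma mF_rot {d : ℕ} (k : Fin d → ℤ) (g x : Fin d → UnitAddCircle) (n : ℕ) :
    mFourier k (x + n • g) = mFourier k x * (fourier (n : ℤ) (lin k g) : ℂ) := by
  have e1 : ∀ y : Fin d → UnitAddCircle, (mFourier k y : ℂ) = (fourier 1 (lin k y) : ℂ) := by
    intro y
    show (∏ i, (fourier (k i) (y i) : ℂ)) = _
    simp only [fourier_apply, one_zsmul]
    unfold lin
    rw [toCircle_sum']
  have e2 : lin k (x + n • g) = lin k x + (n : ℤ) • lin k g := by
    unfold lin
    rw [Finset.smul_sum, ← sum_add_distrib]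
    refine sum_congr rfl fun i _ => ?_
    rw [Pi.add_apply, Pi.smul_apply, zsmul_add, natCast_zsmul]
    congr 1
    rw [smul_comm]
  rw [e1, e1, e2, fourier_apply, fourier_apply, fourier_apply, one_zsmul, one_zsmul, AddCircle.toCircle_add]
  push_cast
  rfl

lemma specIn_char {K : Set UnitAddCircle} {α : UnitAddCircle} (hα : α ∈ K) (c : ℂ) :
    SpecIn K (fun m : ℤ => c * (fourier m α : ℂ)) := by
  rintro f _ ⟨U, _, hKU, hz⟩
  have h1 := hz α (hKU hα)
  have h2 : ∀ n : ℤ, f n • (c * (fourier n α : ℂ)) = c * (f n * fourier n α) := by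
    intro n
    rw [smul_eq_mul]
    ring
  rw [tsum_congr h2, tsum_mul_left, h1, mul_zero]

lemma cov_lin {d : ℕ} {E : Set (Fin d → UnitAddCircle)} {C s : ℝ} (hE : CovT E C s) (k : Fin d → ℤ) :
    Cov (lin k '' E) (C * ((∑ i, (k i).natAbs + 1 : ℕ) : ℝ) ^ s) s := by
  classical
  intro n hn
  obtain ⟨M, hM⟩ : ∃ M : ℕ, M = ∑ i, (k i).natAbs + 1 := ⟨_, rfl⟩
  rw [← hM]
  have hM1 : 1 ≤ M := by omega
  obtain ⟨S, hS, hcov⟩ := hE (M * n) (Nat.mul_pos hM1 hn)
  have hnr : (0 : ℝ) < n := by exact_mod_cast hn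
  have hMr : (0 : ℝ) < M := by exact_mod_cast hM1
  refine ⟨S.image (lin k), ?_, ?_⟩
  · have h1 : ((S.image (lin k)).card : ℝ) ≤ S.card := by exact_mod_cast card_image_le
    refine h1.trans (hS.trans (le_of_eq ?_))
    push_cast
    rw [Real.mul_rpow hMr.le hnr.le]
    ring
  · rintro _ ⟨g, hg, rfl⟩
    obtain ⟨y, hy, hd⟩ := hcov g hg
    refine ⟨lin k y, mem_image_of_mem _ hy, ?_⟩
    have h2 : lin k g - lin k y = ∑ i, k i • (g i - y i) := by
      unfold lin
      rw [← sum_sub_distrib]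
      exact sum_congr rfl fun i _ => by rw [zsmul_sub]
    rw [h2]
    have h3 : ∀ i, ‖g i - y i‖ ≤ 1 / ((M * n : ℕ) : ℝ) := by
      intro i
      rw [← dist_eq_norm]
      exact (dist_le_pi_dist g y i).trans hd
    calc ‖∑ i, k i • (g i - y i)‖ ≤ ∑ i, ‖k i • (g i - y i)‖ := norm_sum_le _ _
      _ ≤ ∑ i, ((k i).natAbs : ℝ) * (1 / ((M * n : ℕ) : ℝ)) := by
          refine sum_le_sum fun i _ => ?_
          refine (norm_zsmul_le _ _).trans ?_
          rw [Int.norm_eq_abs, ← Int.cast_abs, Int.abs_eq_natAbs, Int.cast_natCast]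
          exact mul_le_mul_of_nonneg_left (h3 i) (Nat.cast_nonneg _)
      _ = ((∑ i, (k i).natAbs : ℕ) : ℝ) * (1 / ((M * n : ℕ) : ℝ)) := by rw [← sum_mul]; push_cast; rfl
      _ ≤ (M : ℝ) * (1 / ((M * n : ℕ) : ℝ)) := by
          apply mul_le_mul_of_nonneg_right _ (by positivity)
          exact_mod_cast (by omega : ∑ i, (k i).natAbs ≤ M)
      _ = 1 / n := by push_cast; field_simp

/-- enlarging the constants -/
lemma covT_mono {d : ℕ} {E : Set (Fin d → UnitAddCircle)} {C s : ℝ} (hE : CovT E C s) : CovT E (max C 0) (max s 0) := by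
  intro n hn
  obtain ⟨S, hS, hcov⟩ := hE n hn
  refine ⟨S, hS.trans ?_, hcov⟩
  have hnr : (1 : ℝ) ≤ n := by exact_mod_cast hn
  calc C * (n : ℝ) ^ s ≤ max C 0 * (n : ℝ) ^ s := mul_le_mul_of_nonneg_right (le_max_left _ _) (by positivity)
    _ ≤ max C 0 * (n : ℝ) ^ (max s 0) := by
        apply mul_le_mul_of_nonneg_left _ (le_max_right _ _)
        exact Real.rpow_le_rpow_of_exponent_le hnr (le_max_left _ _)

/-- the sets of pairs with rotation in a set of the class -/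
def PT (d : ℕ) (C s : ℝ) (E : {E : Set (Fin d → UnitAddCircle) // CovT E C s}) :
    Set ((Fin d → UnitAddCircle) × (Fin d → UnitAddCircle)) := {ω | ω.1 ∈ E.1}

/-- all continuous functions on the torus have the window property -/
theorem PW_torus {F : Set (ℕ → ℂ)} (hF : ∀ h ∈ F, ∀ n, ‖h n‖ ≤ 1) {s : ℝ}
    (hG : ∀ C : ℝ, 0 ≤ C → Good {K | Cov K C s} F) (d : ℕ) (C : ℝ) (hC : 0 ≤ C)
    (f : C(UnitAddTorus (Fin d), ℂ)) : PW F (PT d C s) evT f := by
  refine PW_span hF evT_le (D := Set.range (mFourier (d := Fin d))) ?_ (by rw [span_mFourier_closure_eq_top]; trivial)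
  rintro _ ⟨k, rfl⟩ ε hε
  obtain ⟨H0, h0⟩ := win hF (hG (C * ((∑ i, (k i).natAbs + 1 : ℕ) : ℝ) ^ s) (by positivity)) ε hε
  refine ⟨H0, fun H hH X hX E h hh ω hω => ?_⟩
  have h1 := h0 H hH X hX (lin k '' E.1) (cov_lin E.2 k) h hh
    (fun x m => (mFourier k (ω x).2 : ℂ) * (fourier m (lin k (ω x).1) : ℂ)) (fun x m => by
      rw [norm_mul, Pool.Agent.TH327.Thin.norm_fourier_apply, mul_one]
      exact ((mFourier k).norm_coe_le_norm _).trans (le_of_eq mFourier_norm))
    (fun x => specIn_char (K := lin k '' E.1) (Set.mem_image_of_mem _ (hω x)) _)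
  refine le_trans (le_of_eq ?_) h1
  refine sum_congr rfl fun x _ => ?_
  congr 1
  refine sum_congr rfl fun n _ => ?_
  congr 1
  exact mF_rot k (ω x).1 (ω x).2 n

end Pool.Agent.TH327.Dim
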