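import Pool.Agent.TH327.Dim.Exist
import Pool.Agent.TH327.Dim.Meas3

/-! # Existence of the measures, for functions which may vary along the sequence -/

set_option autoImplicit false

namespace Pool.Agent.TH327.Dim

open MeasureTheory Filter Topology
open Pool.Agent.TH327.Thin (vol_univ)

/-- existence of a representing complex measure -/
theorem exists_repU (h g : ℕ → ℕ → ℂ) (h0 : ∀ j, h j 0 = 0) (hh : ∀ j n, ‖h j n‖ ≤ 1) (B : ℝ)
    (hg : ∀ j n, ‖g j n‖ ≤ B) (N : ℕ → ℕ) (hN : Tendsto N atTop atTop) (c : ℤ → ℂ)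
    (hc : ∀ k : ℤ, Tendsto (fun j => (1 / (N j : ℂ)) * ∑ n ∈ Finset.Icc 1 (N j), g j n * (starRingEnd ℂ) (h j ((n : ℤ) + k).toNat)) atTop (𝓝 (c k))) :
    ∃ (σ : Measure UnitAddCircle) (w : UnitAddCircle → ℂ), IsFiniteMeasure σ ∧ Integrable w σ ∧
      ∀ k : ℤ, c k = ∫ η, fourier k η * w η ∂σ := by
  have hB : 0 ≤ B := (norm_nonneg _).trans (hg 0 0)
  obtain ⟨𝒰, h𝒰⟩ : ∃ 𝒰 : Ultrafilter ℕ, (𝒰 : Filter ℕ) ≤ atTop := ⟨Ultrafilter.of atTop, Ultrafilter.of_le atTop⟩
  -- the four measures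
  have key : ∀ z : ℂ, ‖z‖ ≤ 1 → ∃ σ : Measure UnitAddCircle, IsFiniteMeasure σ ∧ ∀ f : C(UnitAddCircle, ℂ),
      Tendsto (fun j => ∫ x, f x * ((1 + 1 / (N j : ℝ) * ‖SC (h j) (N j) x + z * SC (g j) (N j) x‖ ^ 2 : ℝ) : ℂ)) 𝒰
        (𝓝 (∫ x, f x ∂σ)) := by
    intro z hz
    refine exists_limit 𝒰 (fun j x => 1 + 1 / (N j : ℝ) * ‖SC (h j) (N j) x + z * SC (g j) (N j) x‖ ^ 2) ?_ ?_
      (1 + 2 * (1 + B ^ 2)) ?_
    · intro j
      have := SC_cont (h j) (N j)
      have := SC_cont (g j) (N j)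
      fun_prop
    · intro j x
      have : 0 ≤ 1 / (N j : ℝ) * ‖SC (h j) (N j) x + z * SC (g j) (N j) x‖ ^ 2 := by positivity
      linarith
    · intro j
      have hI : ∀ v : ℕ → ℂ, Integrable (fun η => ‖SC v (N j) η‖ ^ 2) (volume : Measure UnitAddCircle) := fun v =>
        ((SC_cont v (N j)).norm.pow 2).integrable_of_hasCompactSupport (HasCompactSupport.of_compactSpace _)
      have hI2 : Integrable (fun x => 1 / (N j : ℝ) * ‖SC (h j) (N j) x + z * SC (g j) (N j) x‖ ^ 2) (volume : Measure UnitAddCircle) := by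
        apply Continuous.integrable_of_hasCompactSupport _ (HasCompactSupport.of_compactSpace _)
        have := SC_cont (h j) (N j)
        have := SC_cont (g j) (N j)
        fun_prop
      rw [integral_add (integrable_const _) hI2, integral_const_mul]
      simp only [integral_const, vol_univ, smul_eq_mul, mul_one]
      have h5 : ∫ x, ‖SC (h j) (N j) x + z * SC (g j) (N j) x‖ ^ 2 ≤ 2 * (1 + B ^ 2) * N j := by
        calc ∫ x, ‖SC (h j) (N j) x + z * SC (g j) (N j) x‖ ^ 2 ≤ ∫ x, (2 * ‖SC (h j) (N j) x‖ ^ 2 + 2 * ‖SC (g j) (N j) x‖ ^ 2) := by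
              apply integral_mono _ (((hI (h j)).const_mul _).add ((hI (g j)).const_mul _))
              · intro x
                simp only
                have h6 : ‖SC (h j) (N j) x + z * SC (g j) (N j) x‖ ≤ ‖SC (h j) (N j) x‖ + ‖SC (g j) (N j) x‖ := by
                  refine (norm_add_le _ _).trans (add_le_add le_rfl ?_)
                  rw [norm_mul]
                  exact mul_le_of_le_one_left (norm_nonneg _) hz
                have h7 := pow_le_pow_left₀ (norm_nonneg _) h6 2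
                have h8 : (‖SC (h j) (N j) x‖ + ‖SC (g j) (N j) x‖) ^ 2 ≤ 2 * ‖SC (h j) (N j) x‖ ^ 2 + 2 * ‖SC (g j) (N j) x‖ ^ 2 := by
                  nlinarith [sq_nonneg (‖SC (h j) (N j) x‖ - ‖SC (g j) (N j) x‖)]
                exact h7.trans h8
              · apply Continuous.integrable_of_hasCompactSupport _ (HasCompactSupport.of_compactSpace _)
                have := SC_cont (h j) (N j)
                have := SC_cont (g j) (N j)
                fun_prop
          _ = 2 * (∫ x, ‖SC (h j) (N j) x‖ ^ 2) + 2 * (∫ x, ‖SC (g j) (N j) x‖ ^ 2) := by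
              rw [integral_add ((hI (h j)).const_mul _) ((hI (g j)).const_mul _), integral_const_mul, integral_const_mul]
          _ ≤ 2 * (1 + B ^ 2) * N j := by
              have a1 := SC_pars (h j) 1 (hh j) (N j)
              have a2 := SC_pars (g j) B (hg j) (N j)
              rw [one_pow, one_mul] at a1
              have e : 2 * (1 + B ^ 2) * (N j : ℝ) = 2 * N j + 2 * (B ^ 2 * N j) := by ring
              rw [e]
              linarith
      rcases Nat.eq_zero_or_pos (N j) with hz0 | hz0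
      · rw [hz0]
        simp
        positivity
      have hNp : (0 : ℝ) < N j := by exact_mod_cast hz0
      have h8 : 1 / (N j : ℝ) * (∫ x, ‖SC (h j) (N j) x + z * SC (g j) (N j) x‖ ^ 2) ≤ 2 * (1 + B ^ 2) := by
        rw [one_div, inv_mul_le_iff₀ hNp]
        linarith
      linarith
  obtain ⟨σ1, i1, l1⟩ := key 1 (by simp)
  obtain ⟨σ2, i2, l2⟩ := key (-1) (by simp)
  obtain ⟨σ3, i3, l3⟩ := key Complex.I (by simp)
  obtain ⟨σ4, i4, l4⟩ := key (-Complex.I) (by simp)
  obtain ⟨σ, hσ⟩ : ∃ σ : Measure UnitAddCircle, σ = σ1 + σ2 + σ3 + σ4 := ⟨_, rfl⟩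
  have iσ : IsFiniteMeasure σ := by rw [hσ]; infer_instance
  have a1 : σ1 ≪ σ := by
    apply Measure.absolutelyContinuous_of_le
    rw [hσ, add_assoc, add_assoc]; exact Measure.le_add_right le_rfl
  have a2 : σ2 ≪ σ := by
    apply Measure.absolutelyContinuous_of_le
    rw [hσ, add_assoc]; exact Measure.le_add_right (Measure.le_add_left le_rfl)
  have a3 : σ3 ≪ σ := by
    apply Measure.absolutelyContinuous_of_le
    rw [hσ]; exact Measure.le_add_right (Measure.le_add_left le_rfl)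
  have a4 : σ4 ≪ σ := by
    apply Measure.absolutelyContinuous_of_le
    rw [hσ]; exact Measure.le_add_left le_rfl
  have hd : ∀ (τ : Measure UnitAddCircle) [IsFiniteMeasure τ], Integrable (fun x => (((τ.rnDeriv σ x).toReal : ℝ) : ℂ)) σ :=
    fun τ _ => (Measure.integrable_toReal_rnDeriv (μ := τ) (ν := σ)).ofReal
  refine ⟨σ, fun x => (1 / 4) * ((((σ1.rnDeriv σ x).toReal : ℝ) : ℂ) - (((σ2.rnDeriv σ x).toReal : ℝ) : ℂ) -
    Complex.I * (((σ3.rnDeriv σ x).toReal : ℝ) : ℂ) + Complex.I * (((σ4.rnDeriv σ x).toReal : ℝ) : ℂ)), iσ, ?_, fun k => ?_⟩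
  · exact ((((hd σ1).sub (hd σ2)).sub ((hd σ3).const_mul _)).add ((hd σ4).const_mul _)).const_mul _
  -- the limit along the ultrafilter
  have hlim : Tendsto (fun j => La (h j) (g j) (N j) (fourier k)) 𝒰 (𝓝 (c k)) := by
    have h1 : Tendsto (fun j => (1 / (N j : ℝ)) * (B * |(k : ℝ)|)) atTop (𝓝 0) := by
      have h2 : Tendsto (fun j => (1 / (N j : ℝ))) atTop (𝓝 0) :=
        tendsto_one_div_atTop_nhds_zero_nat.comp hN
      have h3 := h2.mul_const (B * |(k : ℝ)|)
      rwa [zero_mul] at h3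
    have h4 : Tendsto (fun j => La (h j) (g j) (N j) (fourier k) - (1 / (N j : ℂ)) *
        ∑ n ∈ Finset.Icc 1 (N j), g j n * (starRingEnd ℂ) (h j ((n : ℤ) + k).toNat)) atTop (𝓝 0) :=
      squeeze_zero_norm (fun j => La_corrU (h j) (g j) (h0 j) (hh j) B (hg j) (N j) k) h1
    have h5 := h4.add (hc k)
    simp only [sub_add_cancel, zero_add] at h5
    exact h5.mono_left h𝒰
  have hlim2 := ((((l1 (fourier k)).sub (l2 (fourier k))).sub ((l3 (fourier k)).const_mul Complex.I)).add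
    ((l4 (fourier k)).const_mul Complex.I)).const_mul (1 / 4 : ℂ)
  have hJ : ∀ (z : ℂ) (j : ℕ), Integrable (fun x : UnitAddCircle => (fourier k x : ℂ) *
      ((1 + 1 / (N j : ℝ) * ‖SC (h j) (N j) x + z * SC (g j) (N j) x‖ ^ 2 : ℝ) : ℂ)) volume := by
    intro z j
    apply int_circ
    have := SC_cont (h j) (N j)
    have := SC_cont (g j) (N j)
    have := map_continuous (fourier (T := 1) k)
    fun_prop
  have heq : ∀ j, La (h j) (g j) (N j) (fourier k) = (1 / 4 : ℂ) *
      ((∫ x, (fourier k x : ℂ) * ((1 + 1 / (N j : ℝ) * ‖SC (h j) (N j) x + 1 * SC (g j) (N j) x‖ ^ 2 : ℝ) : ℂ)) -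
       (∫ x, (fourier k x : ℂ) * ((1 + 1 / (N j : ℝ) * ‖SC (h j) (N j) x + (-1) * SC (g j) (N j) x‖ ^ 2 : ℝ) : ℂ)) -
       Complex.I * (∫ x, (fourier k x : ℂ) * ((1 + 1 / (N j : ℝ) * ‖SC (h j) (N j) x + Complex.I * SC (g j) (N j) x‖ ^ 2 : ℝ) : ℂ)) +
       Complex.I * (∫ x, (fourier k x : ℂ) * ((1 + 1 / (N j : ℝ) * ‖SC (h j) (N j) x + (-Complex.I) * SC (g j) (N j) x‖ ^ 2 : ℝ) : ℂ))) := by
    intro j
    rw [comb4 (hJ 1 j) (hJ (-1) j) (hJ Complex.I j) (hJ (-Complex.I) j)]
    unfold La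
    rw [← integral_const_mul]
    congr 1
    funext x
    rw [polar]
    have e1 : SC (h j) (N j) x + 1 * SC (g j) (N j) x = SC (h j) (N j) x + SC (g j) (N j) x := by ring
    have e2 : SC (h j) (N j) x + (-1) * SC (g j) (N j) x = SC (h j) (N j) x - SC (g j) (N j) x := by ring
    have e3 : SC (h j) (N j) x + (-Complex.I) * SC (g j) (N j) x = SC (h j) (N j) x - Complex.I * SC (g j) (N j) x := by ring
    rw [e1, e2, e3]
    push_cast
    ring
  have huniq := tendsto_nhds_unique hlim (hlim2.congr fun j => (heq j).symm)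
  rw [huniq]
  have hsm : ∀ (τ : Measure UnitAddCircle) [IsFiniteMeasure τ], τ ≪ σ →
      ∫ x, (fourier k x : ℂ) ∂τ = ∫ x, (fourier k x : ℂ) * (((τ.rnDeriv σ x).toReal : ℝ) : ℂ) ∂σ := by
    intro τ _ hτ
    have : IsFiniteMeasure σ := iσ
    have := Measure.haveLebesgueDecomposition_of_sigmaFinite τ σ
    rw [← integral_rnDeriv_smul hτ]
    congr 1
    funext x
    rw [Complex.real_smul, mul_comm]
  have hK : ∀ (τ : Measure UnitAddCircle) [IsFiniteMeasure τ], Integrable (fun x => (fourier k x : ℂ) *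
      (((τ.rnDeriv σ x).toReal : ℝ) : ℂ)) σ := by
    intro τ _
    refine (hd τ).bdd_mul (map_continuous (fourier k)).aestronglyMeasurable (c := 1) ?_
    exact Filter.Eventually.of_forall fun η => le_of_eq (Pool.Agent.TH327.Thin.norm_fourier_apply k η)
  rw [hsm σ1 a1, hsm σ2 a2, hsm σ3 a3, hsm σ4 a4]
  rw [comb4 (hK σ1) (hK σ2) (hK σ3) (hK σ4)]
  congr 1
  funext x
  ring

end Pool.Agent.TH327.Dim
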