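import Pool.Agent.TH327.Dim.Bil
import Pool.Agent.H807R2.Dav1

/-! # The Turan-Kubilius decomposition of an exponential sum with multiplicative coefficients -/

set_option autoImplicit false

namespace Pool.Agent.TH327.Dim

open Finset MeasureTheory
open Pool.Agent.H807R2.Dav (ee norm_ee ee_add ee_int ee_pow ee_zero ee_add_int)

lemma ee_cont : Continuous ee := by
  unfold ee; fun_prop

lemma ee_neg (x : ℝ) : ee (-x) = (starRingEnd ℂ) (ee x) := by
  unfold ee
  rw [← Complex.exp_conj]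
  congr 1
  simp only [map_mul, Complex.conj_ofReal, Complex.conj_I, map_ofNat]
  push_cast
  ring

lemma int_ee (k : ℤ) : ∫ θ in (0 : ℝ)..1, ee (k * θ) = if k = 0 then 1 else 0 := by
  by_cases hk : k = 0
  · subst hk; simp [ee_zero]
  · rw [if_neg hk]
    unfold ee
    have hc : (2 * Real.pi * Complex.I * k : ℂ) ≠ 0 := by
      have : (k : ℂ) ≠ 0 := by exact_mod_cast hk
      have := Complex.two_pi_I_ne_zero
      positivity
    have h1 : ∀ θ : ℝ, Complex.exp (2 * Real.pi * Complex.I * ((k * θ : ℝ) : ℂ)) =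
        Complex.exp ((2 * Real.pi * Complex.I * k : ℂ) * θ) := by
      intro θ; congr 1; push_cast; ring
    simp only [h1]
    rw [integral_exp_mul_complex hc]
    have h2 : Complex.exp ((2 * Real.pi * Complex.I * k : ℂ) * ((1 : ℝ) : ℂ)) = 1 := by
      have := Complex.exp_int_mul_two_pi_mul_I k
      rw [← this]; congr 1; push_cast; ring
    rw [h2]
    simp

/-- Parseval -/
lemma pars_int (I : Finset ℕ) (c : ℕ → ℂ) :
    ∫ θ in (0 : ℝ)..1, ‖∑ n ∈ I, c n * ee (n * θ)‖ ^ 2 = ∑ n ∈ I, ‖c n‖ ^ 2 := by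
  have h1 : ((∫ θ in (0 : ℝ)..1, ‖∑ n ∈ I, c n * ee (n * θ)‖ ^ 2 : ℝ) : ℂ) =
      ((∑ n ∈ I, ‖c n‖ ^ 2 : ℝ) : ℂ) := by
    rw [← intervalIntegral.integral_ofReal]
    have h2 : ∀ θ : ℝ, ((‖∑ n ∈ I, c n * ee (n * θ)‖ ^ 2 : ℝ) : ℂ) =
        ∑ n ∈ I, ∑ m ∈ I, (c n * (starRingEnd ℂ) (c m)) * ee (((n : ℤ) - (m : ℤ) : ℤ) * θ) := by
      intro θ
      push_cast
      rw [← Complex.mul_conj', map_sum, sum_mul_sum]
      refine sum_congr rfl fun n _ => sum_congr rfl fun m _ => ?_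
      rw [map_mul, ← ee_neg]
      have : ee (((n : ℝ) - m) * θ) = ee (n * θ) * ee (-(m * θ)) := by
        rw [← ee_add]; congr 1; ring
      rw [this]
      ring
    simp only [h2]
    rw [intervalIntegral.integral_finsetSum]
    · push_cast
      refine sum_congr rfl fun n hn => ?_
      rw [intervalIntegral.integral_finsetSum]
      · rw [sum_eq_single n]
        · rw [intervalIntegral.integral_const_mul]
          have := int_ee ((n : ℤ) - n)
          push_cast at this ⊢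
          rw [this, if_pos (sub_self _), mul_one, Complex.mul_conj']
        · intro m _ hmn
          rw [intervalIntegral.integral_const_mul]
          have := int_ee ((n : ℤ) - m)
          push_cast at this ⊢
          rw [this, if_neg (by omega), mul_zero]
        · intro h; exact absurd hn h
      · intro m _
        exact (continuous_const.mul (ee_cont.comp (by fun_prop))).intervalIntegrable _ _
    · intro n _
      apply ii_sum
      intro m _
      exact (continuous_const.mul (ee_cont.comp (by fun_prop))).intervalIntegrable _ _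
  exact_mod_cast h1

/-- multiples in an interval -/
lemma card_mult (a b m : ℕ) (hab : a ≤ b) (hm : 1 ≤ m) :
    (((Ioc a b).filter (fun n => m ∣ n)).card : ℝ) ≤ ((b : ℝ) - a) / m + 1 := by
  classical
  have h1 : (Ioc 0 b).filter (fun n => m ∣ n) = (Ioc 0 a).filter (fun n => m ∣ n) ∪ (Ioc a b).filter (fun n => m ∣ n) := by
    rw [← filter_union]
    congr 1
    ext n; simp only [mem_Ioc, mem_union]; omega
  have h2 : Disjoint ((Ioc 0 a).filter (fun n => m ∣ n)) ((Ioc a b).filter (fun n => m ∣ n)) := by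
    rw [Finset.disjoint_left]
    intro n hn hn'
    simp only [mem_filter, mem_Ioc] at hn hn'
    omega
  have h3 := card_union_of_disjoint h2
  rw [← h1, Nat.Ioc_filter_dvd_card_eq_div, Nat.Ioc_filter_dvd_card_eq_div] at h3
  have hm0 : (0 : ℝ) < m := by exact_mod_cast hm
  have h4 : ((b / m : ℕ) : ℝ) ≤ (b : ℝ) / m := Nat.cast_div_le
  have h5 : (a : ℝ) / m - 1 < ((a / m : ℕ) : ℝ) := by
    have := Nat.lt_div_mul_add (a := a) hm
    have h6 : (a : ℝ) < (a / m : ℕ) * m + m := by exact_mod_cast this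
    rw [sub_lt_iff_lt_add, div_lt_iff₀ hm0]
    linarith
  have h7 : ((b / m : ℕ) : ℝ) = ((a / m : ℕ) : ℝ) + (((Ioc a b).filter (fun n => m ∣ n)).card : ℝ) := by
    exact_mod_cast h3
  rw [sub_div]
  linarith

/-- second moment of the number of divisors from a set of coprime integers -/
lemma mom2 (D : Finset ℕ) (h1 : ∀ d ∈ D, 1 ≤ d) (hc : ∀ d ∈ D, ∀ e ∈ D, d ≠ e → Nat.Coprime d e) (a b : ℕ) (hab : a ≤ b)
    (Λ : ℝ) (hΛ : Λ = ∑ d ∈ D, 1 / (d : ℝ)) :
    ∑ n ∈ Ioc a b, (((D.filter (fun d => d ∣ n)).card : ℝ)) ^ 2 ≤ ((b : ℝ) - a) * (Λ ^ 2 + Λ) + (D.card : ℝ) ^ 2 := by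
  classical
  have hba : (0 : ℝ) ≤ (b : ℝ) - a := by
    have : (a : ℝ) ≤ b := by exact_mod_cast hab
    linarith
  have e1 : ∀ n, (((D.filter (fun d => d ∣ n)).card : ℝ)) ^ 2 =
      ∑ d ∈ D, ∑ e ∈ D, if d ∣ n ∧ e ∣ n then (1 : ℝ) else 0 := by
    intro n
    rw [card_filter]
    push_cast
    rw [pow_two, sum_mul_sum]
    refine sum_congr rfl fun d _ => sum_congr rfl fun e _ => ?_
    split_ifs <;> simp_all
  simp only [e1]
  rw [sum_comm]
  have e2 : ∀ d ∈ D, ∑ n ∈ Ioc a b, ∑ e ∈ D, (if d ∣ n ∧ e ∣ n then (1 : ℝ) else 0) ≤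
      ∑ e ∈ D, (((b : ℝ) - a) * (1 / d * (1 / e)) + (if e = d then ((b : ℝ) - a) / d else 0) + 1) := by
    intro d hd
    rw [sum_comm]
    refine sum_le_sum fun e he => ?_
    have hd0 : (0 : ℝ) < d := by exact_mod_cast h1 d hd
    have he0 : (0 : ℝ) < e := by exact_mod_cast h1 e he
    rw [← sum_filter, sum_const, nsmul_eq_mul, mul_one]
    by_cases hde : e = d
    · subst hde
      rw [if_pos rfl]
      have h3 : (Ioc a b).filter (fun n => e ∣ n ∧ e ∣ n) = (Ioc a b).filter (fun n => e ∣ n) := by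
        apply filter_congr; intro n _; simp
      rw [h3]
      have := card_mult a b e hab (h1 e he)
      have h4 : 0 ≤ ((b : ℝ) - a) * (1 / e * (1 / e)) := by positivity
      linarith
    · rw [if_neg hde]
      have hcop : Nat.Coprime d e := hc d hd e he (fun h => hde h.symm)
      have h3 : (Ioc a b).filter (fun n => d ∣ n ∧ e ∣ n) = (Ioc a b).filter (fun n => d * e ∣ n) := by
        apply filter_congr; intro n _
        constructor
        · rintro ⟨x, y⟩; exact hcop.mul_dvd_of_dvd_of_dvd x y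
        · intro x; exact ⟨(Dvd.intro _ rfl).trans x, (Dvd.intro_left _ rfl).trans x⟩
      rw [h3]
      have := card_mult a b (d * e) hab (Nat.mul_pos (h1 d hd) (h1 e he))
      have h4 : ((b : ℝ) - a) / ((d * e : ℕ) : ℝ) = ((b : ℝ) - a) * (1 / d * (1 / e)) := by
        push_cast; field_simp
      rw [h4] at this
      linarith
  refine (sum_le_sum e2).trans (le_of_eq ?_)
  have e3 : ∀ d ∈ D, ∑ e ∈ D, (((b : ℝ) - a) * (1 / d * (1 / e)) + (if e = d then ((b : ℝ) - a) / d else 0) + 1) =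
      ((b : ℝ) - a) * Λ * (1 / d) + ((b : ℝ) - a) * (1 / d) + D.card := by
    intro d hd
    rw [sum_add_distrib, sum_add_distrib, sum_ite_eq', if_pos hd, sum_const, nsmul_eq_mul, mul_one, ← mul_sum, ← mul_sum,
      ← hΛ]
    ring
  rw [sum_congr rfl e3, sum_add_distrib, sum_add_distrib, ← mul_sum, ← mul_sum, ← hΛ, sum_const, nsmul_eq_mul]
  ring

/-- first moment -/
lemma mom1 (D : Finset ℕ) (h1 : ∀ d ∈ D, 1 ≤ d) (X : ℕ) (Λ : ℝ) (hΛ : Λ = ∑ d ∈ D, 1 / (d : ℝ)) :
    X * Λ - D.card ≤ ∑ n ∈ Ioc 0 X, (((D.filter (fun d => d ∣ n)).card : ℝ)) := by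
  classical
  have e1 : ∀ n, (((D.filter (fun d => d ∣ n)).card : ℝ)) = ∑ d ∈ D, if d ∣ n then (1 : ℝ) else 0 := by
    intro n
    rw [card_filter]
    push_cast
    rfl
  simp only [e1]
  rw [sum_comm]
  have e2 : ∀ d ∈ D, (X : ℝ) * (1 / d) - 1 ≤ ∑ n ∈ Ioc 0 X, (if d ∣ n then (1 : ℝ) else 0) := by
    intro d hd
    have hd0 : (0 : ℝ) < d := by exact_mod_cast h1 d hd
    rw [← sum_filter, sum_const, nsmul_eq_mul, mul_one, Nat.Ioc_filter_dvd_card_eq_div]
    have := Nat.lt_div_mul_add (a := X) (h1 d hd)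
    have h6 : (X : ℝ) < (X / d : ℕ) * d + d := by exact_mod_cast this
    rw [sub_le_iff_le_add, mul_one_div, div_le_iff₀ hd0]
    linarith
  refine le_trans (le_of_eq ?_) (sum_le_sum e2)
  rw [sum_sub_distrib, ← mul_sum, ← hΛ, sum_const, nsmul_eq_mul, mul_one]

/-- variance -/
lemma var (I : Finset ℕ) (hI : ∀ p ∈ I, p.Prime) (X : ℕ) (L : ℝ) (hL : L = ∑ p ∈ I, 1 / (p : ℝ)) :
    ∑ n ∈ Ioc 0 X, (((I.filter (fun p => p ∣ n)).card : ℝ) - L) ^ 2 ≤ X * L + (I.card : ℝ) ^ 2 + 2 * L * I.card := by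
  have hL0 : 0 ≤ L := by rw [hL]; exact sum_nonneg fun _ _ => by positivity
  have h2 := mom2 I (fun p hp => (hI p hp).one_le) (fun p hp q hq hpq =>
    (Nat.coprime_primes (hI p hp) (hI q hq)).2 hpq) 0 X (Nat.zero_le _) L hL
  have h1 := mom1 I (fun p hp => (hI p hp).one_le) X L hL
  have e1 : ∑ n ∈ Ioc 0 X, (((I.filter (fun p => p ∣ n)).card : ℝ) - L) ^ 2 =
      ∑ n ∈ Ioc 0 X, (((I.filter (fun p => p ∣ n)).card : ℝ)) ^ 2 -
        2 * L * ∑ n ∈ Ioc 0 X, (((I.filter (fun p => p ∣ n)).card : ℝ)) + X * L ^ 2 := by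
    rw [mul_sum, ← sum_sub_distrib]
    have : (X : ℝ) * L ^ 2 = ∑ n ∈ Ioc 0 X, L ^ 2 := by
      rw [sum_const, nsmul_eq_mul]; simp
    rw [this, ← sum_add_distrib]
    refine sum_congr rfl fun n _ => ?_
    ring
  rw [e1]
  have h3 := mul_le_mul_of_nonneg_left h1 (by positivity : 0 ≤ 2 * L)
  push_cast at h2
  nlinarith

/-- The decomposition. -/
theorem tk (f : ℕ → ℂ) (hf : ∀ n, ‖f n‖ ≤ 1) (hmul : ∀ p m : ℕ, p.Prime → ¬ p ∣ m → f (p * m) = f p * f m)
    (I : Finset ℕ) (hI : ∀ p ∈ I, p.Prime) (y : ℕ → ℕ) (hy1 : ∀ p ∈ I, 1 ≤ y p) (hy2 : ∀ p ∈ I, y p ≤ p) (η : ℝ)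
    (hη0 : 0 ≤ η) (hη : ∀ p ∈ I, (p : ℝ) ≤ (1 + η) * y p) (X : ℕ) (L : ℝ) (hL : L = ∑ p ∈ I, 1 / (p : ℝ)) :
    ∃ (X' : ℕ) (g : ℕ → ℂ), (∀ θ : ℝ, (L : ℂ) * ∑ n ∈ Icc 1 X, f n * ee (n * θ) =
        ∑ p ∈ I, f p * (∑ m ∈ Icc 1 (X / y p), f m * ee (m * (p * θ))) + ∑ n ∈ Icc 1 X', g n * ee (n * θ)) ∧
      ∑ n ∈ Icc 1 X', ‖g n‖ ^ 2 ≤ X * (2 * L + 16 + η * (L ^ 2 + L)) + 11 * (I.card : ℝ) ^ 2 + 4 * L * I.card := by
  classical
  have hL0 : 0 ≤ L := by rw [hL]; exact sum_nonneg fun _ _ => by positivity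
  obtain ⟨X', hX'⟩ : ∃ X' : ℕ, X' = ⌊(1 + η) * X⌋₊ := ⟨_, rfl⟩
  have hX0 : (0 : ℝ) ≤ X := Nat.cast_nonneg _
  have hXX' : X ≤ X' := by
    rw [hX']
    apply Nat.le_floor
    nlinarith
  have hX'r : (X' : ℝ) ≤ (1 + η) * X := by
    rw [hX']; exact Nat.floor_le (by positivity)
  obtain ⟨ω, hω⟩ : ∃ ω : ℕ → ℝ, ω = fun n => ((I.filter (fun p => p ∣ n)).card : ℝ) := ⟨_, rfl⟩
  obtain ⟨g, hg⟩ : ∃ g : ℕ → ℂ, g = fun n => (if n ≤ X then f n * ((L : ℂ) - (ω n : ℂ)) else 0) +
      ∑ p ∈ I.filter (fun p => p ∣ n), ((if n ≤ X then f n else 0) - (if n / p ≤ X / y p then f p * f (n / p) else 0)) := ⟨_, rfl⟩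
  refine ⟨X', g, ?_, ?_⟩
  · intro θ
    have e1 : ∑ n ∈ Icc 1 X, f n * ee (n * θ) = ∑ n ∈ Icc 1 X', (if n ≤ X then f n else 0) * ee (n * θ) := by
      have : Icc 1 X = (Icc 1 X').filter (fun n => n ≤ X) := by
        ext n; simp only [mem_Icc, mem_filter]; omega
      rw [this, sum_filter]
      refine sum_congr rfl fun n _ => ?_
      split_ifs <;> simp
    have e2 : ∀ p ∈ I, f p * (∑ m ∈ Icc 1 (X / y p), f m * ee (m * (p * θ))) =
        ∑ n ∈ (Icc 1 X').filter (fun n => p ∣ n), (if n / p ≤ X / y p then f p * f (n / p) else 0) * ee (n * θ) := by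
      intro p hp
      have hp0 : 0 < p := (hI p hp).pos
      rw [mul_sum]
      have e3 : ∑ n ∈ (Icc 1 X').filter (fun n => p ∣ n), (if n / p ≤ X / y p then f p * f (n / p) else 0) * ee (n * θ) =
          ∑ n ∈ (Icc 1 X').filter (fun n => p ∣ n ∧ n / p ≤ X / y p), (f p * f (n / p)) * ee (n * θ) := by
        rw [← filter_filter, sum_filter (p := fun n => n / p ≤ X / y p)]
        refine sum_congr rfl fun n _ => ?_
        split_ifs <;> simp
      rw [e3]
      symm
      refine sum_nbij' (fun n => n / p) (fun m => p * m) ?_ ?_ ?_ ?_ ?_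
      · intro n hn
        rw [mem_filter, mem_Icc] at hn
        rw [mem_Icc]
        refine ⟨?_, hn.2.2⟩
        obtain ⟨c, hc⟩ := hn.2.1
        rw [hc, Nat.mul_div_cancel_left _ hp0]
        rcases Nat.eq_zero_or_pos c with h | h
        · subst h; omega
        · exact h
      · intro m hm
        rw [mem_Icc] at hm
        rw [mem_filter, mem_Icc, Nat.mul_div_cancel_left _ hp0]
        refine ⟨⟨Nat.mul_pos hp0 (by omega), ?_⟩, dvd_mul_right _ _, hm.2⟩
        rw [hX']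
        apply Nat.le_floor
        push_cast
        have h5 : (m : ℝ) ≤ (X : ℝ) / y p := by
          have h6 : ((X / y p : ℕ) : ℝ) ≤ (X : ℝ) / y p := Nat.cast_div_le
          have h7 : (m : ℝ) ≤ ((X / y p : ℕ) : ℝ) := by exact_mod_cast hm.2
          linarith
        have hy0 : (0 : ℝ) < y p := by exact_mod_cast hy1 p hp
        calc (p : ℝ) * m ≤ ((1 + η) * y p) * (X / y p) :=
              mul_le_mul (hη p hp) h5 (Nat.cast_nonneg _) (by positivity)
          _ = (1 + η) * X := by field_simp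
      · intro n hn
        rw [mem_filter] at hn
        exact Nat.mul_div_cancel' hn.2.1
      · intro m hm
        exact Nat.mul_div_cancel_left _ hp0
      · intro n hn
        rw [mem_filter] at hn
        have hn2 : ((n / p : ℕ) : ℝ) * p = n := by exact_mod_cast Nat.div_mul_cancel hn.2.1
        rw [← mul_assoc (((n / p : ℕ) : ℝ)), hn2]
        ring
    have e4 : ∑ p ∈ I, f p * (∑ m ∈ Icc 1 (X / y p), f m * ee (m * (p * θ))) =
        ∑ n ∈ Icc 1 X', (∑ p ∈ I.filter (fun p => p ∣ n), (if n / p ≤ X / y p then f p * f (n / p) else 0)) * ee (n * θ) := by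
      rw [sum_congr rfl e2]
      simp only [sum_filter]
      rw [sum_comm]
      refine sum_congr rfl fun n _ => ?_
      rw [sum_mul]
      refine sum_congr rfl fun p _ => ?_
      split_ifs <;> simp
    rw [e1, e4, mul_sum, ← sum_add_distrib]
    refine sum_congr rfl fun n _ => ?_
    rw [hg]
    simp only
    rw [sum_sub_distrib, sum_const, nsmul_eq_mul, hω]
    simp only [Complex.ofReal_natCast]
    split_ifs with h
    · ring
    · ring
  · -- the bound
    obtain ⟨D2, hD2⟩ : ∃ D2 : Finset ℕ, D2 = I.image (fun p => p ^ 2) := ⟨_, rfl⟩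
    obtain ⟨ω₂, hω₂⟩ : ∃ ω₂ : ℕ → ℝ, ω₂ = fun n => ((D2.filter (fun d => d ∣ n)).card : ℝ) := ⟨_, rfl⟩
    have hω₂' : ∀ n, ((I.filter (fun p => p ^ 2 ∣ n)).card : ℝ) ≤ ω₂ n := by
      intro n
      rw [hω₂]
      have : (I.filter (fun p => p ^ 2 ∣ n)).card ≤ (D2.filter (fun d => d ∣ n)).card := by
        refine card_le_card_of_injOn (fun p => p ^ 2) ?_ ?_
        · intro p hp
          rw [Finset.mem_coe, mem_filter] at hp
          rw [Finset.mem_coe, mem_filter, hD2, mem_image]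
          exact ⟨⟨p, hp.1, rfl⟩, hp.2⟩
        · intro p _ q _ h
          exact Nat.pow_left_injective two_ne_zero h
      exact Nat.cast_le.2 this
    have hb1 : ∀ n ∈ Icc 1 X, ‖g n‖ ^ 2 ≤ 2 * (ω n - L) ^ 2 + 8 * ω₂ n ^ 2 := by
      intro n hn
      rw [mem_Icc] at hn
      have h3 : ‖∑ p ∈ I.filter (fun p => p ∣ n), ((if n ≤ X then f n else 0) - (if n / p ≤ X / y p then f p * f (n / p) else 0))‖ ≤
          2 * ω₂ n := by
        have h4 : ∀ p ∈ I.filter (fun p => p ∣ n), ‖(if n ≤ X then f n else 0) - (if n / p ≤ X / y p then f p * f (n / p) else 0)‖ ≤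
            if p ^ 2 ∣ n then 2 else 0 := by
          intro p hp
          rw [mem_filter] at hp
          rw [if_pos hn.2, if_pos]
          · by_cases h5 : p ∣ n / p
            · rw [if_pos]
              · calc ‖f n - f p * f (n / p)‖ ≤ ‖f n‖ + ‖f p * f (n / p)‖ := norm_sub_le _ _
                  _ ≤ 1 + 1 * 1 := by
                      rw [norm_mul]
                      exact add_le_add (hf _) (mul_le_mul (hf _) (hf _) (norm_nonneg _) zero_le_one)
                  _ = 2 := by norm_num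
              · obtain ⟨c, hc⟩ := h5
                refine ⟨c, ?_⟩
                rw [pow_two, mul_assoc, ← hc, Nat.mul_div_cancel' hp.2]
            · have h6 := hmul p (n / p) (hI p hp.1) h5
              rw [Nat.mul_div_cancel' hp.2] at h6
              rw [h6, sub_self, norm_zero]
              split_ifs <;> norm_num
          · calc n / p ≤ X / p := Nat.div_le_div_right hn.2
              _ ≤ X / y p := Nat.div_le_div_left (hy2 p hp.1) (hy1 p hp.1)
        calc _ ≤ ∑ p ∈ I.filter (fun p => p ∣ n), (if p ^ 2 ∣ n then (2 : ℝ) else 0) :=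
              (norm_sum_le _ _).trans (sum_le_sum h4)
          _ ≤ ∑ p ∈ I, (if p ^ 2 ∣ n then (2 : ℝ) else 0) := by
              apply sum_le_sum_of_subset_of_nonneg (filter_subset _ _)
              intro p _ _
              split_ifs <;> norm_num
          _ = 2 * ((I.filter (fun p => p ^ 2 ∣ n)).card : ℝ) := by
              rw [← sum_filter, sum_const, nsmul_eq_mul]; ring
          _ ≤ 2 * ω₂ n := by linarith [hω₂' n]
      have h5 : ‖g n‖ ≤ |ω n - L| + 2 * ω₂ n := by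
        rw [hg]
        simp only
        refine (norm_add_le _ _).trans (add_le_add ?_ h3)
        rw [if_pos hn.2, norm_mul, ← Complex.ofReal_sub, Complex.norm_real, Real.norm_eq_abs, abs_sub_comm]
        calc ‖f n‖ * |ω n - L| ≤ 1 * |ω n - L| := mul_le_mul_of_nonneg_right (hf n) (abs_nonneg _)
          _ = _ := one_mul _
      have h6 : 0 ≤ ω₂ n := by rw [hω₂]; exact Nat.cast_nonneg _
      calc ‖g n‖ ^ 2 ≤ (|ω n - L| + 2 * ω₂ n) ^ 2 := pow_le_pow_left₀ (norm_nonneg _) h5 2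
        _ ≤ 2 * |ω n - L| ^ 2 + 8 * ω₂ n ^ 2 := by nlinarith [sq_nonneg (|ω n - L| - 2 * ω₂ n)]
        _ = _ := by rw [sq_abs]
    have hb2 : ∀ n ∈ Ioc X X', ‖g n‖ ^ 2 ≤ ω n ^ 2 := by
      intro n hn
      rw [mem_Ioc] at hn
      have hnX : ¬ n ≤ X := by omega
      apply pow_le_pow_left₀ (norm_nonneg _)
      rw [hg]
      simp only
      rw [if_neg hnX, zero_add, hω]
      refine (norm_sum_le _ _).trans ?_
      calc ∑ p ∈ I.filter (fun p => p ∣ n), ‖(if n ≤ X then f n else 0) - (if n / p ≤ X / y p then f p * f (n / p) else 0)‖ ≤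
            ∑ _p ∈ I.filter (fun p => p ∣ n), (1 : ℝ) := by
            refine sum_le_sum fun p _ => ?_
            rw [if_neg hnX, zero_sub, norm_neg]
            split_ifs
            · rw [norm_mul]
              calc ‖f p‖ * ‖f (n / p)‖ ≤ 1 * 1 := mul_le_mul (hf _) (hf _) (norm_nonneg _) zero_le_one
                _ = 1 := one_mul _
            · simp
        _ = _ := by rw [sum_const, nsmul_eq_mul, mul_one]
    have hsplit : ∑ n ∈ Icc 1 X', ‖g n‖ ^ 2 = ∑ n ∈ Icc 1 X, ‖g n‖ ^ 2 + ∑ n ∈ Ioc X X', ‖g n‖ ^ 2 := by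
      rw [← sum_union]
      · congr 1
        ext n; simp only [mem_Icc, mem_union, mem_Ioc]; omega
      · rw [Finset.disjoint_left]
        intro n hn hn'
        rw [mem_Icc] at hn
        rw [mem_Ioc] at hn'
        omega
    rw [hsplit]
    have hIoc : Icc 1 X = Ioc 0 X := by ext n; simp only [mem_Icc, mem_Ioc]; omega
    have hv := var I hI X L hL
    have hΛ₂ : ∑ d ∈ D2, 1 / (d : ℝ) ≤ 1 := by
      rw [hD2, sum_image (fun p _ q _ h => Nat.pow_left_injective two_ne_zero h)]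
      obtain ⟨N, hN⟩ : ∃ N : ℕ, 1 ≤ N ∧ ∀ p ∈ I, p ≤ N := by
        refine ⟨I.sup id + 1, by omega, fun p hp => ?_⟩
        have := Finset.le_sup (f := id) hp
        simp only [id] at this
        omega
      calc ∑ p ∈ I, 1 / ((p ^ 2 : ℕ) : ℝ) ≤ ∑ p ∈ Ioc 1 N, ((p : ℝ) ^ 2)⁻¹ := by
            refine (le_of_eq ?_).trans (sum_le_sum_of_subset_of_nonneg (s := I) ?_ ?_)
            · refine sum_congr rfl fun p _ => ?_
              push_cast
              rw [one_div]
            · intro p hp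
              rw [mem_Ioc]
              exact ⟨(hI p hp).one_lt, hN.2 p hp⟩
            · intro p _ _
              positivity
        _ ≤ (((1 : ℕ) : ℝ))⁻¹ - ((N : ℝ))⁻¹ := sum_Ioc_inv_sq_le_sub one_ne_zero hN.1
        _ ≤ 1 := by
            have : 0 ≤ ((N : ℝ))⁻¹ := by positivity
            simp only [Nat.cast_one, inv_one]
            linarith
    have hΛ₂0 : 0 ≤ ∑ d ∈ D2, 1 / (d : ℝ) := sum_nonneg fun _ _ => by positivity
    have hm2 := mom2 D2 (by
      intro d hd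
      rw [hD2, mem_image] at hd
      obtain ⟨p, hp, rfl⟩ := hd
      exact Nat.one_le_pow _ _ (hI p hp).pos) (by
      intro d hd e he hde
      rw [hD2, mem_image] at hd he
      obtain ⟨p, hp, rfl⟩ := hd
      obtain ⟨q, hq, rfl⟩ := he
      apply Nat.Coprime.pow
      apply (Nat.coprime_primes (hI p hp) (hI q hq)).2
      intro h; exact hde (by rw [h])) 0 X (Nat.zero_le _) _ rfl
    have hc2 : (D2.card : ℝ) ≤ I.card := by rw [hD2]; exact_mod_cast card_image_le
    have hm3 := mom2 I (fun p hp => (hI p hp).one_le) (fun p hp q hq hpq =>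
      (Nat.coprime_primes (hI p hp) (hI q hq)).2 hpq) X X' hXX' L hL
    have t1 : ∑ n ∈ Icc 1 X, ‖g n‖ ^ 2 ≤ 2 * (X * L + (I.card : ℝ) ^ 2 + 2 * L * I.card) + 8 * (2 * X + (I.card : ℝ) ^ 2) := by
      refine (sum_le_sum hb1).trans ?_
      rw [sum_add_distrib, ← mul_sum, ← mul_sum, hIoc]
      have a1 : ∑ n ∈ Ioc 0 X, (ω n - L) ^ 2 ≤ X * L + (I.card : ℝ) ^ 2 + 2 * L * I.card := by
        rw [hω]; exact hv
      have a2 : ∑ n ∈ Ioc 0 X, ω₂ n ^ 2 ≤ 2 * X + (I.card : ℝ) ^ 2 := by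
        rw [hω₂]
        refine hm2.trans ?_
        push_cast
        have a3 : (∑ d ∈ D2, 1 / (d : ℝ)) ^ 2 + ∑ d ∈ D2, 1 / (d : ℝ) ≤ 2 := by
          nlinarith
        have a4 : (D2.card : ℝ) ^ 2 ≤ (I.card : ℝ) ^ 2 := pow_le_pow_left₀ (Nat.cast_nonneg _) hc2 2
        nlinarith [mul_le_mul_of_nonneg_left a3 hX0]
      linarith
    have t2 : ∑ n ∈ Ioc X X', ‖g n‖ ^ 2 ≤ η * X * (L ^ 2 + L) + (I.card : ℝ) ^ 2 := by
      refine (sum_le_sum hb2).trans ?_
      rw [hω]
      refine hm3.trans ?_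
      have a1 : (X' : ℝ) - X ≤ η * X := by linarith
      have a2 : 0 ≤ L ^ 2 + L := by positivity
      nlinarith [mul_le_mul_of_nonneg_right a1 a2]
    nlinarith

end Pool.Agent.TH327.Dim
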