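import Pool.Agent.TH327.Dim.Cnt
import Pool.Agent.TH327.Dim.Tk


/-! # Exponential sums with multiplicative coefficients in mean square over neighbourhoods of small sets -/

set_option autoImplicit false

namespace Pool.Agent.TH327.Dim

open Finset MeasureTheory Filter Topology
open Pool.Agent.H807R2.Dav (ee norm_ee ee_add ee_int ee_pow ee_zero ee_add_int)

/-- the exponential sum `∑_{n ≤ X} f(n) e(nθ)` -/
noncomputable def SS (f : ℕ → ℂ) (X : ℕ) (θ : ℝ) : ℂ := ∑ n ∈ Icc 1 X, f n * ee (n * θ)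

/-- the reals within `ρ` of `K` modulo one and at distance at least `κ₀` from all rationals with denominators
less than `R₀` -/
def EE (K : Set UnitAddCircle) (ρ : ℝ) (R0 : ℕ) (κ0 : ℝ) : Set ℝ :=
  {θ | (∃ x ∈ K, ‖((θ : ℝ) : UnitAddCircle) - x‖ < ρ) ∧ ∀ r : ℕ, 1 ≤ r → r < R0 → ∀ b : ℤ, κ0 ≤ |θ - b / r|}

lemma EE_meas (K : Set UnitAddCircle) (ρ : ℝ) (R0 : ℕ) (κ0 : ℝ) : MeasurableSet (EE K ρ R0 κ0) := by
  have h1 : IsOpen {θ : ℝ | ∃ x ∈ K, ‖((θ : ℝ) : UnitAddCircle) - x‖ < ρ} := by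
    have : {θ : ℝ | ∃ x ∈ K, ‖((θ : ℝ) : UnitAddCircle) - x‖ < ρ} =
        ⋃ x ∈ K, {θ : ℝ | ‖((θ : ℝ) : UnitAddCircle) - x‖ < ρ} := by
      ext θ; simp
    rw [this]
    refine isOpen_biUnion fun x _ => ?_
    exact isOpen_lt (by
      have : Continuous (fun θ : ℝ => (θ : UnitAddCircle)) := AddCircle.continuous_mk' 1
      exact (this.sub continuous_const).norm) continuous_const
  have h2 : IsClosed {θ : ℝ | ∀ r : ℕ, 1 ≤ r → r < R0 → ∀ b : ℤ, κ0 ≤ |θ - b / r|} := by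
    simp only [Set.ofPred_forall]
    refine isClosed_iInter fun r => isClosed_iInter fun _ => isClosed_iInter fun _ => isClosed_iInter fun b => ?_
    exact isClosed_le continuous_const (by fun_prop)
  exact h1.measurableSet.inter h2.measurableSet

lemma EE_per (K : Set UnitAddCircle) (ρ : ℝ) (R0 : ℕ) (κ0 : ℝ) (θ : ℝ) :
    θ + 1 ∈ EE K ρ R0 κ0 ↔ θ ∈ EE K ρ R0 κ0 := by
  have h1 : ((θ + 1 : ℝ) : UnitAddCircle) = (θ : UnitAddCircle) := by
    rw [AddCircle.coe_add_period]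
  unfold EE
  simp only [Set.mem_ofPred_eq, h1]
  refine and_congr Iff.rfl ⟨fun h r hr hr2 b => ?_, fun h r hr hr2 b => ?_⟩
  · have := h r hr hr2 (b + r)
    have hr0 : (r : ℝ) ≠ 0 := by positivity
    have e : θ + 1 - ((b + r : ℤ) : ℝ) / r = θ - b / r := by push_cast; field_simp; ring
    rwa [e] at this
  · have := h r hr hr2 (b - r)
    have hr0 : (r : ℝ) ≠ 0 := by positivity
    have e : θ - ((b - r : ℤ) : ℝ) / r = θ + 1 - b / r := by push_cast; field_simp; ring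
    rwa [e] at this

lemma SS_cont (f : ℕ → ℂ) (X : ℕ) : Continuous (SS f X) := by
  unfold SS
  refine continuous_finsetSum _ fun n _ => continuous_const.mul (ee_cont.comp (by fun_prop))

lemma SS_le (f : ℕ → ℂ) (hf : ∀ n, ‖f n‖ ≤ 1) (X : ℕ) (θ : ℝ) : ‖SS f X θ‖ ≤ X := by
  unfold SS
  refine (norm_sum_le _ _).trans ?_
  calc ∑ n ∈ Icc 1 X, ‖f n * ee (n * θ)‖ ≤ ∑ _n ∈ Icc 1 X, (1 : ℝ) := by
        refine sum_le_sum fun n _ => ?_
        rw [norm_mul, norm_ee, mul_one]; exact hf n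
    _ = X := by simp

lemma SS_per (f : ℕ → ℂ) (X : ℕ) (θ : ℝ) : SS f X (θ + 1) = SS f X θ := by
  unfold SS
  refine sum_congr rfl fun n _ => ?_
  have : (n : ℝ) * (θ + 1) = n * θ + (n : ℤ) := by push_cast; ring
  rw [this, ee_add_int]

/-- harmonic sums -/
lemma harm (a b : ℕ) (ha : 1 ≤ a) : ∑ j ∈ Ico a b, 1 / (j : ℝ) ≤ 1 + Real.log b := by
  have h1 := harmonic_le_one_add_log b
  refine le_trans ?_ h1
  rw [harmonic]
  push_cast
  calc ∑ j ∈ Ico a b, 1 / (j : ℝ) ≤ ∑ j ∈ Ico 1 (b + 1), 1 / (j : ℝ) := by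
        apply sum_le_sum_of_subset_of_nonneg
        · intro j hj
          rw [mem_Ico] at hj ⊢
          omega
        · intro j _ _
          positivity
    _ = ∑ i ∈ range b, ((i : ℝ) + 1)⁻¹ := by
        rw [sum_Ico_eq_sum_range]
        simp only [Nat.add_sub_cancel]
        refine sum_congr rfl fun i _ => ?_
        push_cast
        rw [one_div, add_comm]

/-- geometric sums -/
lemma geom (x : ℝ) (h0 : 0 ≤ x) (h1 : x < 1) (a b : ℕ) : ∑ j ∈ Ico a b, x ^ j ≤ 1 / (1 - x) := by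
  have h2 := sum_le_hasSum (Ico a b) (fun j _ => pow_nonneg h0 j) (hasSum_geometric_of_lt_one h0 h1)
  rwa [← one_div] at h2

/-- Titu's inequality in mean square -/
lemma titu (J : Finset ℕ) (G : ℕ → ℝ → ℂ) (R : ℝ → ℂ) (χ : ℝ → ℝ) (hχ0 : ∀ θ, 0 ≤ χ θ) (hχ1 : ∀ θ, χ θ ≤ 1) (hχm : Measurable χ)
    (hG : ∀ j, Continuous (G j)) (hR : Continuous R) (a : ℕ → ℝ) (aR : ℝ) (ha : ∀ j ∈ J, 0 < a j) (haR : 0 < aR) (X : ℝ)
    (MG : ℝ) (hMG : ∀ j θ, ‖G j θ‖ ≤ MG) (hMR : ∀ θ, ‖R θ‖ ≤ MG)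
    (h1 : ∀ j ∈ J, ∫ θ in (0 : ℝ)..1, χ θ * ‖G j θ‖ ^ 2 ≤ X * a j ^ 2)
    (h2 : ∫ θ in (0 : ℝ)..1, χ θ * ‖R θ‖ ^ 2 ≤ X * aR ^ 2) :
    ∫ θ in (0 : ℝ)..1, χ θ * ‖∑ j ∈ J, G j θ + R θ‖ ^ 2 ≤ X * (∑ j ∈ J, a j + aR) ^ 2 := by
  have hMG0 : 0 ≤ MG := (norm_nonneg _).trans (hMR 0)
  have iiG : ∀ j, IntervalIntegrable (fun θ => χ θ * ‖G j θ‖ ^ 2) volume 0 1 := by
    intro j
    refine ii (C := 1 * MG ^ 2) (hχm.mul ((hG j).measurable.norm.pow_const 2)) (fun x => ?_) 0 1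
    show ‖χ x * ‖G j x‖ ^ 2‖ ≤ 1 * MG ^ 2
    rw [Real.norm_of_nonneg (mul_nonneg (hχ0 x) (by positivity))]
    exact mul_le_mul (hχ1 x) (pow_le_pow_left₀ (norm_nonneg _) (hMG j x) 2) (by positivity) zero_le_one
  have iiR : IntervalIntegrable (fun θ => χ θ * ‖R θ‖ ^ 2) volume 0 1 := by
    refine ii (C := 1 * MG ^ 2) (hχm.mul (hR.measurable.norm.pow_const 2)) (fun x => ?_) 0 1
    show ‖χ x * ‖R x‖ ^ 2‖ ≤ 1 * MG ^ 2
    rw [Real.norm_of_nonneg (mul_nonneg (hχ0 x) (by positivity))]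
    exact mul_le_mul (hχ1 x) (pow_le_pow_left₀ (norm_nonneg _) (hMR x) 2) (by positivity) zero_le_one
  obtain ⟨A, hA⟩ : ∃ A, A = ∑ j ∈ J, a j + aR := ⟨_, rfl⟩
  have hA0 : 0 < A := by
    rw [hA]
    have : 0 ≤ ∑ j ∈ J, a j := sum_nonneg fun j hj => (ha j hj).le
    linarith
  have hpt : ∀ θ, χ θ * ‖∑ j ∈ J, G j θ + R θ‖ ^ 2 ≤
      ∑ j ∈ J, (A / a j) * (χ θ * ‖G j θ‖ ^ 2) + (A / aR) * (χ θ * ‖R θ‖ ^ 2) := by
    intro θ
    have e1 : ‖∑ j ∈ J, G j θ + R θ‖ ≤ ∑ j ∈ J, ‖G j θ‖ + ‖R θ‖ :=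
      (norm_add_le _ _).trans (add_le_add (norm_sum_le _ _) le_rfl)
    have e2 : (∑ j ∈ J, ‖G j θ‖) ^ 2 ≤ (∑ j ∈ J, a j) * ∑ j ∈ J, ‖G j θ‖ ^ 2 / a j := by
      apply Finset.sum_sq_le_sum_mul_sum_of_sq_le_mul
      · intro j hj; exact (ha j hj).le
      · intro j hj
        have := ha j hj
        positivity
      · intro j hj
        have := ha j hj
        apply le_of_eq
        field_simp
    obtain ⟨u, hu⟩ : ∃ u, u = ∑ j ∈ J, ‖G j θ‖ := ⟨_, rfl⟩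
    obtain ⟨v, hv⟩ : ∃ v, v = ∑ j ∈ J, ‖G j θ‖ ^ 2 / a j := ⟨_, rfl⟩
    obtain ⟨sa, hsa⟩ : ∃ sa, sa = ∑ j ∈ J, a j := ⟨_, rfl⟩
    have hsa0 : 0 ≤ sa := by rw [hsa]; exact sum_nonneg fun j hj => (ha j hj).le
    have hv0 : 0 ≤ v := by
      rw [hv]
      refine sum_nonneg fun j hj => ?_
      have := ha j hj
      positivity
    have hu0 : 0 ≤ u := by rw [hu]; exact sum_nonneg fun _ _ => norm_nonneg _
    rw [← hu, ← hsa, ← hv] at e2
    rw [← hu] at e1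
    obtain ⟨w, hw⟩ : ∃ w, w = ‖R θ‖ := ⟨_, rfl⟩
    have hw0 : 0 ≤ w := by rw [hw]; exact norm_nonneg _
    rw [← hw] at e1 ⊢
    have e3 : (u + w) ^ 2 ≤ A * (v + w ^ 2 / aR) := by
      rw [hA, ← hsa]
      have e4 : 2 * (u * w) ≤ aR * v + sa * (w ^ 2 / aR) := by
        have e5 : (u * w) ^ 2 ≤ (aR * v) * (sa * (w ^ 2 / aR)) := by
          calc (u * w) ^ 2 = u ^ 2 * w ^ 2 := by ring
            _ ≤ (sa * v) * w ^ 2 := mul_le_mul_of_nonneg_right e2 (by positivity)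
            _ = _ := by field_simp
        have e6 : 0 ≤ aR * v := by positivity
        have e7 : 0 ≤ sa * (w ^ 2 / aR) := by positivity
        have e8 : 0 ≤ u * w := mul_nonneg hu0 hw0
        nlinarith [sq_nonneg (aR * v - sa * (w ^ 2 / aR))]
      have e9 : aR * (w ^ 2 / aR) = w ^ 2 := by field_simp
      nlinarith
    calc χ θ * ‖∑ j ∈ J, G j θ + R θ‖ ^ 2 ≤ χ θ * (A * (v + w ^ 2 / aR)) := by
          apply mul_le_mul_of_nonneg_left _ (hχ0 θ)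
          exact (pow_le_pow_left₀ (norm_nonneg _) e1 2).trans e3
      _ = _ := by
          rw [hv, mul_add, mul_add, mul_sum, mul_sum]
          congr 1
          · refine sum_congr rfl fun j _ => ?_
            ring
          · ring
  have hint : IntervalIntegrable (fun θ => ∑ j ∈ J, (A / a j) * (χ θ * ‖G j θ‖ ^ 2) + (A / aR) * (χ θ * ‖R θ‖ ^ 2)) volume 0 1 :=
    (ii_sum _ fun j _ => (iiG j).const_mul _).add (iiR.const_mul _)
  have hint2 : IntervalIntegrable (fun θ => χ θ * ‖∑ j ∈ J, G j θ + R θ‖ ^ 2) volume 0 1 := by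
    refine ii (C := 1 * ((J.card + 1) * MG) ^ 2) (hχm.mul (((continuous_finsetSum _ fun j _ => hG j).add hR).measurable.norm.pow_const 2)) (fun x => ?_) 0 1
    show ‖χ x * ‖∑ j ∈ J, G j x + R x‖ ^ 2‖ ≤ _
    rw [Real.norm_of_nonneg (mul_nonneg (hχ0 x) (by positivity))]
    refine mul_le_mul (hχ1 x) (pow_le_pow_left₀ (norm_nonneg _) ?_ 2) (by positivity) zero_le_one
    refine (norm_add_le _ _).trans ?_
    have : ‖∑ j ∈ J, G j x‖ ≤ J.card * MG := by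
      refine (norm_sum_le _ _).trans ((sum_le_sum fun j _ => hMG j x).trans ?_)
      rw [sum_const, nsmul_eq_mul]
    have := hMR x
    linarith
  have h3 := intervalIntegral.integral_mono_on zero_le_one hint2 hint (fun x _ => hpt x)
  refine h3.trans ?_
  rw [intervalIntegral.integral_add (ii_sum _ fun j _ => (iiG j).const_mul _) (iiR.const_mul _),
    intervalIntegral.integral_finsetSum (fun j _ => (iiG j).const_mul _), intervalIntegral.integral_const_mul]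
  have h4 : ∀ j ∈ J, ∫ θ in (0 : ℝ)..1, (A / a j) * (χ θ * ‖G j θ‖ ^ 2) ≤ A * X * a j := by
    intro j hj
    rw [intervalIntegral.integral_const_mul]
    have haj := ha j hj
    calc A / a j * ∫ θ in (0 : ℝ)..1, χ θ * ‖G j θ‖ ^ 2 ≤ A / a j * (X * a j ^ 2) :=
          mul_le_mul_of_nonneg_left (h1 j hj) (by positivity)
      _ = A * X * a j := by field_simp
  have h5 : A / aR * ∫ θ in (0 : ℝ)..1, χ θ * ‖R θ‖ ^ 2 ≤ A * X * aR := by
    calc A / aR * ∫ θ in (0 : ℝ)..1, χ θ * ‖R θ‖ ^ 2 ≤ A / aR * (X * aR ^ 2) :=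
          mul_le_mul_of_nonneg_left h2 (by positivity)
      _ = A * X * aR := by field_simp
  calc _ ≤ ∑ j ∈ J, A * X * a j + A * X * aR := add_le_add (sum_le_sum h4) h5
    _ = X * A ^ 2 := by rw [← mul_sum, hA]; ring
    _ = _ := by rw [hA]

end Pool.Agent.TH327.Dim
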