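import Pool.Agent.TH327.Dim.Gen
import Pool.Agent.TH327.Dim.Blk
import Pool.Agent.Helper256.KM.Mertens

/-! # Exponential sums with multiplicative coefficients in mean square over neighbourhoods of small sets:
the main inequality -/

set_option autoImplicit false

namespace Pool.Agent.TH327.Dim

open Finset MeasureTheory Filter Topology
open Pool.Agent.H807R2.Dav (ee norm_ee ee_add ee_int ee_pow ee_zero ee_add_int)

lemma sqrt_add_le' (a b : ℝ) (ha : 0 ≤ a) (hb : 0 ≤ b) : √(a + b) ≤ √a + √b := by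
  rw [Real.sqrt_le_left (by positivity)]
  have h1 := Real.sq_sqrt ha
  have h2 := Real.sq_sqrt hb
  have h3 := mul_nonneg (Real.sqrt_nonneg a) (Real.sqrt_nonneg b)
  nlinarith

/-- the block endpoints -/
noncomputable def yy (η : ℝ) (j : ℕ) : ℕ := ⌊(1 + η) ^ j⌋₊

lemma yy_mono {η : ℝ} (hη : 0 < η) {i j : ℕ} (h : i ≤ j) : yy η i ≤ yy η j := by
  unfold yy
  exact Nat.floor_le_floor (pow_le_pow_right₀ (by linarith) h)

lemma yy_le {η : ℝ} (hη : 0 < η) (j : ℕ) : (yy η j : ℝ) ≤ (1 + η) ^ j := Nat.floor_le (by positivity)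

lemma yy_gt {η : ℝ} (j : ℕ) : (1 + η) ^ j < (yy η j : ℝ) + 1 := Nat.lt_floor_add_one _

lemma yy_half {η : ℝ} (j : ℕ) (h : 1 ≤ yy η j) : (1 + η) ^ j / 2 ≤ (yy η j : ℝ) := by
  have h1 := yy_gt (η := η) j
  have h2 : (1 : ℝ) ≤ yy η j := by exact_mod_cast h
  linarith

/-- eventually large -/
lemma yy_ev {η : ℝ} (hη : 0 < η) (A : ℝ) : ∃ j0 : ℕ, ∀ j, j0 ≤ j → A ≤ (yy η j : ℝ) := by
  have h1 : Tendsto (fun j : ℕ => (1 + η) ^ j) atTop atTop := tendsto_pow_atTop_atTop_of_one_lt (by linarith)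
  obtain ⟨j0, h0⟩ := eventually_atTop.1 (h1.eventually_ge_atTop (A + 1))
  refine ⟨j0, fun j hj => ?_⟩
  have := h0 j hj
  have := yy_gt (η := η) j
  linarith

lemma yy_log {η : ℝ} (hη : 0 < η) (hη1 : η ≤ 1) (j : ℕ) (h : 1 ≤ yy η j) (hj : 4 ≤ (j : ℝ) * η) :
    η / Real.log (yy η j) ≤ 4 / j := by
  have hj0 : (0 : ℝ) < j := by
    by_contra h0
    push Not at h0
    have : (j : ℝ) * η ≤ 0 := mul_nonpos_of_nonpos_of_nonneg h0 hη.le
    linarith
  have h1 : (1 : ℝ) ≤ yy η j := by exact_mod_cast h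
  have h2 := yy_half (η := η) j h
  have h3 : Real.log ((1 + η) ^ j / 2) ≤ Real.log (yy η j) := Real.log_le_log (by positivity) h2
  rw [Real.log_div (by positivity) (by norm_num), Real.log_pow] at h3
  have h4 : η / 2 ≤ Real.log (1 + η) := by
    have h5 := Real.one_sub_inv_le_log_of_pos (show 0 < 1 + η by linarith)
    have h6 : η / 2 ≤ 1 - (1 + η)⁻¹ := by
      have : 1 - (1 + η)⁻¹ = η / (1 + η) := by field_simp; ring
      rw [this]
      exact div_le_div_of_nonneg_left hη.le (by linarith) (by linarith)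
    linarith
  have h7 := Real.log_two_lt_d9
  have h8 : (j : ℝ) * (η / 2) ≤ j * Real.log (1 + η) := mul_le_mul_of_nonneg_left h4 hj0.le
  have h9 : (j : ℝ) * η / 4 ≤ Real.log (yy η j) := by linarith
  rw [div_le_div_iff₀ (by linarith) hj0]
  nlinarith

lemma yy_pow {η κ : ℝ} (hη : 0 < η) (hκ : 0 < κ) (hκ1 : κ ≤ 2) (j : ℕ) (h : 1 ≤ yy η j) :
    (yy η j : ℝ) ^ (-κ / 2) ≤ 2 * ((1 + η) ^ (-κ / 2)) ^ j := by
  have h2 := yy_half (η := η) j h
  calc (yy η j : ℝ) ^ (-κ / 2) ≤ ((1 + η) ^ j / 2) ^ (-κ / 2) :=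
        Real.rpow_le_rpow_of_nonpos (by positivity) h2 (by linarith)
    _ = ((1 + η) ^ j) ^ (-κ / 2) * (2 : ℝ) ^ (κ / 2) := by
        rw [Real.div_rpow (by positivity) (by norm_num), div_eq_mul_inv, ← Real.rpow_neg (by norm_num)]
        congr 2; ring
    _ ≤ ((1 + η) ^ j) ^ (-κ / 2) * 2 := by
        apply mul_le_mul_of_nonneg_left _ (by positivity)
        calc (2 : ℝ) ^ (κ / 2) ≤ (2 : ℝ) ^ (1 : ℝ) := Real.rpow_le_rpow_of_exponent_le (by norm_num) (by linarith)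
          _ = 2 := Real.rpow_one 2
    _ = 2 * ((1 + η) ^ (-κ / 2)) ^ j := by
        rw [mul_comm]
        congr 1
        rw [← Real.rpow_natCast, ← Real.rpow_natCast, ← Real.rpow_mul (by positivity), ← Real.rpow_mul (by positivity)]
        congr 1; ring

/-- sums of reciprocals of primes between block endpoints -/
lemma rec_lower {η : ℝ} (hη : 0 < η) (hη1 : η ≤ 1) (j1 : ℕ) (A : ℝ) : ∃ j2 : ℕ, j1 ≤ j2 ∧ 1 ≤ j2 ∧
    A ≤ ∑ p ∈ (Ioc (yy η j1) (yy η j2)).filter Nat.Prime, 1 / (p : ℝ) ∧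
    1 + Real.log j2 ≤ 2 * ∑ p ∈ (Ioc (yy η j1) (yy η j2)).filter Nat.Prime, 1 / (p : ℝ) := by
  obtain ⟨C, hC⟩ := Pool.Agent.Helper256.KM.Mert.mertens_inv
  obtain ⟨M1, hM1⟩ : ∃ M1, M1 = ∑ p ∈ (Icc 1 (yy η j1)).filter Nat.Prime, 1 / (p : ℝ) := ⟨_, rfl⟩
  have hM10 : 0 ≤ M1 := by rw [hM1]; exact sum_nonneg fun _ _ => by positivity
  obtain ⟨C', hC'⟩ : ∃ C', C' = |C| + M1 - Real.log (η / 4) := ⟨_, rfl⟩
  -- lower bound
  have key : ∀ j2 : ℕ, j1 ≤ j2 → 3 ≤ yy η j2 → 4 ≤ (j2 : ℝ) * η →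
      Real.log j2 - C' ≤ ∑ p ∈ (Ioc (yy η j1) (yy η j2)).filter Nat.Prime, 1 / (p : ℝ) := by
    intro j2 h12 h3 h4
    have hj0 : (0 : ℝ) < j2 := by
      by_contra h0
      push Not at h0
      have : (j2 : ℝ) * η ≤ 0 := mul_nonpos_of_nonpos_of_nonneg h0 hη.le
      linarith
    have h5 := (abs_le.1 (hC (yy η j2) h3)).1
    have hsplit : ∑ p ∈ (Icc 1 (yy η j2)).filter Nat.Prime, 1 / (p : ℝ) =
        M1 + ∑ p ∈ (Ioc (yy η j1) (yy η j2)).filter Nat.Prime, 1 / (p : ℝ) := by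
      rw [hM1, ← sum_union]
      · congr 1
        rw [← filter_union]
        congr 1
        have := yy_mono hη h12
        ext n; simp only [mem_Icc, mem_union, mem_Ioc]; omega
      · rw [Finset.disjoint_left]
        intro n hn hn'
        simp only [mem_filter, mem_Icc, mem_Ioc] at hn hn'
        omega
    rw [hsplit] at h5
    have h6 := yy_log hη hη1 j2 (by omega) h4
    have h7 : (1 : ℝ) < yy η j2 := by exact_mod_cast (by omega : 1 < yy η j2)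
    have h8 : 0 < Real.log (yy η j2) := Real.log_pos h7
    have h9 : (j2 : ℝ) * (η / 4) ≤ Real.log (yy η j2) := by
      rw [div_le_div_iff₀ h8 hj0] at h6
      linarith
    have h10 : Real.log j2 + Real.log (η / 4) ≤ Real.log (Real.log (yy η j2)) := by
      rw [← Real.log_mul hj0.ne' (by positivity)]
      exact Real.log_le_log (by positivity) h9
    have h11 : C ≤ |C| := le_abs_self C
    rw [hC']
    linarith
  have hlog : Tendsto (fun j : ℕ => Real.log (j : ℝ)) atTop atTop :=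
    Real.tendsto_log_atTop.comp tendsto_natCast_atTop_atTop
  obtain ⟨ja, hja⟩ := eventually_atTop.1 (hlog.eventually_ge_atTop (max (A + C') (1 + 2 * C')))
  obtain ⟨jb, hjb⟩ := yy_ev hη 3
  obtain ⟨j2, hj2⟩ : ∃ j2, j2 = max (max ja jb) (max j1 (⌈4 / η⌉₊ + 1)) := ⟨_, rfl⟩
  have a1 : ja ≤ j2 := by rw [hj2]; exact le_trans (le_max_left _ _) (le_max_left _ _)
  have a2 : jb ≤ j2 := by rw [hj2]; exact le_trans (le_max_right _ _) (le_max_left _ _)
  have a3 : j1 ≤ j2 := by rw [hj2]; exact le_trans (le_max_left _ _) (le_max_right _ _)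
  have a4 : ⌈4 / η⌉₊ + 1 ≤ j2 := by rw [hj2]; exact le_trans (le_max_right _ _) (le_max_right _ _)
  have b1 : 3 ≤ yy η j2 := by exact_mod_cast hjb j2 a2
  have b2 : 4 ≤ (j2 : ℝ) * η := by
    have h1 : 4 / η ≤ (j2 : ℝ) := by
      have h3 := Nat.le_ceil (4 / η)
      have h4 : ((⌈4 / η⌉₊ + 1 : ℕ) : ℝ) ≤ j2 := by exact_mod_cast a4
      push_cast at h4
      linarith
    rwa [div_le_iff₀ hη] at h1
  have h := key j2 a3 b1 b2
  have h1 := hja j2 a1
  have h2 := le_trans (le_max_left _ _) h1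
  have h3 := le_trans (le_max_right _ _) h1
  refine ⟨j2, a3, by omega, by linarith, by linarith⟩

/-- **The main inequality.** Let `K` be a subset of the circle of upper box dimension less than `1/2`. For every
`ε > 0` there is `R₀` such that for every `κ₀ > 0` there are `ρ > 0` and `X₀` such that, for all functions `f` bounded by `1` with
`f(pm) = f(p) f(m)` for the primes `p` not dividing `m`, the mean square of `∑_{n ≤ X} f(n) e(nθ)` over the
`θ` within `ρ` of `K` and further than `κ₀` from the rationals with denominators less than `R₀` is at most `ε X`. -/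
theorem gen {C s : ℝ} (hC : 0 ≤ C) (hs0 : 0 ≤ s) (hs : s < 1 / 2)
    (ε : ℝ) (hε : 0 < ε) : ∃ R0 : ℕ, 1 ≤ R0 ∧ ∀ κ0 : ℝ, 0 < κ0 → ∃ ρ : ℝ, 0 < ρ ∧ ∃ X0 : ℕ,
    ∀ K : Set UnitAddCircle, Cov K C s → ∀ f : ℕ → ℂ,
    (∀ n, ‖f n‖ ≤ 1) → (∀ p m : ℕ, p.Prime → ¬ p ∣ m → f (p * m) = f p * f m) → ∀ X : ℕ, X0 ≤ X →
    ∫ θ in (0 : ℝ)..1, (EE K ρ R0 κ0).indicator (fun _ => (1 : ℝ)) θ * ‖SS f X θ‖ ^ 2 ≤ ε * X := by
  obtain ⟨C1, C2, κ, hC1, hC2, hκ, hblk⟩ := blk hC hs0 hs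
  -- the choice of R0
  obtain ⟨R0, hR01, hR0⟩ : ∃ R0 : ℕ, 1 ≤ R0 ∧ C1 * (R0 : ℝ) ^ (s - 1 / 2) ≤ ε / 1024 := by
    have h1 : Tendsto (fun n : ℕ => C1 * (n : ℝ) ^ (-(1 / 2 - s))) atTop (𝓝 (C1 * 0)) :=
      ((tendsto_rpow_neg_atTop (by linarith : 0 < 1 / 2 - s)).comp tendsto_natCast_atTop_atTop).const_mul C1
    rw [mul_zero] at h1
    obtain ⟨n0, hn0⟩ := eventually_atTop.1 (h1.eventually_le_const (show (0 : ℝ) < ε / 1024 by positivity))
    refine ⟨max 1 n0, le_max_left _ _, ?_⟩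
    have h2 := hn0 (max 1 n0) (le_max_right _ _)
    have h3 : s - 1 / 2 = -(1 / 2 - s) := by ring
    rw [h3]
    exact h2
  refine ⟨R0, hR01, fun κ0 hκ0 => ?_⟩
  obtain ⟨ξ, hξ⟩ : ∃ ξ, ξ = (R0 : ℝ) ^ (s - 1 / 2) := ⟨_, rfl⟩
  have hξ0 : 0 < ξ := by rw [hξ]; positivity
  rw [← hξ] at hR0
  -- the choice of η
  obtain ⟨η, hη⟩ : ∃ η, η = min (1 / 2) (ε / 256) := ⟨_, rfl⟩
  have hη0 : 0 < η := by rw [hη]; apply lt_min <;> positivity
  have hη2 : η ≤ 1 / 2 := by rw [hη]; exact min_le_left _ _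
  have hη1 : η ≤ 1 := by linarith
  have hηε : η ≤ ε / 256 := by rw [hη]; exact min_le_right _ _
  obtain ⟨y0, hy03, hy0⟩ := hblk η hη0 hη1
  -- the choice of j1
  obtain ⟨ja, hja⟩ := yy_ev hη0 (max (max y0 (2 / η)) (1 / κ0))
  obtain ⟨j1, hj1⟩ : ∃ j1, j1 = max ja (⌈4 / η⌉₊ + 1) := ⟨_, rfl⟩
  have hj1a : ∀ j, j1 ≤ j → (y0 : ℝ) ≤ yy η j ∧ 2 / η ≤ yy η j ∧ 1 / κ0 ≤ yy η j ∧ 4 ≤ (j : ℝ) * η := by
    intro j hj
    have h1 := hja j (le_trans (by rw [hj1]; exact le_max_left _ _) hj)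
    refine ⟨le_trans (le_trans (le_max_left _ _) (le_max_left _ _)) h1,
      le_trans (le_trans (le_max_right _ _) (le_max_left _ _)) h1, le_trans (le_max_right _ _) h1, ?_⟩
    have h2 : ⌈4 / η⌉₊ + 1 ≤ j := le_trans (by rw [hj1]; exact le_max_right _ _) hj
    have h3 : 4 / η ≤ (j : ℝ) := by
      have h3 := Nat.le_ceil (4 / η)
      have h4 : ((⌈4 / η⌉₊ + 1 : ℕ) : ℝ) ≤ j := by exact_mod_cast h2
      push_cast at h4
      linarith
    rwa [div_le_iff₀ hη0] at h3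
  have hj11 : 1 ≤ j1 := by rw [hj1]; exact le_trans (by omega) (le_max_right _ _)
  -- the choice of j2
  obtain ⟨x, hx⟩ : ∃ x, x = (1 + η) ^ (-κ / 2) := ⟨_, rfl⟩
  have hx0 : 0 < x := by rw [hx]; positivity
  obtain ⟨κ', hκ', hκ'0, hκ'2⟩ : ∃ κ', κ' = min κ 2 ∧ 0 < κ' ∧ κ' ≤ 2 := ⟨_, rfl, lt_min hκ two_pos, min_le_right _ _⟩
  have hκκ' : κ' ≤ κ := by rw [hκ']; exact min_le_left _ _
  obtain ⟨x', hx'⟩ : ∃ x', x' = (1 + η) ^ (-κ' / 2) := ⟨_, rfl⟩
  have hx'0 : 0 < x' := by rw [hx']; positivity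
  have hx'1 : x' < 1 := by
    rw [hx']
    exact Real.rpow_lt_one_of_one_lt_of_neg (by linarith) (by linarith)
  obtain ⟨Cx, hCx⟩ : ∃ Cx, Cx = 2 * √C2 / (1 - x') := ⟨_, rfl⟩
  have hCx0 : 0 < Cx := by
    rw [hCx]
    have := Real.sqrt_pos.2 hC2
    have : 0 < 1 - x' := by linarith
    positivity
  obtain ⟨j2, hj12, hj21, hL1, hL2⟩ := rec_lower hη0 hη1 j1 (max (max 1 (4 * Cx / √ε)) (20 * 64 / ε))
  obtain ⟨I, hI⟩ : ∃ I, I = (Ioc (yy η j1) (yy η j2)).filter Nat.Prime := ⟨_, rfl⟩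
  rw [← hI] at hL1 hL2
  obtain ⟨L, hL⟩ : ∃ L, L = ∑ p ∈ I, 1 / (p : ℝ) := ⟨_, rfl⟩
  rw [← hL] at hL1 hL2
  have hLa : 1 ≤ L := le_trans (le_trans (le_max_left _ _) (le_max_left _ _)) hL1
  have hLb : 4 * Cx / √ε ≤ L := le_trans (le_trans (le_max_right _ _) (le_max_left _ _)) hL1
  have hLc : 20 * 64 / ε ≤ L := le_trans (le_max_right _ _) hL1
  have hL0 : 0 < L := by linarith
  have hsε : 0 < √ε := Real.sqrt_pos.2 hε
  have hImem : ∀ p ∈ I, p.Prime ∧ yy η j1 < p ∧ p ≤ yy η j2 := by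
    intro p hp
    rw [hI, mem_filter, mem_Ioc] at hp
    exact ⟨hp.2, hp.1.1, hp.1.2⟩
  -- the radius
  obtain ⟨Z, hZ⟩ : ∃ Z, Z = yy η j2 := ⟨_, rfl⟩
  have hy1pos : ∀ j, j1 ≤ j → 3 ≤ yy η j := by
    intro j hj
    have := (hj1a j hj).1
    have h2 : y0 ≤ yy η j := by exact_mod_cast this
    omega
  have hZ3 : 3 ≤ Z := by rw [hZ]; exact hy1pos j2 hj12
  have hZ0 : (0 : ℝ) < Z := by exact_mod_cast (by omega : 0 < Z)
  refine ⟨1 / (512 * (Z : ℝ) ^ 4), by positivity, ⌈(64 / ε) * (11 * (I.card : ℝ) ^ 2 + 4 * L * I.card)⌉₊ + 1,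
    fun K hK f hf hmul X hX => ?_⟩
  have hX1 : 1 ≤ X := by omega
  have hXr : (1 : ℝ) ≤ X := by exact_mod_cast hX1
  have hXp : (0 : ℝ) < X := by linarith
  have hXc : 11 * (I.card : ℝ) ^ 2 + 4 * L * I.card ≤ ε / 64 * X := by
    have h1 : (64 / ε) * (11 * (I.card : ℝ) ^ 2 + 4 * L * I.card) ≤ X := by
      refine (Nat.le_ceil _).trans ?_
      exact_mod_cast (by omega : ⌈(64 / ε) * (11 * (I.card : ℝ) ^ 2 + 4 * L * I.card)⌉₊ ≤ X)
    rw [div_mul_eq_mul_div, div_le_iff₀ hε] at h1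
    linarith
  obtain ⟨E, hE⟩ : ∃ E, E = EE K (1 / (512 * (Z : ℝ) ^ 4)) R0 κ0 := ⟨_, rfl⟩
  rw [← hE]
  have hEm : MeasurableSet E := by rw [hE]; exact EE_meas _ _ _ _
  have hEp : ∀ θ, θ + 1 ∈ E ↔ θ ∈ E := by intro θ; rw [hE]; exact EE_per _ _ _ _ θ
  -- block index
  obtain ⟨jf, hjf⟩ : ∃ jf : ℕ → ℕ, jf = fun p => Nat.findGreatest (fun j => yy η j < p) j2 := ⟨_, rfl⟩
  have hjf1 : ∀ p ∈ I, j1 ≤ jf p ∧ jf p < j2 ∧ yy η (jf p) < p ∧ p ≤ yy η (jf p + 1) := by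
    intro p hp
    obtain ⟨hp1, hp2, hp3⟩ := hImem p hp
    have h1 : j1 ≤ jf p := by rw [hjf]; exact Nat.le_findGreatest hj12 hp2
    have h2 : yy η (jf p) < p := by
      rw [hjf]
      exact Nat.findGreatest_spec (P := fun j => yy η j < p) hj12 hp2
    have h3 : jf p ≤ j2 := by rw [hjf]; exact Nat.findGreatest_le _
    have h4 : jf p ≠ j2 := by
      intro h
      rw [h] at h2
      omega
    have h5 : ¬ yy η (jf p + 1) < p := by
      apply Nat.findGreatest_is_greatest (P := fun j => yy η j < p) (n := j2)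
      · rw [← show jf p = Nat.findGreatest (fun j => yy η j < p) j2 by rw [hjf]]; omega
      · omega
    exact ⟨h1, by omega, h2, by omega⟩
  have hjf2 : ∀ j, j1 ≤ j → j < j2 → I.filter (fun p => jf p = j) = (Ioc (yy η j) (yy η (j + 1))).filter Nat.Prime := by
    intro j h1 h2
    ext p
    rw [mem_filter, mem_filter, mem_Ioc]
    constructor
    · rintro ⟨hp, hpj⟩
      have := hjf1 p hp
      rw [hpj] at this
      exact ⟨⟨this.2.2.1, this.2.2.2⟩, (hImem p hp).1⟩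
    · rintro ⟨⟨hp1, hp2⟩, hp3⟩
      have hpI : p ∈ I := by
        rw [hI, mem_filter, mem_Ioc]
        have a1 := yy_mono hη0 h1
        have a2 := yy_mono hη0 (show j + 1 ≤ j2 by omega)
        exact ⟨⟨by omega, by omega⟩, hp3⟩
      refine ⟨hpI, ?_⟩
      have := hjf1 p hpI
      by_contra hne
      rcases Nat.lt_or_gt_of_ne hne with h | h
      · have := yy_mono hη0 (show jf p + 1 ≤ j by omega)
        omega
      · have := yy_mono hη0 (show j + 1 ≤ jf p by omega)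
        omega
  -- steps
  have hstep : ∀ j, j1 ≤ j → (yy η (j + 1) : ℝ) ≤ (1 + 2 * η) * yy η j := by
    intro j hj
    have h1 := yy_le hη0 (j + 1)
    have h2 := yy_gt (η := η) j
    have h3 := (hj1a j hj).2.1
    have h4 : 2 ≤ η * yy η j := by
      rw [div_le_iff₀ hη0] at h3
      linarith
    rw [pow_succ] at h1
    have h5 : (1 + η) ^ j * (1 + η) ≤ ((yy η j : ℝ) + 1) * (1 + η) := mul_le_mul_of_nonneg_right h2.le (by linarith)
    nlinarith
  -- the decomposition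
  obtain ⟨X', g, htk, hg⟩ := tk f hf hmul I (fun p hp => (hImem p hp).1) (fun p => yy η (jf p)) (by
      intro p hp
      have := hy1pos _ (hjf1 p hp).1
      omega) (fun p hp => (hjf1 p hp).2.2.1.le) (2 * η) (by positivity) (by
      intro p hp
      have h1 := hstep (jf p) (hjf1 p hp).1
      have h2 : (p : ℝ) ≤ yy η (jf p + 1) := by exact_mod_cast (hjf1 p hp).2.2.2
      linarith) X L hL
  obtain ⟨F, hF⟩ : ∃ F : ℕ → ℝ → ℂ, F = fun j φ => ∑ m ∈ Icc 1 (X / yy η j), f m * ee (m * φ) := ⟨_, rfl⟩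
  obtain ⟨G, hG⟩ : ∃ G : ℕ → ℝ → ℂ, G = fun j θ => ∑ p ∈ (Ioc (yy η j) (yy η (j + 1))).filter Nat.Prime, f p * F j (p * θ) := ⟨_, rfl⟩
  obtain ⟨R, hR⟩ : ∃ R : ℝ → ℂ, R = fun θ => ∑ n ∈ Icc 1 X', g n * ee (n * θ) := ⟨_, rfl⟩
  have hdec : ∀ θ, (L : ℂ) * SS f X θ = ∑ j ∈ Ico j1 j2, G j θ + R θ := by
    intro θ
    rw [SS, htk θ, hR]
    congr 1
    rw [← sum_fiberwise_of_maps_to (s := I) (t := Ico j1 j2) (g := jf) (fun p hp => by
      rw [mem_Ico]; exact ⟨(hjf1 p hp).1, (hjf1 p hp).2.1⟩)]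
    refine sum_congr rfl fun j hj => ?_
    rw [mem_Ico] at hj
    rw [hG]
    simp only
    rw [← hjf2 j hj.1 hj.2]
    refine sum_congr rfl fun p hp => ?_
    rw [mem_filter] at hp
    rw [hF, hp.2]
  have hFc : ∀ j, Continuous (F j) := by
    intro j; rw [hF]
    exact continuous_finsetSum _ fun m _ => continuous_const.mul (ee_cont.comp (by fun_prop))
  have hFb : ∀ j φ, ‖F j φ‖ ≤ X := by
    intro j φ
    rw [hF]
    refine (norm_sum_le _ _).trans ?_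
    calc ∑ m ∈ Icc 1 (X / yy η j), ‖f m * ee (m * φ)‖ ≤ ∑ _m ∈ Icc 1 (X / yy η j), (1 : ℝ) := by
          refine sum_le_sum fun n _ => ?_
          rw [norm_mul, norm_ee, mul_one]; exact hf n
      _ = ((X / yy η j : ℕ) : ℝ) := by simp
      _ ≤ X := by exact_mod_cast Nat.div_le_self _ _
  have hFp : ∀ j φ, F j (φ + 1) = F j φ := by
    intro j φ
    rw [hF]
    refine sum_congr rfl fun n _ => ?_
    have : (n : ℝ) * (φ + 1) = n * φ + (n : ℤ) := by push_cast; ring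
    rw [this, ee_add_int]
  have hFsq : ∀ j, ∫ φ in (0 : ℝ)..1, ‖F j φ‖ ^ 2 ≤ (X : ℝ) / yy η j := by
    intro j
    rw [hF]
    simp only
    rw [pars_int]
    calc ∑ n ∈ Icc 1 (X / yy η j), ‖f n‖ ^ 2 ≤ ∑ _n ∈ Icc 1 (X / yy η j), (1 : ℝ) := by
          refine sum_le_sum fun n _ => ?_
          exact pow_le_one₀ (norm_nonneg _) (hf n)
      _ = ((X / yy η j : ℕ) : ℝ) := by simp
      _ ≤ _ := Nat.cast_div_le
  obtain ⟨c, hc⟩ : ∃ c : ℕ → ℝ, c = fun j => C1 * (η / Real.log (yy η j)) ^ 2 * ξ + C2 * (yy η j : ℝ) ^ (-κ) := ⟨_, rfl⟩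
  have hc0 : ∀ j ∈ Ico j1 j2, 0 < c j := by
    intro j hj
    rw [mem_Ico] at hj
    rw [hc]
    have := hy1pos j hj.1
    have h1 : (0 : ℝ) < yy η j := by exact_mod_cast (by omega : 0 < yy η j)
    positivity
  have hGb : ∀ j ∈ Ico j1 j2, ∫ θ in (0 : ℝ)..1, E.indicator (fun _ => (1 : ℝ)) θ * ‖G j θ‖ ^ 2 ≤ X * (√(c j)) ^ 2 := by
    intro j hj
    have hcj := hc0 j hj
    rw [mem_Ico] at hj
    rw [Real.sq_sqrt hcj.le]
    have hy3 := hy1pos j hj.1
    have hyp : (0 : ℝ) < yy η j := by exact_mod_cast (by omega : 0 < yy η j)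
    have hzZ : yy η (j + 1) ≤ Z := by rw [hZ]; exact yy_mono hη0 (by omega)
    have hyz : yy η j ≤ yy η (j + 1) := yy_mono hη0 (by omega)
    have hzp : (0 : ℝ) < yy η (j + 1) := by exact_mod_cast (by omega : 0 < yy η (j + 1))
    have hb := hy0 K hK (yy η j) (by exact_mod_cast (hj1a j hj.1).1) (yy η (j + 1)) hyz (hstep j hj.1) (by
      have h1 := hstep j hj.1
      have h2 : (yy η (j + 1) : ℝ) ≤ 2 * yy η j := by nlinarith
      exact_mod_cast h2) R0 κ0 (1 / (512 * (Z : ℝ) ^ 4)) E hR01 (by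
      have h1 := (hj1a (j + 1) (by omega)).2.2.1
      rw [div_le_iff₀ hκ0] at h1
      rw [div_lt_iff₀ (by positivity)]
      have h3 : (3 : ℝ) ≤ yy η (j + 1) := by exact_mod_cast hy1pos (j + 1) (by omega)
      nlinarith) (by
      apply one_div_le_one_div_of_le (by positivity)
      have : (yy η (j + 1) : ℝ) ≤ Z := by exact_mod_cast hzZ
      gcongr) (by
      intro θ hθ
      rw [hE] at hθ
      obtain ⟨x, hx, hx2⟩ := hθ.1
      exact ⟨x, hx, hx2.le⟩) (by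
      intro θ hθ
      rw [hE] at hθ
      exact hθ.2)
    have hbil := bil ((Ioc (yy η j) (yy η (j + 1))).filter Nat.Prime) (yy η j : ℝ) hyp (by
      intro p hp
      rw [mem_filter, mem_Ioc] at hp
      exact_mod_cast hp.1.1.le) f hf (F j) (hFc j).measurable X (hFb j) (hFp j) E hEm hEp
      ((yy η j : ℝ) ^ 2 * c j) (by positivity) (by
      intro θ hθ
      have := hb θ hθ
      rw [← hξ] at this
      rw [hc]
      exact this)
    rw [hG]
    refine hbil.trans ?_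
    calc (yy η j : ℝ) ^ 2 * c j / yy η j * ∫ θ in (0 : ℝ)..1, ‖F j θ‖ ^ 2 ≤
          (yy η j : ℝ) ^ 2 * c j / yy η j * (X / yy η j) :=
          mul_le_mul_of_nonneg_left (hFsq j) (by positivity)
      _ = X * c j := by field_simp
  -- the remainder
  obtain ⟨AR, hAR⟩ : ∃ AR, AR = (2 * L + 16 + 2 * η * (L ^ 2 + L)) + ε / 64 := ⟨_, rfl⟩
  have hAR0 : 0 < AR := by rw [hAR]; positivity
  have hRb : ∫ θ in (0 : ℝ)..1, E.indicator (fun _ => (1 : ℝ)) θ * ‖R θ‖ ^ 2 ≤ X * (√AR) ^ 2 := by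
    rw [Real.sq_sqrt hAR0.le]
    have hRc : Continuous R := by
      rw [hR]
      exact continuous_finsetSum _ fun m _ => continuous_const.mul (ee_cont.comp (by fun_prop))
    have h1 : ∫ θ in (0 : ℝ)..1, E.indicator (fun _ => (1 : ℝ)) θ * ‖R θ‖ ^ 2 ≤ ∫ θ in (0 : ℝ)..1, ‖R θ‖ ^ 2 := by
      obtain ⟨MR, hMR⟩ : ∃ MR : ℝ, ∀ θ, ‖R θ‖ ≤ MR := by
        refine ⟨∑ n ∈ Icc 1 X', ‖g n‖, fun θ => ?_⟩
        rw [hR]
        refine (norm_sum_le _ _).trans (sum_le_sum fun n _ => ?_)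
        rw [norm_mul, norm_ee, mul_one]
      apply intervalIntegral.integral_mono_on zero_le_one
      · refine ii (C := 1 * MR ^ 2) ((measurable_const.indicator hEm).mul (hRc.measurable.norm.pow_const 2)) (fun x => ?_) 0 1
        show ‖E.indicator (fun _ => (1 : ℝ)) x * ‖R x‖ ^ 2‖ ≤ _
        rw [Real.norm_of_nonneg (mul_nonneg (ind_nonneg _ _) (by positivity))]
        exact mul_le_mul (ind_le _ _) (pow_le_pow_left₀ (norm_nonneg _) (hMR x) 2) (by positivity) zero_le_one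
      · exact (hRc.norm.pow 2).intervalIntegrable _ _
      · intro θ _
        calc E.indicator (fun _ => (1 : ℝ)) θ * ‖R θ‖ ^ 2 ≤ 1 * ‖R θ‖ ^ 2 :=
              mul_le_mul_of_nonneg_right (ind_le _ _) (by positivity)
          _ = _ := one_mul _
    refine h1.trans ?_
    rw [hR, pars_int]
    refine hg.trans ?_
    rw [hAR]
    nlinarith
  -- boundedness
  obtain ⟨MG, hMG1, hMG2⟩ : ∃ MG : ℝ, (∀ j θ, ‖(if j ∈ Ico j1 j2 then G j θ else 0)‖ ≤ MG) ∧ ∀ θ, ‖R θ‖ ≤ MG := by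
    refine ⟨∑ j ∈ Ico j1 j2, ∑ p ∈ (Ioc (yy η j) (yy η (j + 1))).filter Nat.Prime, (X : ℝ) + ∑ n ∈ Icc 1 X', ‖g n‖, fun j θ => ?_, fun θ => ?_⟩
    · have h0 : 0 ≤ ∑ n ∈ Icc 1 X', ‖g n‖ := sum_nonneg fun _ _ => norm_nonneg _
      split_ifs with h
      · have h1 : ‖G j θ‖ ≤ ∑ p ∈ (Ioc (yy η j) (yy η (j + 1))).filter Nat.Prime, (X : ℝ) := by
          rw [hG]
          refine (norm_sum_le _ _).trans (sum_le_sum fun p _ => ?_)
          rw [norm_mul]
          calc ‖f p‖ * ‖F j (p * θ)‖ ≤ 1 * X := mul_le_mul (hf p) (hFb j _) (norm_nonneg _) zero_le_one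
            _ = X := one_mul _
        have h2 := single_le_sum (f := fun j => ∑ p ∈ (Ioc (yy η j) (yy η (j + 1))).filter Nat.Prime, (X : ℝ))
          (fun i _ => sum_nonneg fun _ _ => hXp.le) h
        linarith
      · rw [norm_zero]
        have : 0 ≤ ∑ j ∈ Ico j1 j2, ∑ p ∈ (Ioc (yy η j) (yy η (j + 1))).filter Nat.Prime, (X : ℝ) :=
          sum_nonneg fun _ _ => sum_nonneg fun _ _ => hXp.le
        linarith
    · have : 0 ≤ ∑ j ∈ Ico j1 j2, ∑ p ∈ (Ioc (yy η j) (yy η (j + 1))).filter Nat.Prime, (X : ℝ) :=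
          sum_nonneg fun _ _ => sum_nonneg fun _ _ => hXp.le
      have h1 : ‖R θ‖ ≤ ∑ n ∈ Icc 1 X', ‖g n‖ := by
        rw [hR]
        refine (norm_sum_le _ _).trans (sum_le_sum fun n _ => ?_)
        rw [norm_mul, norm_ee, mul_one]
      linarith
  have hGc : ∀ j, Continuous (G j) := by
    intro j; rw [hG]
    exact continuous_finsetSum _ fun p _ => continuous_const.mul ((hFc j).comp (by fun_prop))
  have hRc : Continuous R := by
    rw [hR]
    exact continuous_finsetSum _ fun m _ => continuous_const.mul (ee_cont.comp (by fun_prop))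
  have htitu := titu (Ico j1 j2) (fun j θ => if j ∈ Ico j1 j2 then G j θ else 0) R (E.indicator (fun _ => (1 : ℝ)))
    (ind_nonneg E) (ind_le E) (measurable_const.indicator hEm) (by
      intro j
      by_cases h : j ∈ Ico j1 j2
      · simp only [h, if_true]; exact hGc j
      · simp only [h, if_false]; exact continuous_const) hRc (fun j => √(c j)) (√AR)
    (fun j hj => Real.sqrt_pos.2 (hc0 j hj)) (Real.sqrt_pos.2 hAR0) X MG hMG1 hMG2 (by
      intro j hj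
      have := hGb j hj
      simp only [hj, if_true]
      exact this) hRb
  have hsum0 : ∀ θ, ∑ j ∈ Ico j1 j2, (if j ∈ Ico j1 j2 then G j θ else 0) = ∑ j ∈ Ico j1 j2, G j θ := by
    intro θ
    refine sum_congr rfl fun j hj => ?_
    rw [if_pos hj]
  have hmain : L ^ 2 * ∫ θ in (0 : ℝ)..1, E.indicator (fun _ => (1 : ℝ)) θ * ‖SS f X θ‖ ^ 2 ≤
      X * (∑ j ∈ Ico j1 j2, √(c j) + √AR) ^ 2 := by
    refine le_trans (le_of_eq ?_) htitu
    rw [← intervalIntegral.integral_const_mul]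
    congr 1
    funext θ
    rw [hsum0, ← hdec θ, norm_mul, Complex.norm_real, Real.norm_of_nonneg hL0.le]
    ring
  -- the sum over the blocks
  have hsumc : ∑ j ∈ Ico j1 j2, √(c j) ≤ √(C1 * ξ) * (4 * (2 * L)) + Cx := by
    have h1 : ∀ j ∈ Ico j1 j2, √(c j) ≤ √(C1 * ξ) * (4 * (1 / j)) + √C2 * (2 * x' ^ j) := by
      intro j hj
      rw [mem_Ico] at hj
      have hy3 := hy1pos j hj.1
      have hyp : (0 : ℝ) < yy η j := by exact_mod_cast (by omega : 0 < yy η j)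
      have hy1' : (1 : ℝ) < yy η j := by exact_mod_cast (by omega : 1 < yy η j)
      have hlog := Real.log_pos hy1'
      have h4 := (hj1a j hj.1).2.2.2
      have h5 := yy_log hη0 hη1 j (by omega) h4
      rw [hc]
      simp only
      have e1 : √(C1 * (η / Real.log (yy η j)) ^ 2 * ξ + C2 * (yy η j : ℝ) ^ (-κ)) ≤
          √(C1 * (η / Real.log (yy η j)) ^ 2 * ξ) + √(C2 * (yy η j : ℝ) ^ (-κ)) := sqrt_add_le' _ _ (by positivity) (by positivity)
      refine e1.trans (add_le_add ?_ ?_)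
      · have : C1 * (η / Real.log (yy η j)) ^ 2 * ξ = (C1 * ξ) * (η / Real.log (yy η j)) ^ 2 := by ring
        rw [this, Real.sqrt_mul (by positivity), Real.sqrt_sq (by positivity)]
        apply mul_le_mul_of_nonneg_left _ (Real.sqrt_nonneg _)
        calc η / Real.log (yy η j) ≤ 4 / j := h5
          _ = 4 * (1 / j) := by ring
      · rw [Real.sqrt_mul hC2.le]
        apply mul_le_mul_of_nonneg_left _ (Real.sqrt_nonneg _)
        have e2 : √((yy η j : ℝ) ^ (-κ)) = (yy η j : ℝ) ^ (-κ / 2) := by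
          rw [Real.sqrt_eq_rpow, ← Real.rpow_mul hyp.le]
          congr 1; ring
        rw [e2]
        calc (yy η j : ℝ) ^ (-κ / 2) ≤ (yy η j : ℝ) ^ (-κ' / 2) :=
              Real.rpow_le_rpow_of_exponent_le hy1'.le (by linarith)
          _ ≤ 2 * ((1 + η) ^ (-κ' / 2)) ^ j := yy_pow hη0 hκ'0 hκ'2 j (by omega)
          _ = 2 * x' ^ j := by rw [hx']
    refine (sum_le_sum h1).trans ?_
    rw [sum_add_distrib, ← mul_sum, ← mul_sum, ← mul_sum, ← mul_sum]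
    apply add_le_add
    · apply mul_le_mul_of_nonneg_left _ (Real.sqrt_nonneg _)
      apply mul_le_mul_of_nonneg_left _ (by norm_num)
      exact (harm j1 j2 hj11).trans hL2
    · have h2 := geom x' hx'0.le hx'1 j1 j2
      have hs2 := Real.sqrt_nonneg C2
      calc √C2 * (2 * ∑ j ∈ Ico j1 j2, x' ^ j) ≤ √C2 * (2 * (1 / (1 - x'))) := by gcongr
        _ = Cx := by rw [hCx]; ring
  have hfin1 : √(C1 * ξ) * (4 * (2 * L)) ≤ √ε / 4 * L := by
    have h1 : √(C1 * ξ) ≤ √ε / 32 := by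
      rw [Real.sqrt_le_left (by positivity)]
      rw [div_pow, Real.sq_sqrt hε.le]
      norm_num
      exact hR0
    nlinarith
  have hfin2 : Cx ≤ √ε / 4 * L := by
    rw [div_le_iff₀ hsε] at hLb
    linarith
  have hfin3 : √AR ≤ √ε / 4 * L := by
    rw [Real.sqrt_le_left (by positivity)]
    rw [mul_pow, div_pow, Real.sq_sqrt hε.le, hAR]
    rw [div_le_iff₀ hε] at hLc
    have h1 : η * (L ^ 2 + L) ≤ ε / 256 * (2 * L ^ 2) := by
      apply mul_le_mul hηε _ (by positivity) (by positivity)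
      nlinarith
    nlinarith
  have htot : ∑ j ∈ Ico j1 j2, √(c j) + √AR ≤ √ε * L := by
    have : 0 < √ε * L := by positivity
    linarith
  have hsq : (∑ j ∈ Ico j1 j2, √(c j) + √AR) ^ 2 ≤ ε * L ^ 2 := by
    have h0 : 0 ≤ ∑ j ∈ Ico j1 j2, √(c j) + √AR :=
      add_nonneg (sum_nonneg fun _ _ => Real.sqrt_nonneg _) (Real.sqrt_nonneg _)
    calc _ ≤ (√ε * L) ^ 2 := pow_le_pow_left₀ h0 htot 2
      _ = ε * L ^ 2 := by rw [mul_pow, Real.sq_sqrt hε.le]
  have hlast : L ^ 2 * ∫ θ in (0 : ℝ)..1, E.indicator (fun _ => (1 : ℝ)) θ * ‖SS f X θ‖ ^ 2 ≤ L ^ 2 * (ε * X) := by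
    refine hmain.trans ?_
    calc (X : ℝ) * (∑ j ∈ Ico j1 j2, √(c j) + √AR) ^ 2 ≤ X * (ε * L ^ 2) := mul_le_mul_of_nonneg_left hsq hXp.le
      _ = _ := by ring
  exact le_of_mul_le_mul_left hlast (by positivity)

end Pool.Agent.TH327.Dim
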