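import Pool.Agent.TH327.Dim.Gen
import Pool.Agent.TH823.MRS.Circ2

/-! # Short arcs: from windows to mean squares over arcs -/

set_option autoImplicit false

namespace Pool.Agent.TH327.Dim

open Finset MeasureTheory Filter Topology
open Pool.Agent.H807R2.Dav (ee norm_ee ee_add ee_int ee_pow ee_zero ee_add_int)
open Pool.Agent.TH823.MRS (ExpoSmall win_l1)

lemma re_ee (x : ℝ) (hx : |x| ≤ 1 / 8) : 1 / 2 ≤ (ee x).re := by
  have h1 : (ee x).re = Real.cos (2 * Real.pi * x) := by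
    unfold ee
    have : (2 * Real.pi * Complex.I * x : ℂ) = ((2 * Real.pi * x : ℝ) : ℂ) * Complex.I := by push_cast; ring
    rw [this, Complex.exp_ofReal_mul_I_re]
  rw [h1]
  have h2 := Real.one_sub_sq_div_two_le_cos (x := 2 * Real.pi * x)
  have h3 : |2 * Real.pi * x| ≤ 1 := by
    rw [abs_mul, abs_of_pos (by positivity)]
    have := Real.pi_lt_d2
    have := Real.pi_pos
    nlinarith [abs_nonneg x]
  have h4 : (2 * Real.pi * x) ^ 2 ≤ 1 := by
    rw [← sq_abs]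
    exact pow_le_one₀ (abs_nonneg _) h3
  linarith

/-- the Dirichlet kernel near zero -/
lemma dir_lower (W : ℕ) (β : ℝ) (hβ : |β| * W ≤ 1 / 8) : (W : ℝ) / 2 ≤ ‖∑ z ∈ range W, ee (z * β)‖ := by
  have h1 : (W : ℝ) / 2 ≤ (∑ z ∈ range W, ee (z * β)).re := by
    rw [Complex.re_sum]
    calc (W : ℝ) / 2 = ∑ _z ∈ range W, (1 / 2 : ℝ) := by rw [sum_const, card_range, nsmul_eq_mul]; ring
      _ ≤ _ := by
        refine sum_le_sum fun z hz => re_ee _ ?_
        rw [mem_range] at hz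
        have : (z : ℝ) ≤ W := by exact_mod_cast hz.le
        rw [abs_mul, Nat.abs_cast]
        nlinarith [abs_nonneg β]
  exact h1.trans (Complex.re_le_norm _)

/-- the product with the Dirichlet kernel -/
lemma prod_dir (h : ℕ → ℂ) (N W : ℕ) (α θ : ℝ) :
    SS h N θ * ∑ z ∈ range W, ee (z * (θ - α)) =
      ∑ k ∈ range (N + W), (ee (-(k * α)) * ∑ n ∈ Icc 1 N, if n ≤ k ∧ k < n + W then h n * ee (n * α) else 0) * ee (k * θ) := by
  unfold SS
  have e1 : ∀ k ∈ range (N + W), (ee (-(k * α)) * ∑ n ∈ Icc 1 N, if n ≤ k ∧ k < n + W then h n * ee (n * α) else 0) * ee (k * θ) =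
      ∑ n ∈ Icc 1 N, if n ≤ k ∧ k < n + W then h n * ee (n * θ) * ee (((k : ℝ) - n) * (θ - α)) else 0 := by
    intro k _
    rw [mul_sum, sum_mul]
    refine sum_congr rfl fun n _ => ?_
    split_ifs with hc
    · have e2 : ee (-(k * α)) * (h n * ee (n * α)) * ee (k * θ) = h n * (ee (-(k * α)) * ee (n * α) * ee (k * θ)) := by ring
      have e3 : h n * ee (n * θ) * ee (((k : ℝ) - n) * (θ - α)) = h n * (ee (n * θ) * ee (((k : ℝ) - n) * (θ - α))) := by ring
      rw [e2, e3, ← ee_add, ← ee_add, ← ee_add]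
      congr 2
      ring
    · simp
  rw [sum_congr rfl e1, sum_comm, sum_mul_sum]
  refine sum_congr rfl fun n hn => ?_
  rw [mem_Icc] at hn
  rw [← sum_filter]
  refine sum_nbij' (fun z => n + z) (fun k => k - n) ?_ ?_ ?_ ?_ ?_
  · intro z hz
    rw [mem_range] at hz
    rw [mem_filter, mem_range]
    omega
  · intro k hk
    rw [mem_filter, mem_range] at hk
    rw [mem_range]
    omega
  · intro z _
    simp
  · intro k hk
    rw [mem_filter, mem_range] at hk
    omega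
  · intro z _
    push_cast
    congr 2
    ring

/-- mean squares over short arcs -/
theorem low (h : ℕ → ℂ) (hb : ∀ n, ‖h n‖ ≤ 1) (hE : ExpoSmall h) (ε : ℝ) (hε : 0 < ε) :
    ∃ κ0 : ℝ, 0 < κ0 ∧ κ0 ≤ 1 / 8 ∧ ∃ N0 : ℕ, ∀ N : ℕ, N0 ≤ N → ∀ α : ℝ,
      ∫ θ in (α - κ0)..(α + κ0), ‖SS h N θ‖ ^ 2 ≤ ε * N := by
  obtain ⟨W0, X0, hw⟩ := win_l1 h hE (ε / 16) (by positivity)
  obtain ⟨W, hW⟩ : ∃ W, W = max W0 1 := ⟨_, rfl⟩
  have hW0 : W0 ≤ W := by rw [hW]; exact le_max_left _ _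
  have hW1 : 1 ≤ W := by rw [hW]; exact le_max_right _ _
  have hWr : (1 : ℝ) ≤ W := by exact_mod_cast hW1
  have hWp : (0 : ℝ) < W := by linarith
  refine ⟨1 / (8 * W), by positivity, ?_, 3 * (X0 + W) + ⌈(100 * W / ε)⌉₊ + 3, fun N hN α => ?_⟩
  · apply one_div_le_one_div_of_le (by norm_num)
    linarith
  obtain ⟨X, hX1, hX2⟩ : ∃ X : ℕ, N ≤ 3 * X ∧ 3 * X ≤ N + 2 := ⟨(N + 2) / 3, by omega, by omega⟩
  have hXX0 : X0 ≤ X := by omega
  have hWX : W ≤ X := by omega
  have hNr : 100 * W / ε ≤ N := by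
    refine (Nat.le_ceil _).trans ?_
    exact_mod_cast (by omega : ⌈(100 * W / ε)⌉₊ ≤ N)
  have hNp : (0 : ℝ) < N := by exact_mod_cast (by omega : 0 < N)
  obtain ⟨κ0, hκ0⟩ : ∃ κ0 : ℝ, κ0 = 1 / (8 * W) := ⟨_, rfl⟩
  rw [← hκ0]
  have hκp : 0 < κ0 := by rw [hκ0]; positivity
  have hκW : κ0 * W = 1 / 8 := by rw [hκ0]; field_simp
  have hκ1 : κ0 ≤ 1 / 8 := by nlinarith
  obtain ⟨b, hbd⟩ : ∃ b : ℕ → ℂ, b = fun k : ℕ => ee (-(k * α)) * ∑ n ∈ Icc 1 (3 * X), if n ≤ k ∧ k < n + W then h n * ee (n * α) else 0 := ⟨_, rfl⟩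
  have hbn : ∀ k, ‖b k‖ = ‖∑ n ∈ Icc 1 (3 * X), if n ≤ k ∧ k < n + W then h n * ee (n * α) else 0‖ := by
    intro k; rw [hbd]; simp only; rw [norm_mul, norm_ee, one_mul]
  have hbW : ∀ k, ‖b k‖ ≤ W := by
    intro k
    rw [hbn, ← sum_filter]
    refine (norm_sum_le _ _).trans ?_
    calc ∑ n ∈ (Icc 1 (3 * X)).filter (fun n => n ≤ k ∧ k < n + W), ‖h n * ee (n * α)‖ ≤
          ∑ _n ∈ (Icc 1 (3 * X)).filter (fun n => n ≤ k ∧ k < n + W), (1 : ℝ) := by
          refine sum_le_sum fun n _ => ?_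
          rw [norm_mul, norm_ee, mul_one]; exact hb n
      _ = (((Icc 1 (3 * X)).filter (fun n => n ≤ k ∧ k < n + W)).card : ℝ) := by simp
      _ ≤ W := by
          have : ((Icc 1 (3 * X)).filter (fun n => n ≤ k ∧ k < n + W)).card ≤ (Ioc (k - W) k).card + 0 := by
            rw [add_zero]
            apply card_le_card
            intro n hn
            rw [mem_filter, mem_Icc] at hn
            rw [mem_Ioc]
            omega
          rw [Nat.card_Ioc, add_zero] at this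
          have h2 : ((Icc 1 (3 * X)).filter (fun n => n ≤ k ∧ k < n + W)).card ≤ W := by omega
          exact_mod_cast h2
  -- the sum of squares
  have hsq : ∑ k ∈ range (3 * X + W), ‖b k‖ ^ 2 ≤ ε / 16 * W ^ 2 * X + W ^ 3 := by
    have h1 := hw X hXX0 W hW0 hWX α
    have h2 : ∑ k ∈ range (3 * X + W), ‖b k‖ ^ 2 ≤ W * ∑ k ∈ range (3 * X + W), ‖b k‖ := by
      rw [mul_sum]
      refine sum_le_sum fun k _ => ?_
      rw [pow_two]
      exact mul_le_mul_of_nonneg_right (hbW k) (norm_nonneg _)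
    have h3 : ∑ k ∈ range (3 * X + W), ‖b k‖ ≤ ∑ k ∈ range (3 * X + 1), ‖b k‖ + W * W := by
      have h4 : range (3 * X + W) = range (3 * X + 1) ∪ Ico (3 * X + 1) (3 * X + W) := by
        ext k; simp only [mem_range, mem_union, mem_Ico]; omega
      rw [h4]
      rw [sum_union (by rw [Finset.disjoint_left]; intro k hk hk2; rw [mem_range] at hk; rw [mem_Ico] at hk2; omega)]
      apply add_le_add le_rfl
      refine (sum_le_sum fun k _ => hbW k).trans ?_
      rw [sum_const, Nat.card_Ico, nsmul_eq_mul]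
      apply mul_le_mul_of_nonneg_right _ hWp.le
      exact_mod_cast (by omega : 3 * X + W - (3 * X + 1) ≤ W)
    have h5 : ∑ k ∈ range (3 * X + 1), ‖b k‖ ≤ ε / 16 * W * X := by
      refine le_trans (le_of_eq ?_) h1
      exact sum_congr rfl fun k _ => hbn k
    calc ∑ k ∈ range (3 * X + W), ‖b k‖ ^ 2 ≤ W * ∑ k ∈ range (3 * X + W), ‖b k‖ := h2
      _ ≤ W * (ε / 16 * W * X + W * W) := mul_le_mul_of_nonneg_left (by linarith) hWp.le
      _ = _ := by ring
  -- the full integral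
  have hfull : ∫ θ in (0 : ℝ)..1, ‖SS h (3 * X) θ * ∑ z ∈ range W, ee (z * (θ - α))‖ ^ 2 = ∑ k ∈ range (3 * X + W), ‖b k‖ ^ 2 := by
    have e1 : ∀ θ, SS h (3 * X) θ * ∑ z ∈ range W, ee (z * (θ - α)) = ∑ k ∈ range (3 * X + W), b k * ee (k * θ) := by
      intro θ; rw [prod_dir, hbd]
    simp only [e1]
    exact pars_int _ _
  have hcont : Continuous (fun θ => ‖SS h (3 * X) θ * ∑ z ∈ range W, ee (z * (θ - α))‖ ^ 2) := by
    refine (((SS_cont _ _).mul (continuous_finsetSum _ fun z _ => ee_cont.comp (by fun_prop))).norm.pow 2)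
  have hper : Function.Periodic (fun θ => ‖SS h (3 * X) θ * ∑ z ∈ range W, ee (z * (θ - α))‖ ^ 2) 1 := by
    intro θ
    simp only
    rw [SS_per]
    congr 3
    refine sum_congr rfl fun z _ => ?_
    have : (z : ℝ) * (θ + 1 - α) = z * (θ - α) + (z : ℤ) := by push_cast; ring
    rw [this, ee_add_int]
  have harc : ∫ θ in (α - κ0)..(α + κ0), ‖SS h (3 * X) θ‖ ^ 2 ≤ 4 / W ^ 2 * (ε / 16 * W ^ 2 * X + W ^ 3) := by
    have h1 : ∫ θ in (α - κ0)..(α + κ0), ‖SS h (3 * X) θ‖ ^ 2 ≤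
        ∫ θ in (α - κ0)..(α + κ0), 4 / W ^ 2 * ‖SS h (3 * X) θ * ∑ z ∈ range W, ee (z * (θ - α))‖ ^ 2 := by
      apply intervalIntegral.integral_mono_on (by linarith)
      · exact ((SS_cont _ _).norm.pow 2).intervalIntegrable _ _
      · exact (continuous_const.mul hcont).intervalIntegrable _ _
      · intro θ hθ
        have h2 : |θ - α| * W ≤ 1 / 8 := by
          have : |θ - α| ≤ κ0 := by
            rw [abs_le]; constructor
            · linarith [hθ.1]
            · linarith [hθ.2]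
          calc |θ - α| * W ≤ κ0 * W := mul_le_mul_of_nonneg_right this hWp.le
            _ = 1 / 8 := hκW
        have h3 := dir_lower W (θ - α) h2
        rw [norm_mul, mul_pow]
        have h4 : (W : ℝ) ^ 2 / 4 ≤ ‖∑ z ∈ range W, ee (z * (θ - α))‖ ^ 2 := by
          calc (W : ℝ) ^ 2 / 4 = ((W : ℝ) / 2) ^ 2 := by ring
            _ ≤ _ := pow_le_pow_left₀ (by positivity) h3 2
        calc ‖SS h (3 * X) θ‖ ^ 2 = 4 / W ^ 2 * (‖SS h (3 * X) θ‖ ^ 2 * ((W : ℝ) ^ 2 / 4)) := by field_simp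
          _ ≤ _ := by gcongr
    refine h1.trans ?_
    rw [intervalIntegral.integral_const_mul]
    apply mul_le_mul_of_nonneg_left _ (by positivity)
    rw [← hfull.trans rfl] at hsq
    refine le_trans ?_ hsq
    have h5 : ∫ θ in (0 : ℝ)..1, ‖SS h (3 * X) θ * ∑ z ∈ range W, ee (z * (θ - α))‖ ^ 2 =
        ∫ θ in (α - 1 / 2)..(α - 1 / 2 + 1), ‖SS h (3 * X) θ * ∑ z ∈ range W, ee (z * (θ - α))‖ ^ 2 := by
      have := hper.intervalIntegral_add_eq 0 (α - 1 / 2)
      rw [zero_add] at this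
      exact this
    rw [h5]
    apply intervalIntegral.integral_mono_interval (by linarith) (by linarith) (by linarith)
    · exact Filter.Eventually.of_forall fun θ => by positivity
    · exact hcont.intervalIntegrable _ _
  -- from 3X to N
  have hdiff : ∀ θ, ‖SS h N θ‖ ^ 2 ≤ 2 * ‖SS h (3 * X) θ‖ ^ 2 + 8 := by
    intro θ
    have e1 : SS h (3 * X) θ = SS h N θ + ∑ n ∈ Ioc N (3 * X), h n * ee (n * θ) := by
      unfold SS
      rw [← sum_union]
      · congr 1
        ext n; simp only [mem_Icc, mem_union, mem_Ioc]; omega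
      · rw [Finset.disjoint_left]
        intro n hn hn'
        simp only [mem_Icc, mem_Ioc] at hn hn'
        omega
    have e2 : ‖∑ n ∈ Ioc N (3 * X), h n * ee (n * θ)‖ ≤ 2 := by
      refine (norm_sum_le _ _).trans ?_
      calc ∑ n ∈ Ioc N (3 * X), ‖h n * ee (n * θ)‖ ≤ ∑ _n ∈ Ioc N (3 * X), (1 : ℝ) := by
            refine sum_le_sum fun n _ => ?_
            rw [norm_mul, norm_ee, mul_one]; exact hb n
        _ = ((3 * X - N : ℕ) : ℝ) := by simp
        _ ≤ 2 := by exact_mod_cast (by omega : 3 * X - N ≤ 2)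
    have e3 : ‖SS h N θ‖ ≤ ‖SS h (3 * X) θ‖ + 2 := by
      have : SS h N θ = SS h (3 * X) θ - ∑ n ∈ Ioc N (3 * X), h n * ee (n * θ) := by rw [e1]; ring
      rw [this]
      exact (norm_sub_le _ _).trans (by linarith)
    calc ‖SS h N θ‖ ^ 2 ≤ (‖SS h (3 * X) θ‖ + 2) ^ 2 := pow_le_pow_left₀ (norm_nonneg _) e3 2
      _ ≤ _ := by nlinarith [sq_nonneg (‖SS h (3 * X) θ‖ - 2)]
  have hfin : ∫ θ in (α - κ0)..(α + κ0), ‖SS h N θ‖ ^ 2 ≤ 2 * (4 / W ^ 2 * (ε / 16 * W ^ 2 * X + W ^ 3)) + 8 * (2 * κ0) := by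
    calc ∫ θ in (α - κ0)..(α + κ0), ‖SS h N θ‖ ^ 2 ≤ ∫ θ in (α - κ0)..(α + κ0), (2 * ‖SS h (3 * X) θ‖ ^ 2 + 8) := by
          apply intervalIntegral.integral_mono_on (by linarith)
          · exact ((SS_cont _ _).norm.pow 2).intervalIntegrable _ _
          · exact ((continuous_const.mul ((SS_cont _ _).norm.pow 2)).add continuous_const).intervalIntegrable _ _
          · intro θ _; exact hdiff θ
      _ = 2 * (∫ θ in (α - κ0)..(α + κ0), ‖SS h (3 * X) θ‖ ^ 2) + 8 * (2 * κ0) := by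
          have i1 : IntervalIntegrable (fun θ => 2 * ‖SS h (3 * X) θ‖ ^ 2) MeasureTheory.volume (α - κ0) (α + κ0) :=
            (continuous_const.mul ((SS_cont _ _).norm.pow 2)).intervalIntegrable _ _
          have i2 : IntervalIntegrable (fun _ : ℝ => (8 : ℝ)) MeasureTheory.volume (α - κ0) (α + κ0) :=
            continuous_const.intervalIntegrable _ _
          rw [intervalIntegral.integral_add i1 i2, intervalIntegral.integral_const_mul, intervalIntegral.integral_const]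
          rw [smul_eq_mul]; ring
      _ ≤ _ := by linarith
  refine hfin.trans ?_
  have h6 : 4 / (W : ℝ) ^ 2 * (ε / 16 * W ^ 2 * X + W ^ 3) = ε / 4 * X + 4 * W := by field_simp; ring
  rw [h6]
  have h7 : (X : ℝ) ≤ (N + 2) / 3 := by
    have : (3 : ℝ) * X ≤ N + 2 := by exact_mod_cast hX2
    linarith
  have h8 : 100 * (W : ℝ) ≤ ε * N := by
    rw [div_le_iff₀ hε] at hNr
    linarith
  have h9 : (2 : ℝ) ≤ N := by exact_mod_cast (by omega : 2 ≤ N)
  nlinarith

end Pool.Agent.TH327.Dim
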