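import Pool.Agent.TH327.Dim.Gen2
import Pool.Agent.TH327.Dim.Low

/-! # The exponential sum in mean square over a neighbourhood of a small set -/

set_option autoImplicit false

namespace Pool.Agent.TH327.Dim

open Finset MeasureTheory Filter Topology
open Pool.Agent.H807R2.Dav (ee norm_ee ee_add ee_int ee_pow ee_zero ee_add_int)
open Pool.Agent.TH823.MRS (ExpoSmall)

/-- the reals within `ρ` of `K` modulo one -/
def Nb (K : Set UnitAddCircle) (ρ : ℝ) : Set ℝ := {θ | ∃ x ∈ K, ‖((θ : ℝ) : UnitAddCircle) - x‖ < ρ}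

lemma Nb_open (K : Set UnitAddCircle) (ρ : ℝ) : IsOpen (Nb K ρ) := by
  have : Nb K ρ = ⋃ x ∈ K, {θ : ℝ | ‖((θ : ℝ) : UnitAddCircle) - x‖ < ρ} := by
    ext θ; simp [Nb]
  rw [this]
  refine isOpen_biUnion fun x _ => ?_
  exact isOpen_lt (by
    have : Continuous (fun θ : ℝ => (θ : UnitAddCircle)) := AddCircle.continuous_mk' 1
    exact (this.sub continuous_const).norm) continuous_const

lemma ind_int {E : Set ℝ} (hE : MeasurableSet E) {g : ℝ → ℝ} (hg : Continuous g) (a b : ℝ) :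
    IntervalIntegrable (fun θ => E.indicator (fun _ => (1 : ℝ)) θ * g θ) volume a b := by
  have : (fun θ => E.indicator (fun _ => (1 : ℝ)) θ * g θ) = E.indicator g := by
    ext θ; by_cases h : θ ∈ E <;> simp [h]
  rw [this, intervalIntegrable_iff]
  have h1 := hg.intervalIntegrable (μ := volume) a b
  rw [intervalIntegrable_iff] at h1
  exact Integrable.indicator h1 hE

lemma arc_le {g : ℝ → ℝ} (hg : Continuous g) (hg0 : ∀ θ, 0 ≤ g θ) (α κ : ℝ) (hκ : 0 ≤ κ) :
    ∫ θ in (0 : ℝ)..1, (Set.Ioo (α - κ) (α + κ)).indicator (fun _ => (1 : ℝ)) θ * g θ ≤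
      ∫ θ in (α - κ)..(α + κ), g θ := by
  have : (fun θ => (Set.Ioo (α - κ) (α + κ)).indicator (fun _ => (1 : ℝ)) θ * g θ) =
      (Set.Ioo (α - κ) (α + κ)).indicator g := by
    ext θ; by_cases h : θ ∈ Set.Ioo (α - κ) (α + κ) <;> simp [h]
  rw [this, intervalIntegral.integral_of_le zero_le_one, intervalIntegral.integral_of_le (by linarith),
    setIntegral_indicator measurableSet_Ioo]
  have h1 := hg.intervalIntegrable (μ := volume) (α - κ) (α + κ)
  rw [intervalIntegrable_iff, Set.uIoc_of_le (by linarith)] at h1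
  apply setIntegral_mono_set h1
  · exact Filter.Eventually.of_forall fun θ => hg0 θ
  · apply LE.le.eventuallyLE
    intro θ hθ
    exact ⟨hθ.2.1, hθ.2.2.le⟩

/-- **The main inequality.** -/
theorem main1 {C s : ℝ} (hC : 0 ≤ C) (hs0 : 0 ≤ s) (hs : s < 1 / 2)
    (h : ℕ → ℂ) (hb : ∀ n, ‖h n‖ ≤ 1) (hm : ∀ p m : ℕ, p.Prime → ¬ p ∣ m → h (p * m) = h p * h m)
    (hE : ExpoSmall h) (ε : ℝ) (hε : 0 < ε) :
    ∃ ρ : ℝ, 0 < ρ ∧ ∃ N0 : ℕ, ∀ K : Set UnitAddCircle, Cov K C s → ∀ N : ℕ, N0 ≤ N →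
      ∫ θ in (0 : ℝ)..1, (Nb K ρ).indicator (fun _ => (1 : ℝ)) θ * ‖SS h N θ‖ ^ 2 ≤ ε * N := by
  obtain ⟨R0, hR1, hgen⟩ := gen hC hs0 hs (ε / 2) (by positivity)
  obtain ⟨P, hP⟩ : ∃ P : Finset (ℕ × ℤ), P = range R0 ×ˢ Icc (-(R0 : ℤ)) (2 * R0) := ⟨_, rfl⟩
  obtain ⟨κ0, hκ, hκ8, N1, hlow⟩ := low h hb hE (ε / (2 * (P.card + 1))) (by positivity)
  obtain ⟨ρ, hρ, X0, hg⟩ := hgen κ0 hκ
  refine ⟨ρ, hρ, max X0 N1, fun K hK N hN => ?_⟩
  have hN1 : X0 ≤ N := le_trans (le_max_left _ _) hN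
  have hN2 : N1 ≤ N := le_trans (le_max_right _ _) hN
  have hc : Continuous (fun θ => ‖SS h N θ‖ ^ 2) := (SS_cont h N).norm.pow 2
  have hi1 := ind_int (Nb_open K ρ).measurableSet hc 0 1
  have hi2 := ind_int (EE_meas K ρ R0 κ0) hc 0 1
  have hi3 : ∀ i : ℕ × ℤ, IntervalIntegrable (fun θ => (Set.Ioo ((i.2 : ℝ) / i.1 - κ0) (i.2 / i.1 + κ0)).indicator
      (fun _ => (1 : ℝ)) θ * ‖SS h N θ‖ ^ 2) volume 0 1 := fun i => ind_int measurableSet_Ioo hc 0 1
  have hi4 : IntervalIntegrable (fun θ => ∑ i ∈ P, (Set.Ioo ((i.2 : ℝ) / i.1 - κ0) (i.2 / i.1 + κ0)).indicator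
      (fun _ => (1 : ℝ)) θ * ‖SS h N θ‖ ^ 2) volume 0 1 := by
    have e : (fun θ => ∑ i ∈ P, (Set.Ioo ((i.2 : ℝ) / i.1 - κ0) (i.2 / i.1 + κ0)).indicator
      (fun _ => (1 : ℝ)) θ * ‖SS h N θ‖ ^ 2) = ∑ i ∈ P, fun θ => (Set.Ioo ((i.2 : ℝ) / i.1 - κ0) (i.2 / i.1 + κ0)).indicator
      (fun _ => (1 : ℝ)) θ * ‖SS h N θ‖ ^ 2 := by
      funext θ
      rw [Finset.sum_apply]
    rw [e]
    exact IntervalIntegrable.sum P fun i _ => hi3 i
  calc ∫ θ in (0 : ℝ)..1, (Nb K ρ).indicator (fun _ => (1 : ℝ)) θ * ‖SS h N θ‖ ^ 2 ≤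
      ∫ θ in (0 : ℝ)..1, ((EE K ρ R0 κ0).indicator (fun _ => (1 : ℝ)) θ * ‖SS h N θ‖ ^ 2 +
        ∑ i ∈ P, (Set.Ioo ((i.2 : ℝ) / i.1 - κ0) (i.2 / i.1 + κ0)).indicator (fun _ => (1 : ℝ)) θ * ‖SS h N θ‖ ^ 2) := by
        apply intervalIntegral.integral_mono_on zero_le_one hi1 (hi2.add hi4)
        intro θ hθ
        have hsq : 0 ≤ ‖SS h N θ‖ ^ 2 := by positivity
        have hnn : ∀ i ∈ P, 0 ≤ (Set.Ioo ((i.2 : ℝ) / i.1 - κ0) (i.2 / i.1 + κ0)).indicator (fun _ => (1 : ℝ)) θ *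
            ‖SS h N θ‖ ^ 2 := fun i _ => mul_nonneg (Set.indicator_nonneg (fun _ _ => zero_le_one) _) hsq
        by_cases h1 : θ ∈ Nb K ρ
        · rw [Set.indicator_of_mem h1, one_mul]
          by_cases h2 : θ ∈ EE K ρ R0 κ0
          · rw [Set.indicator_of_mem h2, one_mul]
            exact le_add_of_nonneg_right (sum_nonneg hnn)
          · rw [Set.indicator_of_notMem h2, zero_mul, zero_add]
            have h3 : ∃ r : ℕ, 1 ≤ r ∧ r < R0 ∧ ∃ b : ℤ, |θ - b / r| < κ0 := by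
              by_contra hcon
              apply h2
              refine ⟨h1, fun r hr hr2 b => ?_⟩
              by_contra hlt
              exact hcon ⟨r, hr, hr2, b, not_le.1 hlt⟩
            obtain ⟨r, hr, hr2, b, hbr⟩ := h3
            have hrr : (0 : ℝ) < r := by exact_mod_cast hr
            have hr1 : (1 : ℝ) ≤ r := by exact_mod_cast hr
            rw [abs_lt] at hbr
            have hb1 : (b : ℝ) < 2 * r := by
              have : (b : ℝ) / r < 2 := by linarith [hθ.2]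
              rwa [div_lt_iff₀ hrr] at this
            have hb2 : -(r : ℝ) < b := by
              have : (-1 : ℝ) < b / r := by linarith [hθ.1]
              rw [lt_div_iff₀ hrr] at this
              linarith
            have hmem : (r, b) ∈ P := by
              rw [hP, mem_product, mem_range, mem_Icc]
              have e1 : b < 2 * r := by exact_mod_cast hb1
              have e2 : -(r : ℤ) < b := by exact_mod_cast hb2
              refine ⟨hr2, ?_, ?_⟩
              · simp only; omega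
              · simp only; omega
            refine le_trans (le_of_eq ?_) (single_le_sum (f := fun i : ℕ × ℤ =>
              (Set.Ioo ((i.2 : ℝ) / i.1 - κ0) (i.2 / i.1 + κ0)).indicator (fun _ => (1 : ℝ)) θ * ‖SS h N θ‖ ^ 2) hnn hmem)
            simp only
            rw [Set.indicator_of_mem, one_mul]
            exact ⟨by linarith, by linarith⟩
        · rw [Set.indicator_of_notMem h1, zero_mul]
          exact add_nonneg (mul_nonneg (Set.indicator_nonneg (fun _ _ => zero_le_one) _) hsq) (sum_nonneg hnn)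
    _ = (∫ θ in (0 : ℝ)..1, (EE K ρ R0 κ0).indicator (fun _ => (1 : ℝ)) θ * ‖SS h N θ‖ ^ 2) +
        ∑ i ∈ P, ∫ θ in (0 : ℝ)..1, (Set.Ioo ((i.2 : ℝ) / i.1 - κ0) (i.2 / i.1 + κ0)).indicator (fun _ => (1 : ℝ)) θ *
          ‖SS h N θ‖ ^ 2 := by
        rw [intervalIntegral.integral_add hi2 hi4, intervalIntegral.integral_finsetSum fun i _ => hi3 i]
    _ ≤ ε / 2 * N + ∑ i ∈ P, ε / (2 * (P.card + 1)) * N := by
        apply add_le_add (hg K hK h hb hm N hN1)
        refine sum_le_sum fun i _ => ?_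
        refine (arc_le hc (fun θ => by positivity) _ κ0 hκ.le).trans ?_
        exact hlow N hN2 _
    _ ≤ ε * N := by
        rw [sum_const, nsmul_eq_mul]
        have h1 : (P.card : ℝ) * (ε / (2 * (P.card + 1)) * N) ≤ ε / 2 * N := by
          have : (P.card : ℝ) * (ε / (2 * (P.card + 1)) * N) = (P.card / (P.card + 1)) * (ε / 2 * N) := by field_simp
          rw [this]
          apply mul_le_of_le_one_left (by positivity)
          rw [div_le_one (by positivity)]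
          linarith
        linarith

end Pool.Agent.TH327.Dim
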