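import Pool.Agent.TH327.Dim.Dual

/-! # Limits of correlations as Fourier coefficients, and the sets on which the limit measures vanish -/

set_option autoImplicit false

namespace Pool.Agent.TH327.Dim

open Finset MeasureTheory Filter Topology
open Pool.Agent.TH327.Thin (norm_fourier_apply vol_univ integral_fourier)

/-- the pairing with the product of two exponential sums -/
noncomputable def La (h g : ℕ → ℂ) (N : ℕ) (f : C(UnitAddCircle, ℂ)) : ℂ :=
  (1 / (N : ℂ)) * ∫ η : UnitAddCircle, f η * ((starRingEnd ℂ) (SC h N η) * SC g N η)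

lemma La_int (h g : ℕ → ℂ) (N : ℕ) (f : C(UnitAddCircle, ℂ)) :
    Integrable (fun η : UnitAddCircle => f η * ((starRingEnd ℂ) (SC h N η) * SC g N η)) volume :=
  int_circ ((map_continuous f).mul ((Complex.continuous_conj.comp (SC_cont h N)).mul (SC_cont g N)))

lemma SC_pars (h : ℕ → ℂ) (B : ℝ) (hb : ∀ n, ‖h n‖ ≤ B) (N : ℕ) : ∫ η : UnitAddCircle, ‖SC h N η‖ ^ 2 ≤ B ^ 2 * N := by
  have h2 := UnitAddCircle.intervalIntegral_preimage 0 (fun η => ‖SC h N η‖ ^ 2)
  rw [zero_add] at h2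
  rw [← h2]
  simp_rw [SC_coe]
  unfold SS
  rw [pars_int]
  calc ∑ n ∈ Icc 1 N, ‖h n‖ ^ 2 ≤ ∑ _n ∈ Icc 1 N, B ^ 2 :=
        sum_le_sum fun n _ => pow_le_pow_left₀ (norm_nonneg _) (hb n) 2
    _ = B ^ 2 * N := by rw [sum_const, Nat.card_Icc, nsmul_eq_mul]; simp [mul_comm]

/-- the basic inequality -/
lemma La_le (h g : ℕ → ℂ) (N : ℕ) (f : C(UnitAddCircle, ℂ)) (D : Set UnitAddCircle) (hD : MeasurableSet D)
    (hf : ∀ η, η ∉ D → f η = 0) (b : ℝ) (hfb : ∀ η, ‖f η‖ ≤ b) (t : ℝ) (ht : 0 < t) :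
    ‖La h g N f‖ ≤ b * ((1 / N) * (t / 2 * (∫ η : UnitAddCircle, D.indicator (fun η => ‖SC h N η‖ ^ 2) η) +
      1 / (2 * t) * ∫ η : UnitAddCircle, ‖SC g N η‖ ^ 2)) := by
  have hb0 : 0 ≤ b := (norm_nonneg _).trans (hfb 0)
  have hcI : ∀ u : ℕ → ℂ, Integrable (fun η => ‖SC u N η‖ ^ 2) (volume : Measure UnitAddCircle) := fun u =>
    ((SC_cont u N).norm.pow 2).integrable_of_hasCompactSupport (HasCompactSupport.of_compactSpace _)
  unfold La
  rw [norm_mul, norm_div, norm_one, Complex.norm_natCast]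
  have h1 : ‖∫ η : UnitAddCircle, f η * ((starRingEnd ℂ) (SC h N η) * SC g N η)‖ ≤
      b * (t / 2 * (∫ η : UnitAddCircle, D.indicator (fun η => ‖SC h N η‖ ^ 2) η) +
        1 / (2 * t) * ∫ η : UnitAddCircle, ‖SC g N η‖ ^ 2) := by
    calc ‖∫ η : UnitAddCircle, f η * ((starRingEnd ℂ) (SC h N η) * SC g N η)‖ ≤
        ∫ η : UnitAddCircle, ‖f η * ((starRingEnd ℂ) (SC h N η) * SC g N η)‖ := norm_integral_le_integral_norm _
      _ ≤ ∫ η : UnitAddCircle, b * (t / 2 * D.indicator (fun η => ‖SC h N η‖ ^ 2) η + 1 / (2 * t) * ‖SC g N η‖ ^ 2) := by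
          apply integral_mono
          · exact (La_int h g N f).norm
          · exact ((((hcI h).indicator hD).const_mul _).add ((hcI g).const_mul _)).const_mul _
          intro η
          simp only
          rw [norm_mul, norm_mul, RCLike.norm_conj]
          by_cases hη : η ∈ D
          · rw [Set.indicator_of_mem hη]
            have h4 : t / 2 * ‖SC h N η‖ ^ 2 + 1 / (2 * t) * ‖SC g N η‖ ^ 2 - ‖SC h N η‖ * ‖SC g N η‖ =
                1 / (2 * t) * (t * ‖SC h N η‖ - ‖SC g N η‖) ^ 2 := by field_simp; ring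
            have h5 : 0 ≤ 1 / (2 * t) * (t * ‖SC h N η‖ - ‖SC g N η‖) ^ 2 := by positivity
            exact mul_le_mul (hfb η) (by linarith) (by positivity) hb0
          · rw [hf η hη, Set.indicator_of_notMem hη, norm_zero, zero_mul, mul_zero, zero_add]
            positivity
      _ = _ := by
          rw [integral_const_mul, integral_add (((hcI h).indicator hD).const_mul _) ((hcI g).const_mul _),
            integral_const_mul, integral_const_mul]
  calc 1 / (N : ℝ) * ‖∫ η : UnitAddCircle, f η * ((starRingEnd ℂ) (SC h N η) * SC g N η)‖ ≤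
      1 / (N : ℝ) * (b * (t / 2 * (∫ η : UnitAddCircle, D.indicator (fun η => ‖SC h N η‖ ^ 2) η) +
        1 / (2 * t) * ∫ η : UnitAddCircle, ‖SC g N η‖ ^ 2)) := mul_le_mul_of_nonneg_left h1 (by positivity)
    _ = _ := by ring

lemma La_bdd (h g : ℕ → ℂ) (hh : ∀ n, ‖h n‖ ≤ 1) (B : ℝ) (hg : ∀ n, ‖g n‖ ≤ B) (N : ℕ) (f : C(UnitAddCircle, ℂ)) :
    ‖La h g N f‖ ≤ ‖f‖ * (1 + B ^ 2) := by
  have h1 := La_le h g N f Set.univ MeasurableSet.univ (fun η hη => absurd (Set.mem_univ η) hη) ‖f‖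
    (fun η => f.norm_coe_le_norm η) 1 one_pos
  refine h1.trans ?_
  apply mul_le_mul_of_nonneg_left _ (norm_nonneg _)
  simp only [Set.indicator_univ]
  have h2 := SC_pars h 1 hh N
  have h3 := SC_pars g B hg N
  rcases Nat.eq_zero_or_pos N with h0 | h0
  · subst h0
    simp
    positivity
  have hN : (0 : ℝ) < N := by exact_mod_cast h0
  rw [one_div, inv_mul_le_iff₀ hN]
  have : 0 ≤ B ^ 2 := sq_nonneg B
  nlinarith

lemma La_add (h g : ℕ → ℂ) (N : ℕ) (f₁ f₂ : C(UnitAddCircle, ℂ)) : La h g N (f₁ + f₂) = La h g N f₁ + La h g N f₂ := by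
  unfold La
  rw [← mul_add, ← integral_add (La_int h g N f₁) (La_int h g N f₂)]
  congr 2
  funext η
  rw [ContinuousMap.add_apply]
  ring

lemma La_smul (h g : ℕ → ℂ) (N : ℕ) (c : ℂ) (f : C(UnitAddCircle, ℂ)) : La h g N (c • f) = c * La h g N f := by
  unfold La
  have e : ∫ η : UnitAddCircle, (c • f) η * ((starRingEnd ℂ) (SC h N η) * SC g N η) =
      c * ∫ η : UnitAddCircle, f η * ((starRingEnd ℂ) (SC h N η) * SC g N η) := by
    rw [← integral_const_mul]
    congr 1
    funext η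
    rw [ContinuousMap.smul_apply, smul_eq_mul]
    ring
  rw [e]
  ring

/-- the correlation sum restricted to `[1, N]` -/
lemma La_fourier (h g : ℕ → ℂ) (N : ℕ) (k : ℤ) : La h g N (fourier k) =
    (1 / (N : ℂ)) * ∑ n ∈ Icc 1 N, ∑ m ∈ Icc 1 N, if k + n - m = 0 then g n * (starRingEnd ℂ) (h m) else 0 := by
  unfold La
  congr 1
  have e : ∀ η : UnitAddCircle, (fourier k η : ℂ) * ((starRingEnd ℂ) (SC h N η) * SC g N η) =
      ∑ n ∈ Icc 1 N, ∑ m ∈ Icc 1 N, (g n * (starRingEnd ℂ) (h m)) * (fourier (k + n - m) η : ℂ) := by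
    intro η
    unfold SC
    rw [map_sum, sum_mul_sum, mul_sum]
    simp_rw [mul_sum]
    rw [sum_comm]
    refine sum_congr rfl fun n _ => sum_congr rfl fun m _ => ?_
    rw [map_mul, ← fourier_neg, sub_eq_add_neg, fourier_add, fourier_add]
    ring
  simp_rw [e]
  have hi : ∀ n m : ℕ, Integrable (fun η : UnitAddCircle => (g n * (starRingEnd ℂ) (h m)) * (fourier (k + n - m) η : ℂ))
      volume := fun n m => int_circ (continuous_const.mul (map_continuous (fourier (k + n - m))))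
  rw [integral_finsetSum (Icc 1 N) fun n _ => integrable_finsetSum (Icc 1 N) fun m _ => hi n m]
  refine sum_congr rfl fun n _ => ?_
  rw [integral_finsetSum (Icc 1 N) fun m _ => hi n m]
  refine sum_congr rfl fun m _ => ?_
  rw [integral_const_mul, integral_fourier]
  split_ifs <;> simp

/-- the correlation sum, with all values -/
lemma La_corr (h g : ℕ → ℂ) (h0 : h 0 = 0) (hh : ∀ n, ‖h n‖ ≤ 1) (hr : ∀ n, (starRingEnd ℂ) (h n) = h n) (B : ℝ)
    (hg : ∀ n, ‖g n‖ ≤ B) (N : ℕ) (k : ℤ) :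
    ‖La h g N (fourier k) - (1 / (N : ℂ)) * ∑ n ∈ Icc 1 N, g n * h ((n : ℤ) + k).toNat‖ ≤ (1 / (N : ℝ)) * (B * |(k : ℝ)|) := by
  have hB : 0 ≤ B := (norm_nonneg _).trans (hg 0)
  rw [La_fourier, ← mul_sub, norm_mul, norm_div, norm_one, Complex.norm_natCast]
  apply mul_le_mul_of_nonneg_left _ (by positivity)
  rw [← sum_sub_distrib]
  have e : ∀ n ∈ Icc 1 N, (∑ m ∈ Icc 1 N, if k + n - m = 0 then g n * (starRingEnd ℂ) (h m) else 0) -
      g n * h ((n : ℤ) + k).toNat = if (N : ℤ) < n + k then -(g n * h ((n : ℤ) + k).toNat) else 0 := by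
    intro n hn
    rw [mem_Icc] at hn
    by_cases h1 : (N : ℤ) < n + k
    · rw [if_pos h1]
      rw [sum_eq_zero, zero_sub]
      intro m hm
      rw [mem_Icc] at hm
      rw [if_neg]
      omega
    · rw [if_neg h1]
      by_cases h2 : 1 ≤ (n : ℤ) + k
      · rw [sum_eq_single ((n : ℤ) + k).toNat]
        · rw [if_pos (by omega), hr, sub_self]
        · intro m _ hne
          rw [if_neg (by omega)]
        · intro hm
          exfalso
          apply hm
          rw [mem_Icc]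
          omega
      · have h3 : ((n : ℤ) + k).toNat = 0 := by omega
        rw [h3, h0, mul_zero, sub_zero]
        refine sum_eq_zero fun m hm => ?_
        rw [mem_Icc] at hm
        rw [if_neg (by omega)]
  rw [sum_congr rfl e, ← sum_filter]
  refine (norm_sum_le _ _).trans ?_
  calc ∑ n ∈ (Icc 1 N).filter (fun n : ℕ => (N : ℤ) < n + k), ‖-(g n * h ((n : ℤ) + k).toNat)‖ ≤
      ∑ _n ∈ (Icc 1 N).filter (fun n : ℕ => (N : ℤ) < n + k), B := by
        refine sum_le_sum fun n _ => ?_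
        rw [norm_neg, norm_mul]
        calc ‖g n‖ * ‖h ((n : ℤ) + k).toNat‖ ≤ B * 1 := mul_le_mul (hg n) (hh _) (norm_nonneg _) hB
          _ = B := mul_one B
    _ = (((Icc 1 N).filter (fun n : ℕ => (N : ℤ) < n + k)).card : ℝ) * B := by rw [sum_const, nsmul_eq_mul]
    _ ≤ |(k : ℝ)| * B := by
        apply mul_le_mul_of_nonneg_right _ hB
        have hcard : ((Icc 1 N).filter (fun n : ℕ => (N : ℤ) < n + k)).card ≤ k.natAbs := by
          calc ((Icc 1 N).filter (fun n : ℕ => (N : ℤ) < n + k)).card ≤ (Ioc (N - k.natAbs) N).card := by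
                apply card_le_card
                intro n hn
                rw [mem_filter, mem_Icc] at hn
                rw [mem_Ioc]
                omega
            _ ≤ k.natAbs := by rw [Nat.card_Ioc]; omega
        have : ((k.natAbs : ℕ) : ℝ) = |(k : ℝ)| := by
          rw [← Int.cast_abs, Int.abs_eq_natAbs, Int.cast_natCast]
        rw [← this]
        exact_mod_cast hcard
    _ = B * |(k : ℝ)| := mul_comm _ _

end Pool.Agent.TH327.Dim
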