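import Pool.Agent.TH327.Dim.Gl
import Pool.Agent.TH327.Thin.Cst

/-! # Products of sequences with small spectrum -/

set_option autoImplicit false

namespace Pool.Agent.TH327.Dim

open MeasureTheory Filter Topology
open scoped Pointwise
open Pool.Agent.TH327.Thin

lemma W_le_one (δ : ℝ) (h0 : 0 < δ) (n : ℤ) : W δ n ≤ 1 := by
  rcases eq_or_ne n 0 with rfl | hn
  · rw [W_zero δ h0]
  · rw [W_formula δ h0 n hn]
    have h1 := Real.one_sub_sq_div_two_le_cos (x := 2 * Real.pi * n * δ)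
    have h2 : 0 < (2 * Real.pi * n * δ) ^ 2 := by
      have : (n : ℝ) ≠ 0 := by exact_mod_cast hn
      have := Real.pi_pos
      positivity
    rw [div_le_one h2]
    linarith

lemma W_near (δ : ℝ) (h0 : 0 < δ) (n : ℤ) : |W δ n - 1| ≤ 4 * Real.pi * δ * |(n : ℝ)| := by
  have hp : 0 ≤ 4 * Real.pi * δ := by have := Real.pi_pos; positivity
  induction n using Int.induction_on with
  | zero => rw [W_zero δ h0]; simp
  | succ k ih =>
    have h1 := W_diff δ h0 k
    have e : W δ (k + 1) - 1 = (W δ (k + 1) - W δ k) + (W δ k - 1) := by ring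
    rw [e]
    refine (abs_add_le _ _).trans ?_
    have e1 : |(((k : ℤ) : ℝ))| = k := by rw [Int.cast_natCast, Nat.abs_cast]
    have e2 : |((((k : ℤ) + 1 : ℤ)) : ℝ)| = k + 1 := by
      push_cast
      rw [abs_of_nonneg (by positivity)]
    rw [e1] at ih
    rw [e2]
    linarith
  | pred k ih =>
    have h1 := W_diff δ h0 (-(k : ℤ) - 1)
    rw [sub_add_cancel] at h1
    have e : W δ (-(k : ℤ) - 1) - 1 = -(W δ (-(k : ℤ)) - W δ (-(k : ℤ) - 1)) + (W δ (-(k : ℤ)) - 1) := by ring
    rw [e]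
    refine (abs_add_le _ _).trans ?_
    rw [abs_neg]
    have e1 : |((-(k : ℤ) : ℤ) : ℝ)| = k := by
      push_cast
      rw [abs_neg, Nat.abs_cast]
    have e2 : |((-(k : ℤ) - 1 : ℤ) : ℝ)| = k + 1 := by
      push_cast
      rw [abs_of_nonpos (by have : (0 : ℝ) ≤ k := Nat.cast_nonneg k; linarith)]
      ring
    rw [e1] at ih
    rw [e2]
    linarith

lemma SpecIn.mono {E : Type*} [NormedAddCommGroup E] [NormedSpace ℂ E] {K K' : Set UnitAddCircle} {a : ℤ → E}
    (h : SpecIn K a) (hK : K ⊆ K') : SpecIn K' a := by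
  rintro f hf ⟨U, hU, hKU, hz⟩
  exact h f hf ⟨U, hU, hK.trans hKU, hz⟩

section

variable {A : Type*} [NonUnitalNormedRing A] [NormedSpace ℂ A] [IsScalarTower ℂ A A] [SMulCommClass ℂ A A] [CompleteSpace A]

/-- the spectrum of a product -/
theorem specIn_mul {K₁ K₂ : Set UnitAddCircle} (hK₁ : IsClosed K₁) (hK₂ : IsClosed K₂) {a b : ℤ → A} {B₁ B₂ : ℝ}
    (ha : ∀ n, ‖a n‖ ≤ B₁) (hb : ∀ n, ‖b n‖ ≤ B₂) (h₁ : SpecIn K₁ a) (h₂ : SpecIn K₂ b) :
    SpecIn (K₁ + K₂) (fun n => a n * b n) := by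
  rintro f hf ⟨U, hU, hKU, hz⟩
  have hB₁ : 0 ≤ B₁ := (norm_nonneg _).trans (ha 0)
  have hB₂ : 0 ≤ B₂ := (norm_nonneg _).trans (hb 0)
  obtain ⟨δ₀, hδ₀, hth⟩ := (hK₁.isCompact.add hK₂.isCompact).exists_thickening_subset_open hU hKU
  -- the smoothed sum vanishes
  have key : ∀ δ : ℝ, 0 < δ → δ ≤ 1 / 2 → δ < δ₀ → ∑' n, f n • (a n * ((W δ n : ℂ) • b n)) = 0 := by
    intro δ h0 h1 h2
    have e1 : ∀ n : ℤ, f n • (a n * ((W δ n : ℂ) • b n)) =
        ∫ η : UnitAddCircle, ((f n * fourier n η) • a n) * FT b δ η := by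
      intro n
      rw [← FT_coeff hb h0 n]
      have e2 : ∀ η : UnitAddCircle, ((f n * fourier n η) • a n) * FT b δ η =
          (ContinuousLinearMap.mul ℂ A (f n • a n)) ((fourier n η : ℂ) • FT b δ η) := by
        intro η
        rw [ContinuousLinearMap.mul_apply', mul_smul_comm, ← smul_mul_assoc, smul_smul, mul_comm (f n)]
      simp_rw [e2]
      rw [ContinuousLinearMap.integral_comp_comm]
      · rw [ContinuousLinearMap.mul_apply', smul_mul_assoc]
      · apply Continuous.integrable_of_hasCompactSupport _ (HasCompactSupport.of_compactSpace _)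
        exact (map_continuous (fourier n)).smul (FT_cont hb h0)
    have hi : ∀ n : ℤ, Integrable (fun η : UnitAddCircle => ((f n * fourier n η) • a n) * FT b δ η) volume := by
      intro n
      apply Continuous.integrable_of_hasCompactSupport _ (HasCompactSupport.of_compactSpace _)
      exact ((continuous_const.mul (map_continuous (fourier n))).smul continuous_const).mul (FT_cont hb h0)
    have hnorm : ∀ (n : ℤ) (η : UnitAddCircle), ‖((f n * fourier n η) • a n) * FT b δ η‖ ≤ ‖f n‖ * (B₁ * (B₂ / δ)) := by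
      intro n η
      refine (norm_mul_le _ _).trans ?_
      rw [norm_smul, norm_mul, norm_fourier_apply, mul_one, mul_assoc]
      apply mul_le_mul_of_nonneg_left _ (norm_nonneg _)
      exact mul_le_mul (ha n) (FT_norm hb h0 h1 η) (norm_nonneg _) hB₁
    have hsum : Summable fun n : ℤ => ∫ η : UnitAddCircle, ‖((f n * fourier n η) • a n) * FT b δ η‖ := by
      refine Summable.of_nonneg_of_le (fun m => integral_nonneg fun η => norm_nonneg _) (fun n => ?_)
        (hf.mul_right (B₁ * (B₂ / δ)))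
      calc ∫ η : UnitAddCircle, ‖((f n * fourier n η) • a n) * FT b δ η‖
          ≤ ∫ η : UnitAddCircle, ‖f n‖ * (B₁ * (B₂ / δ)) :=
            integral_mono (hi n).norm (integrable_const _) (hnorm n)
        _ = ‖f n‖ * (B₁ * (B₂ / δ)) := by simp [vol_univ]
    have h := hasSum_integral_of_summable_integral_norm hi hsum
    rw [tsum_congr e1, h.tsum_eq]
    apply integral_eq_zero_of_ae
    refine Filter.Eventually.of_forall fun η => ?_
    simp only [Pi.zero_apply]
    have hs : Summable fun n : ℤ => (f n * fourier n η) • a n := by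
      refine Summable.of_norm_bounded (hf.mul_right B₁) fun n => ?_
      rw [norm_smul, norm_mul, norm_fourier_apply, mul_one]
      exact mul_le_mul_of_nonneg_left (ha n) (norm_nonneg _)
    rw [hs.tsum_mul_right]
    by_cases hη : ∃ ζ ∈ K₂, ‖ζ - η‖ ≤ δ
    · obtain ⟨ζ₂, hζ₂, hd⟩ := hη
      have h3 := h₁ (fun n => f n * fourier n η) (by
        refine hf.congr fun n => ?_
        rw [norm_mul, norm_fourier_apply, mul_one]) ⟨{ξ | ξ + η ∈ U}, hU.preimage (by fun_prop), fun ξ hξ => ?_, fun ξ hξ => ?_⟩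
      · rw [h3, zero_mul]
      · apply hth
        rw [Metric.mem_thickening_iff]
        refine ⟨ξ + ζ₂, Set.add_mem_add hξ hζ₂, ?_⟩
        rw [dist_eq_norm]
        have : ξ + η - (ξ + ζ₂) = -(ζ₂ - η) := by abel
        rw [this, norm_neg]
        exact lt_of_le_of_lt hd h2
      · have h4 := hz (ξ + η) hξ
        rw [← h4]
        refine tsum_congr fun n => ?_
        have e5 : (fourier n (ξ + η) : ℂ) = fourier n ξ * fourier n η := by
          rw [fourier_apply, fourier_apply, fourier_apply, zsmul_add, AddCircle.toCircle_add, Circle.coe_mul]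
        rw [e5]
        ring
    · push Not at hη
      rw [FT_zero h₂ h0 h1 hη, mul_zero]
  -- the limit
  have hlim : Tendsto (fun m : ℕ => ∑' n, f n • (a n * ((W (1 / ((m : ℝ) + 2)) n : ℂ) • b n))) atTop
      (𝓝 (∑' n, f n • (a n * b n))) := by
    apply tendsto_tsum_of_dominated_convergence (bound := fun n => ‖f n‖ * (B₁ * B₂)) (hf.mul_right _)
    · intro n
      have h5 : Tendsto (fun m : ℕ => (W (1 / ((m : ℝ) + 2)) n : ℂ)) atTop (𝓝 ((1 : ℝ) : ℂ)) := by
        apply (Complex.continuous_ofReal.tendsto 1).comp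
        rw [tendsto_iff_norm_sub_tendsto_zero]
        have h6 : Tendsto (fun m : ℕ => 4 * Real.pi * (1 / ((m : ℝ) + 2)) * |(n : ℝ)|) atTop (𝓝 0) := by
          have h7 : Tendsto (fun m : ℕ => 1 / ((m : ℝ) + 2)) atTop (𝓝 0) := by
            have h8 : Tendsto (fun m : ℕ => (m : ℝ) + 2) atTop atTop :=
              tendsto_atTop_add_const_right _ _ tendsto_natCast_atTop_atTop
            have h9 := tendsto_inv_atTop_zero.comp h8
            simp only [one_div]
            exact h9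
          have := (h7.const_mul (4 * Real.pi)).mul_const |(n : ℝ)|
          rwa [mul_zero, zero_mul] at this
        refine squeeze_zero (fun m => norm_nonneg _) (fun m => ?_) h6
        rw [Real.norm_eq_abs]
        exact W_near _ (by positivity) n
      have h9 : Tendsto (fun m : ℕ => f n • (a n * ((W (1 / ((m : ℝ) + 2)) n : ℂ) • b n))) atTop
          (𝓝 (f n • (a n * (((1 : ℝ) : ℂ) • b n)))) :=
        ((h5.smul_const (b n)).const_mul (a n)).const_smul (f n)
      rw [Complex.ofReal_one, one_smul] at h9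
      exact h9
    · refine Filter.Eventually.of_forall fun m n => ?_
      rw [norm_smul]
      apply mul_le_mul_of_nonneg_left _ (norm_nonneg _)
      refine (norm_mul_le _ _).trans ?_
      rw [norm_smul, Complex.norm_real, Real.norm_eq_abs, abs_of_nonneg (W_nonneg _ (by positivity) n)]
      apply mul_le_mul (ha n) _ (by have := W_nonneg (1 / ((m : ℝ) + 2)) (by positivity) n; positivity) hB₁
      exact (mul_le_of_le_one_left (norm_nonneg _) (W_le_one _ (by positivity) n)).trans (hb n)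
  have hzero : ∀ᶠ m : ℕ in atTop, ∑' n, f n • (a n * ((W (1 / ((m : ℝ) + 2)) n : ℂ) • b n)) = 0 := by
    obtain ⟨m0, hm0⟩ := exists_nat_gt (1 / δ₀)
    filter_upwards [eventually_ge_atTop m0] with m hm
    apply key
    · positivity
    · apply one_div_le_one_div_of_le (by norm_num)
      have : (0 : ℝ) ≤ m := Nat.cast_nonneg m
      linarith
    · rw [div_lt_iff₀ (by positivity)]
      rw [div_lt_iff₀ hδ₀] at hm0
      have : (m0 : ℝ) ≤ m := by exact_mod_cast hm
      nlinarith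
  exact tendsto_nhds_unique (hlim.congr' (hzero.mono fun m hm => hm)) tendsto_const_nhds

end

/-- upper box dimension zero -/
def ZeroDim (K : Set UnitAddCircle) : Prop := ∀ s : ℝ, 0 < s → ∃ C : ℝ, Cov K C s

/-- upper box dimension less than one half -/
def HalfDim (K : Set UnitAddCircle) : Prop := ∃ C s : ℝ, s < 1 / 2 ∧ Cov K C s

lemma cov_add {K₁ K₂ : Set UnitAddCircle} {C₁ C₂ s₁ s₂ : ℝ} (h₁ : Cov K₁ C₁ s₁) (h₂ : Cov K₂ C₂ s₂) :
    Cov (K₁ + K₂) (C₁ * C₂ * 2 ^ (s₁ + s₂)) (s₁ + s₂) := by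
  classical
  intro n hn
  obtain ⟨F₁, hF₁, hc₁⟩ := h₁ (2 * n) (by omega)
  obtain ⟨F₂, hF₂, hc₂⟩ := h₂ (2 * n) (by omega)
  have hnr : (0 : ℝ) < n := by exact_mod_cast hn
  refine ⟨F₁ + F₂, ?_, ?_⟩
  · have h3 : ((F₁ + F₂).card : ℝ) ≤ F₁.card * F₂.card := by exact_mod_cast Finset.card_add_le
    refine h3.trans ?_
    calc (F₁.card : ℝ) * F₂.card ≤ (C₁ * ((2 * n : ℕ) : ℝ) ^ s₁) * (C₂ * ((2 * n : ℕ) : ℝ) ^ s₂) :=
          mul_le_mul hF₁ hF₂ (Nat.cast_nonneg _) ((Nat.cast_nonneg _).trans hF₁)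
      _ = C₁ * C₂ * 2 ^ (s₁ + s₂) * (n : ℝ) ^ (s₁ + s₂) := by
          push_cast
          rw [Real.mul_rpow two_pos.le hnr.le, Real.mul_rpow two_pos.le hnr.le, Real.rpow_add two_pos, Real.rpow_add hnr]
          ring
  · rintro _ ⟨x, hx, y, hy, rfl⟩
    obtain ⟨u, hu, hd1⟩ := hc₁ x hx
    obtain ⟨v, hv, hd2⟩ := hc₂ y hy
    refine ⟨u + v, Finset.add_mem_add hu hv, ?_⟩
    have e : x + y - (u + v) = (x - u) + (y - v) := by abel
    simp only
    rw [e]
    refine (norm_add_le _ _).trans ?_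
    refine (add_le_add hd1 hd2).trans (le_of_eq ?_)
    push_cast
    field_simp
    norm_num

lemma ZeroDim.add {K₁ K₂ : Set UnitAddCircle} (h₁ : ZeroDim K₁) (h₂ : ZeroDim K₂) : ZeroDim (K₁ + K₂) := by
  intro s hs
  obtain ⟨C₁, h3⟩ := h₁ (s / 2) (by positivity)
  obtain ⟨C₂, h4⟩ := h₂ (s / 2) (by positivity)
  have := cov_add h3 h4
  rw [add_halves] at this
  exact ⟨_, this⟩

lemma cov_neg {K : Set UnitAddCircle} {C s : ℝ} (h : Cov K C s) : Cov {η | -η ∈ K} C s := by
  classical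
  intro n hn
  obtain ⟨F, hF, hc⟩ := h n hn
  refine ⟨F.image (fun s => -s), ?_, ?_⟩
  · refine le_trans ?_ hF
    exact_mod_cast Finset.card_image_le
  · intro ζ hζ
    obtain ⟨s, hs, hd⟩ := hc (-ζ) hζ
    refine ⟨-s, Finset.mem_image_of_mem _ hs, ?_⟩
    have e : ζ - -s = -(-ζ - s) := by abel
    rw [e, norm_neg]
    exact hd

lemma ZeroDim.neg {K : Set UnitAddCircle} (h : ZeroDim K) : ZeroDim {η | -η ∈ K} := fun s hs => by
  obtain ⟨C, hC⟩ := h s hs
  exact ⟨C, cov_neg hC⟩

lemma zeroDim_singleton (x : UnitAddCircle) : ZeroDim {x} := by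
  intro s hs
  refine ⟨1, fun n hn => ⟨{x}, ?_, fun y hy => ⟨x, Finset.mem_singleton_self x, ?_⟩⟩⟩
  · rw [Finset.card_singleton, one_mul]
    push_cast
    exact Real.one_le_rpow (by exact_mod_cast hn) hs.le
  · rw [Set.mem_singleton_iff.1 hy, sub_self, norm_zero]
    positivity

lemma ZeroDim.closure {K : Set UnitAddCircle} (h : ZeroDim K) : ZeroDim (closure K) := fun s hs => by
  obtain ⟨C, hC⟩ := h s hs
  refine ⟨C, ?_⟩
  intro n hn
  obtain ⟨F, hF, hc⟩ := hC n hn
  refine ⟨F, hF, ?_⟩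
  have h1 : IsClosed {x : UnitAddCircle | ∃ y ∈ F, ‖x - y‖ ≤ 1 / n} := by
    have : {x : UnitAddCircle | ∃ y ∈ F, ‖x - y‖ ≤ 1 / n} = ⋃ y ∈ F, {x : UnitAddCircle | ‖x - y‖ ≤ 1 / n} := by
      ext x; simp
    rw [this]
    exact F.finite_toSet.isClosed_biUnion fun y _ => isClosed_le (by fun_prop) continuous_const
  exact fun x hx => closure_minimal hc h1 hx

lemma ZeroDim.half {K : Set UnitAddCircle} (h : ZeroDim K) : HalfDim K := by
  obtain ⟨C, hC⟩ := h (1 / 4) (by norm_num)
  exact ⟨C, 1 / 4, by norm_num, hC⟩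

end Pool.Agent.TH327.Dim
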