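import Pool.Agent.TH327.Dim.Win

/-! # Windows: local Fourier uniformity restricted to a small set of frequencies, the theorem -/

set_option autoImplicit false

namespace Pool.Agent.TH327.Dim

open Finset MeasureTheory Filter Topology
open Pool.Agent.TH823.MRS (phase)
open Pool.Agent.TH327.Thin (norm_fourier_apply W W_nonneg summable_W tsum_W SpecIn FT FT_zero specIn_shift)

/-- the transform of a translate of the Fejer weight times a sequence with spectrum in `K` -/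
lemma FB_piece {K : Set UnitAddCircle} {a : ℤ → ℂ} (ha : SpecIn K a) (δ : ℝ) (h0 : 0 < δ) (h1 : δ ≤ 1 / 2)
    (η : UnitAddCircle) (hη : ∀ ζ ∈ K, δ < ‖ζ - η‖) (z : ℤ) :
    ∑' m : ℤ, (a m * (W δ (m - z) : ℂ)) * fourier (-m) η = 0 := by
  have h2 := FT_zero (specIn_shift ha z) h0 h1 hη
  unfold FT at h2
  rw [← (Equiv.addRight z).tsum_eq]
  have : ∀ n : ℤ, (a ((Equiv.addRight z) n) * (W δ ((Equiv.addRight z) n - z) : ℂ)) * fourier (-((Equiv.addRight z) n)) η =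
      (fourier (-z) η : ℂ) * (((W δ n : ℂ) * fourier (-n) η) • a (n + z)) := by
    intro n
    simp only [Equiv.coe_addRight, add_sub_cancel_right, smul_eq_mul]
    rw [neg_add, fourier_add]
    ring
  rw [tsum_congr this, tsum_mul_left, h2, mul_zero]

lemma ww_summable_sub (δ : ℝ) (h0 : 0 < δ) (H : ℕ) (x : ℤ) : Summable fun m : ℤ => ww δ H (m - x) := by
  unfold ww
  refine summable_sum fun y _ => ?_
  simp_rw [sub_sub]
  exact (summable_W_sub δ h0 (x + y)).mul_left δ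

lemma ww_tsum_sub (δ : ℝ) (h0 : 0 < δ) (h1 : δ ≤ 1 / 2) (H : ℕ) (x : ℤ) : ∑' m : ℤ, ww δ H (m - x) = H := by
  unfold ww
  simp_rw [sub_sub]
  rw [Summable.tsum_finsetSum fun y _ => (summable_W_sub δ h0 (x + y)).mul_left δ]
  have e : ∀ y ∈ Icc (1 : ℤ) H, ∑' m : ℤ, δ * W δ (m - (x + y)) = 1 := by
    intro y _
    rw [tsum_mul_left, tsum_W_sub δ h0 h1]
    field_simp
  rw [sum_congr rfl e, sum_const, Int.card_Icc, nsmul_eq_mul, mul_one]
  have : ((H : ℤ) + 1 - 1).toNat = H := by omega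
  rw [this]

/-- smoothing -/
lemma smooth_le (δ : ℝ) (H : ℕ) (η : ℝ) (hH1 : ∀ F : Finset ℤ,
      ∑ n ∈ F, |(if n ∈ Icc (1 : ℤ) H then (1 : ℝ) else 0) - ww δ H n| ≤ η * H) (h : ℕ → ℂ) (hF : ∀ n, ‖h n‖ ≤ 1)
    (X x : ℕ) (hx : x < X) (a : ℤ → ℂ) (ha : ∀ n, ‖a n‖ ≤ 1) :
    ‖∑ n ∈ Ioc x (x + H), h n * a n‖ ≤
      ‖∑ n ∈ Icc 1 (X + H), h n * (a n * (ww δ H (n - x) : ℂ))‖ + η * H := by
  obtain ⟨u, hu⟩ : ∃ u : ℤ → ℝ, u = fun k => if k ∈ Icc (1 : ℤ) H then (1 : ℝ) else 0 := ⟨_, rfl⟩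
  have hu2 : ∀ F : Finset ℤ, ∑ n ∈ F, |u n - ww δ H n| ≤ η * H := by rw [hu]; exact hH1
  have e1 : ∑ n ∈ Ioc x (x + H), h n * a n = ∑ n ∈ Icc 1 (X + H), h n * (a n * (u (n - x) : ℂ)) := by
    rw [← sum_filter_add_sum_filter_not (Icc 1 (X + H)) (fun n => n ∈ Ioc x (x + H))]
    have e2 : (Icc 1 (X + H)).filter (fun n => n ∈ Ioc x (x + H)) = Ioc x (x + H) := by
      ext n; simp only [mem_filter, mem_Icc, mem_Ioc]; omega
    rw [e2]
    have e3 : ∑ n ∈ (Icc 1 (X + H)).filter (fun n => ¬ n ∈ Ioc x (x + H)), h n * (a n * (u (n - x) : ℂ)) = 0 := by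
      refine sum_eq_zero fun n hn => ?_
      rw [mem_filter, mem_Ioc] at hn
      have : u (n - x) = 0 := by
        rw [hu]
        exact if_neg (by rw [mem_Icc]; omega)
      rw [this]
      simp
    rw [e3, add_zero]
    refine sum_congr rfl fun n hn => ?_
    rw [mem_Ioc] at hn
    have : u (n - x) = 1 := by
      rw [hu]
      exact if_pos (by rw [mem_Icc]; omega)
    rw [this]
    simp
  have e4 : ∑ n ∈ Ioc x (x + H), h n * a n = ∑ n ∈ Icc 1 (X + H), h n * (a n * (ww δ H (n - x) : ℂ)) +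
      ∑ n ∈ Icc 1 (X + H), h n * (a n * ((u (n - x) - ww δ H (n - x) : ℝ) : ℂ)) := by
    rw [e1, ← sum_add_distrib]
    refine sum_congr rfl fun n _ => ?_
    push_cast
    ring
  rw [e4]
  refine (norm_add_le _ _).trans (add_le_add le_rfl ?_)
  refine (norm_sum_le _ _).trans ?_
  calc ∑ n ∈ Icc 1 (X + H), ‖h n * (a n * ((u (n - x) - ww δ H (n - x) : ℝ) : ℂ))‖ ≤
        ∑ n ∈ Icc 1 (X + H), |u (n - x) - ww δ H (n - x)| := by
        refine sum_le_sum fun n _ => ?_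
        rw [norm_mul, norm_mul, Complex.norm_real, Real.norm_eq_abs]
        have b3 := abs_nonneg (u (n - x) - ww δ H (n - x))
        have b4 := mul_le_of_le_one_left b3 (ha n)
        have b5 := mul_le_of_le_one_left (mul_nonneg (norm_nonneg (a n)) b3) (hF n)
        exact b5.trans b4
    _ = ∑ k ∈ (Icc 1 (X + H)).image (fun n : ℕ => (n : ℤ) - x), |u k - ww δ H k| := by
        rw [sum_image fun a _ b _ hab => by omega]
    _ ≤ η * H := hu2 _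

/-- the family put together -/
lemma family (K : Set UnitAddCircle) (ρ δ : ℝ) (h0 : 0 < δ) (h1 : δ ≤ 1 / 2) (hδρ : δ < ρ) (H X : ℕ)
    (a : ℕ → ℤ → ℂ) (ha : ∀ x n, ‖a x n‖ ≤ 1) (hs : ∀ x, SpecIn K (a x)) (c : ℕ → ℂ) (hc1 : ∀ x, ‖c x‖ ≤ 1)
    (b : ℤ → ℂ) (hb : ∀ m, b m = ∑ x ∈ range X, c x * (a x m * (ww δ H (m - x) : ℂ))) :
    (Summable fun m => ‖b m‖) ∧ ∑' m, ‖b m‖ ^ 2 ≤ X * (H : ℝ) ^ 2 ∧
    ∀ η : UnitAddCircle, (∀ x ∈ K, ρ ≤ ‖η - x‖) → FB b η = 0 := by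
  have hbn : ∀ m, ‖b m‖ ≤ ∑ x ∈ range X, ww δ H (m - x) := by
    intro m
    rw [hb]
    refine (norm_sum_le _ _).trans (sum_le_sum fun x _ => ?_)
    rw [norm_mul, norm_mul, Complex.norm_real, Real.norm_eq_abs, abs_of_nonneg (ww_nonneg δ h0 H _)]
    have b4 := mul_le_of_le_one_left (ww_nonneg δ h0 H (m - x)) (ha x m)
    have b5 := mul_le_of_le_one_left (mul_nonneg (norm_nonneg (a x m)) (ww_nonneg δ h0 H (m - x))) (hc1 x)
    exact b5.trans b4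
  have hsx : ∀ x : ℕ, Summable fun m : ℤ => ww δ H (m - x) := fun x => ww_summable_sub δ h0 H x
  have hsxt : ∀ x : ℕ, ∑' m : ℤ, ww δ H (m - x) = H := fun x => ww_tsum_sub δ h0 h1 H x
  have hbs : Summable fun m => ‖b m‖ :=
    Summable.of_nonneg_of_le (fun m => norm_nonneg _) hbn (summable_sum fun x _ => hsx x)
  have hb1 : ∑' m, ‖b m‖ ≤ X * H := by
    calc ∑' m, ‖b m‖ ≤ ∑' m : ℤ, ∑ x ∈ range X, ww δ H (m - x) :=
          hbs.tsum_le_tsum hbn (summable_sum fun x _ => hsx x)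
      _ = X * H := by
          rw [Summable.tsum_finsetSum fun x _ => hsx x, sum_congr rfl fun x _ => hsxt x]
          rw [sum_const, card_range, nsmul_eq_mul]
  have hb2 : ∑' m, ‖b m‖ ^ 2 ≤ X * (H : ℝ) ^ 2 := by
    have hle : ∀ m, ‖b m‖ ^ 2 ≤ H * ‖b m‖ := by
      intro m
      rw [pow_two]
      exact mul_le_mul_of_nonneg_right ((hbn m).trans (ww_sum_shift δ h0 h1 H X m)) (norm_nonneg _)
    have hs2 : Summable fun m => ‖b m‖ ^ 2 :=
      Summable.of_nonneg_of_le (fun m => by positivity) hle (hbs.mul_left _)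
    calc ∑' m, ‖b m‖ ^ 2 ≤ ∑' m, H * ‖b m‖ := hs2.tsum_le_tsum hle (hbs.mul_left _)
      _ = H * ∑' m, ‖b m‖ := tsum_mul_left
      _ ≤ H * (X * H) := mul_le_mul_of_nonneg_left hb1 (Nat.cast_nonneg _)
      _ = _ := by ring
  refine ⟨hbs, hb2, fun η hη => ?_⟩
  have hη' : ∀ ζ ∈ K, δ < ‖ζ - η‖ := fun ζ hζ => by rw [norm_sub_rev]; exact lt_of_lt_of_le hδρ (hη ζ hζ)
  unfold FB
  have hsum : ∀ x : ℕ, ∀ y : ℤ, Summable fun m : ℤ =>
      c x * (δ : ℂ) * ((a x m * (W δ (m - (x + y)) : ℂ)) * fourier (-m) η) := by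
    intro x y
    apply Summable.mul_left
    refine Summable.of_norm_bounded (summable_W_sub δ h0 (x + y)) fun m => ?_
    rw [norm_mul, norm_fourier_apply, mul_one, norm_mul, Complex.norm_real, Real.norm_eq_abs,
      abs_of_nonneg (W_nonneg δ h0 _)]
    exact mul_le_of_le_one_left (W_nonneg δ h0 _) (ha x m)
  have e1 : ∀ m : ℤ, b m * fourier (-m) η = ∑ x ∈ range X, ∑ y ∈ Icc (1 : ℤ) H,
      c x * (δ : ℂ) * ((a x m * (W δ (m - (x + y)) : ℂ)) * fourier (-m) η) := by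
    intro m
    rw [hb, sum_mul]
    refine sum_congr rfl fun x _ => ?_
    unfold ww
    rw [Complex.ofReal_sum, mul_sum, mul_sum, sum_mul]
    refine sum_congr rfl fun y _ => ?_
    rw [sub_sub, Complex.ofReal_mul]
    ring
  rw [tsum_congr e1, Summable.tsum_finsetSum fun x _ => summable_sum fun y _ => hsum x y]
  refine sum_eq_zero fun x _ => ?_
  rw [Summable.tsum_finsetSum fun y _ => hsum x y]
  refine sum_eq_zero fun y _ => ?_
  rw [tsum_mul_left, FB_piece (hs x) δ h0 h1 η hη', mul_zero]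

/-- **The window theorem.** -/
theorem win {T : Set (Set UnitAddCircle)} {F : Set (ℕ → ℂ)} (hF : ∀ h ∈ F, ∀ n, ‖h n‖ ≤ 1) (hG : Good T F)
    (ε : ℝ) (hε : 0 < ε) : ∃ H0 : ℕ, ∀ H : ℕ, H0 ≤ H → ∀ X : ℕ, H ≤ X → ∀ K ∈ T, ∀ h ∈ F, ∀ a : ℕ → ℤ → ℂ,
      (∀ x n, ‖a x n‖ ≤ 1) → (∀ x, SpecIn K (a x)) →
      ∑ x ∈ range X, ‖∑ n ∈ Ioc x (x + H), h n * a x n‖ ≤ ε * H * X := by
  obtain ⟨ρ, hρ, N0, hN0⟩ := hG ((ε / 4) ^ 2) (by positivity)
  obtain ⟨δ, h0, h1, hδρ⟩ : ∃ δ : ℝ, 0 < δ ∧ δ ≤ 1 / 2 ∧ δ < ρ :=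
    ⟨min (ρ / 2) (1 / 2), by positivity, min_le_right _ _, lt_of_le_of_lt (min_le_left _ _) (by linarith)⟩
  obtain ⟨H1, hH1⟩ := ww_close δ h0 h1 (min (ε / 2) 1) (by positivity) (min_le_right _ _)
  refine ⟨max (max N0 H1) 1, fun H hH X hX K hK h hh a ha hs => ?_⟩
  have hHN : N0 ≤ H := le_trans (le_max_left _ _) (le_trans (le_max_left _ _) hH)
  have hHH : H1 ≤ H := le_trans (le_max_right _ _) (le_trans (le_max_left _ _) hH)
  have hH0 : 1 ≤ H := le_trans (le_max_right _ _) hH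
  have hHr : (0 : ℝ) < H := by exact_mod_cast hH0
  have hXr : (0 : ℝ) < X := by exact_mod_cast (by omega : 0 < X)
  obtain ⟨S, hS⟩ : ∃ S : ℕ → ℂ, ∀ x, S x = ∑ n ∈ Icc 1 (X + H), h n * (a x n * (ww δ H (n - x) : ℂ)) := ⟨_, fun _ => rfl⟩
  -- smoothing
  have hsm : ∀ x ∈ range X, ‖∑ n ∈ Ioc x (x + H), h n * a x n‖ ≤ ‖S x‖ + ε / 2 * H := by
    intro x hx
    rw [mem_range] at hx
    rw [hS]
    refine smooth_le δ H (ε / 2) (fun G => ?_) h (hF h hh) X x hx (a x) (ha x)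
    exact (hH1 H hHH G).trans (mul_le_mul_of_nonneg_right (min_le_left _ _) hHr.le)
  -- phases
  choose c hc1 hc2 using fun x => phase (S x)
  obtain ⟨b, hb⟩ : ∃ b : ℤ → ℂ, ∀ m, b m = ∑ x ∈ range X, c x * (a x m * (ww δ H (m - x) : ℂ)) := ⟨_, fun _ => rfl⟩
  obtain ⟨hbs, hb2, hbz⟩ := family K ρ δ h0 h1 hδρ H X a ha hs c hc1 b hb
  have hdual := dual K ρ hbs hbz h (X + H) (4 * H / ε) (by positivity)
  have hint := hN0 K hK h hh (X + H) (by omega)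
  have hmain : ∑ x ∈ range X, ‖S x‖ ≤ ε / 2 * H * X := by
    have e1 : ((∑ x ∈ range X, ‖S x‖ : ℝ) : ℂ) = ∑ n ∈ Icc 1 (X + H), h n * b n := by
      rw [Complex.ofReal_sum]
      have e3 : ∀ x ∈ range X, ((‖S x‖ : ℝ) : ℂ) = ∑ n ∈ Icc 1 (X + H), h n * (c x * (a x n * (ww δ H (n - x) : ℂ))) := by
        intro x _
        rw [← hc2 x, hS, mul_sum]
        refine sum_congr rfl fun n _ => ?_
        ring
      rw [sum_congr rfl e3, sum_comm]
      refine sum_congr rfl fun n _ => ?_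
      rw [hb, mul_sum]
    have e2 : ∑ x ∈ range X, ‖S x‖ = ‖∑ n ∈ Icc 1 (X + H), h n * b n‖ := by
      rw [← e1, Complex.norm_real, Real.norm_eq_abs, abs_of_nonneg (sum_nonneg fun x _ => norm_nonneg _)]
    rw [e2]
    refine hdual.trans ?_
    have hXH : (((X + H : ℕ) : ℝ)) ≤ 2 * X := by
      have : (H : ℝ) ≤ X := by exact_mod_cast hX
      push_cast; linarith
    have hA : (∫ θ in (0 : ℝ)..1, (Nb K ρ).indicator (fun _ => (1 : ℝ)) θ * ‖SS h (X + H) θ‖ ^ 2) ≤ (ε / 4) ^ 2 * (2 * X) :=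
      hint.trans (mul_le_mul_of_nonneg_left hXH (by positivity))
    have hB1 := mul_le_mul_of_nonneg_left hA (show (0 : ℝ) ≤ 4 * H / ε / 2 by positivity)
    have hB2 := mul_le_mul_of_nonneg_left hb2 (show (0 : ℝ) ≤ 1 / (2 * (4 * H / ε)) by positivity)
    have hE1 : 4 * (H : ℝ) / ε / 2 * ((ε / 4) ^ 2 * (2 * X)) = 1 / 4 * (ε * H * X) := by field_simp; try ring
    have hE2 : 1 / (2 * (4 * (H : ℝ) / ε)) * (X * (H : ℝ) ^ 2) = 1 / 8 * (ε * H * X) := by field_simp; try ring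
    rw [hE1] at hB1
    rw [hE2] at hB2
    have hpos : 0 < ε * H * X := by positivity
    have hE3 : ε / 2 * H * X = 1 / 2 * (ε * H * X) := by ring
    rw [hE3]
    linarith
  calc ∑ x ∈ range X, ‖∑ n ∈ Ioc x (x + H), h n * a x n‖ ≤ ∑ x ∈ range X, (‖S x‖ + ε / 2 * H) := sum_le_sum hsm
    _ = ∑ x ∈ range X, ‖S x‖ + X * (ε / 2 * H) := by
        rw [sum_add_distrib, sum_const, card_range, nsmul_eq_mul]
    _ ≤ ε / 2 * H * X + X * (ε / 2 * H) := by linarith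
    _ = ε * H * X := by ring

end Pool.Agent.TH327.Dim
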