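import Pool.Agent.TH327.Dim.Inst
import Pool.Agent.TH327.Dim.Win2
import Pool.Agent.TH327.Dim.Prod
import Pool.Agent.TH327.Dim.Meas2

/-! # Systems of evaluations along orbits; twists -/

set_option autoImplicit false

namespace Pool.Agent.TH327.Dim

open Finset Filter Topology MeasureTheory
open scoped Pointwise
open Pool.Agent.TH327.Thin (SpecIn norm_fourier_apply)

lemma specIn_smul {E : Type*} [NormedAddCommGroup E] [NormedSpace ℂ E] {K : Set UnitAddCircle} {a : ℤ → E}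
    (h : SpecIn K a) (c : ℂ) : SpecIn K (fun n => c • a n) := by
  intro f hf hU
  have h1 := h f hf hU
  have h2 : ∀ n, f n • (c • a n) = c • (f n • a n) := fun n => smul_comm _ _ _
  rw [tsum_congr h2, tsum_const_smul'', h1, smul_zero]

lemma specIn_add {E : Type*} [NormedAddCommGroup E] [NormedSpace ℂ E] [CompleteSpace E] {K : Set UnitAddCircle}
    {a b : ℤ → E} {B₁ B₂ : ℝ} (ha : ∀ n, ‖a n‖ ≤ B₁) (hb : ∀ n, ‖b n‖ ≤ B₂)
    (h₁ : SpecIn K a) (h₂ : SpecIn K b) : SpecIn K (fun n => a n + b n) := by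
  intro f hf hU
  have s : ∀ (c : ℤ → E) (B : ℝ), (∀ n, ‖c n‖ ≤ B) → Summable fun n => f n • c n := by
    intro c B hc
    apply Summable.of_norm
    refine Summable.of_nonneg_of_le (fun n => norm_nonneg _) (fun n => ?_) (hf.mul_right B)
    rw [norm_smul]
    exact mul_le_mul_of_nonneg_left (hc n) (norm_nonneg _)
  have h2 : ∀ n, f n • (a n + b n) = f n • a n + f n • b n := fun n => smul_add _ _ _
  rw [tsum_congr h2, (s a B₁ ha).tsum_add (s b B₂ hb), h₁ f hf hU, h₂ f hf hU, add_zero]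

/-- multiplication by a character shifts the spectrum -/
lemma specIn_twist {E : Type*} [NormedAddCommGroup E] [NormedSpace ℂ E] {K : Set UnitAddCircle} {a : ℤ → E}
    (h : SpecIn K a) (α : UnitAddCircle) : SpecIn {η | η - α ∈ K} (fun n => (fourier n α : ℂ) • a n) := by
  rintro f hf ⟨U, hU, hKU, hz⟩
  have h1 := h (fun n => f n * fourier n α) (by
    refine hf.congr fun n => ?_
    rw [norm_mul, norm_fourier_apply, mul_one]) ⟨{ξ | ξ + α ∈ U}, hU.preimage (by fun_prop), fun ξ hξ => ?_,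
      fun ξ hξ => ?_⟩
  · rw [← h1]
    refine tsum_congr fun n => ?_
    rw [smul_smul]
  · apply hKU
    show ξ + α - α ∈ K
    rwa [add_sub_cancel_right]
  · rw [← hz (ξ + α) hξ]
    refine tsum_congr fun n => ?_
    have e5 : (fourier n (ξ + α) : ℂ) = fourier n ξ * fourier n α := by
      rw [fourier_apply, fourier_apply, fourier_apply, zsmul_add, AddCircle.toCircle_add, Circle.coe_mul]
    rw [e5]
    ring

/-- bounded functionals preserve the spectrum -/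
lemma specIn_clm {E F : Type*} [NormedAddCommGroup E] [NormedSpace ℂ E] [CompleteSpace E]
    [NormedAddCommGroup F] [NormedSpace ℂ F] {K : Set UnitAddCircle} {a : ℤ → E} {B : ℝ} (ha : ∀ n, ‖a n‖ ≤ B)
    (h : SpecIn K a) (ρ : E →L[ℂ] F) : SpecIn K (fun n => ρ (a n)) := by
  intro f hf hU
  have s : Summable fun n => f n • a n := by
    apply Summable.of_norm
    refine Summable.of_nonneg_of_le (fun n => norm_nonneg _) (fun n => ?_) (hf.mul_right B)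
    rw [norm_smul]
    exact mul_le_mul_of_nonneg_left (ha n) (norm_nonneg _)
  have h2 : ∀ n, f n • ρ (a n) = ρ (f n • a n) := fun n => (map_smul _ _ _).symm
  rw [tsum_congr h2, ← ρ.map_tsum s, h f hf hU, map_zero]

lemma cov_shift {K : Set UnitAddCircle} {C s : ℝ} (h : Cov K C s) (α : UnitAddCircle) :
    Cov {η | η - α ∈ K} C s := by
  classical
  intro n hn
  obtain ⟨F, hF, hc⟩ := h n hn
  refine ⟨F.image (fun s => s + α), ?_, ?_⟩
  · refine le_trans ?_ hF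
    exact_mod_cast Finset.card_image_le
  · intro ζ hζ
    obtain ⟨s, hs, hd⟩ := hc (ζ - α) hζ
    refine ⟨s + α, Finset.mem_image_of_mem _ hs, ?_⟩
    have e : ζ - (s + α) = (ζ - α) - s := by abel
    rw [e]
    exact hd

lemma cov_union {K₁ K₂ : Set UnitAddCircle} {C₁ C₂ s₁ s₂ : ℝ} (h₁ : Cov K₁ C₁ s₁) (h₂ : Cov K₂ C₂ s₂) :
    Cov (K₁ ∪ K₂) (max C₁ 0 + max C₂ 0) (max s₁ s₂) := by
  classical
  intro n hn
  obtain ⟨F₁, hF₁, hc₁⟩ := h₁ n hn
  obtain ⟨F₂, hF₂, hc₂⟩ := h₂ n hn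
  have hnr : (1 : ℝ) ≤ n := by exact_mod_cast hn
  refine ⟨F₁ ∪ F₂, ?_, ?_⟩
  · have h3 : ((F₁ ∪ F₂).card : ℝ) ≤ F₁.card + F₂.card := by exact_mod_cast Finset.card_union_le _ _
    have g1 : (F₁.card : ℝ) ≤ max C₁ 0 * (n : ℝ) ^ (max s₁ s₂) := by
      refine hF₁.trans ((mul_le_mul_of_nonneg_right (le_max_left C₁ 0) (by positivity)).trans ?_)
      exact mul_le_mul_of_nonneg_left (Real.rpow_le_rpow_of_exponent_le hnr (le_max_left _ _)) (le_max_right _ _)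
    have g2 : (F₂.card : ℝ) ≤ max C₂ 0 * (n : ℝ) ^ (max s₁ s₂) := by
      refine hF₂.trans ((mul_le_mul_of_nonneg_right (le_max_left C₂ 0) (by positivity)).trans ?_)
      exact mul_le_mul_of_nonneg_left (Real.rpow_le_rpow_of_exponent_le hnr (le_max_right _ _)) (le_max_right _ _)
    linarith
  · rintro x (hx | hx)
    · obtain ⟨y, hy, hd⟩ := hc₁ x hx
      exact ⟨y, Finset.mem_union_left _ hy, hd⟩
    · obtain ⟨y, hy, hd⟩ := hc₂ x hx
      exact ⟨y, Finset.mem_union_right _ hy, hd⟩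

lemma HalfDim.union {K₁ K₂ : Set UnitAddCircle} (h₁ : HalfDim K₁) (h₂ : HalfDim K₂) : HalfDim (K₁ ∪ K₂) := by
  obtain ⟨C₁, s₁, hs₁, h₁⟩ := h₁
  obtain ⟨C₂, s₂, hs₂, h₂⟩ := h₂
  exact ⟨_, _, max_lt hs₁ hs₂, cov_union h₁ h₂⟩

lemma ZeroDim.union {K₁ K₂ : Set UnitAddCircle} (h₁ : ZeroDim K₁) (h₂ : ZeroDim K₂) : ZeroDim (K₁ ∪ K₂) := by
  intro s hs
  obtain ⟨C₁, h₁⟩ := h₁ s hs
  obtain ⟨C₂, h₂⟩ := h₂ s hs
  have := cov_union h₁ h₂
  rw [max_self] at this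
  exact ⟨_, this⟩

lemma HalfDim.closure {K : Set UnitAddCircle} (h : HalfDim K) : HalfDim (closure K) := by
  obtain ⟨C, s, hs, h⟩ := h
  exact ⟨C, s, hs, Cov.closure h⟩

lemma HalfDim.neg {K : Set UnitAddCircle} (h : HalfDim K) : HalfDim {η | -η ∈ K} := by
  obtain ⟨C, s, hs, h⟩ := h
  exact ⟨C, s, hs, cov_neg h⟩

lemma HalfDim.add_zero {K₁ K₂ : Set UnitAddCircle} (h₁ : HalfDim K₁) (h₂ : ZeroDim K₂) : HalfDim (K₁ + K₂) := by
  obtain ⟨C₁, s₁, hs₁, h₁⟩ := h₁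
  obtain ⟨C₂, h₂⟩ := h₂ ((1 / 2 - s₁) / 2) (by linarith)
  exact ⟨_, _, by linarith, cov_add h₁ h₂⟩

section

variable {A Ω : Type*} [NormedAddCommGroup A] [NormedSpace ℂ A]

/-- the twisted evaluations -/
noncomputable def tw (ev : Ω → ℕ → A →ₗ[ℂ] ℂ) (ω : Ω × UnitAddCircle) (n : ℕ) : A →ₗ[ℂ] ℂ :=
  (fourier (n : ℤ) ω.2 : ℂ) • ev ω.1 n

/-- the points with a given twist -/
def slice (Ω : Type*) (α : UnitAddCircle) : Set (Ω × UnitAddCircle) := {ω | ω.2 = α}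

lemma tw_le {ev : Ω → ℕ → A →ₗ[ℂ] ℂ} (hev : ∀ ω n f, ‖ev ω n f‖ ≤ ‖f‖) (ω : Ω × UnitAddCircle) (n : ℕ) (f : A) :
    ‖tw ev ω n f‖ ≤ ‖f‖ := by
  unfold tw
  rw [LinearMap.smul_apply, norm_smul, norm_fourier_apply, one_mul]
  exact hev _ _ _

/-- the orbits of `f` have their spectrum in `K` -/
def SpecEl (ev : Ω → ℕ → A →ₗ[ℂ] ℂ) (K : Set UnitAddCircle) (f : A) : Prop :=
  ∃ B : ℝ, ∀ ω, ∃ a : ℤ → ℂ, (∀ n, ‖a n‖ ≤ B) ∧ (∀ n : ℕ, 1 ≤ n → a n = ev ω n f) ∧ SpecIn K a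

theorem PW_spec {F : Set (ℕ → ℂ)} (hF : ∀ h ∈ F, ∀ n, ‖h n‖ ≤ 1) {C s : ℝ} (hG : Good {K | Cov K C s} F)
    {ev : Ω → ℕ → A →ₗ[ℂ] ℂ} {K : Set UnitAddCircle} (hK : Cov K C s) {f : A} (hf : SpecEl ev K f) :
    PW F (slice Ω) (tw ev) f := by
  intro ε hε
  obtain ⟨B, hB⟩ := hf
  choose a ha1 ha2 ha3 using hB
  obtain ⟨B', hB', hBB⟩ : ∃ B' : ℝ, 0 < B' ∧ B ≤ B' := ⟨max B 0 + 1, by positivity, by
    have := le_max_left B 0; linarith⟩
  obtain ⟨H0, h0⟩ := win hF hG (ε / B') (by positivity)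
  refine ⟨H0, fun H hH X hX α h hh ω hω => ?_⟩
  have h1 := h0 H hH X hX {η | η - α ∈ K} (cov_shift hK α) h hh
    (fun x m => ((B'⁻¹ : ℝ) : ℂ) • ((fourier m α : ℂ) • a (ω x).1 m)) (fun x m => by
      rw [norm_smul, norm_smul, norm_fourier_apply, one_mul, Complex.norm_real, Real.norm_eq_abs,
        abs_of_pos (by positivity)]
      have := (ha1 (ω x).1 m).trans hBB
      rw [inv_mul_le_iff₀ hB', mul_one]
      exact this) (fun x => specIn_smul (specIn_twist (ha3 (ω x).1) α) _)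
  have e : ∀ x ∈ range X, ‖∑ n ∈ Ioc x (x + H), h n * tw ev (ω x) n f‖ =
      B' * ‖∑ n ∈ Ioc x (x + H), h n * (((B'⁻¹ : ℝ) : ℂ) • ((fourier (n : ℤ) α : ℂ) • a (ω x).1 n))‖ := by
    intro x _
    have e1 : ∑ n ∈ Ioc x (x + H), h n * tw ev (ω x) n f =
        (B' : ℂ) * ∑ n ∈ Ioc x (x + H), h n * (((B'⁻¹ : ℝ) : ℂ) • ((fourier (n : ℤ) α : ℂ) • a (ω x).1 n)) := by
      rw [mul_sum]
      refine sum_congr rfl fun n hn => ?_
      rw [mem_Ioc] at hn
      rw [ha2 (ω x).1 n (by omega)]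
      have h3 : (ω x).2 = α := hω x
      unfold tw
      rw [h3, LinearMap.smul_apply]
      simp only [smul_eq_mul]
      have : (B' : ℂ) ≠ 0 := by exact_mod_cast hB'.ne'
      push_cast
      field_simp
    rw [e1, norm_mul, Complex.norm_real, Real.norm_eq_abs, abs_of_pos hB']
  rw [sum_congr rfl e, ← mul_sum]
  calc B' * _ ≤ B' * (ε / B' * H * X) := mul_le_mul_of_nonneg_left h1 hB'.le
    _ = ε * H * X := by field_simp

/-- the class of functions: the Moebius function -/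
theorem PW_half {ev : Ω → ℕ → A →ₗ[ℂ] ℂ} {K : Set UnitAddCircle} (hK : HalfDim K) {f : A} (hf : SpecEl ev K f) :
    PW {muf} (slice Ω) (tw ev) f := by
  obtain ⟨C, s, hs, hc⟩ := hK
  exact PW_spec (by rintro h rfl; exact muf_le)
    (good_mob (le_max_right C 0) (le_max_right s 0) (max_lt hs (by norm_num))) hc.enlarge hf

theorem PW_half_lam {ev : Ω → ℕ → A →ₗ[ℂ] ℂ} {K : Set UnitAddCircle} (hK : HalfDim K) {f : A} (hf : SpecEl ev K f) :
    PW {laf} (slice Ω) (tw ev) f := by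
  obtain ⟨C, s, hs, hc⟩ := hK
  exact PW_spec (by rintro h rfl; exact laf_le)
    (good_lam (le_max_right C 0) (le_max_right s 0) (max_lt hs (by norm_num))) hc.enlarge hf

end

end Pool.Agent.TH327.Dim
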