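import Pool.Agent.TH327.Dim.Dual

/-! # Windows: local Fourier uniformity restricted to a small set of frequencies -/

set_option autoImplicit false

namespace Pool.Agent.TH327.Dim

open Finset MeasureTheory Filter Topology
open Pool.Agent.TH327.Thin (norm_fourier_apply W W_nonneg summable_W tsum_W SpecIn FT FT_zero specIn_shift)

/-- the mean square of the exponential sums is small near the sets `K`, uniformly in the classes -/
def Good (T : Set (Set UnitAddCircle)) (F : Set (ℕ → ℂ)) : Prop := ∀ ε : ℝ, 0 < ε → ∃ ρ : ℝ, 0 < ρ ∧ ∃ N0 : ℕ,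
  ∀ K ∈ T, ∀ h ∈ F, ∀ N : ℕ, N0 ≤ N → ∫ θ in (0 : ℝ)..1, (Nb K ρ).indicator (fun _ => (1 : ℝ)) θ * ‖SS h N θ‖ ^ 2 ≤ ε * N

/-- the smoothed window -/
noncomputable def ww (δ : ℝ) (H : ℕ) (n : ℤ) : ℝ := ∑ y ∈ Icc (1 : ℤ) H, δ * W δ (n - y)

lemma summable_W_sub (δ : ℝ) (h0 : 0 < δ) (y : ℤ) : Summable fun n : ℤ => W δ (n - y) :=
  (Equiv.subRight y).summable_iff.2 (summable_W δ h0)

lemma tsum_W_sub (δ : ℝ) (h0 : 0 < δ) (h1 : δ ≤ 1 / 2) (y : ℤ) : ∑' n : ℤ, W δ (n - y) = 1 / δ := by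
  rw [← tsum_W δ h0 h1]
  exact (Equiv.subRight y).tsum_eq (W δ)

lemma ww_nonneg (δ : ℝ) (h0 : 0 < δ) (H : ℕ) (n : ℤ) : 0 ≤ ww δ H n :=
  sum_nonneg fun y _ => mul_nonneg h0.le (W_nonneg δ h0 _)

lemma ww_summable (δ : ℝ) (h0 : 0 < δ) (H : ℕ) : Summable (ww δ H) := by
  unfold ww
  exact summable_sum fun y _ => (summable_W_sub δ h0 y).mul_left δ

lemma ww_tsum (δ : ℝ) (h0 : 0 < δ) (h1 : δ ≤ 1 / 2) (H : ℕ) : ∑' n, ww δ H n = H := by
  unfold ww
  rw [Summable.tsum_finsetSum fun y _ => (summable_W_sub δ h0 y).mul_left δ]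
  simp_rw [tsum_mul_left, tsum_W_sub δ h0 h1]
  rw [sum_const, Int.card_Icc, nsmul_eq_mul]
  have : ((H : ℤ) + 1 - 1).toNat = H := by omega
  rw [this]
  field_simp

/-- sums of `W` over injective images -/
lemma sum_W_le (δ : ℝ) (h0 : 0 < δ) (h1 : δ ≤ 1 / 2) {ι : Type*} (S : Finset ι) (g : ι → ℤ) (hg : Set.InjOn g S) :
    ∑ i ∈ S, δ * W δ (g i) ≤ 1 := by
  rw [← mul_sum]
  have h2 : ∑ i ∈ S, W δ (g i) = ∑ n ∈ S.image g, W δ n := by
    rw [sum_image hg]
  rw [h2]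
  have h3 := (summable_W δ h0).sum_le_tsum (S.image g) (fun n _ => W_nonneg δ h0 n)
  rw [tsum_W δ h0 h1] at h3
  calc δ * ∑ n ∈ S.image g, W δ n ≤ δ * (1 / δ) := mul_le_mul_of_nonneg_left h3 h0.le
    _ = 1 := by field_simp

lemma ww_le_one (δ : ℝ) (h0 : 0 < δ) (h1 : δ ≤ 1 / 2) (H : ℕ) (n : ℤ) : ww δ H n ≤ 1 :=
  sum_W_le δ h0 h1 _ (fun y => n - y) fun a _ b _ hab => by simp only at hab; omega

lemma ww_sum_shift (δ : ℝ) (h0 : 0 < δ) (h1 : δ ≤ 1 / 2) (H X : ℕ) (n : ℤ) :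
    ∑ x ∈ range X, ww δ H (n - x) ≤ H := by
  unfold ww
  rw [sum_comm]
  calc ∑ y ∈ Icc (1 : ℤ) H, ∑ x ∈ range X, δ * W δ (n - x - y) ≤ ∑ y ∈ Icc (1 : ℤ) H, (1 : ℝ) := by
        refine sum_le_sum fun y _ => ?_
        exact sum_W_le δ h0 h1 _ (fun x : ℕ => n - x - y) fun a _ b _ hab => by simp only at hab; omega
    _ = H := by
        rw [sum_const, Int.card_Icc, nsmul_eq_mul, mul_one]
        have : ((H : ℤ) + 1 - 1).toNat = H := by omega
        rw [this]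

/-- the smoothed window is close to the sharp one -/
lemma ww_close (δ : ℝ) (h0 : 0 < δ) (h1 : δ ≤ 1 / 2) (ε : ℝ) (hε : 0 < ε) (hε1 : ε ≤ 1) :
    ∃ H1 : ℕ, ∀ H : ℕ, H1 ≤ H → ∀ F : Finset ℤ,
      ∑ n ∈ F, |(if n ∈ Icc (1 : ℤ) H then (1 : ℝ) else 0) - ww δ H n| ≤ ε * H := by
  have hs : HasSum (fun n => δ * W δ n) 1 := by
    have h2 := (summable_W δ h0).hasSum
    rw [tsum_W δ h0 h1] at h2
    have h3 := h2.mul_left δ
    have : δ * (1 / δ) = 1 := by field_simp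
    rwa [this] at h3
  obtain ⟨S0, hS0⟩ : ∃ S0 : Finset ℤ, 1 - ε / 4 < ∑ k ∈ S0, δ * W δ k := by
    have h2 := hs.eventually (lt_mem_nhds (show (1 : ℝ) - ε / 4 < 1 by linarith))
    exact h2.exists
  obtain ⟨T, hT⟩ : ∃ T : ℕ, ∀ k ∈ S0, |k| ≤ T := by
    refine ⟨S0.sup (fun k => k.natAbs), fun k hk => ?_⟩
    have : k.natAbs ≤ S0.sup (fun k => k.natAbs) := le_sup (f := fun k : ℤ => k.natAbs) hk
    rw [Int.abs_eq_natAbs]
    exact_mod_cast this
  refine ⟨⌈8 * T / ε⌉₊ + 1, fun H hH F => ?_⟩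
  have hHr : 8 * T ≤ ε * H := by
    have : 8 * (T : ℝ) / ε ≤ H := (Nat.le_ceil _).trans (by exact_mod_cast (by omega : ⌈8 * (T : ℝ) / ε⌉₊ ≤ H))
    rw [div_le_iff₀ hε] at this
    linarith
  obtain ⟨I, hI⟩ : ∃ I : Finset ℤ, I = Icc (1 : ℤ) H := ⟨_, rfl⟩
  rw [← hI]
  have hcard : (I.card : ℝ) = H := by
    rw [hI, Int.card_Icc]
    have : ((H : ℤ) + 1 - 1).toNat = H := by omega
    rw [this]
  -- the mass inside
  have hin : (1 - ε / 4) * (H - 2 * T) ≤ ∑ n ∈ I, ww δ H n := by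
    have h2 : ∑ n ∈ I, ww δ H n = ∑ y ∈ I, ∑ n ∈ I, δ * W δ (n - y) := by
      rw [sum_comm]
      refine sum_congr rfl fun n _ => ?_
      unfold ww
      rw [← hI]
    rw [h2]
    obtain ⟨J, hJ⟩ : ∃ J : Finset ℤ, J = Icc ((T : ℤ) + 1) (H - T) := ⟨_, rfl⟩
    have hJI : J ⊆ I := by
      intro y hy
      rw [hJ, mem_Icc] at hy
      rw [hI, mem_Icc]
      omega
    calc (1 - ε / 4) * (H - 2 * T) ≤ ∑ y ∈ J, (1 - ε / 4) := by
            rw [sum_const, nsmul_eq_mul, mul_comm]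
            apply mul_le_mul_of_nonneg_right _ (by linarith)
            rw [hJ, Int.card_Icc]
            have h3 : (H : ℤ) - 2 * T ≤ (((H : ℤ) - T + 1 - (T + 1)).toNat : ℤ) := by omega
            have h4 : (((H : ℤ) - 2 * T : ℤ) : ℝ) ≤ ((((H : ℤ) - T + 1 - (T + 1)).toNat : ℤ) : ℝ) := by exact_mod_cast h3
            push_cast at h4
            exact_mod_cast h4
        _ ≤ ∑ y ∈ J, ∑ n ∈ I, δ * W δ (n - y) := by
            refine sum_le_sum fun y hy => ?_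
            refine hS0.le.trans ?_
            rw [hJ, mem_Icc] at hy
            calc ∑ k ∈ S0, δ * W δ k = ∑ n ∈ S0.image (fun k => k + y), δ * W δ (n - y) := by
                  rw [sum_image (fun a _ b _ hab => by omega)]
                  refine sum_congr rfl fun k _ => ?_
                  rw [add_sub_cancel_right]
              _ ≤ ∑ n ∈ I, δ * W δ (n - y) := by
                  apply sum_le_sum_of_subset_of_nonneg
                  · intro n hn
                    rw [mem_image] at hn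
                    obtain ⟨k, hk, rfl⟩ := hn
                    have := hT k hk
                    rw [abs_le] at this
                    rw [hI, mem_Icc]
                    omega
                  · intro n _ _
                    exact mul_nonneg h0.le (W_nonneg δ h0 _)
        _ ≤ ∑ y ∈ I, ∑ n ∈ I, δ * W δ (n - y) :=
            sum_le_sum_of_subset_of_nonneg hJI fun y _ _ => sum_nonneg fun n _ => mul_nonneg h0.le (W_nonneg δ h0 _)
  have htot : ∑ n ∈ F \ I, ww δ H n ≤ H - ∑ n ∈ I, ww δ H n := by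
    have h2 := (ww_summable δ h0 H).sum_le_tsum ((F \ I) ∪ I) (fun n _ => ww_nonneg δ h0 H n)
    rw [ww_tsum δ h0 h1, sum_union sdiff_disjoint] at h2
    linarith
  calc ∑ n ∈ F, |(if n ∈ I then (1 : ℝ) else 0) - ww δ H n| ≤
      ∑ n ∈ (F \ I) ∪ I, |(if n ∈ I then (1 : ℝ) else 0) - ww δ H n| := by
        apply sum_le_sum_of_subset_of_nonneg
        · intro n hn
          by_cases hnI : n ∈ I
          · exact mem_union_right _ hnI
          · exact mem_union_left _ (mem_sdiff.2 ⟨hn, hnI⟩)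
        · intro n _ _; exact abs_nonneg _
    _ = ∑ n ∈ F \ I, |(if n ∈ I then (1 : ℝ) else 0) - ww δ H n| + ∑ n ∈ I, |(if n ∈ I then (1 : ℝ) else 0) - ww δ H n| :=
        sum_union sdiff_disjoint
    _ = ∑ n ∈ F \ I, ww δ H n + ∑ n ∈ I, (1 - ww δ H n) := by
        congr 1
        · refine sum_congr rfl fun n hn => ?_
          rw [if_neg (mem_sdiff.1 hn).2, zero_sub, abs_neg, abs_of_nonneg (ww_nonneg δ h0 H n)]
        · refine sum_congr rfl fun n hn => ?_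
          rw [if_pos hn, abs_of_nonneg (by linarith [ww_le_one δ h0 h1 H n])]
    _ ≤ ε * H := by
        rw [sum_sub_distrib, sum_const, nsmul_eq_mul, mul_one, hcard]
        have h7 : (1 - ε / 4) * ((H : ℝ) - 2 * T) = H - 2 * T - ε / 4 * H + ε / 2 * T := by ring
        have h8 : 0 ≤ ε / 2 * (T : ℝ) := by positivity
        linarith

end Pool.Agent.TH327.Dim
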